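import Mathlib

/-! Palindromic length and prefix palindromic length functions. -/

namespace Pool.Agent.Lib.MP_9cc368_co

/-- A palindrome: a nonempty word equal to its reversal. -/
def IsPal {α : Type} (w : List α) : Prop := w ≠ [] ∧ w.reverse = w

/-- The least number of palindromes whose concatenation is `w`. -/
noncomputable def PL {α : Type} (w : List α) : ℕ :=
  sInf {k | ∃ ps : List (List α), ps.length = k ∧ (∀ p ∈ ps, IsPal p) ∧ ps.flatten = w}

/-- The palindromic length of the prefix of length `n` of the infinite word `u 0, u 1, ...`. -/
noncomputable def PPL {α : Type} (u : ℕ → α) (n : ℕ) : ℕ := PL (List.ofFn fun i : Fin n => u i)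

/-- The prefix palindromic length functions of infinite words over finite alphabets. -/
def Realisable : Set (ℕ → ℕ) := {f | ∃ (k : ℕ) (u : ℕ → Fin k), f = PPL u}

end Pool.Agent.Lib.MP_9cc368_co
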