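import Pool.Agent.Lib.MP_9cc368_co.Defs

namespace Pool.Agent.Lib.MP_9cc368_co

open Set Filter Topology

variable {α β : Type}

theorem PL_spec (w : List α) :
    ∃ ps : List (List α), ps.length = PL w ∧ (∀ p ∈ ps, IsPal p) ∧ ps.flatten = w := by
  refine Nat.sInf_mem (s := {k | ∃ ps : List (List α), ps.length = k ∧ (∀ p ∈ ps, IsPal p) ∧
    ps.flatten = w}) ⟨_, w.map fun a => [a], rfl, ?_, ?_⟩
  · intro p hp
    obtain ⟨a, -, rfl⟩ := List.mem_map.1 hp
    exact ⟨by simp, by simp⟩
  · induction w with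
    | nil => rfl
    | cons a w ih => simp [ih]

theorem PL_le {w : List α} {ps : List (List α)} (h : ∀ p ∈ ps, IsPal p) (e : ps.flatten = w) :
    PL w ≤ ps.length := Nat.sInf_le ⟨ps, rfl, h, e⟩

theorem PL_map_le (g : α → β) (w : List α) : PL (w.map g) ≤ PL w := by
  obtain ⟨ps, h1, h2, h3⟩ := PL_spec w
  refine (PL_le (ps := ps.map (List.map g)) (fun p hp => ?_) (by rw [← h3, List.map_flatten])).trans
    (by simp [h1])
  obtain ⟨q, hq, rfl⟩ := List.mem_map.1 hp
  exact ⟨by simpa using (h2 q hq).1, by rw [← List.map_reverse, (h2 q hq).2]⟩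

theorem PL_le_one {w : List α} : PL w ≤ 1 ↔ w.reverse = w := by
  constructor
  · intro h
    obtain ⟨ps, h1, h2, rfl⟩ := PL_spec w
    match ps, h1, h2, h with
    | [], _, _, _ => rfl
    | [p], _, h2, _ => simpa using (h2 p (by simp)).2
    | _ :: _ :: _, h1, _, h => rw [← h1] at h; simp at h
  · intro h
    by_cases h0 : w = []
    · exact (PL_le (ps := []) (by simp) (by simp [h0])).trans (by simp)
    · exact PL_le (ps := [w]) (by simpa using ⟨h0, h⟩) (by simp)

theorem PL_le_two {w : List α} :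
    PL w ≤ 2 ↔ ∃ p q : List α, p.reverse = p ∧ q.reverse = q ∧ p ++ q = w := by
  constructor
  · intro h
    obtain ⟨ps, h1, h2, rfl⟩ := PL_spec w
    match ps, h1, h2, h with
    | [], _, _, _ => exact ⟨[], [], rfl, rfl, rfl⟩
    | [p], _, h2, _ => exact ⟨p, [], (h2 p (by simp)).2, rfl, by simp⟩
    | [p, q], _, h2, _ => exact ⟨p, q, (h2 p (by simp)).2, (h2 q (by simp)).2, by simp⟩
    | _ :: _ :: _ :: _, h1, _, h => rw [← h1] at h; simp at h
  · rintro ⟨p, q, hp, hq, rfl⟩
    by_cases h0 : p = []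
    · exact (PL_le_one.2 (by simpa [h0] using hq)).trans one_le_two
    by_cases h1 : q = []
    · exact (PL_le_one.2 (by simpa [h1] using hp)).trans one_le_two
    exact PL_le (ps := [p, q]) (by simpa using ⟨⟨h0, hp⟩, h1, hq⟩) (by simp)

/-- The factor of `u` on positions `a ≤ t < a + n` is symmetric. -/
def Sym (u : ℕ → α) (a n : ℕ) : Prop := ∀ s t, s + t + 1 = n → u (a + s) = u (a + t)

theorem rev_iff (u : ℕ → α) (a n : ℕ) :
    (List.ofFn fun i : Fin n => u (a + i)).reverse = (List.ofFn fun i : Fin n => u (a + i)) ↔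
      Sym u a n := by
  rw [List.ext_getElem_iff]
  simp only [List.length_reverse, List.length_ofFn, true_and, List.getElem_reverse,
    List.getElem_ofFn]
  constructor
  · intro h s t e
    have := h t (by omega) (by omega)
    rwa [show n - 1 - t = s by omega] at this
  · exact fun h i h1 _ => h _ _ (by omega)

theorem PPL_le_one (u : ℕ → α) (n : ℕ) : PPL u n ≤ 1 ↔ Sym u 0 n := by
  rw [PPL, PL_le_one, ← rev_iff]; simp

theorem PPL_le_two (u : ℕ → α) (n : ℕ) :
    PPL u n ≤ 2 ↔ ∃ a b, a + b = n ∧ Sym u 0 a ∧ Sym u a b := by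
  rw [PPL, PL_le_two]
  have key : ∀ a b, (List.ofFn fun i : Fin (a + b) => u i) =
      (List.ofFn fun i : Fin a => u (0 + i)) ++ List.ofFn fun i : Fin b => u (a + i) :=
    fun a b => by rw [List.ofFn_add]; simp
  constructor
  · rintro ⟨p, q, hp, hq, e⟩
    have hn : p.length + q.length = n := by simpa using congrArg List.length e
    subst hn
    rw [key] at e
    obtain ⟨e1, e2⟩ := List.append_inj e (by simp)
    exact ⟨_, _, rfl, (rev_iff _ _ _).1 (e1 ▸ hp), (rev_iff _ _ _).1 (e2 ▸ hq)⟩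
  · rintro ⟨a, b, rfl, h1, h2⟩
    exact ⟨_, _, (rev_iff _ _ _).2 h1, (rev_iff _ _ _).2 h2, (key a b).symm⟩

theorem continuous_PPL [TopologicalSpace α] [DiscreteTopology α] :
    Continuous (PPL : (ℕ → α) → ℕ → ℕ) :=
  continuous_pi fun n => (continuous_of_discreteTopology
    (f := fun v : Fin n → α => PL (List.ofFn v))).comp
    (continuous_pi fun i : Fin n => continuous_apply (i : ℕ))

/-- A word with palindromic prefixes of all lengths `2 ^ k - 1`. -/
theorem zimin {u : ℕ → α} (h : ∀ k, Sym u 0 (2 ^ k - 1)) {i j : ℕ} (hij : i < j)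
    (e : u (2 ^ i - 1) = u (2 ^ j - 1)) : PPL u (2 ^ j + 2 ^ i) ≤ 2 := by
  have p : ∀ k : ℕ, 0 < 2 ^ k := fun k => by positivity
  have lt : 2 ^ i < 2 ^ j := Nat.pow_lt_pow_right one_lt_two hij
  have sh : ∀ s, s + 1 < 2 ^ j → u (2 ^ j + s) = u s := fun s hs => by
    have a := h (j + 1) (2 ^ j + s) (2 ^ j - 2 - s) (by rw [pow_succ]; omega)
    have b := h j (2 ^ j - 2 - s) s (by omega)
    simpa using a.trans b
  have pi := p i
  have pj := p j
  refine (PPL_le_two _ _).2 ⟨2 ^ j - 1, 2 ^ i + 1, by omega, h j, fun s t hst => ?_⟩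
  have top : u (2 ^ j - 1 + 2 ^ i) = u (2 ^ j - 1) := by
    rw [show 2 ^ j - 1 + 2 ^ i = 2 ^ j + (2 ^ i - 1) by omega, sh _ (by omega), e]
  rcases Nat.eq_zero_or_pos s with rfl | s0
  · rw [show t = 2 ^ i by omega, top, add_zero]
  rcases Nat.eq_zero_or_pos t with rfl | t0
  · rw [show s = 2 ^ i by omega, top, add_zero]
  rw [show 2 ^ j - 1 + s = 2 ^ j + (s - 1) by omega, show 2 ^ j - 1 + t = 2 ^ j + (t - 1) by omega,
    sh _ (by omega), sh _ (by omega)]
  simpa using h i (s - 1) (t - 1) (by omega)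

theorem val_refl {k p q : ℕ} (hp : 0 < p) (hq : 0 < q) (e : p + q = 2 ^ k) :
    padicValNat 2 p = padicValNat 2 q := by
  have key : ∀ {p q : ℕ}, 0 < p → 0 < q → p + q = 2 ^ k → padicValNat 2 p ≤ padicValNat 2 q := by
    intro p q hp hq e
    have d : 2 ^ padicValNat 2 p ∣ p := pow_padicValNat_dvd
    have l : padicValNat 2 p ≤ k := (Nat.pow_le_pow_iff_right one_lt_two).1
      ((Nat.le_of_dvd hp d).trans (by omega))
    exact (padicValNat_dvd_iff_le hq.ne').1 ((Nat.dvd_add_right d).1 (e ▸ pow_dvd_pow 2 l))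
  exact le_antisymm (key hp hq e) (key hq hp (by omega))

/-- The ruler word in which only the levels selected by `x` get their own letter. -/
noncomputable def rul (x : ℕ → Bool) (t : ℕ) : ℕ :=
  if x (padicValNat 2 (t + 1)) then padicValNat 2 (t + 1) + 1 else 0

theorem rul_sym (x : ℕ → Bool) (k : ℕ) : Sym (rul x) 0 (2 ^ k - 1) := fun s t e => by
  unfold rul
  rw [val_refl (k := k) (p := 0 + s + 1) (q := 0 + t + 1) (by omega) (by omega) (by omega)]

theorem rul_val {x : ℕ → Bool} {i s : ℕ} (hi : x i = true) (e : rul x s = rul x (2 ^ i - 1)) :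
    padicValNat 2 (s + 1) = i := by
  have : 2 ^ i - 1 + 1 = 2 ^ i := Nat.sub_add_cancel Nat.one_le_two_pow
  unfold rul at e
  rw [this, padicValNat.prime_pow, if_pos hi] at e
  split_ifs at e
  omega

theorem rul_three {x : ℕ → Bool} {i j : ℕ} (hi : x i = true) (hj : x j = true) (hij : i + 2 ≤ j) :
    ¬ PPL (rul x) (2 ^ j + 2 ^ i) ≤ 2 := by
  obtain ⟨d, rfl⟩ := Nat.exists_eq_add_of_le hij
  have pi : 0 < 2 ^ i := by positivity
  have pd : 0 < 2 ^ d := by positivity
  have ej : 2 ^ (i + 2 + d) = 2 ^ (i + 1) * (2 * 2 ^ d) := by ring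
  have ei : 2 ^ (i + 1) = 2 * 2 ^ i := by ring
  have big : 4 * 2 ^ i ≤ 2 ^ (i + 2 + d) := by rw [ej, ei]; nlinarith
  have uniq : ∀ s, s < 2 ^ (i + 2 + d) + 2 ^ i → rul x s = rul x (2 ^ (i + 2 + d) - 1) →
      s + 1 = 2 ^ (i + 2 + d) := fun s hs e => by
    obtain ⟨c, hc⟩ : 2 ^ (i + 2 + d) ∣ s + 1 := rul_val hj e ▸ pow_padicValNat_dvd
    have : c = 1 := by
      rcases c with _ | _ | c
      · omega
      · rfl
      · nlinarith [Nat.zero_le (2 ^ (i + 2 + d) * c)]
    rw [hc, this, mul_one]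
  rw [PPL_le_two]
  rintro ⟨a, b, e, h1, h2⟩
  rcases le_or_gt (2 ^ (i + 2 + d)) a with l | l
  · have := uniq (a - 2 ^ (i + 2 + d)) (by omega) (by
      simpa using h1 (a - 2 ^ (i + 2 + d)) (2 ^ (i + 2 + d) - 1) (by omega))
    omega
  · have := uniq (a + 2 ^ i) (by omega) (by
      rw [h2 (2 ^ i) (2 ^ (i + 2 + d) - 1 - a) (by omega)]; congr 1; omega)
    have h3 := rul_val hi (s := a - 2 ^ i) (by
      simpa using h1 (a - 2 ^ i) (2 ^ i - 1) (by omega))
    have h4 : 2 ^ (i + 1) ∣ a - 2 ^ i + 1 :=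
      ⟨2 * 2 ^ d - 1, by rw [Nat.mul_sub_one, ← ej]; omega⟩
    have := (padicValNat_dvd_iff_le (by omega)).1 h4
    omega

theorem rul_mem_iff (x : ℕ → Bool) :
    PPL (rul x) ∈ Realisable ↔ ∃ N, ∀ n, N ≤ n → x n = false := by
  constructor
  · rintro ⟨k, u, e⟩
    by_contra h
    push Not at h
    have inf : {n | x n = true}.Infinite := infinite_of_forall_exists_gt fun N => by
      obtain ⟨n, h1, h2⟩ := h (N + 1)
      exact ⟨n, by simpa using h2, h1⟩
    obtain ⟨i, hi, j, hj, hij, e2⟩ := inf.exists_lt_map_eq_of_mapsTo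
      (f := fun n : ℕ => (u (2 ^ n - 1), (n : ZMod 2))) (mapsTo_univ _ _) finite_univ
    rw [Prod.mk.injEq, ZMod.natCast_eq_natCast_iff'] at e2
    refine rul_three hi hj (by omega) (e ▸ zimin (fun k => ?_) hij e2.1)
    rw [← PPL_le_one, ← e, PPL_le_one]
    exact rul_sym x k
  · rintro ⟨N, h⟩
    have b : ∀ t, rul x t < N + 1 := fun t => by
      unfold rul
      split_ifs with h1
      · by_contra h2
        rw [h _ (by omega)] at h1
        exact Bool.false_ne_true h1
      · omega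
    refine ⟨N + 1, fun t => ⟨rul x t, b t⟩, funext fun n => le_antisymm ?_ ?_⟩
    · simpa [PPL, List.map_ofFn, Function.comp_def] using
        PL_map_le Fin.val (List.ofFn fun i : Fin n => (⟨rul x i, b i⟩ : Fin (N + 1)))
    · have := PL_map_le (Fin.ofNat (N + 1)) (List.ofFn fun i : Fin n => rul x i)
      rw [List.map_ofFn] at this
      refine le_trans (le_of_eq ?_) this
      unfold PPL
      congr 2
      funext i
      exact Fin.ext (Nat.mod_eq_of_lt (b i)).symm

theorem continuous_rul : Continuous rul :=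
  continuous_pi fun t => (continuous_of_discreteTopology
    (f := fun c : Bool => if c then padicValNat 2 (t + 1) + 1 else 0)).comp (continuous_apply _)

theorem dense_of_update {s : Set (ℕ → Bool)}
    (h : ∀ (x : ℕ → Bool) (N : ℕ), ∃ y ∈ s, ∀ n < N, y n = x n) : Dense s := fun x => by
  choose y h1 h2 using h x
  refine mem_closure_of_tendsto (f := y) (b := atTop) (tendsto_pi_nhds.2 fun n => ?_)
    (Eventually.of_forall h1)
  refine tendsto_const_nhds.congr' ?_
  filter_upwards [eventually_gt_atTop n] with N hN using (h2 N n hN).symm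

theorem not_isGδ : ¬ IsGδ Realisable := fun h => by
  have h1 := h.preimage (continuous_PPL.comp continuous_rul)
  have o : ∀ N, IsOpen {x : ℕ → Bool | ∃ n, N ≤ n ∧ x n = true} := fun N => by
    rw [ofPred_exists]
    exact isOpen_iUnion fun n => isOpen_const.inter
      (show IsOpen ((fun x : ℕ → Bool => x n) ⁻¹' {true}) from
        (isOpen_discrete _).preimage (continuous_apply n))
  obtain ⟨x, a, b⟩ := (Dense.inter_of_Gδ h1 (IsGδ.iInter_of_isOpen o)
    (dense_of_update fun x N => ⟨fun n => if n < N then x n else false,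
      (rul_mem_iff _).2 ⟨N, fun n hn => if_neg (by omega)⟩, fun n hn => if_pos hn⟩)
    (dense_of_update fun x N => ⟨fun n => if n < N then x n else true,
      mem_iInter.2 fun M => ⟨M + N, by omega, if_neg (by omega)⟩, fun n hn => if_pos hn⟩)).nonempty
  obtain ⟨N, hN⟩ := (rul_mem_iff x).1 a
  obtain ⟨n, h2, h3⟩ := mem_iInter.1 b N
  rw [hN n h2] at h3
  exact Bool.false_ne_true h3

theorem isSigmaCompact : IsSigmaCompact Realisable := by
  have : Realisable = ⋃ k, range (PPL : (ℕ → Fin k) → ℕ → ℕ) := by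
    ext f; simp [Realisable, eq_comm]
  rw [this]
  exact isSigmaCompact_iUnion_of_isCompact _ fun k => isCompact_range continuous_PPL

end Pool.Agent.Lib.MP_9cc368_co
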