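import Pool.Agent.Lib.MP_9cc368_co.Defs

/-! Mirror functions. -/

namespace Pool.Agent.Lib.MP_9cc368_co

/-- `g` starts at `0`, moves by at most one at each step, and is symmetric on each excursion: on
each segment from `s` to `t` with equal values at the ends and larger values in between. -/
def Mirror (g : ℕ → ℕ) : Prop :=
  g 0 = 0 ∧ (∀ n, g (n + 1) ≤ g n + 1 ∧ g n ≤ g (n + 1) + 1) ∧
    ∀ s t, s ≤ t → g s = g t → (∀ x, s < x → x < t → g s < g x) →
      ∀ y ≤ t - s, g (s + y) = g (t - y)

end Pool.Agent.Lib.MP_9cc368_co
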