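import Pool.Agent.Lib.MP_9cc368_co.MirStep

/-! Functions that are symmetric up to one are close to mirror functions and to ternary words. -/

namespace Pool.Agent.Lib.MP_9cc368_co

open Filter

variable {f G : ℕ → ℕ}

theorem Near.drop (h : Near f) (x k : ℕ) : f x ≤ f (x + k) + k := by
  induction k with
  | zero => simp
  | succ k ih => have := (h.2.1 (x + k)).2; rw [← Nat.add_assoc x k 1]; omega

/-- the first minimum after `x` ends a segment that starts before `x` -/
theorem Near.first (h : Near f) {x e : ℕ} (hx : x ≤ e) :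
    ∃ z, x ≤ z ∧ z ≤ e ∧ (∀ t, x ≤ t → t ≤ e → f z ≤ f t) ∧ (z = x ∨ ∃ r < x, f r ≤ f z ∧
      ∀ a b, r ≤ a → r ≤ b → a + b = r + z → f a ≤ f b + 1) := by
  classical
  obtain ⟨m, hm, hm2⟩ := (Finset.Icc x e).exists_min_image f ⟨x, by simp [hx]⟩
  have ex : ∃ z, x ≤ z ∧ f z ≤ f m := ⟨m, (Finset.mem_Icc.1 hm).1, le_rfl⟩
  obtain ⟨z1, z2⟩ := Nat.find_spec ex
  have z3 : Nat.find ex ≤ m := Nat.find_min' ex ⟨(Finset.mem_Icc.1 hm).1, le_rfl⟩
  have z4 : ∀ t, x ≤ t → t < Nat.find ex → f m < f t := fun t t1 t2 =>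
    not_le.1 fun c => Nat.find_min ex t2 ⟨t1, c⟩
  have me := (Finset.mem_Icc.1 hm).2
  generalize Nat.find ex = z at *
  refine ⟨z, z1, by omega, fun t t1 t2 => z2.trans (hm2 t (Finset.mem_Icc.2 ⟨t1, t2⟩)), ?_⟩
  rcases Nat.eq_or_lt_of_le z1 with c | c
  · exact .inl c.symm
  · obtain ⟨n, rfl⟩ : ∃ n, z = n + 1 := ⟨z - 1, by omega⟩
    obtain ⟨r, r1, r2, r3⟩ := h.2.2 n (by have := z4 n (by omega) (by omega); omega)
    refine .inr ⟨r, not_le.1 fun k => ?_, r2, r3⟩
    have := z4 r k (by omega)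
    omega

theorem sqrt_near {w x : ℕ} (h : w ≤ x + 4 * w.sqrt + 1) : w.sqrt ≤ x.sqrt + 4 := by
  by_contra c
  have a := Nat.sqrt_le w
  have b := Nat.lt_succ_sqrt x
  obtain ⟨k, hk⟩ := Nat.exists_eq_add_of_le (show x.sqrt + 5 ≤ w.sqrt by omega)
  rw [hk] at a h
  simp only [Nat.succ_eq_add_one] at b
  nlinarith [Nat.zero_le (x.sqrt * k), Nat.zero_le (k * k)]

theorem sqrt_drop {c y : ℕ} (h : c + 2 * y.sqrt + 1 ≤ y) : c.sqrt + 1 ≤ y.sqrt := by
  by_contra k
  have a := Nat.sqrt_le c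
  have b := Nat.lt_succ_sqrt y
  simp only [Nat.succ_eq_add_one] at b
  nlinarith [Nat.mul_self_le_mul_self (show y.sqrt ≤ c.sqrt by omega)]

theorem Near.good (h : Near f) (e : ℕ) :
    ∃ G, Good f e G fun n => min (4 * n.sqrt + 17) (4 * e.sqrt + 2) := by
  classical
  induction e using Nat.strong_induction_on with
  | _ e ih =>
  let P : ℕ → Prop := fun y => ∃ r, r + 4 * y.sqrt + 2 ≤ y ∧
    ∀ a b, r ≤ a → r ≤ b → a + b = r + y → f a ≤ f b + 1
  obtain ⟨y, hy⟩ : ∃ y, y = Nat.findGreatest P e := ⟨_, rfl⟩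
  have y1 : y ≤ e := hy ▸ Nat.findGreatest_le e
  have y2 : ∀ z, y < z → z ≤ e → ¬ P z := fun z z1 z2 => Nat.findGreatest_is_greatest (hy ▸ z1) z2
  have y3 : y = 0 ∨ P y := by
    by_cases c : y = 0
    · exact .inl c
    · exact .inr (Nat.findGreatest_of_ne_zero hy.symm c)
  obtain ⟨w, w1, w2, w3, w4⟩ := h.first y1
  obtain ⟨a, ha⟩ : ∃ a, a = Nat.findGreatest (fun a => f a ≤ f w) y := ⟨_, rfl⟩
  have a1 : a ≤ y := ha ▸ Nat.findGreatest_le y
  have a2 : ∀ z, a < z → z ≤ y → ¬ f z ≤ f w := fun z z1 z2 =>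
    Nat.findGreatest_is_greatest (P := fun a => f a ≤ f w) (ha ▸ z1) z2
  have a3 : f a ≤ f w := ha ▸ Nat.findGreatest_spec (P := fun a => f a ≤ f w) (Nat.zero_le y)
    (by simp [h.1])
  have a4 : a = y ∨ w ≤ a + 4 * w.sqrt + 1 := by
    rcases Nat.eq_or_lt_of_le w1 with c | c
    · exact .inl (by
        by_contra k
        exact a2 y (by omega) le_rfl (by rw [c]))
    · obtain ⟨r, r1, r2, r3⟩ := w4.resolve_left (by omega)
      have : r ≤ a := by
        by_contra k
        exact a2 r (by omega) (by omega) r2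
      refine .inr (not_lt.1 fun k => y2 w c w2 ⟨r, ?_, r3⟩)
      omega
  have am : ∀ x, a ≤ x → x ≤ e → f a ≤ f x := fun x x1 x2 => by
    by_cases c : y ≤ x
    · exact a3.trans (w3 x c x2)
    · rcases Nat.eq_or_lt_of_le x1 with rfl | k
      · exact le_rfl
      · have := a2 x k (by omega); omega
  have dip : ∀ x z, a ≤ x → x ≤ z → z ≤ e →
      f x ≤ f z + min (4 * x.sqrt + 17) (4 * e.sqrt + 1) := fun x z x1 x2 x3 => by
    obtain ⟨v, v1, v2, v3, v4⟩ := h.first (x2.trans x3)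
    have b1 := v3 z x2 x3
    have b2 := h.drop x (v - x)
    rw [show x + (v - x) = v by omega] at b2
    have key : ∃ t, t ≤ e ∧ v ≤ x + 4 * t.sqrt + 1 ∧ t ≤ x + 4 * t.sqrt + 1 := by
      rcases v4 with c | ⟨r, r1, -, r3⟩
      · exact ⟨x, by omega, by omega, by omega⟩
      by_cases c : y < v
      · have : ¬ r + 4 * v.sqrt + 2 ≤ v := fun k => y2 v c v2 ⟨r, k, r3⟩
        exact ⟨v, v2, by omega, by omega⟩
      · rcases a4 with k | k
        · exact ⟨x, by omega, by omega, by omega⟩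
        · exact ⟨w, w2, by omega, by omega⟩
    obtain ⟨t, t1, t2, t3⟩ := key
    have := sqrt_near t3
    have := Nat.sqrt_le_sqrt t1
    omega
  have mid : ∃ G, Good f a G fun n =>
      min (4 * n.sqrt + 17) (min (4 * a.sqrt + 4) (4 * e.sqrt)) := by
    rcases y3 with c | ⟨r, r1, r2⟩
    · obtain rfl : a = 0 := by omega
      exact ⟨_, (good_zero h.1).mono le_rfl fun n _ => Nat.zero_le _⟩
    have c1 := sqrt_drop (show (r + y) / 2 + 2 * y.sqrt + 1 ≤ y by omega)
    have c2 := Nat.sqrt_le_sqrt y1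
    by_cases c : a ≤ (r + y) / 2
    · obtain ⟨G, hG⟩ := ih a (by omega)
      have := Nat.sqrt_le_sqrt c
      exact ⟨G, hG.mono le_rfl fun n _ => by omega⟩
    · obtain ⟨G, hG⟩ := ih ((r + y) / 2) (by omega)
      obtain ⟨H, hH⟩ := hG.mirror r2 (b := 4 * ((r + y) / 2).sqrt + 2) fun n _ => min_le_right _ _
      have := Nat.sqrt_le_sqrt (not_le.1 c).le
      refine ⟨H, hH.mono a1 fun n _ => ?_⟩
      split_ifs with k
      · omega
      · have := Nat.sqrt_le_sqrt (not_le.1 k).le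
        omega
  obtain ⟨G, hG⟩ := mid
  obtain ⟨H, hH⟩ := hG.fresh (min_le_right _ _) (fun n => (h.2.1 n).1) am dip
  refine ⟨H, hH.mono le_rfl fun n _ => ?_⟩
  split_ifs with k
  · omega
  · have := Nat.sqrt_le_sqrt (not_le.1 k).le
    omega

theorem Near.limit (h : Near f) : ∃ G, ∀ e, Good f e G fun n => 4 * n.sqrt + 17 := by
  choose g hg using h.good
  have lim : ∀ n, ∃ v, ∀ᶠ e in hyperfilter ℕ, g e n = v := fun n => by
    have : ∀ᶠ e in hyperfilter ℕ, ∃ v ∈ Set.Iic (f n + (4 * n.sqrt + 17)), g e n = v := by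
      filter_upwards [Nat.hyperfilter_le_atTop (eventually_ge_atTop n)] with e he
      exact ⟨_, ((hg e).up n he).trans (by omega), rfl⟩
    obtain ⟨v, -, hv⟩ := (Ultrafilter.eventually_exists_mem_iff (Set.finite_Iic _)).1 this
    exact ⟨v, hv⟩
  choose G hG using lim
  refine ⟨G, fun N => ?_⟩
  obtain ⟨e, e1, e2⟩ := (((eventually_all_finite (Set.finite_Iic N)).2 fun n _ => hG n).and
    (Nat.hyperfilter_le_atTop (eventually_ge_atTop N))).exists
  exact ((hg e).mono e2 fun n _ => min_le_left _ _).congr fun n hn => (e1 n hn).symm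

theorem pal_w3 (hl : ∀ n, G (n + 1) ≤ G n + 1 ∧ G n ≤ G (n + 1) + 1) :
    ∀ k i, Pal (w3 G) i (i + k + 1) → G i = G (i + k) := by
  intro k
  induction k using Nat.strong_induction_on with
  | _ k ih =>
    intro i hP
    have e : G i % 3 = G (i + k) % 3 := congrArg Fin.val (hP i (i + k) le_rfl (by omega) (by omega))
    rcases k with _ | _ | k
    · rfl
    · have := hl i
      simp only [Nat.zero_add] at e ⊢
      omega
    · have a := ih k (by omega) (i + 1) (hP.shrink (by omega) (by omega))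
      have b := hl i
      have c := hl (i + 1 + k)
      rw [show i + (k + 1 + 1) = i + 1 + k + 1 by omega] at e ⊢
      omega

theorem le_ppl (h0 : G 0 = 0) (hl : ∀ n, G (n + 1) ≤ G n + 1 ∧ G n ≤ G (n + 1) + 1) (n : ℕ) :
    G n ≤ PPL (w3 G) n := by
  have key : ∀ n, G n + 1 ≤ PPL (w3 G) (n + 1) := fun n => by
    induction n using Nat.strong_induction_on with
    | _ n ih =>
      obtain ⟨i, i1, i2, i3⟩ := ppl_ex (w3 G) (Nat.succ_pos n)
      obtain ⟨k, rfl⟩ := Nat.exists_eq_add_of_le (Nat.lt_succ_iff.1 i1)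
      rw [← pal_w3 hl k i i2, i3]
      rcases i with _ | i
      · omega
      · have := ih i (by omega)
        have := hl i
        omega
  rcases n with _ | n
  · omega
  · have := key n
    have := hl n
    omega

theorem mirror_of (h0 : G 0 = 0) (hl : ∀ n, G (n + 1) ≤ G n + 1 ∧ G n ≤ G (n + 1) + 1)
    (hs : ∀ n, G (n + 1) < G n →
      ∃ r ≤ n, ∀ a b, r ≤ a → r ≤ b → a + b = r + (n + 1) → G a = G b) : Mirror G := by
  refine ⟨h0, hl, fun s t => ?_⟩
  induction t using Nat.strong_induction_on generalizing s with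
  | _ t ih =>
    intro st e hx y hy
    by_cases c : t ≤ s + 1
    · rcases (by omega : y = 0 ∨ (s + y = t ∧ t - y = s)) with rfl | ⟨c1, c2⟩
      · exact e
      · rw [c1, c2, e]
    obtain ⟨n, rfl⟩ : ∃ n, t = n + 1 := ⟨t - 1, by omega⟩
    obtain ⟨r, r1, r2⟩ := hs n (e ▸ hx n (by omega) (by omega))
    have r3 := r2 r (n + 1) le_rfl (by omega) rfl
    have r4 : r ≤ s := not_lt.1 fun k => by have := hx r k (by omega); omega
    rcases Nat.eq_or_lt_of_le r4 with rfl | r5
    · exact r2 _ _ (by omega) (by omega) (by omega)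
    have := ih (r + (n + 1) - s) (by omega) r (by omega)
      (by rw [r3, ← e]; exact r2 _ _ (by omega) (by omega) (by omega))
      (fun x x1 x2 => by
        rw [r3, ← e, r2 x (r + (n + 1) - x) (by omega) (by omega) (by omega)]
        exact hx _ (by omega) (by omega)) y (by omega)
    rw [r2 (s + y) (r + (n + 1) - s - y) (by omega) (by omega) (by omega), ← this]
    exact r2 _ _ (by omega) (by omega) (by omega)

/-- a function that is symmetric up to one is close to a mirror function and to its word -/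
theorem Near.approx (h : Near f) : ∃ G, Mirror G ∧ ∀ n, G n ≤ f n + (4 * n.sqrt + 17) ∧
    f n ≤ G n + (4 * n.sqrt + 17) ∧ G n ≤ PPL (w3 G) n ∧
    PPL (w3 G) n ≤ G n + (4 * n.sqrt + 19) := by
  obtain ⟨G, hG⟩ := h.limit
  have hl := fun n => (hG (n + 1)).lip n (by omega)
  refine ⟨G, mirror_of (hG 0).zero hl fun n => (hG (n + 1)).sym n (by omega), fun n =>
    ⟨(hG n).up n le_rfl, (hG n).lo n le_rfl, le_ppl (hG 0).zero hl n, ?_⟩⟩
  have a := (hG n).pl n le_rfl
  have b := ppl_back (n + 1) (by omega) (pal_one (w3 G) n)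
  omega

theorem Mirror.near (h : Mirror f) : Near f := by
  classical
  refine ⟨h.1, h.2.1, fun n hn => ?_⟩
  obtain ⟨r, hr⟩ : ∃ r, r = Nat.findGreatest (fun r => f r ≤ f (n + 1)) n := ⟨_, rfl⟩
  have r1 : r ≤ n := hr ▸ Nat.findGreatest_le n
  have r2 : ∀ z, r < z → z ≤ n → ¬ f z ≤ f (n + 1) := fun z z1 z2 =>
    Nat.findGreatest_is_greatest (P := fun r => f r ≤ f (n + 1)) (hr ▸ z1) z2
  have r3 : f r ≤ f (n + 1) := hr ▸ Nat.findGreatest_spec (P := fun r => f r ≤ f (n + 1))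
    (Nat.zero_le n) (by simp [h.1])
  have r4 : r < n := lt_of_le_of_ne r1 fun k => by rw [k] at r3; omega
  have r5 := r2 (r + 1) (by omega) r4
  have r6 := (h.2.1 r).1
  refine ⟨r, r1, r3, fun a b ha hb e => ?_⟩
  have := h.2.2 r (n + 1) (by omega) (by omega)
    (fun x x1 x2 => by have := r2 x x1 (by omega); omega) (a - r) (by omega)
  rw [show r + (a - r) = a by omega, show n + 1 - (a - r) = b by omega] at this
  omega

theorem ppl_near {α : Type} (u : ℕ → α) : Near (PPL u) := by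
  refine ⟨ppl_zero u, fun n => ⟨ppl_step (by omega) (pal_one u n),
    ppl_back _ (by omega) (pal_one u n)⟩, fun n _ => ?_⟩
  obtain ⟨i, i1, i2, i3⟩ := ppl_ex u (Nat.succ_pos n)
  refine ⟨i, by omega, by rw [← Nat.succ_eq_add_one, i3]; omega, fun a b ha hb e => ?_⟩
  rcases le_total a b with c | c
  · exact ppl_back b c (i2.shrink ha e)
  · exact ppl_step c (i2.shrink hb (by omega))

end Pool.Agent.Lib.MP_9cc368_co
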