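import Pool.Agent.Lib.MP_9cc368_co.MirMain

/-! A mirror function far from all prefix palindromic length functions. -/

namespace Pool.Agent.Lib.MP_9cc368_co

/-- half the width of tent number `j` -/
def th (j : ℕ) : ℕ := (j % 3 + 1) * (j + 1)

/-- the left end of tent number `j` -/
def tp : ℕ → ℕ
  | 0 => 0
  | j + 1 => tp j + 2 * th j

theorem th_bd (j : ℕ) : j + 1 ≤ th j ∧ th j ≤ 3 * (j + 1) := by
  unfold th
  rcases (by omega : j % 3 = 0 ∨ j % 3 = 1 ∨ j % 3 = 2) with h | h | h <;> rw [h] <;> omega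

theorem tp_mono : StrictMono tp := strictMono_nat_of_lt_succ fun j => by
  have := th_bd j
  rw [tp]; omega

theorem tp_le (j : ℕ) : tp j ≤ 6 * j ^ 2 := by
  induction j with
  | zero => simp [tp]
  | succ j ih => have := th_bd j; rw [tp]; nlinarith

theorem tp_ex (n : ℕ) : ∃ j, n < tp (j + 1) := ⟨n, tp_mono.le_apply (x := n + 1)⟩

/-- tents side by side -/
def tent (n : ℕ) : ℕ :=
  min (n - tp (Nat.find (tp_ex n))) (tp (Nat.find (tp_ex n) + 1) - n)

theorem tent_at (n : ℕ) : ∃ j, tp j ≤ n ∧ n < tp (j + 1) := by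
  refine ⟨_, ?_, Nat.find_spec (tp_ex n)⟩
  rcases h : Nat.find (tp_ex n) with _ | k
  · exact Nat.zero_le _
  · exact not_lt.1 (Nat.find_min (tp_ex n) (by omega : k < _))

theorem tent_eq {j n : ℕ} (h1 : tp j ≤ n) (h2 : n ≤ tp (j + 1)) :
    tent n = min (n - tp j) (tp (j + 1) - n) := by
  have key : ∀ j n, tp j ≤ n → n < tp (j + 1) → tent n = min (n - tp j) (tp (j + 1) - n) := by
    intro j n h1 h2
    have : Nat.find (tp_ex n) = j := (Nat.find_eq_iff _).2 ⟨h2, fun k hk =>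
      not_lt.2 ((tp_mono.monotone hk).trans h1)⟩
    rw [tent, this]
  rcases Nat.eq_or_lt_of_le h2 with rfl | h
  · rw [key (j + 1) _ le_rfl (tp_mono (by omega))]
    omega
  · exact key j n h1 h

theorem tent_mirror : Mirror tent := by
  refine mirror_of ?_ (fun n => ?_) fun n hn => ?_
  · rw [tent_eq (j := 0) (n := 0) le_rfl (Nat.zero_le _)]
    simp
  · obtain ⟨j, j1, j2⟩ := tent_at n
    rw [tent_eq j1 j2.le, tent_eq (n := n + 1) (by omega) j2]
    omega
  · obtain ⟨j, j1, j2⟩ := tent_at n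
    rw [tent_eq j1 j2.le, tent_eq (n := n + 1) (by omega) j2] at hn
    refine ⟨tp j + tp (j + 1) - (n + 1), by omega, fun a b ha hb e => ?_⟩
    rw [tent_eq (j := j) (n := a) (by omega) (by omega),
      tent_eq (j := j) (n := b) (by omega) (by omega)]
    omega

theorem tent_tp (j : ℕ) : tent (tp j) = 0 := by
  rw [tent_eq le_rfl (tp_mono (by omega : j < j + 1)).le]
  omega

section far

variable {α : Type} {u : ℕ → α} {E N : ℕ}

/-- two low points at the two sides of a palindrome start tents of similar widths -/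
theorem same (hE : ∀ n ≤ N, PPL u n ≤ tent n + E ∧ tent n ≤ PPL u n + E) {r x i j D : ℕ}
    (hP : Pal u r x) (hx : x ≤ N) (r1 : r ≤ tp (i + 1)) (r2 : r ≤ tp j) (x1 : tp (i + 1) ≤ x)
    (x2 : tp j ≤ x) (s1 : tp i + tp (j + 1) ≤ r + x + D) (s2 : r + x ≤ tp i + tp (j + 1) + D)
    (hi : D + 2 * E + 1 < 2 * th i) (hj : D + 2 * E + 1 < 2 * th j) :
    2 * th i ≤ 2 * th j + D + 2 * E + 1 ∧ 2 * th j ≤ 2 * th i + D + 2 * E + 1 := by
  have near : ∀ k, r ≤ tp k → tp k ≤ x → tent (r + x - tp k) ≤ 2 * E + 1 := fun k k1 k2 => by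
    have a := (hE (tp k) (by omega)).1
    have b := (hE (r + x - tp k) (by omega)).2
    rw [tent_tp] at a
    rcases le_total (tp k) (r + x - tp k) with c | c
    · have := ppl_step c (hP.shrink k1 (by omega)); omega
    · have := ppl_back _ c (hP.shrink (by omega) (by omega)); omega
  have e1 : tp (i + 1) = tp i + 2 * th i := rfl
  have e2 : tp (j + 1) = tp j + 2 * th j := rfl
  constructor
  · by_contra c
    have := near j r2 x2
    rw [tent_eq (j := i) (by omega) (by omega)] at this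
    omega
  · by_contra c
    have := near (i + 1) r1 x1
    rw [tent_eq (j := j) (by omega) (by omega)] at this
    omega

theorem low {n E : ℕ} (h : tent n ≤ E) : ∃ i, tp i ≤ n + E ∧ n ≤ tp i + E := by
  obtain ⟨j, j1, j2⟩ := tent_at n
  rw [tent_eq j1 j2.le] at h
  rcases le_total (n - tp j) (tp (j + 1) - n) with c | c
  · exact ⟨j, by omega, by omega⟩
  · exact ⟨j + 1, by omega, by omega⟩

theorem widths {i j E : ℕ} (hj : 100 * (E + 1) ≤ j + 1)
    (a1 : 2 * th i ≤ 2 * th (j + 1) + (10 * E + 3)) (a2 : 2 * th (j + 1) ≤ 2 * th i + (10 * E + 3))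
    (b : i = j ∨ (2 * th (i + 1) ≤ 2 * th j + (20 * E + 6) ∧
      2 * th j ≤ 2 * th (i + 1) + (20 * E + 6))) : False := by
  unfold th at *
  rcases (by omega : i % 3 = 0 ∧ (i + 1) % 3 = 1 ∨ i % 3 = 1 ∧ (i + 1) % 3 = 2 ∨
    i % 3 = 2 ∧ (i + 1) % 3 = 0) with ⟨h1, h2⟩ | ⟨h1, h2⟩ | ⟨h1, h2⟩ <;>
  rcases (by omega : j % 3 = 0 ∧ (j + 1) % 3 = 1 ∨ j % 3 = 1 ∧ (j + 1) % 3 = 2 ∨
    j % 3 = 2 ∧ (j + 1) % 3 = 0) with ⟨h3, h4⟩ | ⟨h3, h4⟩ | ⟨h3, h4⟩ <;>
  rw [h1, h4] at a1 a2 <;> rw [h2, h3] at b <;> omega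

theorem adjacent (hE : ∀ n ≤ N, PPL u n ≤ tent n + E ∧ tent n ≤ PPL u n + E) {r x i j : ℕ}
    (hP : Pal u r x) (hx : x ≤ N) (hj : 100 * (E + 1) ≤ j + 1) (i1 : tp i ≤ r + 2 * E)
    (i2 : r ≤ tp i + 2 * E) (x1 : tp (j + 1 + 1) ≤ x + 2 * E) (x2 : x ≤ tp (j + 1 + 1) + 2 * E)
    (hi : i ≤ j) : False := by
  have ex : ∃ m, r + 6 * E + 2 ≤ tp (m + 1) :=
    ⟨r + 6 * E + 2, (Nat.le_succ _).trans tp_mono.le_apply⟩
  obtain ⟨m, m1, m2⟩ : ∃ m, r + 6 * E + 2 ≤ tp (m + 1) ∧ tp m < r + 6 * E + 2 := by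
    refine ⟨_, Nat.find_spec ex, ?_⟩
    rcases h : Nat.find ex with _ | k
    · exact Nat.succ_pos _
    · exact not_le.1 (Nat.find_min ex (by omega : k < _))
  have m3 : tp i ≤ tp m := tp_mono.monotone (Nat.lt_succ_iff.1 (tp_mono.lt_iff_lt.1
    (show tp i < tp (m + 1) by omega)))
  have e0 : tp (m + 1) = tp m + 2 * th m := rfl
  have e1 : tp (j + 1) = tp j + 2 * th j := rfl
  have e2 : tp (j + 1 + 1) = tp (j + 1) + 2 * th (j + 1) := rfl
  have t0 := th_bd m
  have t1 := th_bd j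
  have t2 := th_bd (j + 1)
  have t3 := th_bd (m + 1)
  have ij : tp i ≤ tp j := tp_mono.monotone hi
  have m4 : m ≤ j := Nat.lt_succ_iff.1 (tp_mono.lt_iff_lt.1 (show tp m < tp (j + 1) by omega))
  have m5 : tp (m + 1) ≤ tp (j + 1) := tp_mono.monotone (by omega)
  have m6 : r + 2 * th (j + 1) ≤ tp (m + 1) + 6 * E + 2 := by
    by_contra c
    have a := (hE (tp (m + 1)) (by omega)).1
    have b := (hE (r + x - tp (m + 1)) (by omega)).2
    rw [tent_tp] at a
    rw [tent_eq (j := j + 1) (by omega) (by omega)] at b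
    have := ppl_step (by omega) (hP.shrink (a := tp (m + 1)) (b := r + x - tp (m + 1)) (by omega)
      (by omega))
    omega
  obtain ⟨a1, a2⟩ := same hE (i := m) (j := j + 1) (D := 8 * E + 2) hP hx (by omega) (by omega)
    (by omega) (by omega) (by omega) (by omega) (by omega) (by omega)
  refine widths (i := m) hj (by omega) (by omega) ?_
  rcases Nat.eq_or_lt_of_le m4 with c | c
  · exact .inl c
  have m7 : tp (m + 1) ≤ tp j := tp_mono.monotone c
  have m8 : tp (m + 1 + 1) ≤ tp (j + 1) := tp_mono.monotone (by omega)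
  have m9 : tp (m + 1) ≤ tp (m + 1 + 1) := tp_mono.monotone (by omega)
  obtain ⟨b1, b2⟩ := same hE (i := m + 1) (j := j) (D := 18 * E + 5) hP hx (by omega) (by omega)
    (by omega) (by omega) (by omega) (by omega) (by omega) (by omega)
  exact .inr ⟨by omega, by omega⟩

theorem rise (hE : ∀ n ≤ N, PPL u n ≤ tent n + E ∧ tent n ≤ PPL u n + E) {J : ℕ}
    (hJ : 100 * (E + 1) ≤ J) : ∀ k ≤ E + 1, tp (J + k + 1) ≤ N → ∀ x, tp (J + k) ≤ x + 2 * E →
      x ≤ tp (J + k) + 2 * E → k ≤ PPL u x := by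
  intro k
  induction k with
  | zero => exact fun _ _ _ _ _ => Nat.zero_le _
  | succ k ih =>
    intro hk hN x
    obtain ⟨j, hj⟩ : ∃ j, J + k = j + 1 := ⟨J + k - 1, by omega⟩
    rw [← Nat.add_assoc, hj] at hN ⊢
    rw [hj] at ih
    have e2 : tp (j + 1 + 1) = tp (j + 1) + 2 * th (j + 1) := rfl
    have e3 : tp (j + 1 + 1 + 1) = tp (j + 1 + 1) + 2 * th (j + 1 + 1) := rfl
    have t2 := th_bd (j + 1)
    have t3 := th_bd (j + 1 + 1)
    induction x using Nat.strong_induction_on with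
    | _ x ihx =>
    intro x1 x2
    by_contra c
    obtain ⟨r, r1, hP, r2⟩ := ppl_ex u (show 0 < x by omega)
    obtain ⟨i, i1, i2⟩ := low (n := r) (E := 2 * E) (by have := (hE r (by omega)).2; omega)
    have i3 : i ≤ j + 1 + 1 := Nat.lt_succ_iff.1 (tp_mono.lt_iff_lt.1
      (show tp i < tp (j + 1 + 1 + 1) by omega))
    rcases (by omega : i = j + 1 + 1 ∨ i = j + 1 ∨ i ≤ j) with rfl | rfl | h
    · have := ihx r r1 i1 i2; omega
    · have := ih (by omega) (by omega) r i1 i2; omega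
    · exact adjacent hE hP (by omega) (by omega) i1 i2 x1 x2 h

theorem far (u : ℕ → α) (E : ℕ) :
    ∃ n ≤ 6 * (102 * (E + 1)) ^ 2, tent n + E < PPL u n ∨ PPL u n + E < tent n := by
  by_contra c
  push Not at c
  have h1 := tp_le (100 * (E + 1) + (E + 1) + 1)
  have h2 : (100 * (E + 1) + (E + 1) + 1) ^ 2 ≤ (102 * (E + 1)) ^ 2 :=
    Nat.pow_le_pow_left (by omega) 2
  have h3 : tp (100 * (E + 1) + (E + 1)) ≤ tp (100 * (E + 1) + (E + 1) + 1) :=
    tp_mono.monotone (by omega)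
  have a := rise c le_rfl (E + 1) le_rfl (by omega) _ (Nat.le_add_right _ _) (Nat.le_add_right _ _)
  have b := (c (tp (100 * (E + 1) + (E + 1))) (by omega)).1
  rw [tent_tp] at b
  omega

end far

end Pool.Agent.Lib.MP_9cc368_co
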