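import Pool.Agent.Lib.MP_9cc368_co.NpBase
import Pool.Agent.Lib.MP_9cc368_co.MirDefs

/-! Building a mirror function by mirrored and fresh segments. -/

namespace Pool.Agent.Lib.MP_9cc368_co

/-- the ternary word of a function -/
def w3 (G : ℕ → ℕ) (n : ℕ) : Fin 3 := ⟨G n % 3, Nat.mod_lt _ (by omega)⟩

theorem ppl_congr {α : Type} {u v : ℕ → α} {n : ℕ} (h : ∀ i < n, u i = v i) :
    PPL u n = PPL v n := by
  unfold PPL
  congr 2
  exact funext fun i => h i i.2

theorem w3_congr {G H : ℕ → ℕ} {n : ℕ} (h : ∀ i < n, G i = H i) :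
    PPL (w3 G) n = PPL (w3 H) n :=
  ppl_congr fun i hi => by simp only [w3, h i hi]

/-- symmetric up to one -/
def Near (f : ℕ → ℕ) : Prop :=
  f 0 = 0 ∧ (∀ n, f (n + 1) ≤ f n + 1 ∧ f n ≤ f (n + 1) + 1) ∧
    ∀ n, f (n + 1) < f n → ∃ r ≤ n, f r ≤ f (n + 1) ∧
      ∀ a b, r ≤ a → r ≤ b → a + b = r + (n + 1) → f a ≤ f b + 1

structure Good (f : ℕ → ℕ) (e : ℕ) (G β : ℕ → ℕ) : Prop where
  zero : G 0 = 0
  lip : ∀ n < e, G (n + 1) ≤ G n + 1 ∧ G n ≤ G (n + 1) + 1
  sym : ∀ n < e, G (n + 1) < G n →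
    ∃ r ≤ n, ∀ a b, r ≤ a → r ≤ b → a + b = r + (n + 1) → G a = G b
  up : ∀ n ≤ e, G n ≤ f n + β n
  lo : ∀ n ≤ e, f n ≤ G n + β n
  pl : ∀ n ≤ e, PPL (w3 G) (n + 1) ≤ G n + 1 + β n

variable {f G β : ℕ → ℕ} {e : ℕ}

theorem Good.mono (h : Good f e G β) {e' : ℕ} {β' : ℕ → ℕ} (he : e' ≤ e)
    (hb : ∀ n ≤ e', β n ≤ β' n) : Good f e' G β' :=
  ⟨h.zero, fun n hn => h.lip n (by omega), fun n hn => h.sym n (by omega),
    fun n hn => (h.up n (by omega)).trans (by have := hb n hn; omega),
    fun n hn => (h.lo n (by omega)).trans (by have := hb n hn; omega),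
    fun n hn => (h.pl n (by omega)).trans (by have := hb n hn; omega)⟩

theorem Good.congr (h : Good f e G β) {H : ℕ → ℕ} (hG : ∀ n ≤ e, H n = G n) : Good f e H β := by
  refine ⟨by rw [hG 0 (by omega), h.zero], fun n hn => ?_, fun n hn hd => ?_, fun n hn => ?_,
    fun n hn => ?_, fun n hn => ?_⟩
  · rw [hG n (by omega), hG (n + 1) (by omega)]
    exact h.lip n hn
  · rw [hG n (by omega), hG (n + 1) (by omega)] at hd
    obtain ⟨r, hr, hs⟩ := h.sym n hn hd
    exact ⟨r, hr, fun a b ha hb e => by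
      rw [hG a (by omega), hG b (by omega)]
      exact hs a b ha hb e⟩
  · rw [hG n hn]
    exact h.up n hn
  · rw [hG n hn]
    exact h.lo n hn
  · rw [hG n hn, w3_congr (H := G) fun i hi => hG i (by omega)]
    exact h.pl n hn

theorem good_zero (h0 : f 0 = 0) : Good f 0 (fun _ => 0) (fun _ => 0) := by
  refine ⟨rfl, fun n hn => by omega, fun n hn => by omega, fun n hn => by omega, fun n hn => ?_,
    fun n hn => ?_⟩
  · rw [show n = 0 by omega, h0]
  · obtain rfl : n = 0 := by omega
    have := ppl_step (by omega : 0 ≤ 0 + 1) (pal_one (w3 fun _ => 0) 0)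
    rwa [ppl_zero] at this

theorem Good.mirror {r y b : ℕ} (h : Good f ((r + y) / 2) G β)
    (hf : ∀ s t, r ≤ s → r ≤ t → s + t = r + y → f s ≤ f t + 1)
    (hb : ∀ n ≤ (r + y) / 2, β n ≤ b) :
    ∃ H, Good f y H fun n => if n ≤ (r + y) / 2 then β n else b + 2 := by
  obtain ⟨c, hc⟩ : ∃ c, c = (r + y) / 2 := ⟨_, rfl⟩
  rw [← hc] at h hb ⊢
  let H : ℕ → ℕ := fun n => if n ≤ c then G n else G (r + y - n)
  have h1 : ∀ n ≤ c, H n = G n := fun n hn => if_pos hn
  have h2 : ∀ n, c < n → H n = G (r + y - n) := fun n hn => if_neg (by omega)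
  have hS : ∀ s t, s + t = r + y → H s = H t := fun s t e => by
    by_cases hs : s ≤ c <;> by_cases ht : t ≤ c
    · rw [show s = t by omega]
    · rw [h1 s hs, h2 t (by omega), show r + y - t = s by omega]
    · rw [h1 t ht, h2 s (by omega), show r + y - s = t by omega]
    · omega
  have g := h.congr h1
  have lip : ∀ n < y, H (n + 1) ≤ H n + 1 ∧ H n ≤ H (n + 1) + 1 := fun n hn => by
    by_cases k : n < c
    · exact g.lip n k
    by_cases k2 : r + y - (n + 1) < c
    · rw [hS (n + 1) (r + y - (n + 1)) (by omega), hS n (r + y - (n + 1) + 1) (by omega)]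
      exact (g.lip _ k2).symm
    · rw [hS (n + 1) n (by omega)]
      omega
  refine ⟨H, g.zero, lip, fun n hn hd => ?_, fun n hn => ?_, fun n hn => ?_, fun n hn => ?_⟩
  · by_cases k : n < c
    · exact g.sym n k hd
    · exact ⟨r + y - (n + 1), by omega, fun s t _ _ e => hS s t (by omega)⟩
  · split_ifs with k
    · exact g.up n k
    · have a1 := g.up (r + y - n) (by omega)
      have a2 := hb (r + y - n) (by omega)
      have a3 := hf (r + y - n) n (by omega) (by omega) (by omega)
      rw [hS n (r + y - n) (by omega)]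
      omega
  · split_ifs with k
    · exact g.lo n k
    · have a1 := g.lo (r + y - n) (by omega)
      have a2 := hb (r + y - n) (by omega)
      have a3 := hf n (r + y - n) (by omega) (by omega) (by omega)
      rw [hS n (r + y - n) (by omega)]
      omega
  · split_ifs with k
    · exact g.pl n k
    · have a1 := g.pl (r + y - n) (by omega)
      have a2 := hb (r + y - n) (by omega)
      have a3 : PPL (w3 H) (n + 1) ≤ PPL (w3 H) (r + y - n) + 1 :=
        ppl_step (by omega) fun s t _ _ e => by simp only [w3, hS s t (by omega)]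
      have a4 := ppl_back (r + y - n + 1) (by omega) (pal_one (w3 H) (r + y - n))
      rw [hS n (r + y - n) (by omega)]
      omega

open Classical in
/-- climb whenever all later values of `f` are larger -/
noncomputable def climb (f : ℕ → ℕ) (a e v : ℕ) : ℕ → ℕ
  | 0 => v
  | k + 1 => if ∀ z, a + k + 1 ≤ z → z ≤ e → climb f a e v k < f z then climb f a e v k + 1
      else climb f a e v k

theorem Good.fresh {a b : ℕ} {δ : ℕ → ℕ} (h : Good f a G β) (hb : β a ≤ b)
    (hl : ∀ n, f (n + 1) ≤ f n + 1) (hm : ∀ x, a ≤ x → x ≤ e → f a ≤ f x)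
    (hd : ∀ x z, a ≤ x → x ≤ z → z ≤ e → f x ≤ f z + δ x) :
    ∃ H, Good f e H fun n => if n ≤ a then β n else max (b + 2) (δ n) := by
  let H : ℕ → ℕ := fun n => if n ≤ a then G n else climb f a e (G a) (n - a)
  have h1 : ∀ n ≤ a, H n = G n := fun n hn => if_pos hn
  have h2 : ∀ k, H (a + k) = climb f a e (G a) k := fun k => by
    rcases Nat.eq_zero_or_pos k with rfl | hk
    · exact h1 a le_rfl
    · exact (if_neg (by omega)).trans (by rw [Nat.add_sub_cancel_left])
  have st : ∀ k, (H (a + k + 1) = H (a + k) + 1 ∧ ∀ z, a + k + 1 ≤ z → z ≤ e → H (a + k) < f z) ∨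
      (H (a + k + 1) = H (a + k) ∧ ∃ z, a + k + 1 ≤ z ∧ z ≤ e ∧ f z ≤ H (a + k)) := fun k => by
    rw [Nat.add_assoc a k 1, h2, h2, climb]
    split_ifs with c
    · exact .inl ⟨rfl, fun z hz => c z (by omega)⟩
    · push Not at c
      obtain ⟨z, z1, z2, z3⟩ := c
      exact .inr ⟨rfl, z, by omega, z2, z3⟩
  have g := h.congr h1
  have fl : ∀ k, f (a + k) ≤ f a + k := fun k => by
    induction k with
    | zero => simp
    | succ k ih => have := hl (a + k); rw [← Nat.add_assoc]; omega
  have U : ∀ k, H (a + k) = H a ∨ ∀ z, a + k ≤ z → z ≤ e → H (a + k) ≤ f z := fun k => by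
    induction k with
    | zero => exact .inl rfl
    | succ k ih =>
      rw [← Nat.add_assoc]
      rcases st k with ⟨c1, c2⟩ | ⟨c1, -⟩
      · exact .inr fun z z1 z2 => by have := c2 z z1 z2; omega
      · rw [c1]
        exact ih.imp_right fun i z z1 z2 => i z (by omega) z2
  have W : ∀ k, a + k ≤ e → H (a + k) = H a + k ∨
      ∃ z, a + k ≤ z ∧ z ≤ e ∧ f z ≤ H (a + k) := fun k => by
    induction k with
    | zero => exact fun _ => .inl rfl
    | succ k ih =>
      rw [← Nat.add_assoc]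
      intro hk
      rcases st k with ⟨c1, c2⟩ | ⟨c1, c2⟩
      · rcases ih (by omega) with i | ⟨z, z1, z2, z3⟩
        · exact .inl (by omega)
        · refine .inr ⟨a + k + 1, le_rfl, hk, ?_⟩
          rcases Nat.eq_or_lt_of_le z1 with rfl | z4
          · have := hl (a + k); omega
          · have := c2 z z4 z2; omega
      · rw [c1]
        exact .inr c2
  have S : ∀ k, ∃ j, j ≤ a + k ∧ (∀ s, j ≤ s → s ≤ a + k → H s = H (a + k)) ∧
      PPL (w3 H) j + H a ≤ PPL (w3 H) (a + 1) + 1 + H (a + k) := fun k => by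
    induction k with
    | zero =>
      refine ⟨a, le_rfl, fun s s1 s2 => by rw [show s = a + 0 by omega], ?_⟩
      have := ppl_back (a + 1) (by omega) (pal_one (w3 H) a)
      simp only [Nat.add_zero]
      omega
    | succ k ih =>
      rw [← Nat.add_assoc]
      obtain ⟨j, j1, j2, j3⟩ := ih
      rcases st k with ⟨c1, -⟩ | ⟨c1, -⟩
      · refine ⟨a + k + 1, le_rfl, fun s s1 s2 => by rw [show s = a + k + 1 by omega], ?_⟩
        have : PPL (w3 H) (a + k + 1) ≤ PPL (w3 H) j + 1 :=
          ppl_step (by omega) fun s t s1 t1 e => by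
            simp only [w3, j2 s s1 (by omega), j2 t t1 (by omega)]
        omega
      · refine ⟨j, by omega, fun s s1 s2 => ?_, by omega⟩
        rcases Nat.eq_or_lt_of_le s2 with rfl | s3
        · rfl
        · rw [c1, j2 s s1 (by omega)]
  refine ⟨H, g.zero, fun n hn => ?_, fun n hn hd => ?_, fun n hn => ?_, fun n hn => ?_,
    fun n hn => ?_⟩
  · by_cases c : n < a
    · exact g.lip n c
    · obtain ⟨k, rfl⟩ := Nat.exists_eq_add_of_le (not_lt.1 c)
      rcases st k with ⟨c1, -⟩ | ⟨c1, -⟩ <;> omega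
  · by_cases c : n < a
    · exact g.sym n c hd
    · obtain ⟨k, rfl⟩ := Nat.exists_eq_add_of_le (not_lt.1 c)
      rcases st k with ⟨c1, -⟩ | ⟨c1, -⟩ <;> omega
  · split_ifs with c
    · exact g.up n c
    · obtain ⟨k, rfl⟩ := Nat.exists_eq_add_of_le (not_le.1 c).le
      have a1 := g.up a le_rfl
      have a2 := hm (a + k) (by omega) hn
      rcases U k with i | i
      · omega
      · have := i (a + k) le_rfl hn; omega
  · split_ifs with c
    · exact g.lo n c
    · obtain ⟨k, rfl⟩ := Nat.exists_eq_add_of_le (not_le.1 c).le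
      have a1 := g.lo a le_rfl
      have a2 := fl k
      rcases W k hn with i | ⟨z, z1, z2, z3⟩
      · omega
      · have := hd (a + k) z (by omega) z1 z2; omega
  · split_ifs with c
    · exact g.pl n c
    · obtain ⟨k, rfl⟩ := Nat.exists_eq_add_of_le (not_le.1 c).le
      have a1 := g.pl a le_rfl
      obtain ⟨j, j1, j2, j3⟩ := S k
      have : PPL (w3 H) (a + k + 1) ≤ PPL (w3 H) j + 1 :=
        ppl_step (by omega) fun s t s1 t1 e => by
          simp only [w3, j2 s s1 (by omega), j2 t t1 (by omega)]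
      omega

end Pool.Agent.Lib.MP_9cc368_co
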