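import Pool.Agent.Lib.MP_9cc368_co.NpGeo

/-! A long palindrome that ends on a falling leg starts on a rising leg at the same depth. -/

namespace Pool.Agent.Lib.MP_9cc368_co

variable {α : Type} {u : ℕ → α} {m M : ℕ} {col : ℕ → ℕ → ℕ}

structure Ctx (m : ℕ) (col : ℕ → ℕ → ℕ) (M : ℕ) (u : ℕ → α) : Prop where
  hm : 2 ≤ m
  eq : ∀ n, n ≤ TT m col M → PPL u n = GG m col M n

theorem Ctx.mir (C : Ctx m col M u) {i n : ℕ} (h : Pal u i n) (hn : n ≤ TT m col M) (a b : ℕ)
    (ha : i ≤ a) (hb : i ≤ b) (e : a + b = i + n) : GG m col M a ≤ GG m col M b + 1 := by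
  rw [← C.eq a (by omega), ← C.eq b (by omega)]
  rcases le_total a b with l | l
  · exact ppl_back b l (h.shrink ha e)
  · exact ppl_step l (h.shrink hb (by omega))

theorem Ctx.ex (C : Ctx m col M u) {n : ℕ} (h0 : 0 < n) (hn : n ≤ TT m col M) :
    ∃ i < n, Pal u i n ∧ GG m col M n = GG m col M i + 1 := by
  obtain ⟨i, hi, hp, e⟩ := ppl_ex u h0
  exact ⟨i, hi, hp, by rw [← C.eq n hn, ← C.eq i (by omega), e]⟩

theorem Ctx.align (C : Ctx m col M u) {h x n i : ℕ} (hh : h < M) (h1 : al m col h ≤ x)
    (h2 : x ≤ 20 * m) (hn : n + x = TT m col h + 1 + 20 * (m + 2))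
    (hr : ∀ y, x ≤ y → dd m x ≤ dd m y) (hP : Pal u i n) (hi : i < n)
    (hG : GG m col M n = GG m col M i + 1) :
    ∃ g, g ≤ h ∧ i ≤ TT m col g ∧ (g = 0 ∨ ∃ k, g = k + 1 ∧ TT m col k < i) ∧
      ((i + 20 * (m + 2) = TT m col g + x ∧ pp m g ≤ qq m h + 1 ∧ qq m h ≤ pp m g + 1) ∨
      (i + 20 * (m + 2) + 1 = TT m col g + x ∧ pp m g = qq m h) ∨
      (i + 20 * (m + 2) = TT m col g + x + 1 ∧ pp m g = qq m h)) := by
  have hm := C.hm
  have hN : n ≤ TT m col M := by
    have := TT_succ hm col h
    have := TT_mono hm col (Nat.succ_le_of_lt hh)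
    have := val_bd hm col h
    simp only [Nat.succ_eq_add_one] at *
    omega
  have mir := C.mir hP hN
  have Gn := GG_dn hm col hh.le n x h1 (by omega) hn
  have ih : i ≤ TT m col h := by
    by_contra c
    have := GG_dn hm col hh.le i (TT m col h + 1 + 20 * (m + 2) - i) (by omega) (by omega) (by omega)
    have := hr (TT m col h + 1 + 20 * (m + 2) - i) (by omega)
    omega
  obtain ⟨g, g1, g2⟩ := next_top hm col i
  have gh : g ≤ h := by
    rcases g2 with rfl | ⟨k, rfl, b⟩
    · omega
    · by_contra c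
      have := TT_mono hm col (show h ≤ k by omega)
      omega
  refine ⟨g, gh, g1, g2, ?_⟩
  have Tg := TT_mono hm col gh
  have bg := be_bd hm col g
  have bh := be_bd hm col h
  have ag := (val_bd hm col g).1
  have qg := qq_bd m g
  have qh := qq_bd m h
  have rL := dd_ramp (m := m) (x := 20 * (m + 2)) (by omega)
  have Tge := TT_ge hm col g
  by_cases c1 : TT m col g + x + 3 ≤ i + 20 * (m + 2)
  · exfalso
    obtain ⟨δ, hδ⟩ : ∃ δ, TT m col g + x + δ = i + 20 * (m + 2) := ⟨_, Nat.add_sub_cancel' (by omega)⟩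
    obtain ⟨e, e1, e2, e3⟩ : ∃ e, e ≤ δ ∧ e ≤ 20 ∧ (e = δ ∨ e = 20) := ⟨min δ 20, by omega⟩
    have a1 := GG_up hm col (M := M) (h := g) (by omega) (TT m col g) (20 * (m + 2)) (by omega) le_rfl rfl
    have a2 := GG_dn hm col (M := M) (h := g) (by omega) (TT m col g + e) (20 * (m + 2) + 1 - e)
      (by omega) (by omega) (by omega)
    have b1 := GG_dn hm col hh.le (i + n - TT m col g) (20 * (m + 2) - δ) (by omega) (by omega) (by omega)
    have b2 := GG_dn hm col hh.le (i + n - TT m col g - e) (20 * (m + 2) - δ + e) (by omega) (by omega)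
      (by omega)
    have := mir (TT m col g) (i + n - TT m col g) (by omega) (by omega) (by omega)
    have := mir (i + n - TT m col g - e) (TT m col g + e) (by omega) (by omega) (by omega)
    have := dd_ramp (m := m) (x := 20 * (m + 2) + 1 - e) (by omega)
    by_cases c : δ ≤ 20
    · have := dd_ramp (m := m) (x := 20 * (m + 2) - δ) (by omega)
      have := dd_ramp (m := m) (x := 20 * (m + 2) - δ + e) (by omega)
      omega
    · have := (dd_per m (20 * (m + 2) - δ)).1
      obtain rfl : e = 20 := by omega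
      omega
  by_cases c2 : i + 20 * (m + 2) + 3 ≤ TT m col g + x
  · exfalso
    obtain ⟨δ, hδ⟩ : ∃ δ, i + 20 * (m + 2) + δ = TT m col g + x := ⟨_, Nat.add_sub_cancel' (by omega)⟩
    obtain ⟨e, e1, e2, e3⟩ : ∃ e, e ≤ δ ∧ e ≤ 20 ∧ (e = δ ∨ e = 20) := ⟨min δ 20, by omega⟩
    have b1 := GG_dn hm col hh.le (TT m col h + 1) (20 * (m + 2)) (by omega) le_rfl rfl
    have b2 := GG_up hm col hh.le (TT m col h + 1 - e) (20 * (m + 2) + 1 - e) (by omega) (by omega)
      (by omega)
    have := mir (TT m col h + 1) (TT m col g - δ) (by omega) (by omega) (by omega)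
    have := mir (TT m col g - δ + e) (TT m col h + 1 - e) (by omega) (by omega) (by omega)
    have := dd_ramp (m := m) (x := 20 * (m + 2) + 1 - e) (by omega)
    by_cases cu : be m col g + δ ≤ 20 * (m + 2)
    · have a1 := GG_up hm col (M := M) (h := g) (by omega) (TT m col g - δ) (20 * (m + 2) - δ)
        (by omega) (by omega) (by omega)
      have a2 := GG_up hm col (M := M) (h := g) (by omega) (TT m col g - δ + e) (20 * (m + 2) - δ + e)
        (by omega) (by omega) (by omega)
      by_cases c : δ ≤ 20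
      · have := dd_ramp (m := m) (x := 20 * (m + 2) - δ) (by omega)
        have := dd_ramp (m := m) (x := 20 * (m + 2) - δ + e) (by omega)
        omega
      · have := (dd_per m (20 * (m + 2) - δ)).1
        obtain rfl : e = 20 := by omega
        omega
    · rcases g2 with rfl | ⟨k, rfl, b⟩
      · have := (pre_val m col).1.1
        have := TT_zero (m := m) (col := col)
        omega
      have tk := TT_succ hm col k
      have vk := val_bd hm col k
      obtain ⟨y, hy⟩ : ∃ y, TT m col (k + 1) - δ + y = TT m col k + 1 + 20 * (m + 2) :=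
        ⟨_, Nat.add_sub_cancel' (by omega)⟩
      have a1 := GG_dn hm col (M := M) (h := k) (by omega) (TT m col (k + 1) - δ) y
        (by omega) (by omega) hy
      obtain rfl : e = 20 := by omega
      by_cases cd : al m col k + 20 ≤ y
      · have a2 := GG_dn hm col (M := M) (h := k) (by omega) (TT m col (k + 1) - δ + 20) (y - 20)
          (by omega) (by omega) (by omega)
        have := (dd_per m (y - 20)).2 (by omega)
        rw [show y - 20 + 20 = y by omega] at this
        omega
      · have a2 := GG_up hm col (M := M) (h := k + 1) (by omega) (TT m col (k + 1) - δ + 20)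
          (20 * (m + 2) + 20 - δ) (by omega) (by omega) (by omega)
        have := dd_lo m (20 * (m + 2) + 20 - δ)
        have := dd_hi (m := m) (x := y) (by omega)
        omega
  have key : ∀ s s', s ≤ 20 → s' ≤ 20 → s + i + 20 * (m + 2) = s' + TT m col g + x →
      qq m h + dl s ≤ pp m g + dl s' + 1 ∧ pp m g + dl s' ≤ qq m h + dl s + 1 := by
    intro s s' hs hs' e
    have a := GG_up hm col (M := M) (h := g) (by omega) (TT m col g + s' - 40) (20 * m + s')
      (by omega) (by omega) (by omega)
    have b := GG_dn hm col hh.le (TT m col h + 41 - s) (20 * m + s) (by omega) (by omega) (by omega)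
    have := mir (TT m col g + s' - 40) (TT m col h + 41 - s) (by omega) (by omega) (by omega)
    have := mir (TT m col h + 41 - s) (TT m col g + s' - 40) (by omega) (by omega) (by omega)
    have := dd_eq (m := m) (r := m) le_rfl hs rfl
    have := dd_eq (m := m) (r := m) le_rfl hs' rfl
    omega
  have d7 : dl 7 = 3 := rfl
  have d8 : dl 8 = 4 := rfl
  have d9 : dl 9 = 5 := rfl
  have d10 : dl 10 = 4 := rfl
  have d11 : dl 11 = 3 := rfl
  have k1 := key 7 9 (by omega) (by omega)
  have k2 := key 9 11 (by omega) (by omega)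
  have k3 := key 9 7 (by omega) (by omega)
  have k4 := key 11 9 (by omega) (by omega)
  have k5 := key 7 8 (by omega) (by omega)
  have k6 := key 9 10 (by omega) (by omega)
  have k7 := key 8 7 (by omega) (by omega)
  have k8 := key 10 9 (by omega) (by omega)
  have k9 := key 7 7 (by omega) (by omega)
  omega

end Pool.Agent.Lib.MP_9cc368_co
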