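import Pool.Agent.Lib.MP_9cc368_co.Main

/-! Palindromic factors by cuts, the certificate form of `PPL`, continuation with slope one. -/

namespace Pool.Agent.Lib.MP_9cc368_co

variable {α : Type} {u : ℕ → α}

/-- The factor on positions `i ≤ s < j` is symmetric. -/
def Pal (u : ℕ → α) (i j : ℕ) : Prop := ∀ s t, i ≤ s → i ≤ t → s + t + 1 = i + j → u s = u t

theorem Pal.shrink {i j a b : ℕ} (h : Pal u i j) (ha : i ≤ a) (e : a + b = i + j) : Pal u a b :=
  fun s t hs ht e' => h s t (by omega) (by omega) (by omega)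

theorem pal_one (u : ℕ → α) (i : ℕ) : Pal u i (i + 1) := fun s t hs ht e => by
  rw [show s = t by omega]

theorem pal_nil (u : ℕ → α) (i : ℕ) : Pal u i i := fun s t hs ht e => by omega

theorem Pal.grow {i j : ℕ} (h : Pal u (i + 1) j) (e : u i = u j) : Pal u i (j + 1) := by
  intro s t hs ht e'
  rcases Nat.eq_or_lt_of_le hs with rfl | hs'
  · rw [show t = j by omega]; exact e
  rcases Nat.eq_or_lt_of_le ht with rfl | ht'
  · rw [show s = j by omega]; exact e.symm
  exact h s t hs' ht' (by omega)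

theorem Pal.grows {i j : ℕ} (k : ℕ) (h : Pal u (i + k) j) (hj : i + k ≤ j)
    (e : ∀ s t, i ≤ s → s < i + k → s + t + 1 = i + k + j → u s = u t) : Pal u i (j + k) := by
  intro s t hs ht e'
  by_cases h1 : s < i + k
  · exact e s t hs h1 (by omega)
  by_cases h2 : t < i + k
  · exact (e t s ht h2 (by omega)).symm
  exact h s t (by omega) (by omega) (by omega)

theorem pal_iff_sym {i k : ℕ} : Pal u i (i + k) ↔ Sym u i k :=
  ⟨fun h s t e => h _ _ (by omega) (by omega) (by omega), fun h s t hs ht e => by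
    have := h (s - i) (t - i) (by omega)
    rwa [show i + (s - i) = s by omega, show i + (t - i) = t by omega] at this⟩

theorem ofFn_split (u : ℕ → α) (a b : ℕ) : (List.ofFn fun i : Fin (a + b) => u i) =
    (List.ofFn fun i : Fin a => u i) ++ List.ofFn fun i : Fin b => u (a + i) := by
  rw [List.ofFn_add]; simp

theorem ppl_zero (u : ℕ → α) : PPL u 0 = 0 :=
  Nat.le_zero.1 (PL_le (ps := []) (by simp) (by simp))

theorem ppl_step {i j : ℕ} (hij : i ≤ j) (h : Pal u i j) : PPL u j ≤ PPL u i + 1 := by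
  obtain ⟨k, rfl⟩ := Nat.exists_eq_add_of_le hij
  rcases Nat.eq_zero_or_pos k with rfl | hk
  · simp
  obtain ⟨ps, h1, h2, h3⟩ := PL_spec (List.ofFn fun t : Fin i => u t)
  refine (PL_le (ps := ps ++ [List.ofFn fun t : Fin k => u (i + t)]) ?_ ?_).trans
    (by simp [h1, PPL])
  · intro p hp
    rcases List.mem_append.1 hp with hp | hp
    · exact h2 p hp
    · obtain rfl := List.mem_singleton.1 hp
      refine ⟨fun e => ?_, (rev_iff _ _ _).2 (pal_iff_sym.1 h)⟩
      have := congrArg List.length e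
      simp at this; omega
  · rw [ofFn_split]; simp [h3]

theorem ppl_ex (u : ℕ → α) {j : ℕ} (hj : 0 < j) :
    ∃ i < j, Pal u i j ∧ PPL u j = PPL u i + 1 := by
  obtain ⟨ps, h1, h2, h3⟩ := PL_spec (List.ofFn fun t : Fin j => u t)
  rcases List.eq_nil_or_concat ps with rfl | ⟨qs, p, rfl⟩
  · have := congrArg List.length h3
    simp at this; omega
  simp only [List.concat_eq_append, List.flatten_append, List.flatten_cons, List.flatten_nil,
    List.append_nil] at h1 h2 h3
  have hn : qs.flatten.length + p.length = j := by simpa using congrArg List.length h3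
  have hp := h2 p (by simp)
  have hp0 : 0 < p.length := List.length_pos_iff.2 hp.1
  subst hn
  rw [ofFn_split] at h3
  obtain ⟨e1, e2⟩ := List.append_inj h3 (by simp)
  have hP : Pal u qs.flatten.length (qs.flatten.length + p.length) :=
    pal_iff_sym.2 ((rev_iff _ _ _).1 (e2 ▸ hp.2))
  refine ⟨_, by omega, hP, le_antisymm (ppl_step (by omega) hP) ?_⟩
  have : PPL u qs.flatten.length ≤ qs.length :=
    PL_le (fun q hq => h2 q (by simp [hq])) e1
  have h4 : PPL u (qs.flatten.length + p.length) = qs.length + 1 := by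
    rw [PPL, ← h1]; simp
  omega

theorem two_pal {a i j : ℕ} (h1 : Pal u a j) (h2 : Pal u i j) (hai : a < i) (hij : i ≤ j) :
    ∃ r, a ≤ r ∧ r ≤ i ∧ Pal u a r ∧ Pal u r i := by
  obtain ⟨π, rfl⟩ := Nat.exists_eq_add_of_le hai.le
  have hπ : 0 < π := by omega
  have per : ∀ k x, a ≤ x → x + π * k < j → u x = u (x + π * k) := by
    intro k
    induction k with
    | zero => simp
    | succ k ih =>
      intro x hx hk
      rw [Nat.mul_succ] at hk ⊢
      rw [ih x hx (by omega), h1 (x + π * k) (a + j - 1 - (x + π * k)) (by omega) (by omega)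
        (by omega)]
      exact h2 _ _ (by omega) (by omega) (by omega)
  have e := Nat.div_add_mod (j - a) π
  have hr := Nat.mod_lt (j - a) hπ
  obtain ⟨k, hk⟩ : ∃ k, (j - a) / π = k + 1 :=
    ⟨(j - a) / π - 1, by have := Nat.div_pos (show π ≤ j - a by omega) hπ; omega⟩
  rw [hk, Nat.mul_succ] at e
  refine ⟨a + (j - a) % π, by omega, by omega, fun s t hs ht e' => ?_, fun s t hs ht e' => ?_⟩
  · rw [per (k + 1) t ht (by rw [Nat.mul_succ]; omega)]
    exact h1 _ _ hs (by omega) (by rw [Nat.mul_succ]; omega)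
  · rw [per k t (by omega) (by omega)]
    exact h1 _ _ (by omega) (by omega) (by omega)

theorem ppl_back : ∀ (j : ℕ) {i : ℕ}, i ≤ j → Pal u i j → PPL u i ≤ PPL u j + 1 := by
  intro j
  induction j using Nat.strong_induction_on with
  | _ j ih =>
    intro i hij h
    rcases Nat.eq_or_lt_of_le hij with rfl | hij'
    · omega
    obtain ⟨a, ha, hP, e⟩ := ppl_ex u (show 0 < j by omega)
    rcases lt_trichotomy a i with h1 | rfl | h1
    · obtain ⟨r, r1, r2, p1, p2⟩ := two_pal hP h h1 hij
      have := ppl_step r1 p1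
      have := ppl_step r2 p2
      omega
    · omega
    · obtain ⟨r, r1, r2, p1, p2⟩ := two_pal h hP h1 ha.le
      have := ih r (by omega) r1 p1
      have := ih a ha r2 p2
      omega

theorem cert {f : ℕ → ℕ} {N : ℕ} (h0 : f 0 = 0)
    (h1 : ∀ i j, i < j → j ≤ N → Pal u i j → f j ≤ f i + 1)
    (h2 : ∀ j, 0 < j → j ≤ N → ∃ i < j, Pal u i j ∧ f j = f i + 1) :
    ∀ n, n ≤ N → PPL u n = f n := by
  intro n
  induction n using Nat.strong_induction_on with
  | _ n ih =>
    intro hn
    rcases Nat.eq_zero_or_pos n with rfl | h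
    · rw [ppl_zero, h0]
    obtain ⟨a, ha, hP, e⟩ := ppl_ex u h
    obtain ⟨b, hb, hQ, e'⟩ := h2 n h hn
    have := h1 a n ha hn hP
    have := ppl_step hb.le hQ
    have := ih a ha (by omega)
    have := ih b hb (by omega)
    omega

theorem real_of_word (u : ℕ → α) {f : ℕ → ℕ} {N : ℕ} (h1 : ∀ n, n ≤ N → PPL u n = f n)
    (h2 : ∀ n, N ≤ n → f (n + 1) = f n + 1) : f ∈ Realisable := by
  classical
  have ex : ∀ n, ∃ i, u i = u n := fun n => ⟨n, rfl⟩
  have le : ∀ n, Nat.find (ex n) ≤ n := fun n => Nat.find_min' _ rfl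
  let v : ℕ → Fin (N + 3) := fun n =>
    if h : n < N then ⟨Nat.find (ex n), by have := le n; omega⟩ else ⟨N + n % 3, by omega⟩
  have hv : ∀ s t, s < N → t < N → (v s = v t ↔ u s = u t) := by
    intro s t hs ht
    simp only [v, dif_pos hs, dif_pos ht, Fin.mk.injEq]
    constructor
    · intro e
      rw [← Nat.find_spec (ex s), ← Nat.find_spec (ex t), e]
    · intro e
      simp only [e]
  have hP : ∀ i j, j ≤ N → (Pal v i j ↔ Pal u i j) := fun i j hj =>
    ⟨fun h s t hs ht e => (hv s t (by omega) (by omega)).1 (h s t hs ht e),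
      fun h s t hs ht e => (hv s t (by omega) (by omega)).2 (h s t hs ht e)⟩
  refine ⟨N + 3, v, funext fun n => (cert (N := n + N) ?_ ?_ ?_ n (by omega)).symm⟩
  · rw [← h1 0 (by omega), ppl_zero]
  · intro i j hij _ h
    by_cases hj : j ≤ N
    · rw [← h1 j hj, ← h1 i (by omega)]
      exact ppl_step hij.le ((hP i j hj).1 h)
    by_cases h3 : j = i + 1
    · rw [h3, h2 i (by omega)]
    exfalso
    have hi : ¬ i < N := fun hi => by
      have := h i (j - 1) le_rfl (by omega) (by omega)
      simp only [v, dif_pos hi, dif_neg (show ¬ j - 1 < N by omega), Fin.mk.injEq] at this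
      have := le i
      omega
    have := h ((i + j - 2) / 2) (i + j - 1 - (i + j - 2) / 2) (by omega) (by omega) (by omega)
    simp only [v, dif_neg (show ¬ (i + j - 2) / 2 < N by omega),
      dif_neg (show ¬ i + j - 1 - (i + j - 2) / 2 < N by omega), Fin.mk.injEq] at this
    omega
  · intro j hj _
    by_cases h3 : j ≤ N
    · obtain ⟨i, hi, hp, e⟩ := ppl_ex u hj
      exact ⟨i, hi, (hP i j h3).2 hp, by rw [← h1 j h3, ← h1 i (by omega), e]⟩
    · obtain ⟨i, rfl⟩ : ∃ i, j = i + 1 := ⟨j - 1, by omega⟩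
      exact ⟨i, by omega, pal_one _ _, h2 i (by omega)⟩

end Pool.Agent.Lib.MP_9cc368_co
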