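import Pool.Agent.Lib.MP_9cc368_co.Defs
import Pool.Prelude.Def_F_458e953d

/-! The recognition problem for prefix palindromic length functions. -/

namespace Pool.Agent.Lib.MP_9cc368_co

/-- The function that starts with the values in `F` and then grows by one at each step. -/
def extend (F : List ℕ) (n : ℕ) : ℕ :=
  if h : n < F.length then F[n] else F.getLastD 0 + (n + 1 - F.length)

open Classical in
/-- The bit strings that encode a list whose continuation with slope one is realisable. -/
noncomputable def lang : N68a2faeb.DecisionProblem := fun s =>
  decide (∃ F : List ℕ, s = N487b59b3.bitEncode F ∧ extend F ∈ Realisable)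

end Pool.Agent.Lib.MP_9cc368_co
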