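import Pool.Agent.Lib.MP_9cc368_co.NpSound

/-! The state of a location, its detection by a probe, and the splitting of the rounds. -/

namespace Pool.Agent.Lib.MP_9cc368_co

variable {α : Type} {u : ℕ → α} {m M : ℕ} {col : ℕ → ℕ → ℕ}

theorem locate (hm : 2 ≤ m) (col : ℕ → ℕ → ℕ) (n : ℕ) : ∃ h x, x ≤ 20 * (m + 2) ∧
    ((be m col h ≤ x ∧ n + 20 * (m + 2) = TT m col h + x) ∨
      (al m col h ≤ x ∧ n + x = TT m col h + 1 + 20 * (m + 2))) := by
  obtain ⟨g, g1, g2⟩ := next_top hm col n
  rcases g2 with rfl | ⟨k, rfl, b⟩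
  · have := TT_zero (m := m) (col := col)
    have := (pre_val m col).1.1
    exact ⟨0, n, by omega, .inl (by omega)⟩
  have := TT_succ hm col k
  by_cases c : TT m col (k + 1) + be m col (k + 1) ≤ n + 20 * (m + 2)
  · exact ⟨k + 1, n + 20 * (m + 2) - TT m col (k + 1), by omega, .inl (by omega)⟩
  · exact ⟨k, TT m col k + 1 + 20 * (m + 2) - n, by omega, .inr (by omega)⟩

def Opt (m : ℕ) (col : ℕ → ℕ → ℕ) (u : ℕ → α) (σ j c : ℕ) : Prop :=
  ∀ y y', 20 * j ≤ y + ee c → 20 * j ≤ y' + ee c → y + y' + ee c = 40 * j →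
    upL m col u σ y = upL m col u σ y'

theorem Ctx.detect (C : Ctx m col M u) {h r σ s : ℕ} (H : At m h r 0) (hh : h + m ≤ M)
    (ch : ∀ s, s < m → ∀ y, y ≤ 20 * (m + 2) →
      (20 * (s + 1) < y → dnL m col u (h + s) y = upL m col u σ y) ∧
      (20 * s < y → 20 < y → upL m col u (h + s) y = upL m col u σ y))
    (hs : s + 2 < m) (hc : col r (s + 2) = 1 ∨ col r (s + 2) = 2 ∨ col r (s + 2) = 3) :
    ¬ Opt m col u σ (s + 2) (col r (s + 2)) := by
  intro O
  have hm := C.hm
  have H0 : At m (h + s) r s := H.add (by omega)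
  have H1 : At m (h + s + 1) r (s + 1) := H.add (s := s + 1) (by omega)
  have H2 : At m (h + s + 1 + 1) r (s + 1 + 1) := H.add (s := s + 2) (by omega)
  have F0 := H0.fwd (col := col) (by omega)
  have F1 := H1.fwd (col := col) (by omega)
  have F2 := H2.fwd (col := col) (by omega)
  have ec : cl m col r (s + 1 + 1) = col r (s + 2) := if_pos ⟨by omega, by omega⟩
  rw [ec] at F1
  have t0 := TT_succ hm col (h + s)
  have t1 := TT_succ hm col (h + s + 1)
  have tg := TT_ge hm col (h + s)
  have tM := TT_mono hm col (show h + s + 1 + 1 ≤ M by omega)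
  have e0 := ee_le (cl m col r (s + 1))
  obtain ⟨i2, n2, P2, a2, b2⟩ := C.partner_top H2 (by omega) (by omega)
  obtain ⟨e, x, he, hx, d1, d2, hr⟩ : ∃ e x, ee (col r (s + 2)) = e ∧
      ((e = 2 ∧ x = 20 * s + 38) ∨ (e = 4 ∧ x = 20 * s + 37) ∨ (e = 8 ∧ x = 20 * s + 35)) ∧
      dd m (20 * s + 39 - e) = 4 * s + 7 ∧
      (dd m x ≤ 4 * s + 8 ∧ (dd m (x - 1) + 1 = dd m x → e = 2)) ∧
      ∀ y, x ≤ y → dd m x ≤ dd m y := by
    have D : ∀ t x, t ≤ 20 → x = 20 * (s + 1) + t → dd m x = 4 * (s + 1) + dl t :=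
      fun t x ht e => dd_eq (by omega) ht e
    have G : ∀ y, _ := fun y => dd_ge (m := m) (r := s + 1) (y := y) (by omega)
    rcases hc with c | c | c <;> rw [c]
    · have := D 17 (20 * s + 39 - 2) (by omega) (by omega)
      have := D 18 (20 * s + 38) (by omega) (by omega)
      have : dl 17 = 3 := rfl
      have : dl 18 = 4 := rfl
      exact ⟨2, _, rfl, .inl ⟨rfl, rfl⟩, by omega, by omega, fun y _ => by have := G y; omega⟩
    · have := D 15 (20 * s + 39 - 4) (by omega) (by omega)
      have := D 17 (20 * s + 37) (by omega) (by omega)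
      have := D 16 (20 * s + 37 - 1) (by omega) (by omega)
      have : dl 15 = 3 := rfl
      have : dl 17 = 3 := rfl
      have : dl 16 = 4 := rfl
      exact ⟨4, _, rfl, .inr (.inl ⟨rfl, rfl⟩), by omega, by omega,
        fun y _ => by have := G y; omega⟩
    · have := D 11 (20 * s + 39 - 8) (by omega) (by omega)
      have := D 15 (20 * s + 35) (by omega) (by omega)
      have := D 14 (20 * s + 35 - 1) (by omega) (by omega)
      have : dl 15 = 3 := rfl
      have : dl 11 = 3 := rfl
      have : dl 14 = 4 := rfl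
      exact ⟨8, _, rfl, .inr (.inr ⟨rfl, rfl⟩), by omega, by omega,
        fun y _ => by have := G y; omega⟩
  rw [Opt, he] at O
  rw [he] at F1
  obtain ⟨n, hn⟩ : ∃ n, n + x = TT m col (h + s + 1) + 1 + 20 * (m + 2) :=
    ⟨_, Nat.sub_add_cancel (by omega)⟩
  obtain ⟨i, P, a⟩ := C.partner_fwd H1 (by omega) (by omega) (x := x) (by omega) (by omega)
    (by omega) d2.1 hr hn
  rcases a with a | a
  · obtain ⟨l1, -⟩ := link hm (g := h + s) (h := h + s + 1) (by omega) P a hn (by omega)
    obtain ⟨k, hk⟩ : ∃ k, k + 20 * s + 39 = x + e := ⟨x + e - (20 * s + 39), by omega⟩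
    obtain ⟨i, rfl⟩ : ∃ i', i = i' + k := ⟨i - k, by omega⟩
    have P' : Pal u i (n + k) := by
      refine Pal.grows k P (by omega) fun p t h1 h2 h3 => ?_
      obtain ⟨y, hy⟩ : ∃ y, p + 1 + 20 * (m + 2) = TT m col (h + s) + y :=
        ⟨_, (Nat.add_sub_cancel' (by omega)).symm⟩
      obtain ⟨y', hy'⟩ : ∃ y', y + y' + e = 40 * (s + 2) := ⟨40 * (s + 2) - e - y, by omega⟩
      calc u p = upL m col u (h + s) y := congrArg u (by omega)
        _ = upL m col u σ y := (ch s (by omega) y (by omega)).2 (by omega) (by omega)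
        _ = upL m col u σ y' := O y y' (by omega) (by omega) hy'
        _ = upL m col u (h + s) y' := ((ch s (by omega) y' (by omega)).2 (by omega) (by omega)).symm
        _ = dnL m col u (h + s + 1) y' := (l1 y' (by omega) (by omega)).symm
        _ = u t := P2 _ _ (by omega) (by omega) (by omega)
    have := C.mir P' (by omega) (n + k) i (by omega) le_rfl (by omega)
    have := GG_up hm col (M := M) (h := h + s) (by omega) i (20 * s + 39 - e) (by omega) (by omega)
      (by omega)
    have := GG_up hm col (M := M) (h := h + s + 1 + 1) (by omega) (n + k) (20 * (s + 2)) (by omega)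
      (by omega) (by omega)
    have : dd m (20 * (s + 2)) = 4 * (s + 1) + 4 :=
      dd_eq (r := s + 1) (s := 20) (by omega) (by omega) (by omega)
    omega
  · obtain ⟨T, hT⟩ : ∃ T, TT m col (h + s + 1) = T + 2 := ⟨TT m col (h + s + 1) - 2, by omega⟩
    have c1 := ch (s + 1) (by omega) (20 * (m + 2)) le_rfl
    have P' : Pal u T (T + 1 + 1) := by
      refine (pal_nil u (T + 1)).grow ?_
      calc u T = dnL m col u (h + s + 1) (20 * (m + 2)) := P _ _ (by omega) (by omega) (by omega)
        _ = upL m col u (h + s + 1) (20 * (m + 2)) :=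
          (c1.1 (by omega)).trans (c1.2 (by omega) (by omega)).symm
        _ = u (T + 1) := congrArg u (by omega)
    have := C.mir P' (by omega) (T + 2) T (by omega) le_rfl (by omega)
    have := GG_up hm col (M := M) (h := h + s + 1) (by omega) T (20 * (m + 2) - 2) (by omega)
      (by omega) (by omega)
    have := GG_up hm col (M := M) (h := h + s + 1) (by omega) (T + 2) (20 * (m + 2)) (by omega)
      (by omega) (by omega)
    have := dd_ramp (m := m) (x := 20 * (m + 2)) (by omega)
    have := dd_ramp (m := m) (x := 20 * (m + 2) - 2) (by omega)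
    omega

theorem dd_shift {m k z : ℕ} (hk : k + 1 ≤ m) (hz : z ≤ 40) : dd m (20 * k + z) = 4 * k + dd 1 z := by
  by_cases c : z ≤ 20
  · rw [dd_eq (r := k) (s := z) (by omega) c rfl, dd_eq (m := 1) (r := 0) (s := z) (by omega) c
      (by omega)]
    omega
  · rw [dd_eq (r := k + 1) (s := z - 20) hk (by omega) (by omega),
      dd_eq (m := 1) (r := 1) (s := z - 20) (by omega) (by omega) (by omega)]
    omega

theorem off_dec : ∀ z ≤ 40, ∀ s ∈ [11, 15, 20], ∀ q ∈ [1, 2], q + dd 1 z = 1 + dd 1 (20 + s) →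
    22 ≤ z ∧ (z = 20 + s ∨ ∃ t < 20, q + dd 1 (z - t) + 2 ≤ 2 + dd 1 (20 + s - t) ∨
      2 + dd 1 (20 + s - t) + 2 ≤ q + dd 1 (z - t)) := by decide

def Loc (m : ℕ) (col : ℕ → ℕ → ℕ) (u : ℕ → α) (σ k s : ℕ) : Prop :=
  ∃ s' < s, dl s = dl s' + 1 ∧ ∀ y y', 20 * (k + 1) + s' < y → 20 * (k + 1) + s' < y' →
    y + y' = 40 * (k + 1) + s' + s + 1 → upL m col u σ y = upL m col u σ y'

theorem loc_of {σ k s y i n : ℕ} (hm : 2 ≤ m) (hk : k + 2 < m) (hs : s = 11 ∨ s = 15 ∨ s = 20)
    (P : Pal u i n) (hi : i + 20 * (m + 2) = TT m col σ + y)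
    (hn : n + 20 * (m + 2) = TT m col σ + (20 * (k + 1) + s)) (hl : i < n)
    (e : dd m (20 * (k + 1) + s) = dd m y + 1) : Loc m col u σ k s := by
  have d := dd_eq (m := m) (r := k + 1) (s := s) (by omega) (by omega) rfl
  have d' : 3 ≤ dl s := by rcases hs with rfl | rfl | rfl <;> decide
  have tg := TT_ge hm col σ
  have hy : 20 * (k + 1) ≤ y := by
    by_contra c
    rcases dd_cases m y with a | ⟨r, t, a1, a2, a3, a4⟩
    · omega
    · have := dl_bd t a2; omega
  obtain ⟨s', rfl⟩ := Nat.exists_eq_add_of_le hy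
  have := dd_eq (m := m) (r := k + 1) (s := s') (by omega) (by omega) rfl
  exact ⟨s', by omega, by omega, fun y y' h1 h2 h3 => P _ _ (by omega) (by omega) (by omega)⟩

theorem Ctx.loc (C : Ctx m col M u) (hM : 4 ≤ M) {k s : ℕ} (hk : k + 2 < m)
    (hs : s = 11 ∨ s = 15 ∨ s = 20) : Loc m col u 0 k s ∧ Loc m col u 3 k s := by
  have hm := C.hm
  have pv := pre_val m col
  have T0 := TT_zero (m := m) (col := col)
  have tM := TT_mono hm col (show 3 ≤ M by omega)
  have t03 := TT_mono hm col (show 0 ≤ 3 by omega)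
  have L0 : Loc m col u 0 k s := by
    obtain ⟨i, hi, P, e⟩ := C.ex (n := 20 * (k + 1) + s) (by omega) (by omega)
    have := GG_up hm col (M := M) (h := 0) (by omega) i i (by omega) (by omega) (by omega)
    have := GG_up hm col (M := M) (h := 0) (by omega) (20 * (k + 1) + s) (20 * (k + 1) + s)
      (by omega) (by omega) (by omega)
    exact loc_of hm hk hs P (y := i) (by omega) (by omega) hi (by omega)
  refine ⟨L0, ?_⟩
  obtain ⟨n, hn⟩ : ∃ n, n + 20 * (m + 2) = TT m col 3 + (20 * (k + 1) + s) :=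
    ⟨_, Nat.sub_add_cancel (by omega)⟩
  obtain ⟨i, hi, P, e⟩ := C.ex (n := n) (by omega) (by omega)
  have Gn := GG_up hm col (M := M) (h := 3) (by omega) n _ (by omega) (by omega) hn
  have mir := C.mir P (by omega)
  have t0 := TT_succ hm col 0
  have t1 := TT_succ hm col 1
  have t2 := TT_succ hm col 2
  have dx := dd_shift (m := m) (k := k) (z := 20 + s) (by omega) (by omega)
  rw [show 20 * k + (20 + s) = 20 * (k + 1) + s by omega] at dx
  have dx' : dd 1 (20 + s) ≤ 8 := by rcases hs with rfl | rfl | rfl <;> decide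
  obtain ⟨g, y, hy, a⟩ := locate hm col i
  have g3 : g ≤ 3 := by
    by_contra c
    have := TT_mono hm col (show 4 ≤ g by omega)
    have := TT_succ hm col 3
    have := val_bd hm col 3
    have := val_bd hm col g
    simp only [Nat.reduceAdd] at *
    omega
  simp only [Nat.reduceAdd, Nat.zero_add] at t0 t1 t2
  rcases a with a | a
  · have Gi := GG_up hm col (M := M) (h := g) (by omega) i y a.1 hy a.2
    rcases Nat.eq_or_lt_of_le g3 with rfl | l
    · exact loc_of hm hk hs P a.2 hn hi (by omega)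
    exfalso
    have hy' : y ≤ 20 * (m + 1) := by
      by_contra c
      have := dd_ramp (m := m) (x := y) (by omega)
      omega
    have := GG_up hm col (M := M) (h := g) (by omega) (i + 20) (y + 20) (by omega) (by omega)
      (by omega)
    have := GG_up hm col (M := M) (h := 3) (by omega) (n - 20) (20 * k + s) (by omega) (by omega)
      (by omega)
    have := (dd_per m y).1
    have := (dd_per m (20 * k + s)).1
    rw [show 20 * k + s + 20 = 20 * (k + 1) + s by omega] at this
    have := TT_mono hm col (show g ≤ 2 by omega)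
    have := mir (i + 20) (n - 20) (by omega) (by omega) (by omega)
    omega
  have l : g < 3 := by
    rcases Nat.eq_or_lt_of_le g3 with rfl | l <;> omega
  have Gi := GG_dn hm col (M := M) (h := g) (by omega) i y a.1 hy a.2
  have hq : (qq m g = 1 ∨ qq m g = 2) ∧ al m col g ≤ 1 ∧ be m col g = 0 := by
    interval_cases g <;> omega
  obtain ⟨z, rfl, hz⟩ : ∃ z, y = 20 * k + z ∧ z ≤ 40 := by
    refine ⟨y - 20 * k, ?_, ?_⟩
    · have := dd_hi (m := m) (x := y)
      have : 7 ≤ dd 1 (20 + s) := by rcases hs with rfl | rfl | rfl <;> decide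
      omega
    · by_contra c
      rcases dd_cases m y with a | ⟨r, t, a1, a2, a3, a4⟩
      · omega
      · have : 1 ≤ t → 1 ≤ dl t := by interval_cases t <;> decide
        have : dd 1 (20 + s) = 8 → s = 20 := by rcases hs with rfl | rfl | rfl <;> decide
        have := dl_bd t a2
        omega
  have := dd_shift (m := m) (k := k) (by omega) hz
  obtain ⟨z1, z2⟩ := off_dec z hz s (by simpa using hs) (qq m g) (by simpa using hq.1) (by omega)
  have tg := TT_mono hm col (show g + 1 ≤ 3 by omega)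
  have tg' := TT_succ hm col g
  have vg := val_bd hm col g
  rcases z2 with rfl | ⟨t, ht, z2⟩
  · obtain ⟨σ, s1, s2, s3⟩ := C.low_side g (by omega) hq.2.2 (by omega)
    obtain rfl : σ = 0 := by omega
    obtain ⟨s', a1, a2, a3⟩ := L0
    have key : ∀ y, 20 < y → y ≤ 20 * (k + 1) + s → upL m col u 3 y = upL m col u 0 y :=
      fun y h1 h2 => (P _ _ (by omega) (by omega) (by omega)).trans (s3 y h1 (by omega)).2
    exact ⟨s', a1, a2, fun y y' h1 h2 h3 => by
      rw [key y (by omega) (by omega), key y' (by omega) (by omega), a3 y y' h1 h2 h3]⟩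
  · exfalso
    have := GG_dn hm col (M := M) (h := g) (by omega) (i + t) (20 * k + (z - t)) (by omega)
      (by omega) (by omega)
    have := GG_up hm col (M := M) (h := 3) (by omega) (n - t) (20 * k + (20 + s - t)) (by omega)
      (by omega) (by omega)
    have := dd_shift (m := m) (k := k) (z := z - t) (by omega) (by omega)
    have := dd_shift (m := m) (k := k) (z := 20 + s - t) (by omega) (by omega)
    have := mir (i + t) (n - t) (by omega) (by omega) (by omega)
    have := mir (n - t) (i + t) (by omega) (by omega) (by omega)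
    omega

theorem Ctx.opt (C : Ctx m col M u) {σ k : ℕ} (hσ : σ = 0 ∨ σ = 3) (hM : 4 ≤ M) (hk : k + 2 < m) :
    ∃ c, (c = 1 ∨ c = 2 ∨ c = 3) ∧ Opt m col u σ (k + 2) c := by
  have hm := C.hm
  have L : ∀ s, s = 11 ∨ s = 15 ∨ s = 20 → Loc m col u σ k s := fun s hs => by
    rcases hσ with rfl | rfl
    · exact (C.loc hM hk hs).1
    · exact (C.loc hM hk hs).2
  have tg := TT_ge hm col σ
  have tM := TT_mono hm col (show σ ≤ M by omega)
  obtain ⟨b, hb⟩ : ∃ b, b + 20 * (m + 2) = TT m col σ + 20 * (k + 1) :=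
    ⟨_, Nat.sub_add_cancel (by omega)⟩
  have hbe : be m col σ = 0 := by
    have := pre_val m col
    rcases hσ with rfl | rfl <;> omega
  have toP : ∀ s' s, (∀ y y', 20 * (k + 1) + s' < y → 20 * (k + 1) + s' < y' →
      y + y' = 40 * (k + 1) + s' + s + 1 → upL m col u σ y = upL m col u σ y') →
      Pal (fun p => u (b + p)) s' s := fun s' s h p t h1 h2 h3 => by
    have := h (20 * (k + 1) + p + 1) (20 * (k + 1) + t + 1) (by omega) (by omega) (by omega)
    rwa [upL, upL, show TT m col σ + (20 * (k + 1) + p + 1) - 1 - 20 * (m + 2) = b + p by omega,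
      show TT m col σ + (20 * (k + 1) + t + 1) - 1 - 20 * (m + 2) = b + t by omega] at this
  have bd : ∀ s' s, s' ≤ s → s ≤ 20 → Pal (fun p => u (b + p)) s' s →
      dl s ≤ dl s' + 1 ∧ dl s' ≤ dl s + 1 := fun s' s h1 h2 P => by
    have P' : Pal u (b + s') (b + s) := fun p t h1 h2 h3 => by
      have := P (p - b) (t - b) (by omega) (by omega) (by omega)
      simp only at this
      rwa [show b + (p - b) = p by omega, show b + (t - b) = t by omega] at this
    have := C.mir P' (by omega) (b + s) (b + s') (by omega) le_rfl (by omega)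
    have := C.mir P' (by omega) (b + s') (b + s) le_rfl (by omega) (by omega)
    have := GG_up hm col (M := M) (h := σ) (by omega) (b + s) (20 * (k + 1) + s) (by omega)
      (by omega) (by omega)
    have := GG_up hm col (M := M) (h := σ) (by omega) (b + s') (20 * (k + 1) + s') (by omega)
      (by omega) (by omega)
    have := dd_eq (m := m) (r := k + 1) (s := s) (by omega) (by omega) rfl
    have := dd_eq (m := m) (r := k + 1) (s := s') (by omega) (by omega) rfl
    omega
  generalize hv : (fun p => u (b + p)) = v at toP bd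
  have nb : ∀ s' s, s' ≤ s → s ≤ 20 → dl s' + 1 < dl s ∨ dl s + 1 < dl s' → ¬ Pal v s' s :=
    fun s' s h1 h2 h3 P => by have := bd s' s h1 h2 P; omega
  have P11 : Pal v 4 11 := by
    obtain ⟨s', h1, h2, h3⟩ := L 11 (.inl rfl)
    have : s' = 2 ∨ s' = 4 := by clear h3; revert s'; decide
    rcases this with rfl | rfl
    · exact absurd ((toP 2 11 h3).shrink (a := 4) (b := 9) (by omega) rfl)
        (nb _ _ (by omega) (by omega) (by decide))
    · exact toP _ _ h3
  have P15 : Pal v 4 15 := by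
    obtain ⟨s', h1, h2, h3⟩ := L 15 (.inr (.inl rfl))
    have : s' = 2 ∨ s' = 4 := by clear h3; revert s'; decide
    rcases this with rfl | rfl
    · exact absurd ((toP 2 15 h3).shrink (a := 4) (b := 13) (by omega) rfl)
        (nb _ _ (by omega) (by omega) (by decide))
    · exact toP _ _ h3
  obtain ⟨s', h1, h2, h3⟩ := L 20 (.inr (.inr rfl))
  have P := toP _ _ h3
  have : s' = 3 ∨ s' = 5 ∨ s' = 7 ∨ s' = 11 ∨ s' = 15 ∨ s' = 17 := by
    clear h3 P; revert s'; decide
  rcases this with rfl | rfl | rfl | rfl | rfl | rfl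
  · exact absurd (P.shrink (a := 4) (b := 19) (by omega) rfl)
      (nb _ _ (by omega) (by omega) (by decide))
  · refine absurd (fun p t h1 h2 h3 => ?_) (nb 4 9 (by omega) (by omega) (by decide))
    rw [P15 p (18 - p) h1 (by omega) (by omega), P (18 - p) (p + 6) (by omega) (by omega)
      (by omega)]
    exact P15 _ _ (by omega) h2 (by omega)
  · refine absurd ?_ (nb 4 19 (by omega) (by omega) (by decide))
    have a : ∀ p, 4 ≤ p → p ≤ 10 → v p = v (p + 4) := fun p h1 h2 =>
      (P11 p (14 - p) h1 (by omega) (by omega)).trans (P15 _ _ (by omega) (by omega) (by omega))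
    have a' : ∀ p, 4 ≤ p → p ≤ 11 → v p = v (p + 8) := fun p h1 h2 =>
      (P15 p (18 - p) h1 (by omega) (by omega)).trans (P _ _ (by omega) (by omega) (by omega))
    have a'' : ∀ p, 4 ≤ p → p ≤ 11 → v p = v (22 - p) := fun p h1 h2 => by
      by_cases c : p ≤ 10
      · rw [P11 p (14 - p) h1 (by omega) (by omega), a' (14 - p) (by omega) (by omega)]
        exact congrArg v (by omega)
      · exact congrArg v (by omega)
    intro p t h1 h2 h3
    by_cases c : p ≤ 11
    · rw [a'' p h1 c]; exact congrArg v (by omega)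
    · rw [a'' t h2 (by omega)]; exact congrArg v (by omega)
  · exact ⟨3, by omega, fun y y' a b c => h3 y y' (by simp [ee] at a; omega)
      (by simp [ee] at b; omega) (by simp [ee] at c; omega)⟩
  · exact ⟨2, by omega, fun y y' a b c => h3 y y' (by simp [ee] at a; omega)
      (by simp [ee] at b; omega) (by simp [ee] at c; omega)⟩
  · exact ⟨1, by omega, fun y y' a b c => h3 y y' (by simp [ee] at a; omega)
      (by simp [ee] at b; omega) (by simp [ee] at c; omega)⟩

/-- Splitting condition: on each side and at each location some colour is unused. -/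
def Split (m nr : ℕ) (col : ℕ → ℕ → ℕ) : Prop :=
  ∃ (side : ℕ → Bool) (st : Bool → ℕ → ℕ), ∀ j, 2 ≤ j → j < m →
    (∀ β, st β j = 1 ∨ st β j = 2 ∨ st β j = 3) ∧
    ∀ r, 1 ≤ r → r ≤ nr → col r j ≠ st (side r) j

theorem Ctx.split {nr : ℕ} (C : Ctx m col (8 + (2 * m + 6) * nr) u) : Split m nr col := by
  have hm := C.hm
  have A : ∀ r, 1 ≤ r → At m (8 + (2 * m + 6) * (r - 1)) r 0 := fun r h => by
    obtain ⟨r, rfl⟩ : ∃ k, r = k + 1 := ⟨r - 1, by omega⟩
    exact ⟨by omega, by omega, by rw [Nat.mul_succ, Nat.add_sub_cancel]; omega⟩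
  have B : ∀ r, 1 ≤ r → r ≤ nr → 8 + (2 * m + 6) * (r - 1) + m ≤ 8 + (2 * m + 6) * nr :=
    fun r h h' => by
      have := Nat.mul_le_mul_left (2 * m + 6) (show r - 1 + 1 ≤ nr by omega)
      rw [Nat.mul_succ] at this
      omega
  have E : ∀ r, ∃ β : Bool, 1 ≤ r → r ≤ nr → ∀ s, s + 2 < m →
      col r (s + 2) = 1 ∨ col r (s + 2) = 2 ∨ col r (s + 2) = 3 →
      ¬ Opt m col u (if β then 3 else 0) (s + 2) (col r (s + 2)) := fun r => by
    by_cases h : 1 ≤ r ∧ r ≤ nr
    · obtain ⟨σ, h1, h2⟩ := C.chain (A r h.1) (B r h.1 h.2)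
      refine ⟨decide (σ = 3), fun _ _ s hs hc => ?_⟩
      have := C.detect (A r h.1) (B r h.1 h.2) h2 hs hc
      rcases h1 with rfl | rfl <;> simpa using this
    · exact ⟨true, fun a b => absurd ⟨a, b⟩ h⟩
  have F : ∀ (β : Bool) j, ∃ c, 2 ≤ j → j < m → (c = 1 ∨ c = 2 ∨ c = 3) ∧
      Opt m col u (if β then 3 else 0) j c := fun β j => by
    by_cases h : 2 ≤ j ∧ j < m
    · obtain ⟨k, rfl⟩ : ∃ k, j = k + 2 := ⟨j - 2, by omega⟩
      obtain ⟨c, hc⟩ := C.opt (σ := if β then 3 else 0) (by cases β <;> simp) (by omega) h.2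
      exact ⟨c, fun _ _ => hc⟩
    · exact ⟨0, fun a b => absurd ⟨a, b⟩ h⟩
  choose side hs using E
  choose st ht using F
  refine ⟨side, st, fun j h1 h2 => ⟨fun β => (ht β j h1 h2).1, fun r a b e => ?_⟩⟩
  obtain ⟨k, rfl⟩ : ∃ k, j = k + 2 := ⟨j - 2, by omega⟩
  have := ht (side r) _ h1 h2
  rw [← e] at this
  exact hs r a b k h2 this.1 this.2

end Pool.Agent.Lib.MP_9cc368_co
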