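import Pool.Agent.Lib.MP_9cc368_co.NpUpper

/-! Every value of the function is attained by a palindromic suffix of the word. -/

namespace Pool.Agent.Lib.MP_9cc368_co

theorem loc_dec : ∀ v ∈ [6, 2, 8], ∀ t ≤ 20, 1 ≤ t → ∃ s < t, BP v s t ∧ dl t = dl s + 1 := by
  decide +kernel

theorem core_sym : ∀ c ∈ [1, 2, 3], ∀ v ∈ [6, 2, 8], ∀ s < 20, ∀ t < 20, s + t + ee c = 40 →
    bl v s = bl v t := by decide +kernel

namespace Dat
variable {D : Dat}

def Cr (D : Dat) (a b x : ℕ) : Prop :=
  Pal D.wd (TT D.m D.col a + 1 + 20 * (D.m + 2) - x) (TT D.m D.col b + x - 20 * (D.m + 2))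

def Sy (D : Dat) (a b : ℕ) : Prop :=
  Pal D.wd (TT D.m D.col a) (TT D.m D.col b + 1) ∧ D.sd a = D.sd b

theorem Cr.up {a b x y : ℕ} (h : D.Cr a b x) (ab : a < b) (hb : b ≤ D.M) (s : D.sd a = D.sd b)
    (h1 : al D.m D.col a ≤ x) (h2 : be D.m D.col b ≤ x) (hx : x ≤ 20 * D.m) (xy : x ≤ y)
    (hy : y ≤ 20 * (D.m + 2) + 1) : D.Cr a b y := by
  obtain ⟨k, rfl⟩ := Nat.exists_eq_add_of_le xy
  have := TT_ge D.hm D.col b
  have := TT_succ D.hm D.col a
  have := TT_mono D.hm D.col (show a + 1 ≤ b by omega)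
  have hab : TT D.m D.col a + 1 + 40 * (D.m + 2) ≤ TT D.m D.col b + 2 * x := by
    rcases Nat.eq_or_lt_of_le (show a + 1 ≤ b by omega) with rfl | l
    · omega
    · have := TT_succ D.hm D.col (a + 1)
      have := TT_mono D.hm D.col (show a + 1 + 1 ≤ b by omega)
      have := val_bd D.hm D.col a
      have := val_bd D.hm D.col (a + 1)
      omega
  unfold Cr at h ⊢
  rw [show TT D.m D.col b + (x + k) - 20 * (D.m + 2) = TT D.m D.col b + x - 20 * (D.m + 2) + k by
    omega]
  refine Pal.grows k (by convert h using 1; omega) (by omega) fun p t a1 a2 a3 => ?_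
  rw [D.wD (h := a) (by omega) p (TT D.m D.col a + 1 + 20 * (D.m + 2) - p) (by omega) (by omega)
    (by omega), D.wU hb t (TT D.m D.col a + 1 + 20 * (D.m + 2) - p) (by omega) (by omega)
    (by omega), s]

theorem Cr.sy {a b : ℕ} (h : D.Cr a b (20 * (D.m + 2) + 1)) (s : D.sd a = D.sd b) : D.Sy a b :=
  ⟨by unfold Cr at h; convert h using 1 <;> omega, s⟩

theorem Sy.ext {a b x i j : ℕ} (h : D.Sy a b) (ab : a ≤ b) (hb : b ≤ D.M) (A : D.U a x i)
    (B : D.Dn b x j) : Pal D.wd i j := by
  unfold U at A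
  unfold Dn at B
  have := TT_mono D.hm D.col ab
  rw [show j = TT D.m D.col b + 1 + (20 * (D.m + 2) - x) by omega]
  refine Pal.grows _ (by convert h.1 using 1; omega) (by omega) fun p t a1 a2 a3 => ?_
  rw [D.wU (h := a) (by omega) p (p + 1 + 20 * (D.m + 2) - TT D.m D.col a) (by omega) (by omega)
    (by omega), D.wD hb t (p + 1 + 20 * (D.m + 2) - TT D.m D.col a) (by omega) (by omega)
    (by omega), h.2]

theorem sy_self (a : ℕ) : D.Sy a a := ⟨pal_one _ _, rfl⟩

theorem Sy.out {a b : ℕ} (h : D.Sy (a + 1) b) (ab : a + 1 ≤ b) (hb : b < D.M)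
    (h1 : be D.m D.col (a + 1) = al D.m D.col b) (h2 : al D.m D.col a = be D.m D.col (b + 1))
    (hJ : D.J a = D.J b) : D.Cr a (b + 1) (al D.m D.col a) := by
  have := TT_succ D.hm D.col a
  have := TT_succ D.hm D.col b
  have := val_bd D.hm D.col a
  have := val_bd D.hm D.col b
  obtain ⟨i, hi⟩ : ∃ i, i + al D.m D.col a = TT D.m D.col a + 1 + 20 * (D.m + 2) :=
    ⟨_, Nat.sub_add_cancel (by omega)⟩
  obtain ⟨j, hj⟩ : ∃ j, j + al D.m D.col b = TT D.m D.col b + 1 + 20 * (D.m + 2) :=
    ⟨_, Nat.sub_add_cancel (by omega)⟩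
  have P := (h.ext ab hb.le (x := al D.m D.col b) (i := i + 1) (j := j)
    ⟨by omega, by omega, by omega⟩ ⟨le_rfl, by omega, hj⟩).grow
    (by rw [D.wJ (h := a) (by omega) i hi, D.wJ hb.le j hj, hJ])
  unfold Cr
  convert P using 1 <;> omega

theorem cr_adj {a : ℕ} (ha : a < D.M) (hq : qq D.m a ≤ pp D.m (a + 1)) :
    D.Cr a (a + 1) (max (al D.m D.col a) (be D.m D.col (a + 1))) := by
  have := TT_succ D.hm D.col a
  have := val_bd D.hm D.col a
  unfold Cr
  rcases val ha with V | V | ⟨k, c, c1, k1, V1, V2, V3, V⟩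
  · convert pal_one D.wd (TT D.m D.col a + 1 + 20 * (D.m + 2) - al D.m D.col a) using 1 <;> omega
  · have := (pal_nil D.wd (TT D.m D.col a + 20 * (D.m + 2) + 1)).grow (by
      rw [D.wJ ha.le _ (by omega), D.wU (h := a + 1) ha _ 1 (by omega) (by omega) (by omega),
        V.2.2.2.1, V.2.2.2.2])
    convert this using 1 <;> omega
  have e8 := ee_le c
  have e0 : ee c ≠ 0 := by rcases c1 with rfl | rfl | rfl <;> decide
  obtain ⟨i, hi⟩ : ∃ i, i + 20 * (k + 1) = TT D.m D.col a + 1 + 20 * (D.m + 2) :=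
    ⟨_, Nat.sub_add_cancel (by omega)⟩
  have P : Pal D.wd (i + 1) (i + ee c) := fun s t h1 h2 h3 => by
    rw [D.wD ha.le s (20 * k + (20 + i - s)) (by omega) (by omega) (by omega),
      D.wD ha.le t (20 * k + (20 + i - t)) (by omega) (by omega) (by omega),
      D.tau_eq _ (r := k) (by omega) (by omega) (by omega) rfl,
      D.tau_eq _ (r := k) (by omega) (by omega) (by omega) rfl,
      core_sym c (by simpa using c1) _ (sl_mem _) (20 + i - s) (by omega) (20 + i - t) (by omega)
        (by omega)]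
  have := P.grow (by
    rw [D.wD ha.le i (20 * (k + 1)) (by omega) (by omega) hi, D.wJ ha.le _ (by omega), V1])
  convert this using 1 <;> omega

def Good (D : Dat) (a h : ℕ) : Prop := a < h ∧ D.sd a = D.sd h ∧ D.Cr a h (be D.m D.col h) ∧
  al D.m D.col a ≤ be D.m D.col h

theorem Good.cr {a h x : ℕ} (g : D.Good a h) (hh : h ≤ D.M) (h1 : be D.m D.col h ≤ x)
    (h2 : x ≤ 20 * (D.m + 2) + 1) : D.Cr a h x :=
  g.2.2.1.up g.1 hh g.2.1 g.2.2.2 le_rfl (be_bd D.hm D.col h) h1 h2

theorem Good.sy {a h : ℕ} (g : D.Good a h) (hh : h ≤ D.M) : D.Sy a h :=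
  (g.cr hh (by have := be_bd D.hm D.col h; omega) le_rfl).sy g.2.1

theorem good_adj {a : ℕ} (ha : a < D.M) (hq : qq D.m a ≤ pp D.m (a + 1))
    (s : D.sd a = D.sd (a + 1)) (h : al D.m D.col a ≤ be D.m D.col (a + 1)) : D.Good a (a + 1) :=
  ⟨by omega, s, by have := cr_adj ha hq; rwa [max_eq_right h] at this, h⟩

theorem good_out {a b : ℕ} (h : D.Sy (a + 1) b) (ab : a + 1 ≤ b) (hb : b < D.M)
    (h1 : be D.m D.col (a + 1) = al D.m D.col b) (h2 : al D.m D.col a = be D.m D.col (b + 1))
    (hJ : D.J a = D.J b) (s : D.sd a = D.sd (b + 1)) : D.Good a (b + 1) :=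
  ⟨by omega, s, h2 ▸ h.out ab hb h1 h2 hJ, h2.le⟩

theorem good_main : ∀ (k : ℕ) {a b r s : ℕ}, At D.m a r s → s + k + 1 = D.m → b = a + 2 * k + 1 →
    b ≤ D.M → D.Good a b
  | 0, a, b, r, s, H, hs, hb, hM => by
    subst hb
    have := fw H (by omega)
    have := bw (H.succ (by omega)) D.m (by omega) (by omega) le_rfl
    exact good_adj hM (by omega) (by omega) (by omega)
  | k + 1, a, b, r, s, H, hs, hb, hM => by
    obtain ⟨b, rfl⟩ : ∃ c, b = c + 1 := ⟨b - 1, by omega⟩
    have H1 := H.succ (by omega)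
    have Hb : At D.m b r (2 * D.m - s - 2) := H.plus (2 * k + 2) (by omega) (by omega) (by omega)
    have g := good_main k (b := b) H1 (by omega) (by omega) (by omega)
    have a0 := H.fwd (col := D.col) (by omega)
    have a1 := H1.fwd (col := D.col) (by omega)
    have b0 := Hb.bck (col := D.col) (j := s + 2) (by omega) (by omega) (by omega)
    have b1 := (Hb.succ (by omega)).bck (col := D.col) (j := s + 1) (by omega) (by omega) (by omega)
    have e8 := ee_le (cl D.m D.col r (s + 1))
    have s0 := sd_fb H (by omega)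
    have s1 := sd_fb Hb (by omega)
    have s2 := sd_fb (Hb.succ (by omega)) (by omega)
    have h4 := H.1
    refine good_out (g.sy (by omega)) (by omega) hM (by omega) (by omega) ?_ (by omega)
    rw [J, J, if_neg (show ¬ a < 4 by omega), if_neg (show ¬ b < 4 by omega),
      if_neg (show ¬ al D.m D.col a = 0 by omega), if_neg (show ¬ al D.m D.col b = 0 by omega)]
    by_cases c : ee (cl D.m D.col r (s + 1)) = 0
    · rw [if_pos (by omega), if_pos (by omega)]
    · rw [if_neg (by omega), if_neg (by omega), s0, s1]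
      congr 1; omega

theorem sy34 : D.Sy 3 4 := by
  have pv := pre_val D.m D.col
  have pr := D.pre
  have hm := D.hm
  have K := kk (D := D) (at_four D.m) 2 rfl
  have hM : 4 ≤ D.M := by unfold M; omega
  have := cr_adj (D := D) (a := 3) hM (by simp only [Nat.reduceAdd]; omega)
  simp only [Nat.reduceAdd] at this
  exact (this.up (by omega) hM (by omega) (by omega) (by omega) (by omega) (by omega) le_rfl).sy
    (by omega)

theorem good {h : ℕ} (hh : h ≤ D.M) (h5 : 5 ≤ h) : ∃ a, D.Good a h ∧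
    be D.m D.col a ≤ al D.m D.col h ∧ pp D.m h = qq D.m a + 1 ∧ qq D.m h = pp D.m a + 1 := by
  have hm := D.hm
  have pv := pre_val D.m D.col
  have pr := D.pre
  obtain ⟨h, rfl⟩ : ∃ k, h = k + 1 := ⟨h - 1, by omega⟩
  obtain ⟨r, s, H⟩ := at_ex D.m (show 4 ≤ h + 1 by omega)
  by_cases h1 : s < D.m
  · have F := fw H h1
    rcases s with _ | s
    · obtain ⟨r, rfl, H5⟩ := H.unwrap
      have K5 := kk H5 5 rfl
      by_cases c : D.sd h = D.sd (h + 1)
      · exact ⟨h, good_adj hh (by omega) c (by omega), by omega⟩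
      obtain ⟨h, rfl⟩ : ∃ k, h = k + 1 := ⟨h - 1, by omega⟩
      have K4 := kk (At.pred (s := 2 * D.m + 4) H5 (by
        have := Nat.zero_le ((2 * D.m + 6) * r); have := H5.2.2; omega)) 4 rfl
      have := D.hs (r + 1)
      simp at K4 K5
      exact ⟨h, good_out (sy_self _) le_rfl hh (by omega) (by omega) (Prod.ext (by omega) (by omega))
        (by omega), by omega⟩
    · have := fw (H.pred (by omega)) (by omega)
      exact ⟨h, good_adj hh (by omega) (by omega) (by omega), by omega⟩
  by_cases h2 : s < 2 * D.m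
  · have lo := H.low (by omega)
    have Ha : At D.m (h + 1 - (2 * (s - D.m) + 1)) r (2 * D.m - s - 1) :=
      ⟨by omega, by omega, by have := H.2.2; omega⟩
    have := fw Ha (by omega)
    have := bw H (2 * D.m - s) (by omega) (by omega) (by omega)
    exact ⟨_, good_main (s - D.m) Ha (by omega) (by omega) hh, by omega⟩
  obtain ⟨t, rfl⟩ : ∃ t, s = 2 * D.m + t := ⟨s - 2 * D.m, by omega⟩
  have K := kk H t rfl
  have ht : t < 6 := by have := H.2.1; omega
  have k0 : ∀ {a r : ℕ}, At D.m a r (2 * D.m + 5) → a + 2 * D.m + 1 ≤ D.M →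
      D.Good a (a + 2 * D.m + 1) := fun {a r} Ha hM => by
    have H0 := Ha.wrap
    have Hb : At D.m (a + 2 * D.m) (r + 1) (2 * D.m - 1) :=
      H0.plus (2 * D.m - 1) (by omega) (by omega) (by omega)
    have K5 := kk Ha 5 rfl
    have := fw H0 (by omega)
    have := b1 Hb (by omega)
    have := kk (Hb.succ (by omega)) 0 (by omega)
    simp at K5
    exact good_out ((good_main (D.m - 1) H0 (by omega) (by omega) (by omega)).sy (by omega))
      (by omega) hM (by omega) (by omega) (Prod.ext (by omega) (by omega)) (by omega)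
  have back : ∀ k a, t < 2 → a + 2 * D.m + 1 + t + k = h + 1 → k < 2 →
      ∃ r', r = r' + 1 ∧ At D.m a r' (2 * D.m + 5 - k) := fun k a h1 h2 h3 => by
    have lo := H.low (by omega)
    obtain ⟨r, rfl⟩ : ∃ k, r = k + 1 := ⟨r - 1, by omega⟩
    have := H.2.2
    rw [Nat.mul_succ] at this
    exact ⟨r, rfl, by omega, by omega, by omega⟩
  have adj : ∀ {a r t : ℕ}, At D.m a r (2 * D.m + t) → t = 1 ∨ t = 3 → a < D.M →
      D.Good a (a + 1) := fun {a r t} Ha h1 hM => by
    have := kk Ha t rfl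
    have := kk (Ha.succ (by omega)) (t + 1) rfl
    exact good_adj hM (by omega) (by omega) (by omega)
  have nz := Nat.zero_le ((2 * D.m + 6) * r)
  have e := H.2.2
  interval_cases t
  · have lo := H.low (by omega)
    obtain ⟨a, rfl⟩ : ∃ a, h = a + 2 * D.m := ⟨h - 2 * D.m, by omega⟩
    obtain ⟨r, rfl, Ha⟩ := back 0 a (by omega) (by omega) (by omega)
    have := kk Ha 5 rfl
    exact ⟨a, k0 Ha hh, by omega⟩
  · have lo := H.low (by omega)
    obtain ⟨a, rfl⟩ : ∃ a, h = a + 1 + 2 * D.m + 1 := ⟨h - 2 * D.m - 2, by omega⟩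
    obtain ⟨r, rfl, Ha⟩ := back 1 a (by omega) (by omega) (by omega)
    have K4 := kk Ha 4 rfl
    have K5 := kk (Ha.succ (by omega)) 5 rfl
    have K0 := kk (At.pred (s := 2 * D.m) H (by omega)) 0 rfl
    simp at K4 K0
    exact ⟨a, good_out ((k0 (Ha.succ (by omega)) (by omega)).sy (by omega)) (by omega) hh
      (by omega) (by omega) (Prod.ext (by omega) (by omega)) (by omega), by omega⟩
  · have H' := At.pred (s := 2 * D.m + 1) H (by omega)
    have := kk H' 1 rfl
    exact ⟨h, adj H' (by omega) hh, by omega⟩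
  · have H2 := At.pred (s := 2 * D.m + 2) H (by omega)
    have K2 := kk H2 2 rfl
    simp at K2
    by_cases c : h = 4
    · subst c
      have := (at_four D.m).lt H2 le_rfl
      have p1 := congrArg Prod.fst pr.2.2.2.1
      have p2 := congrArg Prod.snd pr.2.2.2.1
      exact ⟨2, good_out sy34 (by omega) hh (by simp only [Nat.reduceAdd]; omega) (by omega)
        (Prod.ext (by omega) (by omega)) (by omega), by omega⟩
    obtain ⟨a, rfl⟩ : ∃ a, h = a + 1 + 1 := ⟨h - 2, by omega⟩
    have H1 := At.pred (s := 2 * D.m + 1) H2 (by omega)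
    have lo := H1.low (by omega)
    have K1 := kk H1 1 rfl
    have K0 := kk (At.pred (s := 2 * D.m) H1 (by omega)) 0 rfl
    simp at K0
    exact ⟨a, good_out (b := a + 1 + 1) ((adj H1 (by omega) (by omega)).sy (by omega)) (by omega) hh
      (by omega) (by omega) (Prod.ext (by omega) (by omega)) (by omega), by omega⟩
  · have H' := At.pred (s := 2 * D.m + 3) H (by omega)
    have := kk H' 3 rfl
    exact ⟨h, adj H' (by omega) hh, by omega⟩
  · obtain ⟨a, rfl⟩ : ∃ a, h = a + 1 + 1 := ⟨h - 2, by omega⟩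
    have H4 := At.pred (h := a + 1 + 1) (s := 2 * D.m + 4) H (by omega)
    have H3 := At.pred (h := a + 1) (s := 2 * D.m + 3) H4 (by omega)
    have K4 := kk H4 4 rfl
    have K3 := kk H3 3 rfl
    have K2 := kk (At.pred (s := 2 * D.m + 2) H3 (by omega)) 2 rfl
    rw [if_neg (by omega), if_neg (by omega)] at K2 K4
    exact ⟨a, good_out (b := a + 1 + 1) ((adj H3 (by omega) (by omega)).sy (by omega)) (by omega) hh
      (by omega) (by omega) (Prod.ext (by omega) (by omega)) (by omega), by omega⟩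

theorem good2 : D.Good 1 2 := by
  have pv := pre_val D.m D.col
  have pr := D.pre
  exact good_adj (a := 1) (by unfold M; omega) (by simp only [Nat.reduceAdd]; omega)
    (by simp only [Nat.reduceAdd]; omega) (by simp only [Nat.reduceAdd]; omega)

theorem ex_loc {h x n : ℕ} (hh : h ≤ D.M) (A : D.U h x n) (h0 : be D.m D.col h = 0) (hx : 0 < x) :
    ∃ i < n, Pal D.wd i n ∧ D.G n = D.G i + 1 := by
  have g := A.G hh
  have := TT_ge D.hm D.col h
  unfold U at A
  by_cases c : 20 * (D.m + 1) < x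
  · obtain ⟨i, rfl⟩ : ∃ i, n = i + 1 := ⟨n - 1, by omega⟩
    have := U.G (D := D) (h := h) (x := x - 1) (i := i) ⟨by omega, by omega, by omega⟩ hh
    have := dd_ramp (m := D.m) (x := x) (by omega)
    have := dd_ramp (m := D.m) (x := x - 1) (by omega)
    exact ⟨i, by omega, pal_one _ _, by omega⟩
  obtain ⟨r, t, rfl, t1, t2⟩ : ∃ r t, x = 20 * r + t ∧ 1 ≤ t ∧ t ≤ 20 :=
    ⟨(x - 1) / 20, (x - 1) % 20 + 1, by omega⟩
  obtain ⟨s, s1, s2, s3⟩ := loc_dec _ (sl_mem (D.st (D.sd h) (r + 1))) t t2 t1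
  obtain ⟨b, rfl⟩ : ∃ b, n = b + t := ⟨n - t, by omega⟩
  have := U.G (D := D) (h := h) (x := 20 * r + s) (i := b + s) ⟨by omega, by omega, by omega⟩ hh
  have := dd_eq (m := D.m) (r := r) (s := s) (by omega) (by omega) rfl
  have := dd_eq (m := D.m) (r := r) (s := t) (by omega) (by omega) rfl
  refine ⟨b + s, by omega, fun p q a1 a2 a3 => ?_, by omega⟩
  rw [D.wU hh p (20 * r + (p + 1 - b)) (by omega) (by omega) (by omega),
    D.wU hh q (20 * r + (s + t + 1 - (p + 1 - b))) (by omega) (by omega) (by omega),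
    D.tau_eq _ (r := r) (by omega) (by omega) (by omega) rfl,
    D.tau_eq _ (r := r) (by omega) (by omega) (by omega) rfl,
    s2 (p + 1 - b) (by omega) (by omega) (by omega)]

theorem explain {n : ℕ} (h0 : 0 < n) (hn : n ≤ TT D.m D.col D.M) :
    ∃ i < n, Pal D.wd i n ∧ D.G n = D.G i + 1 := by
  have hm := D.hm
  have pv := pre_val D.m D.col
  have pr := D.pre
  have hM : 8 ≤ D.M := by unfold M; omega
  have K := kk (D := D) (at_four D.m) 2 rfl
  have T0 := TT_zero (m := D.m) (col := D.col)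
  have t0 := TT_succ hm D.col 0
  have t1 := TT_succ hm D.col 1
  have t2 := TT_succ hm D.col 2
  have t3 := TT_succ hm D.col 3
  simp only [Nat.reduceAdd] at t0 t1 t2 t3
  have d0 : dd D.m 0 = 0 := dd_eq (r := 0) (s := 0) (by omega) (by omega) rfl
  obtain ⟨h, x, hx, a | a⟩ := locate hm D.col n
  · have A : D.U h x n := ⟨a.1, hx, a.2⟩
    have hh := A.le hn
    have g := A.G hh
    have viaG : ∀ b, D.Good b h → pp D.m h = qq D.m b + 1 →
        ∃ i < n, Pal D.wd i n ∧ D.G n = D.G i + 1 := fun b gd e => by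
      have P := gd.cr hh a.1 (by omega)
      have := TT_succ hm D.col b
      have := val_bd hm D.col b
      have := TT_mono hm D.col (show b + 1 ≤ h from gd.1)
      have := gd.2.2.2
      have B : D.Dn b x (TT D.m D.col b + 1 + 20 * (D.m + 2) - x) := ⟨by omega, hx, by omega⟩
      have := B.G (by have := gd.1; omega)
      refine ⟨_, ?_, by unfold Cr at P; convert P using 1; omega, by omega⟩
      rcases Nat.eq_or_lt_of_le (show b + 1 ≤ h from gd.1) with rfl | l
      · omega
      · have := TT_succ hm D.col (b + 1)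
        have := TT_mono hm D.col (show b + 1 + 1 ≤ h by omega)
        have := val_bd hm D.col (b + 1)
        omega
    by_cases h5 : 5 ≤ h
    · obtain ⟨b, gd, -, e, -⟩ := good hh h5
      exact viaG b gd e
    by_cases h2 : h = 2
    · subst h2
      exact viaG 1 good2 (by omega)
    have hb : be D.m D.col h = 0 := by
      have : h < 5 := by omega
      interval_cases h <;> omega
    rcases Nat.eq_zero_or_pos x with rfl | hx0
    swap
    · exact ex_loc hh A hb hx0
    have top : ∀ b i, (b = 0 ∨ b = 3) → h = b + 1 → D.U b 0 i →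
        i < n ∧ Pal D.wd i n ∧ D.G n = D.G i + 1 := fun b i hb' e B => by
      subst e
      have := B.G (by omega)
      have := TT_succ hm D.col b
      have hl : al D.m D.col b = 1 ∧ D.J b = D.tau (D.sd b) 1 ∧ pp D.m (b + 1) = pp D.m b + 1 := by
        rcases hb' with rfl | rfl
        · exact ⟨by omega, by rw [pr.2.1, pr.1.1, tau_one], by simp only [Nat.reduceAdd]; omega⟩
        · exact ⟨by omega, by rw [pr.2.2.2.2, pr.1.2.2.2, tau_one],
            by simp only [Nat.reduceAdd]; omega⟩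
      unfold U at B
      obtain ⟨j, rfl⟩ : ∃ j, n = j + 1 := ⟨n - 1, by omega⟩
      refine ⟨by omega, ((sy_self b).ext le_rfl (by omega) (x := 1) ⟨by omega, by omega, by omega⟩
        ⟨by omega, by omega, by omega⟩).grow ?_, by omega⟩
      rw [D.wU (h := b) (by omega) i 1 (by omega) (by omega) (by omega),
        D.wJ (h := b) (by omega) j (by omega), hl.2.1]
    have : h < 5 := by omega
    interval_cases h
    · omega
    · exact ⟨0, top 0 0 (by omega) rfl ⟨by omega, by omega, by omega⟩⟩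
    · omega
    · have P := Sy.out (D := D) (a := 1) (sy_self 2) le_rfl (by omega)
        (by simp only [Nat.reduceAdd]; omega) (by simp only [Nat.reduceAdd]; omega)
        (by rw [pr.2.2.1, pr.2.2.2.1])
      have B : D.Dn 1 0 (TT D.m D.col 1 + 1 + 20 * (D.m + 2)) := ⟨by omega, by omega, rfl⟩
      have := B.G (by omega)
      unfold Cr at P
      simp only [Nat.reduceAdd] at P
      exact ⟨TT D.m D.col 1 + 1 + 20 * (D.m + 2), by omega, by convert P using 1 <;> omega, by omega⟩
    · exact ⟨TT D.m D.col 3 - 20 * (D.m + 2), top 3 _ (by omega) rfl ⟨by omega, by omega, by omega⟩⟩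
  · have A : D.Dn h x n := ⟨a.1, hx, a.2⟩
    have hh := A.lt hn
    have g := A.G hh.le
    obtain ⟨b, b1, b2, b3, b4⟩ : ∃ b, b ≤ h ∧ D.Sy b h ∧ be D.m D.col b ≤ al D.m D.col h ∧
        qq D.m h = pp D.m b + 1 := by
      by_cases h5 : 5 ≤ h
      · obtain ⟨b, gd, e1, -, e2⟩ := good hh.le h5
        exact ⟨b, gd.1.le, gd.sy hh.le, e1, e2⟩
      have : h < 5 := by omega
      interval_cases h
      · exact ⟨0, le_rfl, sy_self _, by omega, by omega⟩
      · have := cr_adj (D := D) (a := 0) (by omega) (by simp only [Nat.reduceAdd]; omega)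
        simp only [Nat.reduceAdd] at this
        exact ⟨0, by omega, (this.up (by omega) hh.le (by omega) (by omega) (by omega) (by omega)
          (by omega) le_rfl).sy (by omega), by omega, by omega⟩
      · exact ⟨1, by omega, good2.sy hh.le, by omega, by omega⟩
      · exact ⟨3, le_rfl, sy_self _, by omega, by omega⟩
      · exact ⟨3, by omega, sy34, by omega, by omega⟩
    have := TT_mono hm D.col b1
    have := TT_ge hm D.col b
    have B : D.U b x (TT D.m D.col b + x - 20 * (D.m + 2)) := ⟨by omega, hx, by omega⟩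
    have := B.G (by omega)
    exact ⟨_, by omega, b2.ext b1 hh.le B A, by omega⟩

theorem ppl_wd (D : Dat) : ∀ n, n ≤ TT D.m D.col D.M → PPL D.wd n = D.G n := by
  refine cert ?_ (fun i j a b c => upper a b c) fun j a b => explain a b
  have pv := pre_val D.m D.col
  have := U.G (D := D) (h := 0) (x := 0) (i := 0) ⟨by omega, by omega, by rw [TT_zero]; omega⟩
    (by omega)
  have d0 : dd D.m 0 = 0 := dd_eq (r := 0) (s := 0) (by omega) (by omega) rfl
  omega

end Dat

theorem complete {m nr : ℕ} {col : ℕ → ℕ → ℕ} (hm : 2 ≤ m) (h : Split m nr col) :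
    ∃ u : ℕ → ℕ × ℕ, Ctx m col (8 + (2 * m + 6) * nr) u := by
  obtain ⟨side, st, h⟩ := h
  let D : Dat := ⟨m, nr, col, fun r => if side r then 1 else 0, fun σ j => st (decide (σ = 1)) j, hm,
    fun r => by split_ifs <;> omega, fun r j r1 r2 e => by
      have hj : 2 ≤ j ∧ j < m := by
        by_contra c
        exact e (by rw [cl, if_neg c]; rfl)
      rw [cl, if_pos hj] at e ⊢
      have a := (h j hj.1 hj.2).1 (side r)
      have b := (h j hj.1 hj.2).2 r r1 r2
      have : decide ((if side r then 1 else 0) = 1) = side r := by cases side r <;> rfl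
      rw [this]
      have c : col r j = 1 ∨ col r j = 2 ∨ col r j = 3 := by
        revert e; unfold ee; split_ifs <;> omega
      rcases a with a | a | a <;> rcases c with c | c | c <;> rw [a, c] <;>
        first | decide | exact absurd (c.trans a.symm) b⟩
  exact ⟨D.wd, hm, D.ppl_wd⟩

end Pool.Agent.Lib.MP_9cc368_co
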