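import Pool.Agent.Lib.MP_9cc368_co.NpRed
import Pool.Agent.Lib.MP_9cc368_co.NpDefs

/-! Hardness and membership in `NP`. -/

namespace Pool.Agent.Lib.MP_9cc368_co

open Pool.Agent.Lib.Complexity N487b59b3 N68a2faeb N793a5b8e

section pt
variable {α : Type} [Enc α] {m r j h n M : α → ℕ} {L : α → List Tr}

@[fun_prop] theorem pt_dd (hm : PT m) (hn : PT n) : PT fun a => dd (m a) (n a) := by
  unfold dd dl; fun_prop

@[fun_prop] theorem pt_ee (hn : PT n) : PT fun a => ee (n a) := by unfold ee; fun_prop

@[fun_prop] theorem pt_cl (hm : PT m) (hL : PT L) (hr : PT r) (hj : PT j) :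
    PT fun a => cl (m a) (colL (L a)) (r a) (j a) := by
  unfold cl colL colT; fun_prop

@[fun_prop] theorem pt_rho (hm : PT m) (hh : PT h) : PT fun a => rho (m a) (h a) := by
  unfold rho; fun_prop

@[fun_prop] theorem pt_ss (hm : PT m) (hh : PT h) : PT fun a => ss (m a) (h a) := by
  unfold ss; fun_prop

theorem pt_be (hm : PT m) (hL : PT L) (hh : PT h) : PT fun a => be (m a) (colL (L a)) (h a) := by
  have := pt_cl hm hL (pt_rho hm hh) (j := fun a => 2 * m a - ss (m a) (h a)) (by fun_prop)
  unfold be; fun_prop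

theorem pt_al (hm : PT m) (hL : PT L) (hh : PT h) : PT fun a => al (m a) (colL (L a)) (h a) := by
  have := pt_cl hm hL (pt_rho hm hh) (j := fun a => ss (m a) (h a) + 1) (by fun_prop)
  unfold al; fun_prop

@[fun_prop] theorem pt_pp (hm : PT m) (hh : PT h) : PT fun a => pp (m a) (h a) := by
  unfold pp; fun_prop

@[fun_prop] theorem pt_qq (hm : PT m) (hh : PT h) : PT fun a => qq (m a) (h a) := by
  unfold qq; fun_prop

end pt

theorem pt_TT {α : Type} [Enc α] {m h : α → ℕ} {L : α → List Tr} (hm : PT m) (hL : PT L)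
    (hh : PT h) : PT fun a => TT (m a) (colL (L a)) (h a) := by
  unfold TT
  refine PT.add (by fun_prop) (PT.list_sum (PT.map (by fun_prop) (PT.sub (PT.sub (by fun_prop) ?_) ?_)))
  · exact pt_al (by fun_prop) (by fun_prop) (by fun_prop)
  · exact pt_be (by fun_prop) (by fun_prop) (by fun_prop)

theorem pt_hump {α : Type} [Enc α] {m M n : α → ℕ} {L : α → List Tr} (hm : PT m) (hL : PT L)
    (hM : PT M) (hn : PT n) : PT fun a => hump (m a) (colL (L a)) (M a) (n a) := by
  unfold hump
  refine PT.countP (by fun_prop) (PT.dec_lt (PT.add (PT.add ?_ (by fun_prop)) (by fun_prop))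
    (PT.add (by fun_prop) ?_))
  · exact pt_TT (by fun_prop) (by fun_prop) (by fun_prop)
  · exact pt_al (by fun_prop) (by fun_prop) (by fun_prop)

theorem pt_GG {α : Type} [Enc α] {m M n : α → ℕ} {L : α → List Tr} (hm : PT m) (hL : PT L)
    (hM : PT M) (hn : PT n) : PT fun a => GG (m a) (colL (L a)) (M a) (n a) := by
  have h1 := pt_hump hm hL hM hn
  have h2 := pt_TT hm hL h1
  unfold GG
  exact PT.ite (PT.dec_le hn h2) (PT.add (pt_pp hm h1) (pt_dd hm (PT.sub (by fun_prop) h2)))
    (PT.add (pt_qq hm h1) (pt_dd hm (PT.sub (PT.add (PT.add h2 (by fun_prop)) (by fun_prop)) hn)))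

theorem pt_locs : PT locs := by
  have := pt_top
  unfold locs cls lit
  fun_prop

def outM (φ : CNF) : ℕ := 8 + (2 * ((locs φ).length + 2) + 6) * (6 + 2 * φ.top + φ.length)

def out (φ : CNF) : List ℕ :=
  (List.range (TT ((locs φ).length + 2) (colL (locs φ)) (outM φ) + 1)).map
    (GG ((locs φ).length + 2) (colL (locs φ)) (outM φ))

theorem pt_out : PT out := by
  have h1 := pt_locs
  have h2 : PT outM := by
    have := pt_top
    unfold outM; fun_prop
  unfold out
  exact PT.map (PT.range (PT.add (pt_TT (by fun_prop) h1 h2) (by fun_prop)))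
    (pt_GG (by fun_prop) (by fun_prop) (by fun_prop) (by fun_prop))

/-- The list `F` is the list of the first values of some realisable function. -/
def IsPre (F : List ℕ) : Prop := ∃ f ∈ Realisable, ∀ (n : ℕ) (h : n < F.length), F[n] = f n

theorem extend_real {α : Type} (u : ℕ → α) {F : List ℕ} (h0 : F ≠ [])
    (h : ∀ (n : ℕ) (h : n < F.length), F[n] = PPL u n) : extend F ∈ Realisable := by
  have hl := List.length_pos_iff.2 h0
  refine real_of_word u (N := F.length - 1) (fun n hn => ?_) fun n hn => ?_
  · rw [extend, dif_pos (by omega), h]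
  · rw [extend, extend, dif_neg (by omega)]
    split_ifs with c
    · obtain rfl : n = F.length - 1 := by omega
      rw [List.getLastD_eq_getLast?, List.getLast?_eq_getElem?, List.getElem?_eq_getElem c,
        Option.getD_some]
      omega
    · omega

theorem isPre_iff {F : List ℕ} : IsPre F ↔
    ∃ (α : Type) (u : ℕ → α), ∀ (n : ℕ) (h : n < F.length), F[n] = PPL u n := by
  constructor
  · rintro ⟨f, ⟨k, u, rfl⟩, h⟩
    exact ⟨_, u, h⟩
  · rintro ⟨α, u, h⟩
    by_cases h0 : F = []
    · subst h0
      exact ⟨_, ⟨1, fun _ => 0, rfl⟩, by simp⟩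
    · exact ⟨_, extend_real u h0 h, fun n hn => by rw [extend, dif_pos hn]⟩

theorem extend_iff {F : List ℕ} : extend F ∈ Realisable ↔ 0 < F.length ∧ IsPre F := by
  refine ⟨fun h => ⟨?_, _, h, fun n hn => by rw [extend, dif_pos hn]⟩, fun h =>
    let ⟨_, u, hu⟩ := isPre_iff.1 h.2; extend_real u (List.length_pos_iff.1 h.1) hu⟩
  rcases F with _ | ⟨a, F⟩
  · obtain ⟨k, u, e⟩ := h
    have := congrFun e 0
    rw [ppl_zero] at this
    cases this
  · simp

theorem out_iff {φ : CNF} (h3 : ∀ c ∈ φ, c.length = 3) : (∃ v, φ.Sat v) ↔ IsPre (out φ) := by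
  rw [sat_iff h3, ← split_iff (locs_wf h3), isPre_iff]
  constructor
  · intro h
    obtain ⟨u, C⟩ := complete (by omega) h
    refine ⟨_, u, fun n hn => ?_⟩
    simp only [out, List.length_map, List.length_range] at hn
    simp only [out, List.getElem_map, List.getElem_range]
    exact (C.eq n (Nat.le_of_lt_succ hn)).symm
  · rintro ⟨α, u, h⟩
    refine Ctx.split (u := u) ⟨by omega, fun n hn => ?_⟩
    have := h n (by simpa [out, outM] using Nat.lt_succ_of_le hn)
    simp only [out, List.getElem_map, List.getElem_range] at this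
    exact this.symm

theorem lang_enc (F : List ℕ) : lang (bitEncode F) = true ↔ extend F ∈ Realisable := by
  simp only [lang, decide_eq_true_eq]
  refine ⟨fun ⟨F', e, h⟩ => ?_, fun h => ⟨F, rfl, h⟩⟩
  have := congrArg (bitDecode : _ → Option (List ℕ)) e
  rw [bitDecode_bitEncode, bitDecode_bitEncode, Option.some.injEq] at this
  rwa [this]

theorem down_cast (l : List ℕ) : (Rep.down (l.map fun n : ℕ => (n : ℤ)) : List ℕ) = l := by
  simp [Function.comp_def]

theorem lang_hard : ∀ L ∈ NP, ManyOneReducible L lang := by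
  refine HardPT.manyOne (β := List ℕ) (Q := fun F => extend F ∈ Realisable) ?_ lang_enc
  refine hard_3sat.reduce (f := fun φ => (out φ.1).map fun n : ℕ => (n : ℤ)) ?_ fun φ => ?_
  · exact PT.map (pt_out.comp (by fun_prop)) (by fun_prop)
  · rw [down_cast, extend_iff, out_iff φ.2]
    simp [out]

def palb (w : List ℕ) (i j : ℕ) : Bool :=
  (List.range (j - i)).all fun t => decide (w.getD (i + t) 0 = w.getD (j - 1 - t) 0)

theorem palb_iff {w : List ℕ} {i j : ℕ} : palb w i j = true ↔ Pal (fun n => w.getD n 0) i j := by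
  simp only [palb, List.all_eq_true, List.mem_range, decide_eq_true_eq]
  refine ⟨fun h s t hs ht e => ?_, fun h t ht => h _ _ (by omega) (by omega) (by omega)⟩
  have := h (s - i) (by omega)
  rwa [show i + (s - i) = s by omega, show j - 1 - (s - i) = t by omega] at this

def check (F w : List ℕ) : Bool :=
  decide (F.getD 0 0 = 0) && (List.range F.length).all fun j =>
    ((List.range j).all fun i => !palb w i j || decide (F.getD j 0 ≤ F.getD i 0 + 1)) &&
    (decide (j = 0) || (List.range j).any fun i => palb w i j && decide (F.getD j 0 = F.getD i 0 + 1))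

theorem pt_check : PT fun x : List ℕ × List ℕ => check x.1 x.2 := by
  unfold check palb
  fun_prop

theorem check_iff {F w : List ℕ} : check F w = true ↔
    ∀ (n : ℕ) (h : n < F.length), F[n] = PPL (fun n => w.getD n 0) n := by
  simp only [check, Bool.and_eq_true, decide_eq_true_eq, List.all_eq_true, List.mem_range,
    Bool.or_eq_true, Bool.not_eq_true', List.any_eq_true, palb_iff]
  constructor
  · rintro ⟨h0, h⟩ n hn
    rw [cert (f := fun n => F.getD n 0) (N := n) h0 (fun i j a b c => ?_) (fun j a b => ?_) n le_rfl]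
    · simp [hn]
    · rcases (h j (by omega)).1 i a with d | d
      · rw [palb_iff.2 c] at d; cases d
      · exact d
    · rcases (h j (by omega)).2 with d | d
      · omega
      · exact d
  · intro h
    have e : ∀ n < F.length, F.getD n 0 = PPL (fun n => w.getD n 0) n := fun n hn => by
      rw [← h n hn]; simp [hn]
    refine ⟨?_, fun j hj => ⟨fun i hi => ?_, ?_⟩⟩
    · rcases F with _ | ⟨a, F⟩
      · rfl
      · rw [e 0 (by simp), ppl_zero]
    · cases c : palb w i j
      · exact .inl rfl
      · rw [e j hj, e i (by omega)]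
        exact .inr (ppl_step hi.le (palb_iff.1 c))
    · rcases Nat.eq_zero_or_pos j with d | d
      · exact .inl d
      · obtain ⟨i, hi, P, d⟩ := ppl_ex (fun n => w.getD n 0) d
        exact .inr ⟨i, hi, P, by rw [e j hj, e i (by omega), d]⟩

theorem ppl_le {α : Type} (u : ℕ → α) : ∀ n, PPL u n ≤ n
  | 0 => (ppl_zero u).le
  | n + 1 => (ppl_step (by omega) (pal_one u n)).trans (by have := ppl_le u n; omega)

theorem small_word {α : Type} (u : ℕ → α) (N : ℕ) : ∃ w : List ℕ, w.length = N ∧
    (∀ a ∈ w, a ≤ N) ∧ ∀ n, n ≤ N → PPL (fun n => w.getD n 0) n = PPL u n := by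
  classical
  have ex : ∀ n, ∃ i, u i = u n := fun n => ⟨n, rfl⟩
  refine ⟨(List.range N).map fun n => Nat.find (ex n), by simp, fun a ha => ?_, ?_⟩
  · obtain ⟨n, hn, rfl⟩ := List.mem_map.1 ha
    exact (Nat.find_min' (ex n) rfl).trans (List.mem_range.1 hn).le
  have hP : ∀ i j, j ≤ N → (Pal (fun n => ((List.range N).map fun n => Nat.find (ex n)).getD n 0) i j
      ↔ Pal u i j) := fun i j hj => by
    refine forall₅_congr fun s t hs ht e => ?_
    have h1 : s < N := by omega
    have h2 : t < N := by omega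
    simp only [List.getD_eq_getElem?_getD, List.getElem?_map, List.getElem?_range h1,
      List.getElem?_range h2, Option.map_some, Option.getD_some]
    exact ⟨fun e => by rw [← Nat.find_spec (ex s), ← Nat.find_spec (ex t), e],
      fun e => by simp only [e]⟩
  refine cert (ppl_zero u) (fun i j a b c => ppl_step a.le ((hP i j b).1 c)) fun j a b => ?_
  obtain ⟨i, hi, P, e⟩ := ppl_ex u a
  exact ⟨i, hi, (hP i j b).2 P, e⟩

theorem lang_mem_NP : lang ∈ NP := by
  refine mem_NP_of_rd (W := List ℕ × List ℕ)
    (R := fun x => decide (x.1 = bitEncode x.2.1) &&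
      (decide (0 < x.2.1.length) && check x.2.1 x.2.2)) ?_
    (2 * (Polynomial.X * (Polynomial.X + 1)) + 1) ?_ ?_
  · refine PT.and (PT.dec_eq (by fun_prop) ?_) (PT.and (by fun_prop) (pt_check.comp (by fun_prop)))
    exact (PT.encode (List ℕ) (f := fun x : Str × List ℕ × List ℕ =>
      x.2.1.map fun n : ℕ => (n : ℤ)) (by fun_prop)).of_eq fun x => by rw [down_cast]
  · rintro s ⟨F, w⟩ h
    simp only [Bool.and_eq_true, decide_eq_true_eq] at h
    rw [h.1, lang_enc, extend_iff, isPre_iff]
    exact ⟨h.2.1, _, _, check_iff.1 h.2.2⟩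
  · intro s hs
    simp only [lang, decide_eq_true_eq] at hs
    obtain ⟨F, rfl, h⟩ := hs
    obtain ⟨h0, h⟩ := extend_iff.1 h
    obtain ⟨α, u, h⟩ := isPre_iff.1 h
    obtain ⟨w, w1, w2, w3⟩ := small_word u F.length
    have hn : F.length ≤ (bitEncode F).length := by
      have := length_le_length_flatten_delimit (F.map bitEncode)
      rwa [List.length_map] at this
    refine ⟨(F, w), ?_, ?_⟩
    · have h1 := sz_list_le (l := F) (B := F.length) fun a ha => by
        obtain ⟨n, hn, rfl⟩ := List.getElem_of_mem ha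
        have := ppl_le u n
        rw [sz_nat, h n hn]
        omega
      have h2 := sz_list_le (l := w) (B := F.length) fun a ha => by
        rw [sz_nat]; exact w2 a ha
      rw [w1] at h2
      refine le_trans ?_ (peval_mono _ hn)
      simp only [sz_pair, Polynomial.eval_add, Polynomial.eval_mul, Polynomial.eval_X,
        Polynomial.eval_ofNat, Polynomial.eval_one]
      omega
    · simp only [Bool.and_eq_true, decide_eq_true_eq, true_and]
      exact ⟨h0, check_iff.2 fun n hn => by rw [w3 n hn.le, h n hn]⟩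

end Pool.Agent.Lib.MP_9cc368_co
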