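import Pool.Agent.Lib.MP_9cc368_co.NpBase

/-! The shape of the function used in the hardness proof: humps with a common profile. -/

namespace Pool.Agent.Lib.MP_9cc368_co

def dl (s : ℕ) : ℕ := [0, 1, 2, 3, 2, 3, 4, 3, 4, 5, 4, 3, 4, 5, 4, 3, 4, 3, 4, 5].getD s 4

def dd (m x : ℕ) : ℕ := if x ≤ 20 * (m + 1) then 4 * (x / 20) + dl (x % 20) else x - 16 * (m + 1)

theorem dd_eq {m r s x : ℕ} (hr : r ≤ m) (hs : s ≤ 20) (e : x = 20 * r + s) :
    dd m x = 4 * r + dl s := by
  subst e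
  rw [dd, if_pos (by omega)]
  rcases Nat.eq_or_lt_of_le hs with rfl | h
  · rw [show (20 * r + 20) / 20 = r + 1 by omega, show (20 * r + 20) % 20 = 0 by omega]; rfl
  · rw [show (20 * r + s) / 20 = r by omega, show (20 * r + s) % 20 = s by omega]

theorem dd_ramp {m x : ℕ} (h : 20 * (m + 1) ≤ x) : dd m x + 16 * (m + 1) = x := by
  rcases Nat.eq_or_lt_of_le h with rfl | h'
  · rw [dd_eq (r := m) (s := 20) le_rfl le_rfl (by omega)]
    show 4 * m + 4 + _ = _
    omega
  · rw [dd, if_neg (by omega)]; omega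

theorem dl_bd : ∀ s < 20, s ≤ 5 * dl s + 2 ∧ 5 * dl s ≤ s + 16 ∧ (4 ≤ s → 2 ≤ dl s) ∧
    (5 ≤ s → 3 ≤ dl s) ∧ (18 ≤ s → 4 ≤ dl s) ∧ dl s ≤ 5 := by decide

theorem dd_cases (m x : ℕ) : (20 * (m + 1) ≤ x ∧ dd m x + 16 * (m + 1) = x) ∨
    ∃ r s, r ≤ m ∧ s < 20 ∧ x = 20 * r + s ∧ dd m x = 4 * r + dl s := by
  by_cases h : 20 * (m + 1) ≤ x
  · exact .inl ⟨h, dd_ramp h⟩
  · exact .inr ⟨x / 20, x % 20, by omega, by omega, by omega,
      dd_eq (by omega) (by omega) (by omega)⟩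

theorem dd_lo (m x : ℕ) : x ≤ 5 * dd m x + 2 := by
  rcases dd_cases m x with ⟨h, e⟩ | ⟨r, s, hr, hs, e, e'⟩
  · omega
  · have := dl_bd s hs; omega

theorem dd_hi {m x : ℕ} (h : x ≤ 20 * (m + 1)) : 5 * dd m x ≤ x + 16 := by
  rcases dd_cases m x with ⟨h, e⟩ | ⟨r, s, hr, hs, e, e'⟩
  · omega
  · have := dl_bd s hs; omega

theorem dd_per (m x : ℕ) : dd m x + 4 ≤ dd m (x + 20) ∧
    (x ≤ 20 * m → dd m x + 4 = dd m (x + 20)) := by
  rcases dd_cases m x with ⟨h, e⟩ | ⟨r, s, hr, hs, e, e'⟩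
  · have := dd_ramp (m := m) (x := x + 20) (by omega); omega
  · rcases Nat.eq_or_lt_of_le hr with rfl | h
    · have := dd_ramp (m := r) (x := x + 20) (by omega)
      have := dl_bd s hs
      have h0 : s = 0 → dl s = 0 := by rintro rfl; rfl
      have h1 : dl s ≤ s := by interval_cases s <;> decide
      omega
    · have := dd_eq (m := m) (r := r + 1) (s := s) (x := x + 20) h hs.le (by omega); omega

/-- lower bounds above a given depth -/
theorem dd_ge {m r y : ℕ} (hr : r ≤ m) : (20 * r ≤ y → 4 * r ≤ dd m y) ∧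
    (20 * r + 4 ≤ y → 4 * r + 2 ≤ dd m y) ∧ (20 * r + 5 ≤ y → 4 * r + 3 ≤ dd m y) ∧
    (20 * r + 18 ≤ y → 4 * r + 4 ≤ dd m y) := by
  rcases dd_cases m y with ⟨h, e⟩ | ⟨r', s, hr', hs, e, e'⟩
  · omega
  · have := dl_bd s hs; omega

def ee (c : ℕ) : ℕ := if c = 1 then 2 else if c = 2 then 4 else if c = 3 then 8 else 0

theorem ee_le (c : ℕ) : ee c ≤ 8 := by unfold ee; split_ifs <;> omega

section
variable (m : ℕ) (col : ℕ → ℕ → ℕ)

def cl (r j : ℕ) : ℕ := if 2 ≤ j ∧ j < m then col r j else 0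
def rho (h : ℕ) : ℕ := (h + 2 * m - 2) / (2 * m + 6)
def ss (h : ℕ) : ℕ := (h + 2 * m - 2) % (2 * m + 6)

def be (h : ℕ) : ℕ :=
  if h < 4 then 0 else if ss m h < m then 20 * ss m h else if ss m h < 2 * m then
    20 * (2 * m - ss m h) - ee (cl m col (rho m h) (2 * m - ss m h)) else 0

def al (h : ℕ) : ℕ :=
  if h < 4 then (if h = 0 ∨ h = 3 then 1 else 0) else if ss m h < m then
    20 * (ss m h + 1) - ee (cl m col (rho m h) (ss m h + 1)) else if ss m h < 2 * m then
    20 * (2 * m - ss m h - 1) else 0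

def pp (h : ℕ) : ℕ :=
  if h < 4 then (if h = 3 then 2 else h) else 1 + 3 * rho m h +
    (if ss m h < m then ss m h + 1 else if ss m h < 2 * m then 2 * m - ss m h + 1
      else 1 + (ss m h - 2 * m) / 2)

def qq (h : ℕ) : ℕ := if h = 0 ∨ h = 3 then pp m h + 1 else pp m h

/-- the last cut of the rising leg of hump `h` -/
def TT (h : ℕ) : ℕ := 20 * (m + 2) +
  ((List.range h).map fun i => 2 + 40 * (m + 2) - al m col i - be m col (i + 1)).sum

def At (h r s : ℕ) : Prop := 4 ≤ h ∧ s < 2 * m + 6 ∧ h + 2 * m = (2 * m + 6) * r + s + 2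

variable {m col}

theorem At.rs {h r s : ℕ} (H : At m h r s) : rho m h = r ∧ ss m h = s := by
  obtain ⟨-, h1, h2⟩ := H
  have e : h + 2 * m - 2 = s + (2 * m + 6) * r := by omega
  rw [rho, ss, e, Nat.add_mul_div_left _ _ (by omega), Nat.add_mul_mod_self_left,
    Nat.div_eq_of_lt h1, Nat.mod_eq_of_lt h1]
  simp

theorem at_ex (m : ℕ) {h : ℕ} (H : 4 ≤ h) : ∃ r s, At m h r s :=
  ⟨rho m h, ss m h, H, Nat.mod_lt _ (by omega), by
    have := Nat.div_add_mod (h + 2 * m - 2) (2 * m + 6)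
    unfold rho ss; omega⟩

theorem At.succ {h r s : ℕ} (H : At m h r s) (hs : s + 1 < 2 * m + 6) : At m (h + 1) r (s + 1) :=
  ⟨by have := H.1; omega, hs, by have := H.2.2; omega⟩

theorem At.wrap {h r : ℕ} (H : At m h r (2 * m + 5)) : At m (h + 1) (r + 1) 0 :=
  ⟨by have := H.1; omega, by omega, by have := H.2.2; rw [Nat.mul_succ]; omega⟩

theorem At.lt {h r s h' r' s' : ℕ} (H : At m h r s) (H' : At m h' r' s') (hl : h' ≤ h) :
    r' < r ∨ (r' = r ∧ s' ≤ s ∧ h' + s = h + s') := by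
  obtain ⟨-, h1, h2⟩ := H
  obtain ⟨-, h3, h4⟩ := H'
  rcases lt_trichotomy r' r with h | rfl | h
  · exact .inl h
  · exact .inr ⟨rfl, by omega, by omega⟩
  · have := Nat.mul_le_mul_left (2 * m + 6) (Nat.succ_le_of_lt h)
    rw [Nat.mul_succ] at this
    omega

theorem At.zero {h s : ℕ} (H : At m h 0 s) : 2 * m + 2 ≤ s ∧ h + 2 * m = s + 2 := by
  obtain ⟨h0, h1, h2⟩ := H
  omega

theorem At.fwd {h r s : ℕ} (H : At m h r s) (hs : s < m) : be m col h = 20 * s ∧
    al m col h + ee (cl m col r (s + 1)) = 20 * (s + 1) ∧ pp m h = 3 * r + s + 2 ∧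
    qq m h = pp m h := by
  have h4 := H.1
  have := ee_le (cl m col r (s + 1))
  simp only [be, al, qq, pp, H.rs.1, H.rs.2, if_neg (show ¬ h < 4 by omega), if_pos hs,
    if_neg (show ¬ (h = 0 ∨ h = 3) by omega)]
  refine ⟨trivial, ?_, ?_, trivial⟩ <;> omega

theorem At.bck {h r s j : ℕ} (H : At m h r s) (hs : s + j = 2 * m) (h1 : 1 ≤ j) (h2 : j ≤ m) :
    be m col h + ee (cl m col r j) = 20 * j ∧ al m col h + 20 = 20 * j ∧
    pp m h = 3 * r + j + 2 ∧ qq m h = pp m h := by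
  have h4 := H.1
  have := ee_le (cl m col r j)
  simp only [be, al, qq, pp, H.rs.1, H.rs.2, if_neg (show ¬ h < 4 by omega),
    if_neg (show ¬ s < m by omega), if_pos (show s < 2 * m by omega),
    if_neg (show ¬ (h = 0 ∨ h = 3) by omega), show 2 * m - s = j by omega]
  refine ⟨?_, ?_, ?_, trivial⟩ <;> omega

theorem At.bas {h r s : ℕ} (H : At m h r s) (hs : 2 * m ≤ s) :
    be m col h = 0 ∧ al m col h = 0 ∧ pp m h = 3 * r + 2 + (s - 2 * m) / 2 ∧
    qq m h = pp m h := by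
  have h4 := H.1
  simp only [be, al, qq, pp, H.rs.1, H.rs.2, if_neg (show ¬ h < 4 by omega),
    if_neg (show ¬ s < m by omega), if_neg (show ¬ s < 2 * m by omega),
    if_neg (show ¬ (h = 0 ∨ h = 3) by omega)]
  refine ⟨trivial, trivial, ?_, trivial⟩; omega

theorem pre_val (m : ℕ) (col : ℕ → ℕ → ℕ) :
    (be m col 0 = 0 ∧ al m col 0 = 1 ∧ pp m 0 = 0 ∧ qq m 0 = 1) ∧
    (be m col 1 = 0 ∧ al m col 1 = 0 ∧ pp m 1 = 1 ∧ qq m 1 = 1) ∧
    (be m col 2 = 0 ∧ al m col 2 = 0 ∧ pp m 2 = 2 ∧ qq m 2 = 2) ∧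
    (be m col 3 = 0 ∧ al m col 3 = 1 ∧ pp m 3 = 2 ∧ qq m 3 = 3) := by
  simp [be, al, pp, qq]

theorem cl_one (r : ℕ) : ee (cl m col r 1) = 0 ∧ ee (cl m col r m) = 0 := by
  simp [cl, ee]

theorem at_four (m : ℕ) : At m 4 0 (2 * m + 2) := ⟨le_rfl, by omega, by omega⟩

/-- The valley after hump `h`: at the base, or a probe at location `j`. -/
theorem valley (hm : 2 ≤ m) (col : ℕ → ℕ → ℕ) (h : ℕ) :
    (be m col (h + 1) = 0 ∧ al m col h ≤ 1 ∧ al m col (h + 1) ≤ 20 ∧
      qq m h ≤ pp m (h + 1) + 1 ∧ pp m (h + 1) ≤ qq m h + 1) ∨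
    ∃ r s j, At m h r s ∧ 1 ≤ j ∧ j ≤ m ∧ pp m (h + 1) = 3 * r + j + 2 ∧
      ((s + 1 = j ∧ be m col (h + 1) = 20 * j ∧ al m col h + ee (cl m col r j) = 20 * j ∧
        qq m h + 1 = pp m (h + 1)) ∨
      (s + j + 1 = 2 * m ∧ j < m ∧ al m col h = 20 * j ∧
        be m col (h + 1) + ee (cl m col r j) = 20 * j ∧ qq m h = pp m (h + 1) + 1)) := by
  have hp := pre_val m col
  by_cases h4 : h < 4
  · have := (at_four m).bas (col := col) (by omega)
    left
    interval_cases h <;> simp only [Nat.reduceAdd] <;> omega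
  obtain ⟨r, s, H⟩ := at_ex m (show 4 ≤ h by omega)
  have hs := H.2.1
  have c1 := cl_one (m := m) (col := col) r
  by_cases h1 : s + 1 < m
  · have := H.fwd (col := col) (by omega)
    have := (H.succ (by omega)).fwd (col := col) h1
    exact .inr ⟨r, s, s + 1, H, by omega, by omega, by omega, .inl (by omega)⟩
  by_cases h2 : s + 1 = m
  · have a := H.fwd (col := col) (by omega)
    have := (H.succ (by omega)).bck (col := col) (j := m) (by omega) (by omega) le_rfl
    rw [h2] at a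
    exact .inr ⟨r, s, m, H, by omega, by omega, by omega, .inl (by omega)⟩
  by_cases h3 : s + 1 < 2 * m
  · have := H.bck (col := col) (j := 2 * m - s) (by omega) (by omega) (by omega)
    have := (H.succ (by omega)).bck (col := col) (j := 2 * m - s - 1) (by omega) (by omega)
      (by omega)
    exact .inr ⟨r, s, 2 * m - s - 1, H, by omega, by omega, by omega, .inr (by omega)⟩
  left
  by_cases h5 : s + 1 = 2 * m
  · have := H.bck (col := col) (j := 1) h5 le_rfl (by omega)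
    have := (H.succ (by omega)).bas (col := col) (by omega)
    omega
  by_cases h6 : s = 2 * m + 5
  · subst h6
    have := H.bas (col := col) (by omega)
    have := H.wrap.fwd (col := col) (by omega)
    have := cl_one (m := m) (col := col) (r + 1)
    simp only [Nat.zero_add] at *
    omega
  · have := H.bas (col := col) (by omega)
    have := (H.succ (by omega)).bas (col := col) (by omega)
    omega

theorem val_bd (hm : 2 ≤ m) (col : ℕ → ℕ → ℕ) (h : ℕ) :
    al m col h ≤ 20 * m ∧ be m col (h + 1) ≤ 20 * m ∧ al m col h ≤ be m col (h + 1) + 8 ∧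
    be m col (h + 1) ≤ al m col h + 8 ∧ qq m h ≤ pp m (h + 1) + 1 ∧ pp m (h + 1) ≤ qq m h + 1 := by
  rcases valley hm col h with a | ⟨r, s, j, -, a, b, c, d⟩
  · omega
  · have := ee_le (cl m col r j); omega

theorem be_bd (hm : 2 ≤ m) (col : ℕ → ℕ → ℕ) (h : ℕ) : be m col h ≤ 20 * m := by
  rcases h with _ | h
  · rw [(pre_val m col).1.1]; omega
  · exact (val_bd hm col h).2.1

theorem qq_bd (m h : ℕ) : pp m h ≤ qq m h ∧ qq m h ≤ pp m h + 1 ∧
    (qq m h = pp m h + 1 → h = 0 ∨ h = 3) := by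
  unfold qq; split_ifs <;> omega

theorem TT_zero : TT m col 0 = 20 * (m + 2) := by simp [TT]

theorem TT_succ (hm : 2 ≤ m) (col : ℕ → ℕ → ℕ) (h : ℕ) :
    TT m col (h + 1) + al m col h + be m col (h + 1) = TT m col h + 2 + 40 * (m + 2) := by
  have := val_bd hm col h
  simp only [TT, List.range_succ, List.map_append, List.sum_append, List.map_cons, List.map_nil,
    List.sum_cons, List.sum_nil]
  omega

theorem TT_mono (hm : 2 ≤ m) (col : ℕ → ℕ → ℕ) {g h : ℕ} (l : g ≤ h) :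
    TT m col g + 82 * (h - g) ≤ TT m col h := by
  induction l with
  | refl => simp
  | @step h l ih =>
    have := TT_succ hm col h
    have := val_bd hm col h
    have : g ≤ h := l
    simp only [Nat.succ_eq_add_one]
    omega

theorem TT_ge (hm : 2 ≤ m) (col : ℕ → ℕ → ℕ) (h : ℕ) : 20 * (m + 2) ≤ TT m col h := by
  have := TT_mono hm col (Nat.zero_le h)
  rw [TT_zero] at this
  omega

theorem next_top (hm : 2 ≤ m) (col : ℕ → ℕ → ℕ) (n : ℕ) :
    ∃ g, n ≤ TT m col g ∧ (g = 0 ∨ ∃ k, g = k + 1 ∧ TT m col k < n) := by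
  induction n with
  | zero => exact ⟨0, by omega, .inl rfl⟩
  | succ n ih =>
    obtain ⟨g, h1, h2⟩ := ih
    by_cases h : n + 1 ≤ TT m col g
    · refine ⟨g, h, h2.imp id ?_⟩
      rintro ⟨k, a, b⟩
      exact ⟨k, a, by omega⟩
    · have := TT_mono hm col (Nat.le_succ g)
      exact ⟨g + 1, by simp only [Nat.succ_eq_add_one] at this; omega, .inr ⟨g, rfl, by omega⟩⟩

variable (m col)

/-- the number of valleys before the cut `n`, among the first `M` -/
def hump (M n : ℕ) : ℕ :=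
  (List.range M).countP fun i => decide (TT m col i + 1 + 20 * (m + 2) < n + al m col i)

/-- the function -/
def GG (M n : ℕ) : ℕ :=
  if n ≤ TT m col (hump m col M n) then
    pp m (hump m col M n) + dd m (n + 20 * (m + 2) - TT m col (hump m col M n))
  else qq m (hump m col M n) + dd m (TT m col (hump m col M n) + 1 + 20 * (m + 2) - n)

variable {m col}

theorem countP_lt (M h : ℕ) (hh : h ≤ M) :
    (List.range M).countP (fun i => decide (i < h)) = h := by
  induction hh with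
  | refl =>
    rw [List.countP_eq_length.2 (by simp)]; simp
  | @step M l ih =>
    have : h ≤ M := l
    rw [List.range_succ, List.countP_append, ih]; simp; omega

theorem hump_eq (hm : 2 ≤ m) {M n h : ℕ} (hh : h ≤ M)
    (h1 : TT m col h + be m col h ≤ n + 20 * (m + 2))
    (h2 : n + al m col h ≤ TT m col h + 1 + 20 * (m + 2)) : hump m col M n = h := by
  rw [hump, ← countP_lt M h hh]
  refine List.countP_congr fun i _ => ?_
  simp only [decide_eq_true_eq]
  have b := val_bd hm col i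
  have b' := val_bd hm col h
  have := TT_succ hm col i
  have := TT_succ hm col h
  constructor
  · intro a
    by_contra c
    rcases Nat.eq_or_lt_of_le (Nat.le_of_not_lt c) with rfl | c'
    · omega
    · have := TT_mono hm col (Nat.succ_le_of_lt c')
      simp only [Nat.succ_eq_add_one] at this
      omega
  · intro a
    rcases Nat.eq_or_lt_of_le (Nat.succ_le_of_lt a) with rfl | c'
    · simp only [Nat.succ_eq_add_one] at *; omega
    · have := TT_mono hm col c'.le
      have := be_bd hm col h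
      obtain ⟨k, rfl⟩ : ∃ k, h = k + 1 := ⟨h - 1, by omega⟩
      have := TT_succ hm col k
      have := val_bd hm col k
      have := TT_mono hm col (show i + 1 ≤ k by simp only [Nat.succ_eq_add_one] at c'; omega)
      omega

theorem GG_up (hm : 2 ≤ m) (col : ℕ → ℕ → ℕ) {M h : ℕ} (hh : h ≤ M) (n x : ℕ) (h1 : be m col h ≤ x)
    (h2 : x ≤ 20 * (m + 2)) (e : n + 20 * (m + 2) = TT m col h + x) :
    GG m col M n = pp m h + dd m x := by
  have := val_bd hm col h
  rw [GG, hump_eq hm hh (by omega) (by omega), if_pos (by omega)]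
  congr 2; omega

theorem GG_dn (hm : 2 ≤ m) (col : ℕ → ℕ → ℕ) {M h : ℕ} (hh : h ≤ M) (n x : ℕ) (h1 : al m col h ≤ x)
    (h2 : x ≤ 20 * (m + 2)) (e : n + x = TT m col h + 1 + 20 * (m + 2)) :
    GG m col M n = qq m h + dd m x := by
  have := be_bd hm col h
  rw [GG, hump_eq hm hh (by omega) (by omega), if_neg (by omega)]
  congr 2; omega

end

end Pool.Agent.Lib.MP_9cc368_co
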