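import Pool.Agent.Lib.MP_9cc368_co.NpWord

/-! Pairs of humps that a palindrome can mirror onto each other. -/

namespace Pool.Agent.Lib.MP_9cc368_co

theorem At.pred {m h r s : ℕ} (H : At m (h + 1) r (s + 1)) (h4 : 4 ≤ h) : At m h r s :=
  ⟨h4, by have := H.2.1; omega, by have := H.2.2; omega⟩

theorem At.unwrap {m h r : ℕ} (H : At m (h + 1) r 0) : ∃ r', r = r' + 1 ∧ At m h r' (2 * m + 5) := by
  obtain ⟨h1, h2, h3⟩ := H
  rcases r with _ | r
  · omega
  · rw [Nat.mul_succ] at h3
    exact ⟨r, rfl, by omega, by omega, by omega⟩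

theorem At.plus {m h r s : ℕ} (H : At m h r s) (k : ℕ) {b t : ℕ} (hb : b = h + k) (ht : t = s + k)
    (hs : t < 2 * m + 6) : At m b r t :=
  ⟨by have := H.1; omega, hs, by have := H.2.2; omega⟩

theorem At.over {m h r s : ℕ} (H : At m h r s) (k : ℕ) {b t : ℕ} (hb : b = h + k)
    (ht : t + (2 * m + 6) = s + k) (hs : t < 2 * m + 6) : At m b (r + 1) t :=
  ⟨by have := H.1; omega, hs, by have := H.2.2; rw [Nat.mul_succ]; omega⟩

theorem At.low {m h r s : ℕ} (H : At m h r s) (hs : s < 2 * m + 2) : 1 ≤ r ∧ 8 + s ≤ h := by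
  obtain ⟨h1, h2, h3⟩ := H
  rcases r with _ | r
  · omega
  · rw [Nat.mul_succ] at h3; omega

namespace Dat
variable {D : Dat}

theorem fw {h r s : ℕ} (H : At D.m h r s) (hs : s < D.m) : be D.m D.col h = 20 * s ∧
    20 * s + 12 ≤ al D.m D.col h ∧ al D.m D.col h ≤ be D.m D.col (h + 1) ∧
    pp D.m h = 3 * r + s + 2 ∧ qq D.m h = pp D.m h ∧ D.sd h = D.side r := by
  have := H.fwd (col := D.col) hs
  have := ee_le (cl D.m D.col r (s + 1))
  have := sd_fb H (by omega)
  by_cases c : s + 1 < D.m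
  · have := (H.succ (by omega)).fwd (col := D.col) c; omega
  · have := (H.succ (by omega)).bck (col := D.col) (j := D.m) (by omega) (by omega) le_rfl
    have := (cl_one (m := D.m) (col := D.col) r).2
    omega

theorem bw {h r s : ℕ} (H : At D.m h r s) (j : ℕ) (hs : s + j = 2 * D.m) (h1 : 1 ≤ j)
    (h2 : j ≤ D.m) : al D.m D.col h + 20 = 20 * j ∧ 20 * j ≤ be D.m D.col h + 8 ∧
    be D.m D.col h ≤ al D.m D.col (h - 1) ∧ pp D.m h = 3 * r + j + 2 ∧ qq D.m h = pp D.m h ∧
    D.sd h = D.side r ∧ 1 ≤ h := by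
  have := H.bck (col := D.col) hs h1 h2
  have := ee_le (cl D.m D.col r j)
  have := sd_fb H (by omega)
  have := H.low (by omega)
  obtain ⟨h, rfl⟩ : ∃ k, h = k + 1 := ⟨h - 1, by omega⟩
  obtain ⟨s, rfl⟩ : ∃ k, s = k + 1 := ⟨s - 1, by omega⟩
  rw [Nat.add_sub_cancel]
  by_cases c : s < D.m
  · have a := (H.pred (by omega)).fwd (col := D.col) c
    rw [show s + 1 = j by omega] at a
    omega
  · have := (H.pred (by omega)).bck (col := D.col) (j := j + 1) (by omega) (by omega) (by omega)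
    omega

def GP (m a b : ℕ) : Prop := a = b ∨ b = a + 1 ∨ (a = 2 ∧ b = 5) ∨ ∃ r s, At m a r s ∧
  ((s + 1 = 2 * m ∧ b = a + 2) ∨ (s = 2 * m + 4 ∧ b = a + 2) ∨ (s = 2 * m ∧ b = a + 3) ∨
    (s = 2 * m + 2 ∧ b = a + 3) ∨ (s < m ∧ b + 2 * s + 1 = a + 2 * m) ∨
    (s = 2 * m + 5 ∧ b = a + 2 * m + 1) ∨ (s = 2 * m + 4 ∧ b = a + 2 * m + 3))

def Step (D : Dat) (a b : ℕ) : Prop := qq D.m b ≤ pp D.m a + 1 ∧
  ((be D.m D.col a < al D.m D.col b ∧ al D.m D.col b ≤ be D.m D.col (b + 1)) ∨
  (al D.m D.col b < be D.m D.col a ∧ 1 ≤ a ∧ be D.m D.col a ≤ al D.m D.col (a - 1)) ∨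
  (al D.m D.col b = be D.m D.col a ∧
    (a = 0 ∨ (D.J b).1 ≠ (D.J (a - 1)).1 ∨ (D.J b).2 ≠ (D.J (a - 1)).2)) ∨
  (al D.m D.col b = be D.m D.col a ∧ 1 ≤ a ∧ be D.m D.col (b + 1) = al D.m D.col (a - 1) ∧
    pp D.m (b + 1) ≤ qq D.m (a - 1) + 1 ∧ (D.sd (a - 1) = D.sd (b + 1) → GP D.m (a - 1) (b + 1))) ∨
  (a = b ∧ (a = 0 ∨ a = 3)))

theorem step_main {a b r s : ℕ} (H : At D.m a r s) (hs : s < D.m)
    (hb : b + 2 * s + 1 = a + 2 * D.m) : D.Step a b := by
  have hm := D.hm
  have Hb : At D.m b r (2 * D.m - s - 1) := H.plus (2 * D.m - 2 * s - 1) (by omega) (by omega)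
    (by omega)
  have A := fw H hs
  have B := bw Hb (s + 1) (by omega) (by omega) hs
  have lo := H.low (by omega)
  obtain ⟨a, rfl⟩ : ∃ k, a = k + 1 := ⟨a - 1, by omega⟩
  refine ⟨by omega, .inr (.inr (.inr (.inl ⟨by omega, by omega, ?_⟩)))⟩
  rw [Nat.add_sub_cancel]
  rcases s with _ | s
  · obtain ⟨r', rfl, H'⟩ := H.unwrap
    have := kk H' 5 rfl
    have := kk (Hb.succ (by omega)) 0 (by omega)
    exact ⟨by omega, by omega, fun _ => .inr (.inr (.inr ⟨_, _, H', by omega⟩))⟩
  · have H' := H.pred (by omega)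
    have := H'.fwd (col := D.col) (by omega)
    have := (Hb.succ (by omega)).bck (col := D.col) (j := s + 1) (by omega) (by omega) (by omega)
    exact ⟨by omega, by omega, fun _ => .inr (.inr (.inr ⟨_, _, H', by omega⟩))⟩

theorem step_diag (a : ℕ) : D.Step a a := by
  have hm := D.hm
  have pv := pre_val D.m D.col
  have pr := D.pre
  have q := qq_bd D.m a
  refine ⟨q.2.1, ?_⟩
  by_cases h4 : a < 4
  · have p1 := congrArg Prod.fst pr.2.1
    have p2 := congrArg Prod.fst pr.2.2.1
    interval_cases a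
    · omega
    · simp only [Nat.reduceAdd, Nat.reduceSub]; omega
    · simp only [Nat.reduceAdd, Nat.reduceSub]
      exact .inr (.inr (.inr (.inl ⟨by omega, by omega, by omega, by omega, by omega⟩)))
    · omega
  obtain ⟨r, s, H⟩ := at_ex D.m (show 4 ≤ a by omega)
  by_cases h1 : s < D.m
  · have := fw H h1; omega
  by_cases h2 : s < 2 * D.m
  · have := bw H (2 * D.m - s) (by omega) (by omega) (by omega); omega
  obtain ⟨t, rfl⟩ : ∃ t, s = 2 * D.m + t := ⟨s - 2 * D.m, by omega⟩
  have K := kk H t rfl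
  have ht : t < 6 := by have := H.2.1; omega
  by_cases h5 : a = 4
  · subst h5
    have p1 := congrArg Prod.fst pr.2.2.2.2
    simp only [Nat.reduceAdd, Nat.reduceSub]
    omega
  obtain ⟨a, rfl⟩ : ∃ k, a = k + 1 := ⟨a - 1, by omega⟩
  rw [Nat.add_sub_cancel]
  rcases t with _ | t
  · have H' : At D.m a r (2 * D.m - 1) := ⟨by omega, by omega, by have := H.2.2; omega⟩
    have := b1 H' (by omega)
    have := kk (H.succ (by omega)) 1 (by omega)
    exact .inr (.inr (.inr (.inl ⟨by omega, by omega, by omega, by omega,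
      fun _ => .inr (.inr (.inr ⟨_, _, H', by omega⟩))⟩)))
  have H' : At D.m a r (2 * D.m + t) := At.pred H (by omega)
  have K' := kk H' t rfl
  by_cases h6 : t = 4
  · subst h6
    have := fw H.wrap (by omega)
    exact .inr (.inr (.inr (.inl ⟨by omega, by omega, by omega, by omega,
      fun _ => .inr (.inr (.inr ⟨_, _, H', by omega⟩))⟩)))
  · have : t < 4 := by omega
    interval_cases t <;> simp at K K' <;> omega

theorem step_adj (a : ℕ) (e : D.sd a = D.sd (a + 1)) : D.Step a (a + 1) := by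
  have hm := D.hm
  have pv := pre_val D.m D.col
  have pr := D.pre
  by_cases h4 : a < 4
  · have p1 := congrArg Prod.fst pr.2.1
    have p2 := congrArg Prod.fst pr.2.2.2.1
    have := kk (D := D) (at_four D.m) 2 rfl
    have := kk (D := D) ((at_four D.m).succ (by omega)) 3 rfl
    unfold Step
    interval_cases a <;> simp only [Nat.reduceAdd, Nat.reduceSub] at *
    · exact ⟨by omega, .inr (.inr (.inl ⟨by omega, .inl trivial⟩))⟩
    · omega
    · omega
    · exact ⟨by omega, .inr (.inr (.inr (.inl ⟨by omega, by omega, by omega, by omega,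
        fun _ => .inr (.inr (.inl ⟨rfl, rfl⟩))⟩)))⟩
  obtain ⟨r, s, H⟩ := at_ex D.m (show 4 ≤ a by omega)
  by_cases h1 : s + 1 < D.m
  · have := fw H (by omega)
    have := fw (H.succ (by omega)) h1
    exact ⟨by omega, by omega⟩
  by_cases h2 : s + 1 = D.m
  · exact step_main H (by omega) (by omega)
  by_cases h3 : s < 2 * D.m
  · have := bw H (2 * D.m - s) (by omega) (by omega) (by omega)
    by_cases h5 : s + 1 < 2 * D.m
    · have := bw (H.succ (by omega)) (2 * D.m - s - 1) (by omega) (by omega) (by omega)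
      exact ⟨by omega, by omega⟩
    · have := kk (H.succ (by omega)) 0 (by omega)
      exact ⟨by omega, by omega⟩
  obtain ⟨t, rfl⟩ : ∃ t, s = 2 * D.m + t := ⟨s - 2 * D.m, by omega⟩
  have K := kk H t rfl
  have ht : t < 6 := by have := H.2.1; omega
  by_cases h6 : t = 5
  · subst h6
    have := fw H.wrap (by omega)
    exact ⟨by omega, by omega⟩
  have K1 := kk (H.succ (by omega)) (t + 1) rfl
  obtain rfl | rfl : t = 1 ∨ t = 3 := by omega
  · have lo := H.low (by omega)
    obtain ⟨a, rfl⟩ : ∃ k, a = k + 1 := ⟨a - 1, by omega⟩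
    have H' := H.pred (by omega)
    have := kk H' 0 rfl
    have := kk ((H.succ (by omega)).succ (by omega)) 3 rfl
    refine ⟨by omega, .inr (.inr (.inr (.inl ⟨by omega, by omega, ?_⟩)))⟩
    rw [Nat.add_sub_cancel]
    exact ⟨by omega, by omega, fun _ => .inr (.inr (.inr ⟨_, _, H', by omega⟩))⟩
  · obtain ⟨a, rfl⟩ : ∃ k, a = k + 1 := ⟨a - 1, by omega⟩
    have H' : At D.m a r (2 * D.m + 2) := At.pred H (by
      by_contra c
      obtain rfl : a = 3 := by omega
      have := H.lt (at_four D.m) le_rfl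
      have := (at_four D.m).lt H le_rfl
      omega)
    have := kk H' 2 rfl
    have := kk ((H.succ (by omega)).succ (by omega)) 5 rfl
    refine ⟨by omega, .inr (.inr (.inr (.inl ⟨by omega, by omega, ?_⟩)))⟩
    rw [Nat.add_sub_cancel]
    exact ⟨by omega, by omega, fun _ => .inr (.inr (.inr ⟨_, _, H', by omega⟩))⟩

theorem step {a b : ℕ} (G : GP D.m a b) (e : D.sd a = D.sd b) : D.Step a b := by
  have hm := D.hm
  have pv := pre_val D.m D.col
  have pr := D.pre
  rcases G with rfl | rfl | ⟨rfl, rfl⟩ | ⟨r, s, H, G⟩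
  · exact step_diag a
  · exact step_adj a e
  · have K := kk (D := D) ((at_four D.m).succ (by omega)) 3 rfl
    have p1 := congrArg Prod.snd pr.2.2.1
    unfold Step
    simp only [Nat.reduceAdd, Nat.reduceSub] at *
    simp at K
    omega
  have h4 := H.1
  rcases G with G | G | G | G | G | G | G
  · have := bw H 1 G.1 le_rfl (by omega)
    have := kk (H.plus 2 G.2 rfl (by omega)) 1 (by omega)
    exact ⟨by omega, by omega⟩
  · have := kk H 4 G.1
    have := fw (H.over 2 (t := 0) G.2 (by omega) (by omega)) (by omega)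
    exact ⟨by omega, by omega⟩
  · have := kk H 0 G.1
    have K := kk (H.plus 3 G.2 rfl (by omega)) 3 (by omega)
    have lo := H.low (by omega)
    have := b1 (D := D) (h := a - 1) (r := r) (s := s - 1)
      ⟨by omega, by omega, by have := H.2.2; omega⟩ (by omega)
    simp at K
    exact ⟨by omega, by omega⟩
  · have := kk H 2 G.1
    have K := kk (H.plus 3 G.2 rfl (by omega)) 5 (by omega)
    by_cases c : a = 4
    · subst c
      have p1 := congrArg Prod.fst pr.2.2.2.2
      unfold Step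
      simp only [Nat.reduceAdd, Nat.reduceSub] at *
      omega
    · have K' := kk (D := D) (h := a - 1) (r := r) (s := s - 1)
        ⟨by omega, by omega, by have := H.2.2; omega⟩ 1 (by omega)
      simp at K K'
      exact ⟨by omega, by omega⟩
  · exact step_main H G.1 G.2
  · have := kk H 5 G.1
    have Hb := H.over (2 * D.m + 1) (t := 2 * D.m) (b := b) (by omega) (by omega) (by omega)
    have := kk Hb 0 rfl
    have := kk (Hb.succ (by omega)) 1 rfl
    have H' : At D.m (a - 1) r (2 * D.m + 4) := by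
      refine ⟨?_, by omega, by have := H.2.2; omega⟩
      have := H.lt (at_four D.m) h4
      have := Nat.zero_le ((2 * D.m + 6) * r)
      have := H.2.2
      omega
    have := kk H' 4 rfl
    exact ⟨by omega, .inr (.inr (.inr (.inl ⟨by omega, by omega, by omega, by omega,
      fun _ => .inr (.inr (.inr ⟨_, _, H', by omega⟩))⟩)))⟩
  · have := kk H 4 G.1
    have K := kk (H.over (2 * D.m + 3) (t := 2 * D.m + 1) (b := b) (by omega) (by omega)
      (by omega)) 1 rfl
    have K' := kk (D := D) (h := a - 1) (r := r) (s := s - 1)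
      ⟨by have := Nat.zero_le ((2 * D.m + 6) * r); have := H.2.2; omega, by omega,
        by have := H.2.2; omega⟩ 3 (by omega)
    simp at K K'
    exact ⟨by omega, by omega⟩

end Dat

end Pool.Agent.Lib.MP_9cc368_co
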