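import Pool.Agent.Lib.MP_9cc368_co.NpExplain
import Pool.Agent.Lib.Complexity.CookLevin

/-! The reduction from 3-satisfiability. -/

namespace Pool.Agent.Lib.MP_9cc368_co

open Pool.Agent.Lib.Complexity

abbrev Tr := List ℕ × List ℕ × List ℕ

def colT (t : Tr) (r : ℕ) : ℕ :=
  if r ∈ t.1 then 1 else if r ∈ t.2.1 then 2 else if r ∈ t.2.2 then 3 else 0

def colL (L : List Tr) (r j : ℕ) : ℕ := colT (L.getD (j - 2) ([], [], [])) r

def OkT (side : ℕ → Bool) (t : Tr) : Prop :=
  ∀ β, (∀ r ∈ t.1, side r ≠ β) ∨ (∀ r ∈ t.2.1, side r ≠ β) ∨ (∀ r ∈ t.2.2, side r ≠ β)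

def WfT (nr : ℕ) (t : Tr) : Prop := (∀ r ∈ t.1, 1 ≤ r ∧ r ≤ nr) ∧
  (∀ r ∈ t.2.1, 1 ≤ r ∧ r ≤ nr ∧ r ∉ t.1) ∧ ∀ r ∈ t.2.2, 1 ≤ r ∧ r ≤ nr ∧ r ∉ t.1 ∧ r ∉ t.2.1

theorem split_iff {L : List Tr} {nr : ℕ} (w : ∀ t ∈ L, WfT nr t) :
    Split (L.length + 2) nr (colL L) ↔ ∃ side, ∀ t ∈ L, OkT side t := by
  constructor
  · rintro ⟨side, st, h⟩
    refine ⟨side, fun t ht β => ?_⟩
    obtain ⟨w1, w2, w3⟩ := w t ht
    obtain ⟨k, hk, rfl⟩ := List.getElem_of_mem ht
    obtain ⟨h1, h2⟩ := h (k + 2) (by omega) (by omega)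
    have e : ∀ r, colL L r (k + 2) = colT L[k] r := fun r => by simp [colL, hk]
    simp only [e] at h2
    rcases h1 β with c | c | c
    · refine .inl fun r hr b => h2 r (w1 r hr).1 (w1 r hr).2 ?_
      rw [b, c, colT, if_pos hr]
    · refine .inr (.inl fun r hr b => h2 r (w2 r hr).1 (w2 r hr).2.1 ?_)
      rw [b, c, colT, if_neg (w2 r hr).2.2, if_pos hr]
    · refine .inr (.inr fun r hr b => h2 r (w3 r hr).1 (w3 r hr).2.1 ?_)
      rw [b, c, colT, if_neg (w3 r hr).2.2.1, if_neg (w3 r hr).2.2.2, if_pos hr]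
  · rintro ⟨side, h⟩
    have : ∀ (β : Bool) j, ∃ c, 2 ≤ j → j < L.length + 2 → (c = 1 ∨ c = 2 ∨ c = 3) ∧
        ∀ r, side r = β → colL L r j ≠ c := fun β j => by
      by_cases hj : 2 ≤ j ∧ j < L.length + 2
      swap
      · exact ⟨0, fun a b => absurd ⟨a, b⟩ hj⟩
      have hk : j - 2 < L.length := by omega
      have e : ∀ r, colL L r j = colT L[j - 2] r := fun r => by simp [colL, hk]
      simp only [e, colT]
      rcases h _ (List.getElem_mem hk) β with c | c | c
      · refine ⟨1, fun _ _ => ⟨by omega, fun r b => ?_⟩⟩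
        split_ifs with h1 <;> first | omega | exact absurd b (c r h1)
      · refine ⟨2, fun _ _ => ⟨by omega, fun r b => ?_⟩⟩
        split_ifs with h1 h2 <;> first | omega | exact absurd b (c r h2)
      · refine ⟨3, fun _ _ => ⟨by omega, fun r b => ?_⟩⟩
        split_ifs with h1 h2 h3 <;> first | omega | exact absurd b (c r h3)
    choose st hst using this
    exact ⟨side, st, fun j a b => ⟨fun β => (hst β j a b).1, fun r _ _ => (hst _ j a b).2 r rfl⟩⟩

def lit (l : ℕ × Bool) : ℕ := 6 + 2 * l.1 + bif l.2 then 1 else 0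

def cls (y : ℕ) (c : Clause) : List Tr :=
  [([lit (c.getD 0 (0, false))], if c.getD 0 (0, false) = c.getD 1 (0, false) then [1, 2]
    else [lit (c.getD 1 (0, false))], [y]),
   ([y], [lit ((c.getD 2 (0, false)).1, !(c.getD 2 (0, false)).2)], [1])]

def locs (φ : CNF) : List Tr :=
  [([1], [2], [3]), ([1], [2], [4]), ([1], [2], [5]), ([3], [4], [5])] ++
  ((List.range φ.top).map fun v => ([6 + 2 * v], [7 + 2 * v], [1, 2])) ++
  φ.zipIdx.flatMap fun x => cls (6 + 2 * φ.top + x.2) x.1

theorem mem_locs {φ : CNF} {t : Tr} : t ∈ locs φ ↔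
    t ∈ [([1], [2], [3]), ([1], [2], [4]), ([1], [2], [5]), ([3], [4], [5])] ∨
    (∃ v < φ.top, t = ([6 + 2 * v], [7 + 2 * v], [1, 2])) ∨
    ∃ i c, φ[i]? = some c ∧ t ∈ cls (6 + 2 * φ.top + i) c := by
  simp only [locs, List.mem_append, List.mem_map, List.mem_range, List.mem_flatMap, Prod.exists,
    List.mem_zipIdx_iff_getElem?, or_assoc]
  refine or_congr_right (or_congr ?_ ?_)
  · exact ⟨fun ⟨v, a, b⟩ => ⟨v, a, b.symm⟩, fun ⟨v, a, b⟩ => ⟨v, a, b.symm⟩⟩
  · exact ⟨fun ⟨c, i, a, b⟩ => ⟨i, c, a, b⟩, fun ⟨i, c, a, b⟩ => ⟨c, i, a, b⟩⟩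

theorem three {φ : CNF} (h3 : ∀ c ∈ φ, c.length = 3) {i : ℕ} {c : Clause} (h : φ[i]? = some c) :
    i < φ.length ∧ ∃ x y z, c = [x, y, z] ∧ x.1 < φ.top ∧ y.1 < φ.top ∧ z.1 < φ.top := by
  have hc := List.mem_of_getElem? h
  obtain ⟨x, y, z, rfl⟩ := List.length_eq_three.1 (h3 c hc)
  exact ⟨(List.getElem?_eq_some_iff.1 h).1, x, y, z, rfl, CNF.lt_top hc (by simp),
    CNF.lt_top hc (by simp), CNF.lt_top hc (by simp)⟩

theorem lit_bd (l : ℕ × Bool) : 6 + 2 * l.1 ≤ lit l ∧ lit l ≤ 7 + 2 * l.1 := by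
  unfold lit; cases l.2 <;> simp

theorem lit_inj {x y : ℕ × Bool} (e : lit x = lit y) : x = y := by
  obtain ⟨a, b⟩ := x
  obtain ⟨c, d⟩ := y
  cases b <;> cases d <;> simp [lit] at e ⊢ <;> omega

theorem locs_wf {φ : CNF} (h3 : ∀ c ∈ φ, c.length = 3) :
    ∀ t ∈ locs φ, WfT (6 + 2 * φ.top + φ.length) t := by
  intro t ht
  rcases mem_locs.1 ht with h | ⟨v, hv, rfl⟩ | ⟨i, c, hc, h⟩
  · simp only [List.mem_cons, List.not_mem_nil, or_false] at h
    rcases h with rfl | rfl | rfl | rfl <;> simp [WfT] <;> omega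
  · simp [WfT]; omega
  · obtain ⟨hi, x, y, z, rfl, hx, hy, hz⟩ := three h3 hc
    have := lit_bd x
    have := lit_bd y
    have := lit_bd (z.1, !z.2)
    simp only [cls, List.mem_cons, List.not_mem_nil, or_false] at h
    rcases h with rfl | rfl
    · by_cases e : x = y
      · simp [WfT, e]; omega
      · have : lit y ≠ lit x := fun h => e (lit_inj h).symm
        simp [WfT, e]; omega
    · simp [WfT] at *; omega

theorem sat_iff {φ : CNF} (h3 : ∀ c ∈ φ, c.length = 3) :
    (∃ v, φ.Sat v) ↔ ∃ side, ∀ t ∈ locs φ, OkT side t := by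
  constructor
  · rintro ⟨v, hv⟩
    let val : ℕ × Bool → Bool := fun l => v l.1 == l.2
    let side : ℕ → Bool := fun r => if r < 6 then decide (r = 1 ∨ r = 3) else
      if r < 6 + 2 * φ.top then val ((r - 6) / 2, decide (r % 2 = 1)) else
        !(val ((φ.getD (r - (6 + 2 * φ.top)) []).getD 0 (0, false)) ||
          val ((φ.getD (r - (6 + 2 * φ.top)) []).getD 1 (0, false)))
    have sl : ∀ l : ℕ × Bool, l.1 < φ.top → side (lit l) = val l := fun l hl => by
      have := lit_bd l
      simp only [side]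
      rw [if_neg (by omega), if_pos (by omega)]
      obtain ⟨a, b⟩ := l
      congr 2
      · simp only at *; omega
      · cases b <;> simp [lit] <;> omega
    have s1 : side 1 = true := by simp [side]
    have s2 : side 2 = false := by simp [side]
    refine ⟨side, fun t ht β => ?_⟩
    rcases mem_locs.1 ht with h | ⟨w, hw, rfl⟩ | ⟨i, c, hc, h⟩
    · simp only [List.mem_cons, List.not_mem_nil, or_false] at h
      rcases h with rfl | rfl | rfl | rfl <;> cases β <;> simp [side]
    · have a := sl (w, false) hw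
      have b := sl (w, true) hw
      simp only [lit, cond_false, cond_true, Nat.add_zero, val] at a b
      rw [show 6 + 2 * w + 1 = 7 + 2 * w by omega] at b
      cases β <;> cases hv : v w <;> simp [a, b, hv]
    · obtain ⟨hi, x, y, z, rfl, hx, hy, hz⟩ := three h3 hc
      have sy : side (6 + 2 * φ.top + i) = !(val x || val y) := by
        simp only [side]
        rw [if_neg (by omega), if_neg (by omega), Nat.add_sub_cancel_left]
        simp [hc]
      have hs : val x = true ∨ val y = true ∨ val z = true := by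
        simpa [val] using hv _ (List.mem_of_getElem? hc)
      have sz : side (lit (z.1, !z.2)) = !val z := by
        rw [sl (z.1, !z.2) hz]
        simp only [val]
        cases v z.1 <;> cases z.2 <;> rfl
      simp only [cls, List.mem_cons, List.not_mem_nil, or_false] at h
      rcases h with rfl | rfl
      · by_cases e : x = y
        · subst e
          cases β <;> cases hx' : val x <;> simp [sy, sl x hx, hx']
        · cases β <;> cases hx' : val x <;> cases hy' : val y <;>
            simp [e, sy, sl x hx, sl y hy, hx', hy']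
      · cases β <;> cases hx' : val x <;> cases hy' : val y <;> cases hz' : val z <;>
          simp [sy, sz, s1, hx', hy', hz'] at hs ⊢
  · rintro ⟨side, h⟩
    have hh : ∀ t, _ → OkT side t := fun t ht => h t (mem_locs.2 ht)
    have tf : side 2 = !side 1 := by
      have a := hh ([1], [2], [3]) (.inl (by simp)) (side 1)
      have b := hh ([1], [2], [4]) (.inl (by simp)) (side 1)
      have c := hh ([1], [2], [5]) (.inl (by simp)) (side 1)
      have d := hh ([3], [4], [5]) (.inl (by simp)) (!side 1)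
      revert a b c d
      cases h1 : side 1 <;> cases h2 : side 2 <;> cases h3 : side 3 <;> cases h4 : side 4 <;>
        cases h5 : side 5 <;> simp [h1, h2, h3, h4, h5]
    have neg : ∀ w < φ.top, side (lit (w, false)) = !side (lit (w, true)) := fun w hw => by
      have a := hh _ (.inr (.inl ⟨w, hw, rfl⟩)) (side (6 + 2 * w))
      simp only [lit, cond_false, cond_true, Nat.add_zero, show 6 + 2 * w + 1 = 7 + 2 * w by omega]
      revert a
      cases h1 : side 1 <;> cases h6 : side (6 + 2 * w) <;> cases h7 : side (7 + 2 * w) <;>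
        simp [h1, h6, h7, tf]
    refine ⟨fun w => side (lit (w, true)) == side 1, fun c hc => ?_⟩
    obtain ⟨i, hi, rfl⟩ := List.getElem_of_mem hc
    obtain ⟨-, x, y, z, e, hx, hy, hz⟩ := three h3 (List.getElem?_eq_getElem hi)
    have a := hh _ (.inr (.inr ⟨i, _, List.getElem?_eq_getElem hi, List.mem_cons_self⟩)) (!side 1)
    have b := hh _ (.inr (.inr ⟨i, _, List.getElem?_eq_getElem hi,
      List.mem_cons_of_mem _ List.mem_cons_self⟩)) (side 1)
    have key : ∀ l : ℕ × Bool, l.1 < φ.top →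
        ((side (lit (l.1, true)) == side 1) = l.2 ↔ side (lit l) = side 1) := fun ⟨w, s⟩ hw => by
      have := neg w hw
      cases s
      · simp only [this]
        cases side (lit (w, true)) <;> cases side 1 <;> simp
      · simp
    have nz : side (lit (z.1, !z.2)) = !side (lit z) := by
      obtain ⟨w, s⟩ := z
      have := neg w hz
      cases s <;> simp [this]
    rw [e] at a b ⊢
    simp only [List.mem_cons, List.not_mem_nil, or_false, exists_eq_or_imp, exists_eq_left,
      key x hx, key y hy, key z hz]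
    by_cases exy : x = y
    · subst exy
      revert a b
      cases h1 : side 1 <;> cases h2 : side (lit x) <;> cases h4 : side (lit z) <;>
        cases h5 : side (6 + 2 * φ.top + i) <;> simp [h1, h2, h4, h5, tf, nz]
    · revert a b
      cases h1 : side 1 <;> cases h2 : side (lit x) <;> cases h3 : side (lit y) <;>
        cases h4 : side (lit z) <;> cases h5 : side (6 + 2 * φ.top + i) <;>
        simp [h1, h2, h3, h4, h5, exy, nz]

end Pool.Agent.Lib.MP_9cc368_co
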