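import Pool.Agent.Lib.MP_9cc368_co.NpAlign

/-! Every word with the given function yields a splitting of the rounds. -/

namespace Pool.Agent.Lib.MP_9cc368_co

variable {α : Type} {u : ℕ → α} {m M : ℕ} {col : ℕ → ℕ → ℕ}

def upL (m : ℕ) (col : ℕ → ℕ → ℕ) (u : ℕ → α) (h x : ℕ) : α :=
  u (TT m col h + x - 1 - 20 * (m + 2))

def dnL (m : ℕ) (col : ℕ → ℕ → ℕ) (u : ℕ → α) (h x : ℕ) : α :=
  u (TT m col h + 1 + 20 * (m + 2) - x)

theorem link (hm : 2 ≤ m) {g h x n i : ℕ} (hg : g ≤ h) (hP : Pal u i n)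
    (hi : i + 20 * (m + 2) = TT m col g + x) (hn : n + x = TT m col h + 1 + 20 * (m + 2))
    (hx : x ≤ 20 * (m + 2)) :
    (∀ y, x < y → y ≤ 20 * (m + 2) → dnL m col u h y = upL m col u g y) ∧
    (g < h → ∀ y, be m col h < y → y ≤ 20 * (m + 2) → upL m col u h y = dnL m col u g y) := by
  have := TT_mono hm col hg
  refine ⟨fun y h1 h2 => hP _ _ (by omega) (by omega) (by omega), fun l y h1 h2 => ?_⟩
  obtain ⟨k, rfl⟩ : ∃ k, h = k + 1 := ⟨h - 1, by omega⟩
  have := TT_succ hm col k
  have := val_bd hm col k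
  have := TT_mono hm col (show g ≤ k by omega)
  exact hP _ _ (by omega) (by omega) (by omega)

theorem dn_le (hm : 2 ≤ m) {h x n : ℕ} (hh : h < M) (h1 : al m col h ≤ x)
    (hn : n + x = TT m col h + 1 + 20 * (m + 2)) : n < TT m col M := by
  have := TT_succ hm col h
  have := TT_mono hm col (Nat.succ_le_of_lt hh)
  have := val_bd hm col h
  simp only [Nat.succ_eq_add_one] at *
  omega

/-- the values near a probe are large -/
theorem probe_lb (hm : 2 ≤ m) {k i j e : ℕ} (hk : k < M) (h1 : TT m col k < i)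
    (h2 : i ≤ TT m col (k + 1)) (j1 : 1 ≤ j) (j2 : j ≤ m) (he : e ≤ 8)
    (h : (be m col (k + 1) = 20 * j ∧ al m col k + e = 20 * j ∧ qq m k + 1 = pp m (k + 1)) ∨
      (al m col k = 20 * j ∧ be m col (k + 1) + e = 20 * j ∧ qq m k = pp m (k + 1) + 1)) :
    pp m (k + 1) + 4 * j ≤ GG m col M i + 2 ∧ (e = 0 → pp m (k + 1) + 4 * j ≤ GG m col M i + 1) := by
  have := TT_succ hm col k
  by_cases c : TT m col (k + 1) + be m col (k + 1) ≤ i + 20 * (m + 2)
  · have := GG_up hm col (M := M) (h := k + 1) (by omega) i (i + 20 * (m + 2) - TT m col (k + 1)) (by omega) (by omega)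
      (by omega)
    have := dd_ge (m := m) (r := j) (y := i + 20 * (m + 2) - TT m col (k + 1)) j2
    have := dd_ge (m := m) (r := j - 1) (y := i + 20 * (m + 2) - TT m col (k + 1)) (by omega)
    omega
  · have := GG_dn hm col (M := M) hk.le i (TT m col k + 1 + 20 * (m + 2) - i) (by omega) (by omega)
      (by omega)
    have := dd_ge (m := m) (r := j) (y := TT m col k + 1 + 20 * (m + 2) - i) j2
    have := dd_ge (m := m) (r := j - 1) (y := TT m col k + 1 + 20 * (m + 2) - i) (by omega)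
    omega

theorem at_cases {h r s : ℕ} (H : At m h r s) (col : ℕ → ℕ → ℕ) :
    (s < m ∧ be m col h = 20 * s ∧ pp m h = 3 * r + s + 2) ∨
    (m ≤ s ∧ s < 2 * m ∧ 12 ≤ be m col h) ∨
    (2 * m ≤ s ∧ al m col h = 0 ∧ pp m h ≤ 3 * r + 4) := by
  have := H.2.1
  by_cases h1 : s < m
  · have := H.fwd (col := col) h1; omega
  by_cases h2 : s < 2 * m
  · have := H.bck (col := col) (j := 2 * m - s) (by omega) (by omega) (by omega)
    have := ee_le (cl m col r (2 * m - s))
    omega
  · have := H.bas (col := col) (by omega); omega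

theorem Ctx.partner_low (C : Ctx m col M u) {h : ℕ} (hh : h < M) (h1 : be m col h = 0)
    (h2 : al m col h ≤ 20) : ∃ g x n i, g ≤ h ∧ be m col g = 0 ∧ al m col g ≤ 20 ∧
      pp m g + 1 = qq m h ∧ x ≤ 20 ∧ Pal u i n ∧ i + 20 * (m + 2) = TT m col g + x ∧
      n + x = TT m col h + 1 + 20 * (m + 2) := by
  have hm := C.hm
  have pv := pre_val m col
  obtain ⟨x, hx, ha, hb⟩ : ∃ x, al m col h ≤ x ∧ (x = 4 ∨ x = 20) ∧
      (x = 20 → ∃ r, At m h r 0) := by
    by_cases c : al m col h ≤ 4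
    · exact ⟨4, c, .inl rfl, by omega⟩
    refine ⟨20, h2, .inr rfl, fun _ => ?_⟩
    have h4 : 4 ≤ h := by
      by_contra c'
      have : h < 4 := by omega
      interval_cases h <;> omega
    obtain ⟨r, s, H⟩ := at_ex m h4
    have := at_cases H col
    obtain rfl : s = 0 := by omega
    exact ⟨r, H⟩
  have d3 : dd m 3 = 3 := dd_eq (r := 0) (s := 3) (by omega) (by omega) rfl
  have d4 : dd m 4 = 2 := dd_eq (r := 0) (s := 4) (by omega) (by omega) rfl
  have d19 : dd m 19 = 5 := dd_eq (r := 0) (s := 19) (by omega) (by omega) rfl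
  have d20 : dd m 20 = 4 := dd_eq (r := 0) (s := 20) (by omega) (by omega) rfl
  have hr : ∀ y, x ≤ y → dd m x ≤ dd m y := fun y hy => by
    have := dd_ge (m := m) (r := 0) (y := y) (by omega)
    rcases ha with rfl | rfl <;> omega
  obtain ⟨n, hn⟩ : ∃ n, n + x = TT m col h + 1 + 20 * (m + 2) :=
    ⟨_, Nat.sub_add_cancel (by omega)⟩
  obtain ⟨i, hi, hP, hG⟩ := C.ex (n := n) (by omega) (dn_le hm hh hx hn).le
  obtain ⟨g, g1, g2, g3, g4⟩ := C.align hh hx (by omega) hn hr hP hi hG
  have Gn := GG_dn hm col hh.le n x hx (by omega) hn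
  have hb : be m col g = 0 ∧ al m col g ≤ 20 := by
    rcases g3 with rfl | ⟨k, rfl, g3⟩
    · omega
    rcases valley hm col k with a | ⟨r', s', j, H', j1, j2, a, b⟩
    · omega
    exfalso
    have := probe_lb (M := M) hm (by omega) g3 g2 j1 j2 (ee_le (cl m col r' j)) (by omega)
    have c1 := (cl_one (m := m) (col := col) r').1
    by_cases hj : j = 1
    · subst hj
      rcases ha with rfl | rfl
      · omega
      · obtain ⟨r, H⟩ := hb rfl
        have := H.fwd (col := col) (by omega)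
        have := H.lt H' (by omega)
        omega
    · rcases ha with rfl | rfl <;> omega
  refine ⟨g, x, n, i, g1, hb.1, hb.2, ?_⟩
  have Gi := GG_up hm col (M := M) (h := g) (by omega) i
  rcases g4 with a | a | a
  · have := Gi x (by omega) (by omega) a.1
    exact ⟨by omega, by omega, hP, a.1, hn⟩
  · have := Gi (x - 1) (by omega) (by omega) (by omega)
    rcases ha with rfl | rfl <;> simp only [Nat.add_one_sub_one, Nat.reduceSub] at this <;> omega
  · have := Gi (x + 1) (by omega) (by omega) (by omega)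
    have := hr (x + 1) (by omega)
    omega

theorem Ctx.low_side (C : Ctx m col M u) : ∀ h, h < M → be m col h = 0 → al m col h ≤ 20 →
    ∃ σ, (σ = 0 ∨ σ = 3) ∧ σ ≤ h ∧ ∀ y, 20 < y → y ≤ 20 * (m + 2) →
      upL m col u h y = upL m col u σ y ∧ dnL m col u h y = upL m col u σ y := by
  intro h
  induction h using Nat.strong_induction_on with
  | _ h ih =>
    intro hh h1 h2
    obtain ⟨g, x, n, i, g1, g2, g3, g4, hx, hP, hi, hn⟩ := C.partner_low hh h1 h2
    obtain ⟨l1, l2⟩ := link C.hm g1 hP hi hn (by have := C.hm; omega)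
    rcases Nat.eq_or_lt_of_le g1 with rfl | l
    · exact ⟨g, (qq_bd m g).2.2 g4.symm, le_rfl, fun y a b => ⟨rfl, l1 y (by omega) b⟩⟩
    · obtain ⟨σ, s1, s2, s3⟩ := ih g l (by omega) g2 g3
      exact ⟨σ, s1, by omega, fun y a b => ⟨(l2 l y (by omega) b).trans (s3 y a b).2,
        (l1 y (by omega) b).trans (s3 y a b).1⟩⟩

theorem Ctx.partner_fwd (C : Ctx m col M u) {h r s x n : ℕ} (H : At m (h + 1) r (s + 1))
    (hs : s + 1 < m) (hh : h + 1 < M) (h1 : al m col (h + 1) ≤ x) (h2 : x ≤ 20 * (s + 2))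
    (h3 : 20 * s + 35 ≤ x) (h4 : dd m x ≤ 4 * s + 8) (hr : ∀ y, x ≤ y → dd m x ≤ dd m y)
    (hn : n + x = TT m col (h + 1) + 1 + 20 * (m + 2)) :
    ∃ i, Pal u i n ∧ (i + 20 * (m + 2) = TT m col h + x ∨
      (i + 20 * (m + 2) + 1 = TT m col (h + 1) + x ∧ dd m (x - 1) + 1 = dd m x)) := by
  have hm := C.hm
  obtain ⟨i, hi, hP, hG⟩ := C.ex (n := n) (by omega) (dn_le hm hh h1 hn).le
  obtain ⟨g, g1, g2, g3, g4⟩ := C.align hh h1 (by omega) hn hr hP hi hG
  have Gn := GG_dn hm col hh.le n x h1 (by omega) hn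
  have F := H.fwd (col := col) hs
  have r0 : r ≠ 0 := by
    rintro rfl
    have := H.zero; omega
  have hb : be m col g ≤ 20 * (s + 1) ∧ ((g = h ∧ pp m g + 1 = qq m (h + 1)) ∨
      (g = h + 1 ∧ pp m g = qq m (h + 1))) := by
    have z : be m col g = 0 → g = h ∧ pp m g + 1 = qq m (h + 1) := by
      intro z
      clear g3
      by_cases c : g < 4
      · have pv := pre_val m col
        interval_cases g <;> omega
      obtain ⟨r', s', H'⟩ := at_ex m (show 4 ≤ g by omega)
      have := at_cases H' col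
      have := H.lt H' g1
      omega
    rcases g3 with rfl | ⟨k, rfl, g3⟩
    · have := (pre_val m col).1.1
      have := z this
      omega
    rcases valley hm col k with a | ⟨r', s', j, H', j1, j2, a, b⟩
    · have := z a.1
      omega
    have := probe_lb (M := M) hm (by omega) g3 g2 j1 j2 (ee_le (cl m col r' j)) (by omega)
    have := H.lt H' (by omega)
    omega
  refine ⟨i, hP, ?_⟩
  have Gi := GG_up hm col (M := M) (h := g) (by omega) i
  rcases g4 with a | a | a
  · have := Gi x (by omega) (by omega) a.1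
    obtain rfl : g = h := by omega
    exact .inl a.1
  · have := Gi (x - 1) (by omega) (by omega) (by omega)
    obtain rfl : g = h + 1 := by omega
    exact .inr ⟨a.1, by omega⟩
  · have := Gi (x + 1) (by omega) (by omega) (by omega)
    have := hr (x + 1) (by omega)
    omega

theorem Ctx.partner_top (C : Ctx m col M u) {h r s : ℕ} (H : At m (h + 1) r (s + 1))
    (hs : s + 1 < m) (hh : h + 1 < M) :
    ∃ i n, Pal u i n ∧ i + 20 * (m + 2) = TT m col h + 20 * (s + 2) ∧
      n + 20 * (s + 2) = TT m col (h + 1) + 1 + 20 * (m + 2) := by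
  have F := H.fwd (col := col) hs
  have d1 : dd m (20 * (s + 2)) = 4 * (s + 1) + 4 :=
    dd_eq (r := s + 1) (s := 20) (by omega) (by omega) (by omega)
  have d2 : dd m (20 * (s + 2) - 1) = 4 * (s + 1) + 5 :=
    dd_eq (r := s + 1) (s := 19) (by omega) (by omega) (by omega)
  obtain ⟨n, hn⟩ : ∃ n, n + 20 * (s + 2) = TT m col (h + 1) + 1 + 20 * (m + 2) :=
    ⟨_, Nat.sub_add_cancel (by omega)⟩
  obtain ⟨i, hP, a⟩ := C.partner_fwd H hs hh (x := 20 * (s + 2)) (by omega) le_rfl (by omega)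
    (by omega) (fun y hy => by have := dd_ge (m := m) (r := s + 2) (y := y) (by omega); omega) hn
  exact ⟨i, n, hP, by omega, hn⟩

theorem At.add {h r : ℕ} (H : At m h r 0) {s : ℕ} (hs : s < 2 * m + 6) : At m (h + s) r s :=
  ⟨by have := H.1; omega, hs, by have := H.2.2; omega⟩

theorem Ctx.chain (C : Ctx m col M u) {h r : ℕ} (H : At m h r 0) (hh : h + m ≤ M) :
    ∃ σ, (σ = 0 ∨ σ = 3) ∧ ∀ s, s < m → ∀ y, y ≤ 20 * (m + 2) →
      (20 * (s + 1) < y → dnL m col u (h + s) y = upL m col u σ y) ∧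
      (20 * s < y → 20 < y → upL m col u (h + s) y = upL m col u σ y) := by
  have hm := C.hm
  have F := H.fwd (col := col) (by omega)
  obtain ⟨σ, s1, -, s3⟩ := C.low_side h (by omega) (by omega) (by omega)
  refine ⟨σ, s1, fun s => ?_⟩
  induction s with
  | zero => exact fun _ y hy => ⟨fun a => (s3 y a hy).2, fun _ a => (s3 y a hy).1⟩
  | succ s ih =>
    intro hs y hy
    have H' : At m (h + s + 1) r (s + 1) := H.add (s := s + 1) (by omega)
    obtain ⟨i, n, hP, hi, hn⟩ := C.partner_top H' hs (by omega)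
    obtain ⟨l1, l2⟩ := link hm (g := h + s) (h := h + s + 1) (by omega) hP hi hn (by omega)
    have := H'.fwd (col := col) hs
    exact ⟨fun a => (l1 y (by omega) hy).trans ((ih (by omega) y hy).2 (by omega) (by omega)),
      fun a b => (l2 (by omega) y (by omega) hy).trans
        ((ih (by omega) y hy).1 a)⟩

end Pool.Agent.Lib.MP_9cc368_co
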