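import Pool.Agent.Lib.MP_9cc368_co.NpPairs

/-! No palindromic factor of the word lowers the function. -/

namespace Pool.Agent.Lib.MP_9cc368_co

theorem dl_lip : ∀ s < 20, dl (s + 1) ≤ dl s + 1 ∧ dl s ≤ dl (s + 1) + 1 := by decide

theorem dd_lip (m x : ℕ) : dd m (x + 1) ≤ dd m x + 1 ∧ dd m x ≤ dd m (x + 1) + 1 := by
  rcases dd_cases m x with ⟨h, e⟩ | ⟨r, s, hr, hs, e, e'⟩
  · have := dd_ramp (m := m) (x := x + 1) (by omega); omega
  · have := dd_eq (m := m) (r := r) (s := s + 1) (x := x + 1) hr hs (by omega)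
    have := dl_lip s hs
    omega

def BP (v s t : ℕ) : Prop := ∀ p ≤ 20, s < p → p ≤ t → bl v p = bl v (s + t + 1 - p)

instance (v s t : ℕ) : Decidable (BP v s t) := by unfold BP; infer_instance

theorem blk_dec : ∀ v ∈ [6, 2, 8], ∀ s ≤ 20, ∀ t ≤ 20, s < t → BP v s t →
    dl t ≤ dl s + 1 ∧ dl s ≤ dl t + 1 := by decide +kernel

theorem core_dec : ∀ v ∈ [6, 2, 8], ∀ s ≤ 20, 12 ≤ s → bl v s = bl v 20 → 4 ≤ dl s := by decide

namespace Dat
variable {D : Dat}

theorem blk (σ : ℕ) {x y : ℕ} (h : x < y)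
    (P : ∀ s t, x < s → x < t → s + t = x + y + 1 → D.tau σ s = D.tau σ t) :
    dd D.m y ≤ dd D.m x + 1 ∧ dd D.m x ≤ dd D.m y + 1 := by
  rcases (D.tau_inj (by omega) (by omega) (P (x + 1) y (by omega) h (by omega))).2 with
    rfl | ⟨r, s, t, hr, s1, s2, t1, t2, e1, e2, -⟩
  · exact dd_lip _ _
  have := dd_eq (m := D.m) (s := s - 1) (x := x) hr (by omega) (by omega)
  have := dd_eq (m := D.m) hr t2 e2
  have := blk_dec _ (sl_mem (D.st σ (r + 1))) (s - 1) (by omega) t t2 (by omega) fun p p1 p2 p3 => by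
    have := P (20 * r + p) (20 * r + (s - 1 + t + 1 - p)) (by omega) (by omega) (by omega)
    rw [D.tau_eq σ hr (by omega) p1 rfl, D.tau_eq σ hr (by omega) (by omega) rfl,
      Prod.mk.injEq] at this
    omega
  omega

def U (D : Dat) (h x i : ℕ) : Prop :=
  be D.m D.col h ≤ x ∧ x ≤ 20 * (D.m + 2) ∧ i + 20 * (D.m + 2) = TT D.m D.col h + x

def Dn (D : Dat) (h x i : ℕ) : Prop :=
  al D.m D.col h ≤ x ∧ x ≤ 20 * (D.m + 2) ∧ i + x = TT D.m D.col h + 1 + 20 * (D.m + 2)

abbrev G (D : Dat) (n : ℕ) : ℕ := GG D.m D.col D.M n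

theorem U.le {h x i : ℕ} (H : D.U h x i) (hi : i ≤ TT D.m D.col D.M) : h ≤ D.M := by
  by_contra c
  obtain ⟨k, rfl⟩ : ∃ k, h = k + 1 := ⟨h - 1, by omega⟩
  have := TT_mono D.hm D.col (show D.M ≤ k by omega)
  have := TT_succ D.hm D.col k
  have := val_bd D.hm D.col k
  unfold U at H
  omega

theorem Dn.lt {h x i : ℕ} (H : D.Dn h x i) (hi : i ≤ TT D.m D.col D.M) : h < D.M := by
  by_contra c
  have := TT_mono D.hm D.col (show D.M ≤ h by omega)
  unfold Dn at H
  omega

theorem U.G {h x i : ℕ} (H : D.U h x i) (hh : h ≤ D.M) : D.G i = pp D.m h + dd D.m x :=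
  GG_up D.hm D.col hh i x H.1 H.2.1 H.2.2

theorem Dn.G {h x i : ℕ} (H : D.Dn h x i) (hh : h ≤ D.M) : D.G i = qq D.m h + dd D.m x :=
  GG_dn D.hm D.col hh i x H.1 H.2.1 H.2.2

def Inv (D : Dat) (i j : ℕ) : Prop :=
  (∃ a b x, a ≤ b ∧ D.U a x i ∧ D.Dn b x j ∧ D.sd a = D.sd b ∧ GP D.m a b) ∨
  (∃ a b x, a < b ∧ D.Dn a x i ∧ D.U b x j ∧ pp D.m b ≤ qq D.m a + 1 ∧
    (D.sd a = D.sd b → GP D.m a b)) ∨
  (∃ h x y, D.U h x i ∧ D.U h y j) ∨ (∃ h x y, D.Dn h x i ∧ D.Dn h y j) ∨
  (D.G j ≤ D.G i + 1 ∧ (i = 0 ∨ D.wd (i - 1) ≠ D.wd j))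

theorem cross {a x y i j : ℕ} (ha : a < D.M) (A : D.Dn a x i) (B : D.U (a + 1) y j)
    (hx : x ≤ max (al D.m D.col a) (be D.m D.col (a + 1)))
    (hy : y ≤ max (al D.m D.col a) (be D.m D.col (a + 1)))
    (h : x = al D.m D.col a ∨ (y = be D.m D.col (a + 1) ∧ D.tau (D.sd a) x = D.J a)) :
    D.Inv i j := by
  have hm := D.hm
  have v := val_bd hm D.col a
  by_cases e : x = y
  · subst e
    exact .inr (.inl ⟨a, a + 1, x, by omega, A, B, by omega, fun _ => .inr (.inl rfl)⟩)
  have g1 := A.G ha.le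
  have g2 := B.G ha
  unfold U at B
  unfold Dn at A
  have w1 := D.wD ha.le (i - 1) (x + 1) (by omega) (by omega) (by omega)
  have w2 := D.wU (h := a + 1) ha j (y + 1) (by omega) (by omega) (by omega)
  refine .inr (.inr (.inr (.inr ⟨?_, .inr fun c => ?_⟩)))
  · rcases val ha with V | V | ⟨k, c, c1, k1, V1, V2, V3, V⟩
    · omega
    · have : dd D.m 0 = 0 := dd_eq (r := 0) (s := 0) (by omega) (by omega) rfl
      obtain rfl : y = 0 := by omega
      omega
    have d1 : dd D.m (20 * (k + 1)) = 4 * k + 4 :=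
      dd_eq (r := k) (s := 20) (by omega) (by omega) (by omega)
    have e8 := ee_le c
    rcases V with V | V
    · obtain rfl : y = 20 * (k + 1) := by omega
      obtain ⟨s, rfl⟩ : ∃ s, x = 20 * k + s := ⟨x - 20 * k, by omega⟩
      have := dd_eq (m := D.m) (r := k) (s := s) (by omega) (by omega) rfl
      suffices 4 ≤ dl s by omega
      rcases h with h | h
      · have : s + ee c = 20 := by omega
        rcases c1 with rfl | rfl | rfl
        · obtain rfl : s = 18 := by simp [ee] at this; omega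
          decide
        · obtain rfl : s = 16 := by simp [ee] at this; omega
          decide
        · obtain rfl : s = 12 := by simp [ee] at this; omega
          decide
      · have := h.2
        rw [V1, D.tau_eq _ (r := k) (s := s) (by omega) (by omega) (by omega) rfl,
          D.tau_eq _ (r := k) (s := 20) (by omega) (by omega) (by omega) (by omega),
          Prod.mk.injEq] at this
        exact core_dec _ (sl_mem (D.st (D.sd a) (k + 1))) s (by omega) (by omega) (by omega)
    · obtain rfl : x = 20 * (k + 1) := by omega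
      obtain ⟨s, rfl⟩ : ∃ s, y = 20 * k + s := ⟨y - 20 * k, by omega⟩
      have := dd_eq (m := D.m) (r := k) (s := s) (by omega) (by omega) rfl
      have := dl_bd s (by omega)
      omega
  · rw [w1, w2] at c
    have := (D.tau_inj (by omega) (by omega) c).2
    rcases val ha with V | V | ⟨k, c, c1, k1, V1, V2, V3, V⟩
    · omega
    · rcases this with _ | ⟨r, s, t, _, _, _, _, _, _, _, -⟩ <;> omega
    · rcases this with _ | ⟨r, s, t, _, _, _, _, _, _, _, -⟩ <;> omega

theorem state_ne {σ k c x : ℕ} (c1 : c = 1 ∨ c = 2 ∨ c = 3) (k1 : k + 1 < D.m)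
    (h : sl (D.st σ (k + 1)) ≠ sl c) (hx : x + ee c = 20 * (k + 1)) :
    D.tau σ (20 * (k + 1)) ≠ D.tau σ x := by
  have e8 := ee_le c
  rw [D.tau_eq _ (r := k) (s := 20 - ee c) (x := x) (by omega) (by omega) (by omega) (by omega),
    D.tau_eq _ (r := k) (s := 20) (by omega) (by omega) (by omega) (by omega), Ne, Prod.mk.injEq]
  rintro ⟨-, e⟩
  apply h
  rcases c1 with rfl | rfl | rfl <;> simpa [bl, ee, sl] using e

theorem J_ne {a x σ : ℕ} (h : (D.J a).1 = 2) (hσ : σ < 2) : D.J a ≠ D.tau σ x := fun e => by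
  rw [e] at h
  simp only [tau] at h
  omega

theorem JA {b : ℕ} (hb : b < D.M) (h : al D.m D.col b ≤ be D.m D.col (b + 1)) :
    D.J b ≠ D.tau (D.sd b) (al D.m D.col b) := by
  rcases val hb with V | V | ⟨k, c, c1, k1, V1, V2, V3, V⟩
  · exact J_ne V.2 (D.sd_lt b)
  · omega
  · have : ee c ≠ 0 := by rcases c1 with rfl | rfl | rfl <;> decide
    rw [V1]
    exact state_ne c1 k1 V3 (by omega)

theorem JB {b : ℕ} (hb : b < D.M) (h : be D.m D.col (b + 1) ≤ al D.m D.col b)
    (h1 : 0 < be D.m D.col (b + 1)) : D.J b ≠ D.tau (D.sd (b + 1)) (be D.m D.col (b + 1)) := by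
  rcases val hb with V | V | ⟨k, c, c1, k1, V1, V2, V3, V⟩
  · exact J_ne V.2 (D.sd_lt _)
  · omega
  · have : ee c ≠ 0 := by rcases c1 with rfl | rfl | rfl <;> decide
    rw [V1, V2]
    exact state_ne c1 k1 V3 (by omega)

theorem J_tau {a x σ : ℕ} (ha : a < D.M) (hσ : σ < 2) (hx : 1 ≤ x) (e : D.J a = D.tau σ x) :
    x ≤ max (al D.m D.col a) (be D.m D.col (a + 1)) := by
  rcases val ha with V | V | ⟨k, c, c1, k1, V1, V2, V3, V⟩
  · exact absurd e (J_ne V.2 hσ)
  · rw [V.2.2.2.1] at e
    rcases (D.tau_inj (by omega) hx e).2 with _ | ⟨r, s, t, _, _, _, _, _, _, _, -⟩ <;> omega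
  · rw [V1] at e
    rcases (D.tau_inj (by omega) hx e).2 with _ | ⟨r, s, t, _, _, _, _, _, _, _, -⟩ <;> omega

theorem grow {i j : ℕ} (I : D.Inv (i + 1) j) (hij : i + 1 ≤ j) (hj : j + 1 ≤ TT D.m D.col D.M)
    (e : D.wd i = D.wd j) : D.Inv i (j + 1) := by
  have hm := D.hm
  have T0 := TT_zero (m := D.m) (col := D.col)
  have pv := pre_val D.m D.col
  rcases I with ⟨a, b, x, ab, A, B, s, g⟩ | ⟨a, b, x, ab, A, B, s, g⟩ | ⟨h, x, y, A, B⟩ |
    ⟨h, x, y, A, B⟩ | ⟨-, I⟩
  · have hb := B.lt (by omega)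
    have tb := TT_succ hm D.col b
    have vb := val_bd hm D.col b
    unfold U at A
    unfold Dn at B
    by_cases c : be D.m D.col a < x ∧ al D.m D.col b < x
    · exact .inl ⟨a, b, x - 1, ab, ⟨by omega, by omega, by omega⟩, ⟨by omega, by omega, by omega⟩,
        s, g⟩
    have wa : be D.m D.col a < x → D.wd i = D.tau (D.sd a) x := fun c =>
      D.wU (by omega) i x c (by omega) (by omega)
    have wb : al D.m D.col b < x → D.wd j = D.tau (D.sd b) x := fun c =>
      D.wD (by omega) j x c (by omega) (by omega)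
    have wb' : al D.m D.col b = x → D.wd j = D.J b := fun c => D.wJ (by omega) j (by omega)
    have wa' : be D.m D.col a = x → 1 ≤ a ∧ D.wd i = D.J (a - 1) ∧
        D.Dn (a - 1) (al D.m D.col (a - 1)) i := fun c => by
      rcases a with _ | a
      · omega
      · have := TT_succ hm D.col a
        have := val_bd hm D.col a
        rw [Nat.add_sub_cancel]
        exact ⟨by omega, D.wJ (by omega) i (by omega), le_rfl, by omega, by omega⟩
    rcases (step g s).2 with S | S | S | S | ⟨rfl, S⟩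
    · obtain rfl : x = al D.m D.col b := by omega
      exact absurd ((wb' rfl).symm.trans (e.symm.trans (s ▸ wa S.1))) (JA hb S.2)
    · obtain rfl : x = be D.m D.col a := by omega
      obtain ⟨a, rfl⟩ : ∃ k, a = k + 1 := ⟨a - 1, by omega⟩
      exact absurd ((wa' rfl).2.1.symm.trans (e.trans (s ▸ wb S.1)))
        (JB (b := a) (by omega) S.2.2 (by omega))
    · have := wa' (by omega)
      rw [this.2.1, wb' (by omega)] at e
      rw [e] at S
      omega
    · exact .inr (.inl ⟨a - 1, b + 1, _, by omega, (wa' (by omega)).2.2,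
        ⟨by omega, by omega, by omega⟩, S.2.2.2.1, S.2.2.2.2⟩)
    · have A' : D.U a 0 i := by
        rcases S with rfl | rfl <;> exact ⟨by omega, by omega, by omega⟩
      have B' : D.U (a + 1) 0 (j + 1) := by
        have := kk (D := D) (at_four D.m) 2 rfl
        rcases S with rfl | rfl <;> simp only [Nat.reduceAdd] at * <;>
          exact ⟨by omega, by omega, by omega⟩
      have := A'.G hb.le
      have := B'.G hb
      refine .inr (.inr (.inr (.inr ?_)))
      rcases S with rfl | rfl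
      · simp only [Nat.reduceAdd] at *
        exact ⟨by omega, .inl (by omega)⟩
      · have := kk (D := D) (at_four D.m) 2 rfl
        have := TT_succ hm D.col 2
        simp only [Nat.reduceAdd] at *
        refine ⟨by omega, .inr ?_⟩
        rw [D.wJ (h := 2) (by omega) (i - 1) (by omega),
          D.wU (h := 4) (by omega) (j + 1) 1 (by omega) (by omega) (by omega)]
        exact J_ne (by rw [D.pre.2.2.2.1]) (D.sd_lt _)
  · have hb := B.le (by omega)
    unfold U at B
    unfold Dn at A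
    rw [D.wD (h := a) (by omega) i (x + 1) (by omega) (by omega) (by omega),
      D.wU hb j (x + 1) (by omega) (by omega) (by omega)] at e
    have s' := (D.tau_inj (by omega) (by omega) e).1
    by_cases c : x < 20 * (D.m + 2)
    · exact .inr (.inl ⟨a, b, x + 1, ab, ⟨by omega, by omega, by omega⟩,
        ⟨by omega, by omega, by omega⟩, s, g⟩)
    · have := be_bd hm D.col a
      have := val_bd hm D.col b
      exact .inl ⟨a, b, x, ab.le, ⟨by omega, by omega, by omega⟩, ⟨by omega, by omega, by omega⟩,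
        s', g s'⟩
  · have hb := B.le (by omega)
    have := be_bd hm D.col h
    unfold U at A B
    rw [D.wU hb j (y + 1) (by omega) (by omega) (by omega)] at e
    by_cases c : be D.m D.col h < x
    · rw [D.wU hb i x c (by omega) (by omega)] at e
      have : y < 20 * (D.m + 2) := by
        rcases (D.tau_inj (by omega) (by omega) e).2 with _ | ⟨r, s, t, _, _, _, _, _, _, _, -⟩ <;>
          omega
      exact .inr (.inr (.inl ⟨h, x - 1, y + 1, ⟨by omega, by omega, by omega⟩,
        ⟨by omega, by omega, by omega⟩⟩))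
    rcases h with _ | a
    · omega
    have := TT_succ hm D.col a
    have := val_bd hm D.col a
    rw [D.wJ (h := a) (by omega) i (by omega)] at e
    have := J_tau hb (D.sd_lt _) (by omega) e
    exact cross (a := a) (x := al D.m D.col a) (y := y + 1) hb ⟨le_rfl, by omega, by omega⟩
      ⟨by omega, by omega, by omega⟩ (by omega) this (.inl rfl)
  · have hb := B.lt (by omega)
    have := TT_succ hm D.col h
    have := val_bd hm D.col h
    unfold Dn at A B
    rw [D.wD hb.le i (x + 1) (by omega) (by omega) (by omega)] at e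
    by_cases c : al D.m D.col h < y
    · rw [D.wD hb.le j y c (by omega) (by omega)] at e
      have : x < 20 * (D.m + 2) := by
        rcases (D.tau_inj (by omega) (by omega) e).2 with _ | ⟨r, s, t, _, _, _, _, _, _, _, -⟩ <;>
          omega
      exact .inr (.inr (.inr (.inl ⟨h, x + 1, y - 1, ⟨by omega, by omega, by omega⟩,
        ⟨by omega, by omega, by omega⟩⟩)))
    rw [D.wJ hb.le j (by omega)] at e
    have := J_tau hb (D.sd_lt _) (by omega) e.symm
    exact cross (a := h) (x := x + 1) (y := be D.m D.col (h + 1)) hb ⟨by omega, by omega, by omega⟩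
      ⟨le_rfl, by omega, by omega⟩ this (by omega) (.inr ⟨rfl, e⟩)
  · rcases I with I | I
    · omega
    · exact absurd e I

theorem inv : ∀ (k i j : ℕ), j = i + k → j ≤ TT D.m D.col D.M → Pal D.wd i j → D.Inv i j
  | 0, i, j, e, _, _ => by
    obtain ⟨h, x, hx, a | a⟩ := locate D.hm D.col i
    · exact .inr (.inr (.inl ⟨h, x, x, ⟨a.1, hx, a.2⟩, ⟨a.1, hx, by omega⟩⟩))
    · exact .inr (.inr (.inr (.inl ⟨h, x, x, ⟨a.1, hx, a.2⟩, ⟨a.1, hx, by omega⟩⟩)))
  | 1, i, j, e, hj, _ => by
    obtain ⟨h, x, hx, a | a⟩ := locate D.hm D.col i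
    · by_cases c : x < 20 * (D.m + 2)
      · exact .inr (.inr (.inl ⟨h, x, x + 1, ⟨a.1, hx, a.2⟩, ⟨by omega, c, by omega⟩⟩))
      · have := val_bd D.hm D.col h
        exact .inl ⟨h, h, x, le_rfl, ⟨a.1, hx, a.2⟩, ⟨by omega, hx, by omega⟩, rfl, .inl rfl⟩
    · by_cases c : al D.m D.col h < x
      · exact .inr (.inr (.inr (.inl ⟨h, x, x - 1, ⟨a.1, hx, a.2⟩, ⟨by omega, by omega, by omega⟩⟩)))
      · have := val_bd D.hm D.col h
        have := TT_succ D.hm D.col h
        have A : D.Dn h x i := ⟨a.1, hx, a.2⟩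
        exact cross (y := be D.m D.col (h + 1)) (A.lt (by omega)) A ⟨le_rfl, by omega, by omega⟩
          (by omega) (by omega) (.inl (by omega))
  | k + 2, i, j, e, hj, P => by
    obtain ⟨j, rfl⟩ : ∃ l, j = l + 1 := ⟨j - 1, by omega⟩
    exact grow (inv k (i + 1) j (by omega) (by omega) (P.shrink (by omega) (by omega))) (by omega)
      hj (P i j le_rfl (by omega) (by omega))

theorem upper {i j : ℕ} (hij : i < j) (hj : j ≤ TT D.m D.col D.M) (P : Pal D.wd i j) :
    D.G j ≤ D.G i + 1 := by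
  rcases inv (j - i) i j (by omega) hj P with ⟨a, b, x, ab, A, B, s, g⟩ |
    ⟨a, b, x, ab, A, B, s, g⟩ | ⟨h, x, y, A, B⟩ | ⟨h, x, y, A, B⟩ | ⟨I, -⟩
  · have hb := B.lt hj
    have := A.G (by omega)
    have := B.G hb.le
    have := (step g s).1
    omega
  · have hb := B.le hj
    have := A.G (by omega)
    have := B.G hb
    omega
  · have hb := B.le hj
    have := A.G hb
    have := B.G hb
    have := TT_ge D.hm D.col h
    unfold U at A B
    have := blk (D := D) (D.sd h) (x := x) (y := y) (by omega) fun s t h1 h2 h3 => by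
      rw [← D.wU hb (i + (s - x - 1)) s (by omega) (by omega) (by omega),
        ← D.wU hb (i + (t - x - 1)) t (by omega) (by omega) (by omega)]
      exact P _ _ (by omega) (by omega) (by omega)
    omega
  · have hb := (B.lt hj).le
    have := A.G hb
    have := B.G hb
    unfold Dn at A B
    have := blk (D := D) (D.sd h) (x := y) (y := x) (by omega) fun s t h1 h2 h3 => by
      rw [← D.wD hb (i + (x - s)) s (by omega) (by omega) (by omega),
        ← D.wD hb (i + (x - t)) t (by omega) (by omega) (by omega)]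
      exact P _ _ (by omega) (by omega) (by omega)
    omega
  · exact I

end Dat

end Pool.Agent.Lib.MP_9cc368_co
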