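import Pool.Agent.Lib.MP_9cc368_co.NpDetect

/-! The word built from a splitting, and its letters. -/

namespace Pool.Agent.Lib.MP_9cc368_co

def sl (c : ℕ) : ℕ := if c = 1 then 6 else if c = 2 then 2 else 8

def bl (v s : ℕ) : ℕ :=
  if s = 20 then v else [0, 1, 2, 3, 2, 3, 6, 3, 8, 3, 6, 3, 8, 3, 6, 3, 2, 3, 6, 3].getD s 0

theorem sl_mem (c : ℕ) : sl c ∈ [6, 2, 8] := by unfold sl; split_ifs <;> simp

theorem bl_bd : ∀ v ∈ [6, 2, 8], ∀ s ≤ 20, 1 ≤ s → 1 ≤ bl v s ∧ bl v s ≤ 8 ∧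
    (bl v s = 1 ↔ s = 1) := by decide

structure Dat where
  m : ℕ
  nr : ℕ
  col : ℕ → ℕ → ℕ
  side : ℕ → ℕ
  st : ℕ → ℕ → ℕ
  hm : 2 ≤ m
  hs : ∀ r, side r < 2
  hc : ∀ r j, 1 ≤ r → r ≤ nr → ee (cl m col r j) ≠ 0 → sl (st (side r) j) ≠ sl (cl m col r j)

namespace Dat
variable (D : Dat)

def M : ℕ := 8 + (2 * D.m + 6) * D.nr

def tau (σ x : ℕ) : ℕ × ℕ := (σ, if 20 * (D.m + 1) < x then x else
  20 * ((x - 1) / 20) + bl (sl (D.st σ ((x - 1) / 20 + 1))) ((x - 1) % 20 + 1))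

def sd (h : ℕ) : ℕ := if h < 4 then (if h = 3 then 1 else 0) else
  if ss D.m h < 2 * D.m then D.side (rho D.m h) else
    (rho D.m h + (ss D.m h - 2 * D.m + 1) / 2) % 2

def J (h : ℕ) : ℕ × ℕ := if h < 4 then (if h = 0 then (0, 1) else if h = 3 then (1, 1) else (2, 0))
  else if al D.m D.col h = 0 then
    (2, if ss D.m h = 2 * D.m + 1 then 2 else if ss D.m h = 2 * D.m + 3 then 3 else 0)
  else if al D.m D.col h = be D.m D.col (h + 1) then (2, 4)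
  else D.tau (D.sd h) (max (al D.m D.col h) (be D.m D.col (h + 1)))

def wd (n : ℕ) : ℕ × ℕ :=
  if n ≤ TT D.m D.col (hump D.m D.col D.M n) then
    D.tau (D.sd (hump D.m D.col D.M n)) (n + 1 + 20 * (D.m + 2) - TT D.m D.col (hump D.m D.col D.M n))
  else if al D.m D.col (hump D.m D.col D.M n) + n <
      TT D.m D.col (hump D.m D.col D.M n) + 1 + 20 * (D.m + 2) then
    D.tau (D.sd (hump D.m D.col D.M n)) (TT D.m D.col (hump D.m D.col D.M n) + 1 + 20 * (D.m + 2) - n)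
  else D.J (hump D.m D.col D.M n)

theorem wU {h : ℕ} (hh : h ≤ D.M) (n x : ℕ) (h1 : be D.m D.col h < x) (h2 : x ≤ 20 * (D.m + 2) + 1)
    (e : n + 1 + 20 * (D.m + 2) = TT D.m D.col h + x) : D.wd n = D.tau (D.sd h) x := by
  have := val_bd D.hm D.col h
  rw [wd, hump_eq D.hm hh (by omega) (by omega), if_pos (by omega)]
  congr 1; omega

theorem wD {h : ℕ} (hh : h ≤ D.M) (n x : ℕ) (h1 : al D.m D.col h < x) (h2 : x ≤ 20 * (D.m + 2) + 1)
    (e : n + x = TT D.m D.col h + 1 + 20 * (D.m + 2)) : D.wd n = D.tau (D.sd h) x := by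
  have := be_bd D.hm D.col h
  rcases Nat.eq_or_lt_of_le h2 with rfl | h3
  · exact D.wU hh n _ (by omega) le_rfl (by omega)
  rw [wd, hump_eq D.hm hh (by omega) (by omega), if_neg (by omega), if_pos (by omega)]
  congr 1; omega

theorem wJ {h : ℕ} (hh : h ≤ D.M) (n : ℕ)
    (e : n + al D.m D.col h = TT D.m D.col h + 1 + 20 * (D.m + 2)) : D.wd n = D.J h := by
  have := be_bd D.hm D.col h
  have := val_bd D.hm D.col h
  rw [wd, hump_eq D.hm hh (by omega) (by omega), if_neg (by omega), if_neg (by omega)]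

theorem tau_eq (σ : ℕ) {r s x : ℕ} (hr : r ≤ D.m) (h1 : 1 ≤ s) (h2 : s ≤ 20) (e : x = 20 * r + s) :
    D.tau σ x = (σ, 20 * r + bl (sl (D.st σ (r + 1))) s) := by
  subst e
  rw [tau, if_neg (by omega), show (20 * r + s - 1) / 20 = r by omega,
    show (20 * r + s - 1) % 20 + 1 = s by omega]

theorem tau_cases (σ : ℕ) {x : ℕ} (hx : 1 ≤ x) : (20 * (D.m + 1) < x ∧ D.tau σ x = (σ, x)) ∨
    ∃ r s, r ≤ D.m ∧ 1 ≤ s ∧ s ≤ 20 ∧ x = 20 * r + s ∧
      D.tau σ x = (σ, 20 * r + bl (sl (D.st σ (r + 1))) s) := by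
  by_cases h : 20 * (D.m + 1) < x
  · exact .inl ⟨h, by rw [tau, if_pos h]⟩
  · exact .inr ⟨(x - 1) / 20, (x - 1) % 20 + 1, by omega, by omega, by omega, by omega,
      D.tau_eq σ (by omega) (by omega) (by omega) (by omega)⟩

theorem tau_inj {σ σ' x y : ℕ} (hx : 1 ≤ x) (hy : 1 ≤ y) (e : D.tau σ x = D.tau σ' y) :
    σ = σ' ∧ (x = y ∨ ∃ r s t, r ≤ D.m ∧ 2 ≤ s ∧ s ≤ 20 ∧ 2 ≤ t ∧ t ≤ 20 ∧ x = 20 * r + s ∧
      y = 20 * r + t ∧ bl (sl (D.st σ (r + 1))) s = bl (sl (D.st σ (r + 1))) t) := by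
  obtain rfl : σ = σ' := congrArg Prod.fst e
  refine ⟨rfl, ?_⟩
  rcases D.tau_cases σ hx with a | ⟨r, s, a1, a2, a3, a4, a5⟩ <;>
    rcases D.tau_cases σ hy with b | ⟨r', t, b1, b2, b3, b4, b5⟩
  · rw [a.2, b.2, Prod.mk.injEq] at e; omega
  · rw [a.2, b5, Prod.mk.injEq] at e
    have := bl_bd _ (sl_mem (D.st σ (r' + 1))) t b3 b2; omega
  · rw [a5, b.2, Prod.mk.injEq] at e
    have := bl_bd _ (sl_mem (D.st σ (r + 1))) s a3 a2; omega
  · rw [a5, b5, Prod.mk.injEq] at e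
    have := bl_bd _ (sl_mem (D.st σ (r' + 1))) t b3 b2
    have := bl_bd _ (sl_mem (D.st σ (r + 1))) s a3 a2
    obtain rfl : r = r' := by omega
    by_cases c : s = 1 ∨ t = 1
    · left; omega
    · exact .inr ⟨r, s, t, a1, by omega, a3, by omega, b3, a4, b4, by omega⟩

theorem tau_one (σ : ℕ) : D.tau σ 1 = (σ, 1) :=
  D.tau_eq σ (r := 0) (s := 1) (by omega) le_rfl (by omega) rfl

theorem sd_lt (h : ℕ) : D.sd h < 2 := by
  have := D.hs (rho D.m h)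
  unfold sd; split_ifs <;> omega

theorem pre : (D.sd 0 = 0 ∧ D.sd 1 = 0 ∧ D.sd 2 = 0 ∧ D.sd 3 = 1) ∧ D.J 0 = (0, 1) ∧
    D.J 1 = (2, 0) ∧ D.J 2 = (2, 0) ∧ D.J 3 = (1, 1) := by simp [sd, J]

variable {D}

theorem sd_fb {h r s : ℕ} (H : At D.m h r s) (hs : s < 2 * D.m) : D.sd h = D.side r := by
  have := H.1
  rw [sd, if_neg (by omega), H.rs.1, H.rs.2, if_pos hs]

theorem kk {h r s : ℕ} (H : At D.m h r s) (t : ℕ) (hs : s = 2 * D.m + t) :
    be D.m D.col h = 0 ∧ al D.m D.col h = 0 ∧ pp D.m h = 3 * r + 2 + t / 2 ∧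
    qq D.m h = pp D.m h ∧ D.sd h = (r + (t + 1) / 2) % 2 ∧ (D.J h).1 = 2 ∧
    (D.J h).2 = if t = 1 then 2 else if t = 3 then 3 else 0 := by
  have := H.1
  have b := H.bas (col := D.col) (by omega)
  subst hs
  have h4 : ¬ h < 4 := by omega
  rw [J, sd, if_neg h4, if_neg h4, if_pos b.2.1, H.rs.1, H.rs.2,
    if_neg (show ¬ 2 * D.m + t < 2 * D.m by omega)]
  simp only [Nat.add_sub_cancel_left, Nat.add_left_cancel_iff] at b ⊢
  exact ⟨b.1, b.2.1, b.2.2.1, b.2.2.2, trivial, trivial, trivial⟩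

theorem b1 {h r s : ℕ} (H : At D.m h r s) (hs : s + 1 = 2 * D.m) :
    be D.m D.col h = 20 ∧ al D.m D.col h = 0 ∧ pp D.m h = 3 * r + 3 ∧
    qq D.m h = pp D.m h ∧ D.sd h = D.side r ∧ (D.J h).1 = 2 ∧ (D.J h).2 = 0 := by
  have := H.1
  have := D.hm
  have b := H.bck (col := D.col) (j := 1) hs le_rfl (by omega)
  have := (cl_one (m := D.m) (col := D.col) r).1
  rw [J, if_neg (by omega), if_pos (by omega), H.rs.2, if_neg (by omega), if_neg (by omega)]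
  exact ⟨by omega, by omega, by omega, by omega, sd_fb H (by omega), rfl, rfl⟩

theorem at_lt {h r s : ℕ} (H : At D.m h r s) (hh : h < D.M) : r ≤ D.nr := by
  by_contra c
  have := Nat.mul_le_mul_left (2 * D.m + 6) (show D.nr + 1 ≤ r by omega)
  have := H.2.2
  rw [Nat.mul_succ] at *
  unfold M at hh
  omega

theorem val {a : ℕ} (ha : a < D.M) :
    (al D.m D.col a = be D.m D.col (a + 1) ∧ (D.J a).1 = 2) ∨
    ((a = 0 ∨ a = 3) ∧ al D.m D.col a = 1 ∧ be D.m D.col (a + 1) = 0 ∧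
      D.J a = D.tau (D.sd a) 1 ∧ D.sd (a + 1) = D.sd a) ∨
    ∃ j c, (c = 1 ∨ c = 2 ∨ c = 3) ∧ j + 1 < D.m ∧ D.J a = D.tau (D.sd a) (20 * (j + 1)) ∧
      D.sd (a + 1) = D.sd a ∧ sl (D.st (D.sd a) (j + 1)) ≠ sl c ∧
      ((be D.m D.col (a + 1) = 20 * (j + 1) ∧ al D.m D.col a + ee c = 20 * (j + 1) ∧
        qq D.m a + 1 = pp D.m (a + 1)) ∨
      (al D.m D.col a = 20 * (j + 1) ∧ be D.m D.col (a + 1) + ee c = 20 * (j + 1) ∧
        qq D.m a = pp D.m (a + 1) + 1)) := by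
  have hm := D.hm
  have pv := pre_val D.m D.col
  have pr := D.pre
  by_cases h4 : a < 4
  · have := kk (D := D) (at_four D.m) 2 rfl
    interval_cases a <;> simp only [Nat.reduceAdd]
    · exact .inr (.inl ⟨by simp, by omega, by omega, by rw [pr.2.1, pr.1.1, tau_one], by omega⟩)
    · exact .inl ⟨by omega, by rw [pr.2.2.1]⟩
    · exact .inl ⟨by omega, by rw [pr.2.2.2.1]⟩
    · exact .inr (.inl ⟨by simp, by omega, by omega, by rw [pr.2.2.2.2, pr.1.2.2.2, tau_one],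
        by omega⟩)
  by_cases e : al D.m D.col a = be D.m D.col (a + 1)
  · refine .inl ⟨e, ?_⟩
    rw [J, if_neg h4, if_pos e]
    split_ifs <;> rfl
  rcases valley hm D.col a with v | ⟨r, s, j, H, j1, j2, v1, v⟩
  · exfalso
    obtain ⟨r, s, H⟩ := at_ex D.m (show 4 ≤ a by omega)
    have := ee_le (cl D.m D.col r (s + 1))
    by_cases h1 : s < D.m
    · have := H.fwd (col := D.col) h1; omega
    by_cases h2 : s < 2 * D.m
    · have := H.bck (col := D.col) (j := 2 * D.m - s) (by omega) (by omega) (by omega); omega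
    · have := H.bas (col := D.col) (by omega); omega
  have r1 : r ≠ 0 := by
    rintro rfl
    have := H.zero; omega
  have e0 : ee (cl D.m D.col r j) ≠ 0 := by omega
  have hc := D.hc r j (by omega) (at_lt H ha) e0
  have jm : j < D.m := by
    rcases Nat.eq_or_lt_of_le j2 with rfl | l
    · exact absurd (cl_one r).2 e0
    · exact l
  have e8 := ee_le (cl D.m D.col r j)
  obtain ⟨j, rfl⟩ : ∃ k, j = k + 1 := ⟨j - 1, by omega⟩
  have s1 := sd_fb H (by omega)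
  refine .inr (.inr ⟨j, cl D.m D.col r (j + 1), ?_, jm, ?_, ?_, by rwa [s1], by omega⟩)
  · revert e0; unfold ee; split_ifs <;> omega
  · rw [J, if_neg h4, if_neg (by omega), if_neg e]
    congr 1; omega
  · rw [s1, sd_fb (H.succ (by omega)) (by omega)]

end Dat

end Pool.Agent.Lib.MP_9cc368_co
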