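import Mathlib

/-! Non-crossing matchings of words, cancellation, and cuts into power-free pieces. -/

namespace Pool.Agent.Lib.MP_9cc368_co.Pf

open List

variable {α : Type}

/-- `D w k`: there is a non-crossing matching of equal letters of `w` with at most `k` letters
left unmatched. -/
inductive D : List α → ℕ → Prop
  | nil (k : ℕ) : D [] k
  | del (a : α) {w : List α} {k : ℕ} : D w k → D (a :: w) (k + 1)
  | pair (a : α) {u w : List α} {k l : ℕ} : D u k → D w l → D (a :: (u ++ a :: w)) (k + l)

lemma D.succ {w : List α} {k : ℕ} (h : D w k) : D w (k + 1) := by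
  induction h with
  | nil k => exact D.nil _
  | del a _ ih => exact D.del a ih
  | pair a h1 _ _ ih => exact (D.pair a h1 ih :)

lemma D.mono {w : List α} {k l : ℕ} (h : D w k) (hl : k ≤ l) : D w l := by
  induction hl with
  | refl => exact h
  | step _ ih => exact ih.succ

lemma D.append {u w : List α} {k l : ℕ} (h : D u k) (h' : D w l) : D (u ++ w) (k + l) := by
  induction h with
  | nil k => exact h'.mono (by omega)
  | del a _ ih => exact (D.del a ih).mono (by omega)
  | pair a h1 _ _ ih => simpa using (D.pair a h1 ih).mono (by omega)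

lemma D.inv {a : α} {w : List α} {k : ℕ} (h : D (a :: w) k) : (∃ j, k = j + 1 ∧ D w j) ∨
    ∃ u v i j, w = u ++ a :: v ∧ k = i + j ∧ D u i ∧ D v j := by
  cases h with
  | del _ h => exact Or.inl ⟨_, rfl, h⟩
  | pair _ h1 h2 => exact Or.inr ⟨_, _, _, _, rfl, rfl, h1, h2⟩

lemma D.ins {a : α} {w v : List α} {k l : ℕ} (h : D (a :: w) l) (hv : D v k) :
    D (a :: (v ++ w)) (k + l) := by
  rcases h.inv with ⟨j, rfl, g⟩ | ⟨u, x, i, j, rfl, rfl, h1, h2⟩
  · exact D.del a (hv.append g)
  · simpa using (D.pair a (hv.append h1) h2).mono (by omega)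

lemma D.head {a : α} {y : List α} {k : ℕ} (h : D (a :: a :: y) k) : D y k := by
  rcases h.inv with ⟨j, rfl, g⟩ | ⟨u, x, i, j, e, rfl, h1, h2⟩
  · rcases g.inv with ⟨j, rfl, g'⟩ | ⟨u, x, i, j, rfl, rfl, h1, h2⟩
    · exact g'.mono (by omega)
    · exact h1.append (D.del a h2)
  · cases u with
    | nil => obtain rfl : y = x := by simpa using e
             exact h2.mono (by omega)
    | cons b u =>
      obtain ⟨rfl, rfl⟩ : a = b ∧ y = u ++ a :: x := by simpa using e
      rcases h1.inv with ⟨j', rfl, g⟩ | ⟨u', x', i', j', rfl, rfl, h3, h4⟩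
      · exact (g.append (D.del a h2)).mono (by omega)
      · simpa using (h3.append (D.pair a h4 h2)).mono (by omega)

lemma D.rot {z : List α} {k : ℕ} (h : D z k) : ∀ x a, z = x ++ [a] → D (a :: x) k := by
  induction h with
  | nil k => intro x a e; simp at e
  | del b h ih =>
    intro x a e
    cases x with
    | nil => exact D.del a (D.nil _)
    | cons c x =>
      obtain ⟨rfl, e1⟩ : b = c ∧ _ = x ++ [a] := by simpa using e
      exact ((ih x a e1).ins (D.del b (D.nil 0))).mono (by omega)
  | @pair b u w k l h1 h2 _ ih =>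
    intro x a e
    rcases eq_nil_or_concat w with rfl | ⟨w', c, rfl⟩
    · have e' : (b :: u) ++ [b] = x ++ [a] := by simpa using e
      obtain ⟨rfl, e2⟩ := append_inj' e' rfl
      obtain rfl : b = a := by simpa using e2
      exact (D.pair b (D.nil 0) h1).mono (by omega)
    · have e' : (b :: (u ++ b :: w')) ++ [c] = x ++ [a] := by simpa using e
      obtain ⟨rfl, e2⟩ := append_inj' e' rfl
      obtain rfl : c = a := by simpa using e2
      simpa using (ih w' c (by simp)).ins (D.pair b h1 (D.nil 0))

lemma D.cancel' {z : List α} {k : ℕ} (h : D z k) :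
    ∀ x a y, z = x ++ a :: a :: y → D (x ++ y) k := by
  induction h with
  | nil k => intro x a y e; simp at e
  | del b h ih =>
    intro x a y e
    cases x with
    | nil => exact D.head (a := a) (by have := D.del b h; rwa [e] at this)
    | cons c x =>
      obtain ⟨rfl, e1⟩ : b = c ∧ _ = x ++ a :: a :: y := by simpa using e
      exact D.del b (ih x a y e1)
  | @pair b u w k l h1 h2 ih1 ih2 =>
    intro x a y e
    cases x with
    | nil => exact D.head (a := a) (by have := D.pair b h1 h2; rwa [e] at this)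
    | cons c x =>
      obtain ⟨rfl, e1⟩ : b = c ∧ u ++ b :: w = x ++ a :: a :: y := by simpa using e
      clear e
      rcases append_eq_append_iff.1 e1 with ⟨v, rfl, e⟩ | ⟨v, rfl, e⟩
      · cases v with
        | nil =>
          obtain ⟨rfl, rfl⟩ : b = a ∧ w = a :: y := by simpa using e
          simpa using h2.ins h1
        | cons d v =>
          obtain ⟨rfl, e2⟩ : b = d ∧ w = v ++ a :: a :: y := by simpa using e
          simpa using D.pair b h1 (ih2 v a y e2)
      · rcases v with _ | ⟨d, _ | ⟨d', v⟩⟩
        · obtain ⟨rfl, rfl⟩ : a = b ∧ a :: y = w := by simpa using e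
          simpa using h2.ins h1
        · obtain ⟨rfl, rfl, rfl⟩ : a = d ∧ a = b ∧ y = w := by simpa using e
          simpa using (h1.rot x a rfl).append h2
        · obtain ⟨rfl, rfl, rfl⟩ : a = d ∧ a = d' ∧ y = v ++ b :: w := by simpa using e
          simpa using D.pair b (ih1 x a v rfl) h2

lemma D.cancel {x s y : List α} {k : ℕ} (h : D (x ++ s.reverse ++ s ++ y) k) : D (x ++ y) k := by
  induction s with
  | nil => simpa using h
  | cons a s ih => exact ih (by simpa using h.cancel' (x ++ s.reverse) a (s ++ y) (by simp))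

lemma D.bar (s : List α) {u w : List α} {k l : ℕ} (h : D u k) (h' : D w l) :
    D (s ++ u ++ s.reverse ++ w) (k + l) := by
  induction s generalizing w l with
  | nil => simpa using h.append h'
  | cons a s ih => simpa using D.pair a (ih (D.nil 0)) h'

lemma D.pal : ∀ (n : ℕ) (q : List α), q.length ≤ n → q.reverse = q → D q 1 := by
  intro n
  induction n with
  | zero => intro q h _; obtain rfl : q = [] := by simpa using h
            exact D.nil _
  | succ n ih =>
    intro q h e
    cases q with
    | nil => exact D.nil _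
    | cons a q =>
      rcases eq_nil_or_concat q with rfl | ⟨q, c, rfl⟩
      · exact D.del a (D.nil 0)
      · obtain ⟨rfl, e1⟩ : c = a ∧ q.reverse ++ [a] = q ++ [c] := by simpa using e
        simpa using D.pair c (ih q (by simp at h; omega) (append_cancel_right e1)) (D.nil 0)

/-- No two equal adjacent letters. -/
def Red (w : List α) : Prop := ∀ a, ¬ [a, a] <:+: w

/-- No two equal adjacent letters and no power of exponent `p + 2`. -/
def PF (p : ℕ) (w : List α) : Prop :=
  Red w ∧ ∀ v : List α, v ≠ [] → ¬ (replicate (p + 2) v).flatten <:+: w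

variable {p : ℕ}

lemma Red.inf {u w : List α} (h : Red w) (hu : u <:+: w) : Red u := fun a ha => h a (ha.trans hu)

lemma PF.inf {u w : List α} (h : PF p w) (hu : u <:+: w) : PF p u :=
  ⟨h.1.inf hu, fun v hv ha => h.2 v hv (ha.trans hu)⟩

lemma PF.short {w : List α} (h : w.length ≤ 1) : PF p w := by
  refine ⟨fun a ha => ?_, fun v hv ha => ?_⟩
  · have := ha.length_le; simp at this; omega
  · have := ha.length_le
    have h1 := length_pos_iff.2 hv
    simp at this; nlinarith

lemma PF.rev {w : List α} (h : PF p w) : PF p w.reverse := by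
  refine ⟨fun a ha => h.1 a (by simpa using reverse_infix.2 ha), fun v hv ha => ?_⟩
  refine h.2 v.reverse (by simpa using hv) ?_
  simpa [reverse_flatten] using reverse_infix.2 ha

lemma pow_prefix {r v : List α} (h : r <+: v ++ r) :
    ∀ k, k * v.length ≤ r.length → (replicate k v).flatten <+: r := by
  intro k
  induction k with
  | zero => simp
  | succ k ih =>
    intro hk
    have h1 : (replicate (k + 1) v).flatten <+: v ++ r := by
      simpa [replicate_succ] using ih (by nlinarith)
    exact prefix_of_prefix_length_le h1 h (by simpa using hk)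

/-- Cuts into power-free pieces. -/
inductive Cut (p : ℕ) : List α → ℕ → Prop
  | one {w : List α} : PF p w → Cut p w 0
  | cons {u w : List α} {c : ℕ} : PF p u → Cut p w c → Cut p (u ++ w) (c + 1)

/-- The least number of cuts. -/
noncomputable def ec (p : ℕ) (w : List α) : ℕ := sInf {c | Cut p w c}

lemma cut_ec (w : List α) : Cut p w (ec p w) := by
  refine Nat.sInf_mem (s := {c | Cut p w c}) ?_
  induction w with
  | nil => exact ⟨0, Cut.one (PF.short (by simp))⟩
  | cons a w ih => exact ⟨_, Cut.cons (u := [a]) (PF.short (by simp)) ih.choose_spec⟩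

lemma Cut.le {w : List α} {c : ℕ} (h : Cut p w c) : ec p w ≤ c := Nat.sInf_le h

lemma Cut.append {x y : List α} {c d : ℕ} (h : Cut p x c) (h' : Cut p y d) :
    Cut p (x ++ y) (c + d + 1) := by
  induction h with
  | one h => simpa using Cut.cons h h'
  | cons h _ ih => simpa [add_right_comm] using Cut.cons h ih

lemma Cut.split {z : List α} {c : ℕ} (h : Cut p z c) :
    ∀ x y, z = x ++ y → ec p x + ec p y ≤ c := by
  induction h with
  | one h =>
    rintro x y rfl
    have h1 := (Cut.one (h.inf (prefix_append x y).isInfix)).le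
    have h2 := (Cut.one (h.inf (suffix_append x y).isInfix)).le
    omega
  | cons h h' ih =>
    intro x y e
    rcases append_eq_append_iff.1 e with ⟨v, rfl, e1⟩ | ⟨v, rfl, rfl⟩
    · have h1 := ih v y e1
      have h2 := (Cut.cons h (cut_ec v)).le
      omega
    · have h1 := (Cut.one (h.inf (prefix_append x v).isInfix)).le
      have h2 := (Cut.cons (h.inf (suffix_append x v).isInfix) h').le
      omega

lemma ec_le (x y : List α) : ec p (x ++ y) ≤ ec p x + ec p y + 1 :=
  ((cut_ec x).append (cut_ec y)).le

lemma le_ec (x y : List α) : ec p x + ec p y ≤ ec p (x ++ y) := (cut_ec _).split x y rfl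

lemma ec_pos {w : List α} (h : ¬ PF p w) : 1 ≤ ec p w := by
  have := cut_ec (p := p) w
  generalize ec p w = c at this
  cases this with
  | one h' => exact absurd h' h
  | cons => omega

lemma ec_cancel' (x : List α) (a : α) (y : List α) : ec p (x ++ y) ≤ ec p (x ++ a :: a :: y) := by
  have h1 := ec_le (p := p) x y
  have h2 := le_ec (p := p) x ([a, a] ++ y)
  have h3 := le_ec (p := p) [a, a] y
  have h4 := ec_pos (p := p) (w := [a, a]) fun h => h.1 a infix_rfl
  simp only [cons_append, nil_append] at h2 h3
  omega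

lemma ec_cancel (x s y : List α) : ec p (x ++ y) ≤ ec p (x ++ s.reverse ++ s ++ y) := by
  induction s with
  | nil => simp
  | cons a s ih => exact ih.trans (by simpa using ec_cancel' (x ++ s.reverse) a (s ++ y))

lemma exists_red : ∀ (n : ℕ) (Z : List α), Z.length ≤ n → ∃ Z', Red Z' ∧ ∀ Y,
    ec p (Z' ++ Y) ≤ ec p (Z ++ Y) ∧ ∀ k, D (Z ++ Y) k → D (Z' ++ Y) k := by
  intro n
  induction n with
  | zero => intro Z h; exact ⟨Z, (PF.short (p := 0) (by omega)).1, fun Y => ⟨le_rfl, fun _ => id⟩⟩
  | succ n ih =>
    intro Z h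
    by_cases hr : Red Z
    · exact ⟨Z, hr, fun Y => ⟨le_rfl, fun _ => id⟩⟩
    obtain ⟨a, x, y, rfl⟩ : ∃ a, [a, a] <:+: Z := by simpa [Red] using hr
    obtain ⟨Z', h1, h2⟩ := ih (x ++ y) (by simp at h ⊢; omega)
    refine ⟨Z', h1, fun Y => ⟨(h2 Y).1.trans ?_, fun k hk => (h2 Y).2 k ?_⟩⟩
    · simpa using ec_cancel' x a (y ++ Y)
    · simpa using hk.cancel' x a (y ++ Y) (by simp)

lemma exists_glue {R : List α} (hR : Red R) : ∀ Z, Red Z →
    ∃ Z' s R', Z = Z' ++ s.reverse ∧ R = s ++ R' ∧ Red (Z' ++ R') := by
  induction R with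
  | nil => intro Z hZ; exact ⟨Z, [], [], by simp, rfl, by simpa⟩
  | cons b R ih =>
    intro Z hZ
    by_cases hr : Red (Z ++ b :: R)
    · exact ⟨Z, [], b :: R, by simp, rfl, hr⟩
    obtain ⟨a, x, y, e⟩ : ∃ a, [a, a] <:+: Z ++ b :: R := by simpa [Red] using hr
    have e' : (x ++ [a]) ++ a :: y = Z ++ b :: R := by simpa using e
    rcases append_eq_append_iff.1 e' with ⟨v, rfl, e2⟩ | ⟨v, e1, e2⟩
    · cases v with
      | nil =>
        obtain ⟨rfl, rfl⟩ : a = b ∧ y = R := by simpa using e2
        obtain ⟨Z', s, R', rfl, rfl, h⟩ := ih (hR.inf (suffix_cons _ _).isInfix) x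
          (hZ.inf ⟨[], [a], by simp⟩)
        exact ⟨Z', a :: s, R', by simp, rfl, h⟩
      | cons d v =>
        obtain ⟨rfl, -⟩ : a = d ∧ y = v ++ b :: R := by simpa using e2
        exact absurd ⟨x, v, by simp⟩ (hZ a)
    · rcases eq_nil_or_concat v with rfl | ⟨v, d, rfl⟩
      · obtain ⟨rfl, rfl⟩ : b = a ∧ R = y := by simpa using e2
        obtain rfl : x ++ [b] = Z := by simpa using e1
        obtain ⟨Z', s, R', rfl, rfl, h⟩ := ih (hR.inf (suffix_cons _ _).isInfix) x
          (hZ.inf ⟨[], [b], by simp⟩)
        exact ⟨Z', b :: s, R', by simp, rfl, h⟩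
      · have e3 : x ++ [a] = (Z ++ v) ++ [d] := by simpa using e1
        obtain rfl : a = d := by simpa using (append_inj' e3 rfl).2
        exact absurd ⟨v, y, by simp [e2]⟩ (hR a)

end Pool.Agent.Lib.MP_9cc368_co.Pf
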