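import Pool.Agent.Lib.MP_9cc368_co.PfA

/-! Matchings as trees of bars, and the removal of the long bars. -/

namespace Pool.Agent.Lib.MP_9cc368_co.Pf

open List

variable {α : Type} {p : ℕ}

/-- A matching: unmatched letters and bars (stacks of matched pairs). -/
inductive T (α : Type) : Type
  | nil : T α
  | del (a : α) (F : T α) : T α
  | bar (s : List α) (F G : T α) : T α

namespace T

def word : T α → List α
  | nil => []
  | del a F => a :: F.word
  | bar s F G => s ++ F.word ++ s.reverse ++ G.word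

def cost : T α → ℕ
  | nil => 0
  | del _ F => F.cost + 1
  | bar _ F G => F.cost + G.cost

def nb : T α → ℕ
  | nil => 0
  | del _ F => F.nb
  | bar _ F G => F.nb + G.nb + 1

def items : T α → List ℕ
  | nil => []
  | del _ F => 1 :: F.items
  | bar s F G => s.length :: (F.items ++ G.items)

/-- The bar `s` cannot be merged with `F`. -/
def NM (p : ℕ) (s : List α) (F : T α) : Prop := ∀ s' F', F = bar s' F' nil → ¬ PF p (s ++ s')

def Good (p : ℕ) : T α → Prop
  | nil => True
  | del _ F => F.Good p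
  | bar s F G => s ≠ [] ∧ PF p s ∧ F ≠ nil ∧ NM p s F ∧ F.Good p ∧ G.Good p

lemma d_word (F : T α) : D F.word F.cost := by
  induction F with
  | nil => exact D.nil _
  | del a F ih => exact D.del a ih
  | bar s F G i1 i2 => exact D.bar s i1 i2

lemma items_len (F : T α) : F.items.length = F.nb + F.cost := by
  induction F with
  | nil => rfl
  | del a F ih => simp [items, nb, cost, ih]; omega
  | bar s F G i1 i2 => simp [items, nb, cost, i1, i2]; omega

lemma items_pos {F : T α} (h : F.Good p) : ∀ x ∈ F.items, 1 ≤ x ∧ x ≤ F.word.length := by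
  induction F with
  | nil => simp [items]
  | del a F ih =>
    intro x hx
    rcases mem_cons.1 hx with rfl | hx
    · simp [word]
    · have := ih h x hx; simp [word]; omega
  | bar s F G i1 i2 =>
    intro x hx
    have h0 := length_pos_iff.2 h.1
    rcases mem_cons.1 hx with rfl | hx
    · simp [word]; omega
    · rcases mem_append.1 hx with hx | hx
      · have := i1 h.2.2.2.2.1 x hx; simp [word]; omega
      · have := i2 h.2.2.2.2.2 x hx; simp [word]; omega

lemma count {F : T α} (h : F.Good p) (h0 : F ≠ nil) : 1 ≤ F.cost ∧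
    F.nb + 1 ≤ 2 * F.cost + 2 * ec p F.word ∧
    ∀ s, NM p s F → F.nb + 2 ≤ 2 * F.cost + 2 * ec p (s ++ F.word) := by
  induction F with
  | nil => exact absurd rfl h0
  | del a F ih =>
    have k : F.nb ≤ 2 * F.cost + 2 * ec p F.word := by
      by_cases e : F = nil
      · subst e; simp [nb]
      · have := (ih h e).2.1; omega
    have k1 := le_ec (p := p) [a] F.word
    refine ⟨by simp [cost], by simp only [nb, cost, word]; simp at k1; omega, fun s _ => ?_⟩
    have k2 := le_ec (p := p) s (a :: F.word)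
    simp only [nb, cost, word]; simp at k1; omega
  | bar s0 F G i1 i2 =>
    obtain ⟨-, -, h3, h4, h5, h6⟩ := h
    obtain ⟨a1, a2, a3⟩ := i1 h5 h3
    have a4 := a3 s0 h4
    have k1 := le_ec (p := p) (s0 ++ F.word) s0.reverse
    have k2 := le_ec (p := p) (s0 ++ F.word ++ s0.reverse) G.word
    by_cases e : G = nil
    · subst e
      refine ⟨by simp only [cost]; omega, by simp only [nb, cost, word] at *; omega, fun s hs => ?_⟩
      have k3 := ec_pos (hs s0 F rfl)
      have k4 := le_ec (p := p) (s ++ s0) F.word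
      have k5 := le_ec (p := p) (s ++ s0 ++ F.word) s0.reverse
      simp only [nb, cost, word, append_nil, ← append_assoc] at *; omega
    · have a5 := (i2 h6 e).2.1
      refine ⟨by simp only [cost]; omega, by simp only [nb, cost, word] at *; omega, fun s _ => ?_⟩
      have k3 := le_ec (p := p) s (s0 ++ F.word ++ s0.reverse ++ G.word)
      simp only [nb, cost, word] at *; omega

end T

lemma D.good {w : List α} {k : ℕ} (h : D w k) (hr : Red w) :
    ∃ F : T α, F.Good p ∧ F.word = w ∧ F.cost ≤ k := by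
  induction h with
  | nil k => exact ⟨T.nil, trivial, rfl, Nat.zero_le _⟩
  | del a _ ih =>
    obtain ⟨F, h1, rfl, h3⟩ := ih (hr.inf (suffix_cons _ _).isInfix)
    exact ⟨T.del a F, h1, rfl, by simpa [T.cost] using h3⟩
  | @pair a u w k l _ _ i1 i2 =>
    obtain ⟨F, h1, rfl, h3⟩ := i1 (hr.inf ⟨[a], a :: w, by simp⟩)
    obtain ⟨G, g1, rfl, g3⟩ := i2 (hr.inf ⟨a :: F.word ++ [a], [], by simp⟩)
    by_cases hm : T.NM p [a] F
    · refine ⟨T.bar [a] F G, ⟨by simp, PF.short (by simp), ?_, hm, h1, g1⟩, by simp [T.word],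
        by simp only [T.cost]; omega⟩
      rintro rfl
      exact hr a ⟨[], G.word, by simp [T.word]⟩
    · obtain ⟨s, F', rfl, hs⟩ : ∃ s F', F = T.bar s F' T.nil ∧ PF p ([a] ++ s) := by
        simpa [T.NM] using hm
      obtain ⟨-, -, b3, b4, b5, -⟩ := h1
      refine ⟨T.bar (a :: s) F' G, ⟨by simp, hs, b3, fun s' F'' e hp => b4 s' F'' e
        (hp.inf ⟨[a], [], by simp⟩), b5, g1⟩, by simp [T.word], ?_⟩
      simp only [T.cost] at *; omega

/-- The number of entries that are at least `y`. -/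
def cnt (y : ℕ) (L : List ℕ) : ℕ := (L.map fun x => if y ≤ x then 1 else 0).sum

/-- The weight of a list of lengths. -/
noncomputable def Pi (η : ℝ) (L : List ℕ) : ℝ := (L.map fun x : ℕ => (1 + η * x) ^ 2).prod

lemma cnt_le (y : ℕ) (L : List ℕ) : cnt y L ≤ L.length := by
  induction L with
  | nil => simp [cnt]
  | cons a L ih => simp only [cnt, map_cons, sum_cons, length_cons] at *; split_ifs <;> omega

lemma cnt_nb {y : ℕ} (hy : 2 ≤ y) (F : T α) : cnt y F.items ≤ F.nb := by
  induction F with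
  | nil => simp [cnt, T.items]
  | del a F ih => simp only [cnt, T.items, T.nb, map_cons, sum_cons] at *; split_ifs <;> omega
  | bar s F G i1 i2 =>
    simp only [cnt, T.items, T.nb, map_cons, sum_cons, map_append, sum_append] at *
    split_ifs <;> omega

lemma sub_mul' {η a b : ℝ} (hη : 0 ≤ η) (ha : 0 ≤ a) (hb : 0 ≤ b) :
    1 + η * (a + b) ≤ (1 + η * a) * (1 + η * b) := by
  nlinarith [mul_nonneg (mul_nonneg hη ha) (mul_nonneg hη hb)]

lemma Pi_nonneg (η : ℝ) (L : List ℕ) : 0 ≤ Pi η L :=
  prod_nonneg (by simp only [mem_map]; rintro _ ⟨x, -, rfl⟩; positivity)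

lemma len_le_Pi {η : ℝ} (hη : 0 ≤ η) (F : T α) : 1 + η * F.word.length ≤ Pi η F.items := by
  induction F with
  | nil => simp [Pi, T.items, T.word]
  | del a F ih =>
    have h1 := sub_mul' hη (zero_le_one) (Nat.cast_nonneg F.word.length)
    have h2 : (1 + η * 1) * (1 + η * F.word.length) ≤ (1 + η * 1) ^ 2 * Pi η F.items :=
      mul_le_mul (by nlinarith) ih (by positivity) (by positivity)
    simpa [Pi, T.items, T.word, add_comm] using h1.trans h2
  | bar s F G i1 i2 =>
    have e : Pi η (T.bar s F G).items = (1 + η * s.length) ^ 2 * (Pi η F.items * Pi η G.items) := by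
      simp [Pi, T.items]
    have e2 : ((T.bar s F G).word.length : ℝ) =
        (s.length + s.length) + (F.word.length + G.word.length) := by simp [T.word]; ring
    rw [e, e2, sq]
    refine (sub_mul' hη (by positivity) (by positivity)).trans (mul_le_mul
      (sub_mul' hη (by positivity) (by positivity)) ((sub_mul' hη (by positivity)
        (by positivity)).trans (mul_le_mul i1 i2 (by positivity) (Pi_nonneg _ _)))
      (by positivity) (by positivity))

/-- Removal of coded blocks `s ++ mid ++ s.reverse`; `Z` is kept, `r` is the rest. -/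
def Rem (p ρ : ℕ) : List (ℕ × ℕ) → List α → ℕ → List α → List α → Prop
  | [], X, j, Z, r => j = 0 ∧ Z = [] ∧ r = X
  | c :: cs, X, j, Z, r => ∃ G s mid X' j' Z', X = G ++ (s ++ mid ++ s.reverse) ++ X' ∧
      G.length = c.1 * ρ ∧ s.length = (p + 2) * ρ ∧ PF p s ∧
      c.2 = (s ++ mid ++ s.reverse).length / ρ ∧ j = j' + ec p mid ∧ Z = G ++ Z' ∧
      Rem p ρ cs X' j' Z' r

variable {ρ : ℕ}

lemma Rem.ec {cs : List (ℕ × ℕ)} : ∀ {X Z r : List α} {j : ℕ}, Rem p ρ cs X j Z r →
    ec p (Z ++ r) + j ≤ ec p X + cs.length ∧ r <:+ X := by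
  induction cs with
  | nil => rintro X Z r j ⟨rfl, rfl, rfl⟩; simp
  | cons c cs ih =>
    rintro X Z r j ⟨G, s, mid, X', j', Z', rfl, -, -, -, -, rfl, rfl, h⟩
    obtain ⟨h1, h2⟩ := ih h
    refine ⟨?_, h2.trans (suffix_append _ _)⟩
    have k1 := ec_le (p := p) G (Z' ++ r)
    have k2 := le_ec (p := p) (G ++ (s ++ mid ++ s.reverse)) X'
    have k3 := le_ec (p := p) G (s ++ mid ++ s.reverse)
    have k4 := le_ec (p := p) (s ++ mid) s.reverse
    have k5 := le_ec (p := p) s mid
    rw [append_assoc G Z' r, length_cons]; omega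

lemma Rem.trans {c1 c2 : List (ℕ × ℕ)} {X2 Z2 r1 r2 : List α} {j2 : ℕ}
    (h2 : Rem p ρ c2 (r1 ++ X2) j2 Z2 r2) : ∀ {X1 Z1 : List α} {j1 : ℕ}, Rem p ρ c1 X1 j1 Z1 r1 →
    Rem p ρ (c1 ++ c2) (X1 ++ X2) (j1 + j2) (Z1 ++ Z2) r2 := by
  induction c1 with
  | nil => rintro X Z j ⟨rfl, rfl, rfl⟩; simpa using h2
  | cons c cs ih =>
    rintro X Z j ⟨G, s, mid, X', j', Z', rfl, a1, a2, a3, a4, rfl, rfl, h⟩
    exact ⟨G, s, mid, X' ++ X2, j' + j2, Z' ++ Z2, by simp, a1, a2, a3, a4, by omega, by simp, ih h⟩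

lemma Rem.ext {cs : List (ℕ × ℕ)} {X Z r : List α} {j : ℕ} (h : Rem p ρ cs X j Z r) (Y : List α) :
    Rem p ρ cs (X ++ Y) j Z (r ++ Y) := by
  simpa using Rem.trans (c2 := []) (X2 := Y) (Z2 := []) (j2 := 0) ⟨rfl, rfl, rfl⟩ h

lemma mid_le {s m m' X X' : List α} (hs : s.length = (p + 2) * ρ) (hp : PF p s)
    (e : m ++ s.reverse ++ X = m' ++ s.reverse ++ X') (hl : m'.length < m.length + ρ) :
    m'.length ≤ m.length := by
  by_contra hc
  rw [append_assoc, append_assoc] at e
  rcases append_eq_append_iff.1 e with ⟨v, rfl, e1⟩ | ⟨v, rfl, -⟩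
  · simp only [length_append] at hl hc
    have h1 : s.reverse <+: v ++ s.reverse := prefix_of_prefix_length_le
      (l₃ := s.reverse ++ X) (prefix_append _ _) ⟨X', by simp [e1]⟩ (by simp)
    exact hp.rev.2 v (by rintro rfl; simp at hc)
      (pow_prefix h1 _ (by rw [length_reverse, hs]; exact Nat.mul_le_mul_left _ (by omega))).isInfix
  · simp at hc

lemma Rem.uniq (h0 : 0 < ρ) {cs : List (ℕ × ℕ)} : ∀ {X Z r Z' r' : List α} {j j' : ℕ},
    Rem p ρ cs X j Z r → Rem p ρ cs X j' Z' r' → Z = Z' ∧ r = r' := by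
  induction cs with
  | nil => rintro X Z r Z' r' j j' ⟨-, rfl, rfl⟩ ⟨-, rfl, rfl⟩; simp
  | cons c cs ih =>
    rintro X Z r Z' r' j j' ⟨G, s, m, Y, i, W, rfl, a1, a2, a3, a4, -, rfl, h⟩
      ⟨G', s', m', Y', i', W', e, b1, b2, -, b4, -, rfl, h'⟩
    simp only [append_assoc] at e
    obtain ⟨rfl, e1⟩ := append_inj e (a1.trans b1.symm)
    obtain ⟨rfl, e2⟩ := append_inj e1 (a2.trans b2.symm)
    have e3 : m ++ s.reverse ++ Y = m' ++ s.reverse ++ Y' := by simpa using e2
    have d1 := Nat.div_add_mod (s ++ m ++ s.reverse).length ρ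
    have d2 := Nat.div_add_mod (s ++ m' ++ s.reverse).length ρ
    have d3 := Nat.mod_lt (s ++ m ++ s.reverse).length h0
    have d4 := Nat.mod_lt (s ++ m' ++ s.reverse).length h0
    rw [← a4] at d1; rw [← b4] at d2
    simp only [length_append] at d1 d2 d3 d4
    have l1 := mid_le a2 a3 e3 (by omega)
    have l2 := mid_le a2 a3 e3.symm (by omega)
    obtain ⟨rfl, e4⟩ := append_inj e2 (le_antisymm l2 l1)
    obtain rfl := append_cancel_left e4
    obtain ⟨rfl, rfl⟩ := ih h h'
    exact ⟨rfl, rfl⟩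

/-- The size of a code. -/
noncomputable def Pc (cs : List (ℕ × ℕ)) : ℝ :=
  (cs.map fun c : ℕ × ℕ => ((c.1 : ℝ) + 1) * ((c.2 : ℝ) + 1)).prod

lemma Pc_nonneg (cs : List (ℕ × ℕ)) : 0 ≤ Pc cs :=
  prod_nonneg (by simp only [mem_map]; rintro _ ⟨x, -, rfl⟩; positivity)

lemma prune {y : ℕ} {η : ℝ} (h0 : 0 < ρ) (hy : (p + 3) * ρ ≤ y) (h1 : 1 ≤ η * ρ) (h2 : η * ρ ≤ 2)
    {F : T α} (hF : F.Good p) : ∀ G : List α, ∃ cs j Z r κ w k,
      Rem p ρ cs (G ++ F.word) j Z r ∧ Z ++ r = G ++ w ∧ D w k ∧ k + κ = F.cost ∧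
      cs.length ≤ κ ∧ cnt y F.items ≤ 2 * κ + 2 * j ∧ (κ = 0 → cnt y F.items = 0) ∧
      (1 + η * r.length) * Pc cs ≤ (1 + η * G.length) * Pi η F.items * 9 ^ cs.length := by
  have hρ : (0 : ℝ) < ρ := by exact_mod_cast h0
  have hη : 0 ≤ η := by by_contra hc; push Not at hc; nlinarith
  have hy2 : 2 ≤ y := by nlinarith
  induction F with
  | nil =>
    intro G
    exact ⟨[], 0, [], G, 0, [], 0, ⟨rfl, rfl, by simp [T.word]⟩, by simp, D.nil _, rfl, by simp,
      by simp [cnt, T.items], by simp [cnt, T.items], by simp [Pc, Pi, T.items]⟩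
  | del a F ih =>
    intro G
    obtain ⟨cs, j, Z, r, κ, w, k, a1, a2, a3, a4, a5, a6, a7, a8⟩ := ih hF (G ++ [a])
    have e : cnt y (T.del a F).items = cnt y F.items := by
      simp [cnt, T.items, show ¬ y ≤ 1 by omega]
    refine ⟨cs, j, Z, r, κ, a :: w, k + 1, by simpa [T.word] using a1, by simpa using a2,
      D.del a a3, by simp only [T.cost]; omega, a5, e ▸ a6, e ▸ a7, a8.trans ?_⟩
    have e2 : Pi η (T.del a F).items = (1 + η * 1) ^ 2 * Pi η F.items := by simp [Pi, T.items]
    have h3 := sub_mul' hη (Nat.cast_nonneg G.length) zero_le_one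
    have h4 : 1 + η * (G.length + 1) ≤ (1 + η * G.length) * (1 + η * 1) ^ 2 :=
      h3.trans (mul_le_mul_of_nonneg_left (by nlinarith) (by positivity))
    rw [e2, ← mul_assoc]
    have h5 := Pi_nonneg η F.items
    gcongr
    simpa using h4
  | bar s F H i1 i2 =>
    intro G
    obtain ⟨-, b2, b3, -, b5, b6⟩ := hF
    have e2 : Pi η (T.bar s F H).items = (1 + η * s.length) ^ 2 * (Pi η F.items * Pi η H.items) := by
      simp [Pi, T.items]
    have p1 := Pi_nonneg η F.items
    have p2 := Pi_nonneg η H.items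
    by_cases hl : y ≤ s.length
    · obtain ⟨δ, x, hδ, hx⟩ : ∃ δ x, δ ≤ ρ ∧ G.length + δ = x * ρ :=
        ⟨ρ - G.length % ρ, G.length / ρ + 1, by omega, by
          have := Nat.div_add_mod G.length ρ
          have := Nat.mod_lt G.length h0
          rw [add_mul, mul_comm]; omega⟩
      obtain ⟨s1, s3, s4, rfl, l1, l3⟩ : ∃ s1 s3 s4, s = s1 ++ s3 ++ s4 ∧ s1.length = δ ∧
          s3.length = (p + 2) * ρ :=
        ⟨s.take δ, (s.drop δ).take ((p + 2) * ρ), (s.drop δ).drop ((p + 2) * ρ), by
          rw [append_assoc, take_append_drop, take_append_drop], by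
          rw [length_take]; exact min_eq_left (by nlinarith), by
          rw [length_take, length_drop]; exact min_eq_left (by
            rw [Nat.le_sub_iff_add_le (by nlinarith)]; nlinarith)⟩
      obtain ⟨cs, j, Z, r, κ, w, k, a1, a2, a3, a4, a5, a6, a7, a8⟩ := i2 b6 s1.reverse
      obtain ⟨c1, c2, -⟩ := T.count b5 b3
      have c3 := cnt_nb hy2 F
      have c4 := le_ec (p := p) (s4 ++ F.word) s4.reverse
      have c5 := le_ec (p := p) s4 F.word
      have e : cnt y (T.bar (s1 ++ s3 ++ s4) F H).items = 1 + (cnt y F.items + cnt y H.items) := by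
        simp only [cnt, T.items, map_cons, sum_cons, map_append, sum_append, if_pos hl]
      set B := s3 ++ (s4 ++ F.word ++ s4.reverse) ++ s3.reverse with hB
      refine ⟨(x, B.length / ρ) :: cs, j + ec p (s4 ++ F.word ++ s4.reverse), G ++ s1 ++ Z, r,
        F.cost + κ, s1 ++ [] ++ s1.reverse ++ w, 0 + k,
        ⟨G ++ s1, s3, _, s1.reverse ++ H.word, j, Z, by simp [T.word], by simp [l1, hx], l3,
          b2.inf ⟨s1, s4, rfl⟩, rfl, rfl, rfl, a1⟩, by simp [a2], D.bar s1 (D.nil 0) a3,
        by simp only [T.cost]; omega, by simp; omega, by omega, by omega, ?_⟩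
      have hδ' : η * δ ≤ 2 := (mul_le_mul_of_nonneg_left (by exact_mod_cast hδ) hη).trans h2
      have f1 : (x : ℝ) + 1 ≤ (1 + η * G.length) * 3 := by
        have : (G.length : ℝ) + δ = x * ρ := by exact_mod_cast hx
        have h3 := sub_mul' hη (Nat.cast_nonneg G.length) (Nat.cast_nonneg δ)
        have h4 : (1 + η * G.length) * (1 + η * δ) ≤ (1 + η * G.length) * 3 :=
          mul_le_mul_of_nonneg_left (by linarith) (by positivity)
        rw [this] at h3
        nlinarith [mul_le_mul_of_nonneg_left h1 (Nat.cast_nonneg (α := ℝ) x)]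
      have f2 : ((B.length / ρ : ℕ) : ℝ) + 1 ≤
          (1 + η * (s1 ++ s3 ++ s4).length) ^ 2 * Pi η F.items := by
        have h3 := len_le_Pi hη (T.bar (s1 ++ s3 ++ s4) F T.nil)
        have h4 : ((B.length / ρ : ℕ) : ℝ) * ρ ≤ (T.bar (s1 ++ s3 ++ s4) F T.nil).word.length := by
          have := Nat.div_mul_le_self B.length ρ
          have h5 : B.length ≤ (T.bar (s1 ++ s3 ++ s4) F T.nil).word.length := by
            simp [hB, T.word]; omega
          exact_mod_cast this.trans h5
        have h6 : Pi η (T.bar (s1 ++ s3 ++ s4) F T.nil).items =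
            (1 + η * (s1 ++ s3 ++ s4).length) ^ 2 * Pi η F.items := by simp [Pi, T.items]
        nlinarith [mul_le_mul_of_nonneg_left h1 (Nat.cast_nonneg (α := ℝ) (B.length / ρ)),
          mul_le_mul_of_nonneg_left h4 hη]
      have f3 : (1 + η * r.length) * Pc cs ≤ 3 * Pi η H.items * 9 ^ cs.length := by
        refine a8.trans ?_
        gcongr
        rw [length_reverse, l1]; linarith
      have p3 := Pc_nonneg cs
      calc _ = (((x : ℝ) + 1) * (((B.length / ρ : ℕ) : ℝ) + 1)) * ((1 + η * r.length) * Pc cs) := by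
            simp only [Pc, map_cons, prod_cons]; ring
        _ ≤ ((1 + η * G.length) * 3 * ((1 + η * (s1 ++ s3 ++ s4).length) ^ 2 * Pi η F.items)) *
            (3 * Pi η H.items * 9 ^ cs.length) := by gcongr
        _ = _ := by rw [e2, length_cons]; ring
    · obtain ⟨cs, j, Z, r, κ, w, k, a1, a2, a3, a4, a5, a6, a7, a8⟩ := i1 b5 (G ++ s)
      obtain ⟨cs', j', Z', r', κ', w', k', d1, d2, d3, d4, d5, d6, d7, d8⟩ :=
        i2 b6 (r ++ s.reverse)
      have e : cnt y (T.bar s F H).items = cnt y F.items + cnt y H.items := by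
        simp only [cnt, T.items, map_cons, sum_cons, map_append, sum_append, if_neg hl, zero_add]
      refine ⟨cs ++ cs', j + j', Z ++ Z', r', κ + κ', s ++ w ++ s.reverse ++ w', k + k', ?_, ?_,
        D.bar s a3 d3, by simp only [T.cost]; omega, by simp; omega, by omega, by omega, ?_⟩
      · rw [append_assoc] at d1
        simpa [T.word] using d1.trans a1
      · rw [append_assoc, d2, ← append_assoc, ← append_assoc, a2]; simp
      · have p3 := Pc_nonneg cs
        have f1 := sub_mul' hη (Nat.cast_nonneg G.length) (Nat.cast_nonneg s.length)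
        have f2 := sub_mul' hη (Nat.cast_nonneg r.length) (Nat.cast_nonneg s.length)
        simp only [length_append, length_reverse, Nat.cast_add] at a8 d8
        calc _ = Pc cs * ((1 + η * r'.length) * Pc cs') := by
              simp only [Pc, map_append, prod_append]; ring
          _ ≤ Pc cs * ((1 + η * r.length) * (1 + η * s.length) * Pi η H.items * 9 ^ cs'.length) := by
              refine mul_le_mul_of_nonneg_left (d8.trans ?_) p3
              gcongr
          _ = ((1 + η * r.length) * Pc cs) *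
              ((1 + η * s.length) * Pi η H.items * 9 ^ cs'.length) := by ring
          _ ≤ ((1 + η * G.length) * (1 + η * s.length) * Pi η F.items * 9 ^ cs.length) *
              ((1 + η * s.length) * Pi η H.items * 9 ^ cs'.length) := by
              refine mul_le_mul_of_nonneg_right (a8.trans ?_) (by positivity)
              gcongr
          _ = _ := by rw [e2, length_append]; ring

end Pool.Agent.Lib.MP_9cc368_co.Pf
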