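import Pool.Agent.Lib.MP_9cc368_co.PfB

/-! Choice of the scale, a Kraft inequality, and the structure of one prefix. -/

namespace Pool.Agent.Lib.MP_9cc368_co.Pf

open List

variable {α : Type} {p : ℕ}

/-- The sum of the entries below `b ^ j`. -/
def sT (b j : ℕ) (L : List ℕ) : ℕ := (L.map fun x => if b ^ j ≤ x then 0 else x).sum

/-- The total excess level above `j`. -/
def sU (b j : ℕ) (L : List ℕ) : ℕ := (L.map fun x => Nat.log b x - j).sum

variable {b : ℕ}

lemma sT_succ (hb : 6 ≤ b) (j : ℕ) (L : List ℕ) :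
    sT b (j + 1) L ≤ sT b j L + b ^ (j + 1) * cnt (b ^ j) L := by
  induction L with
  | nil => simp [sT]
  | cons a L ih =>
    have : b ^ j ≤ b ^ (j + 1) := Nat.pow_le_pow_right (by omega) (by omega)
    simp only [sT, cnt, map_cons, sum_cons, mul_add] at *
    split_ifs <;> omega

lemma sU_succ (hb : 6 ≤ b) (j : ℕ) {L : List ℕ} (h : ∀ x ∈ L, 1 ≤ x) :
    sU b j L = sU b (j + 1) L + cnt (b ^ (j + 1)) L := by
  induction L with
  | nil => simp [sU, cnt]
  | cons a L ih =>
    have h1 := ih fun x hx => h x (mem_cons_of_mem _ hx)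
    have h2 : j + 1 ≤ Nat.log b a ↔ b ^ (j + 1) ≤ a :=
      Nat.le_log_iff_pow_le (by omega) (by have := h a mem_cons_self; omega)
    simp only [sU, cnt, map_cons, sum_cons] at *
    split_ifs with h3
    · have := h2.2 h3; omega
    · have := mt h2.1 h3; omega

lemma two_pow_le (n : ℕ) : (2 : ℝ) ^ n ≤ Real.exp n := by
  rw [← mul_one (n : ℝ), Real.exp_nat_mul]
  exact pow_le_pow_left₀ (by norm_num) (by linarith [Real.add_one_le_exp 1]) n

lemma Pi_le (hb : 6 ≤ b) {η : ℝ} (hη : 0 ≤ η) (j : ℕ) (hj : η * b ^ j ≤ b) (L : List ℕ) :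
    Pi η L ≤ Real.exp (2 * η * sT b j L +
      2 * Real.log b * (3 * cnt (b ^ j) L + sU b j L)) := by
  have hb' : (6 : ℝ) ≤ b := by exact_mod_cast hb
  have hl : 0 ≤ Real.log b := Real.log_nonneg (by linarith)
  induction L with
  | nil => simp [Pi, sT, cnt, sU]
  | cons a L ih =>
    have key : (1 + η * a) ^ 2 ≤ Real.exp (2 * η * ((if b ^ j ≤ a then 0 else a : ℕ) : ℝ) +
        2 * Real.log b * (3 * ((if b ^ j ≤ a then 1 else 0 : ℕ) : ℝ) +
          ((Nat.log b a - j : ℕ) : ℝ))) := by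
      split_ifs with h
      · have h1 : j ≤ Nat.log b a := Nat.le_log_of_pow_le (by omega) h
        obtain ⟨d, hd⟩ := Nat.exists_eq_add_of_le h1
        have h2 : a < b ^ (j + d + 1) := hd ▸ Nat.lt_pow_succ_log_self (by omega) a
        have h3 : (a : ℝ) ≤ b ^ j * b ^ (d + 1) := by
          rw [← pow_add]; exact_mod_cast h2.le
        have h5 : (1 : ℝ) ≤ b ^ (d + 1) := one_le_pow₀ (by linarith)
        have h4 : η * a ≤ b * b ^ (d + 1) := (mul_le_mul_of_nonneg_left h3 hη).trans (by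
          rw [← mul_assoc]; exact mul_le_mul_of_nonneg_right hj (by positivity))
        have h6 : 1 + η * a ≤ Real.exp ((d + 3 : ℕ) * Real.log b) := by
          rw [Real.exp_nat_mul, Real.exp_log (by linarith),
            show (b : ℝ) ^ (d + 3) = b * b * b ^ (d + 1) by ring]
          nlinarith [mul_le_mul_of_nonneg_right (show (b : ℝ) + 1 ≤ b * b by nlinarith)
            (show (0 : ℝ) ≤ b ^ (d + 1) by positivity)]
        refine (pow_le_pow_left₀ (by positivity) h6 2).trans ?_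
        rw [← Real.exp_nat_mul, hd]
        exact Real.exp_le_exp.2 (by simp; linarith)
      · have h6 : 1 + η * a ≤ Real.exp (η * a) := by linarith [Real.add_one_le_exp (η * a)]
        refine (pow_le_pow_left₀ (by positivity) h6 2).trans ?_
        rw [← Real.exp_nat_mul]
        refine Real.exp_le_exp.2 ?_
        have := mul_nonneg hl (Nat.cast_nonneg (α := ℝ) (Nat.log b a - j))
        push_cast; linarith
    have := mul_le_mul key ih (Pi_nonneg _ _) (by positivity)
    rw [← Real.exp_add] at this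
    simp only [Pi, sT, sU, cnt, map_cons, prod_cons, sum_cons, Nat.cast_add] at *
    exact this.trans_eq (congrArg _ (by ring))

lemma select (hb : 6 ≤ b) {L : List ℕ} (h0 : L ≠ []) (hL : ∀ x ∈ L, 1 ≤ x) :
    ∃ i, 1 ≤ cnt (b ^ i) L ∧
      Pi (b / b ^ i) L ≤ Real.exp ((12 + 16 * Real.log b) * cnt (b ^ i) L) := by
  obtain ⟨n, hn⟩ : ∃ n, ∀ x ∈ L, x < b ^ n :=
    ⟨L.sum, fun x hx => (le_sum_of_mem hx).trans_lt (Nat.lt_pow_self (by omega))⟩
  obtain ⟨i, hi, hm⟩ := Finset.exists_max_image (Finset.range (n + 1))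
    (fun j => 2 ^ j * cnt (b ^ j) L) ⟨0, by simp⟩
  set M := 2 ^ i * cnt (b ^ i) L with hM
  have hi' : i ≤ n := by simpa [Nat.lt_succ_iff] using hi
  have hm' : ∀ j ≤ n, 2 ^ j * cnt (b ^ j) L ≤ M := fun j hj => hm j (by simpa [Nat.lt_succ_iff])
  have hT0 : sT b 0 L = 0 := sum_eq_zero (by
    simp only [mem_map]; rintro _ ⟨x, hx, rfl⟩; simp [hL x hx])
  have hT : ∀ j ≤ n, 2 ^ j * sT b j L ≤ 3 * M * b ^ j := by
    intro j
    induction j with
    | zero => intro _; simp [hT0]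
    | succ j ih =>
      intro hj
      have h1 := Nat.mul_le_mul_left (2 ^ (j + 1)) (sT_succ hb j L)
      have h2 := Nat.mul_le_mul_left (2 * b ^ j * b) (hm' j (by omega))
      have h3 := Nat.mul_le_mul_left (M * b ^ j) hb
      have h4 := ih (by omega)
      simp only [pow_succ] at *; nlinarith
  have hU : ∀ d j, j + d = n → 2 ^ j * sU b j L ≤ M := by
    intro d
    induction d with
    | zero =>
      rintro j rfl
      have : sU b j L = 0 := sum_eq_zero (by
        simp only [mem_map]; rintro _ ⟨x, hx, rfl⟩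
        have := Nat.log_lt_of_lt_pow (by have := hL x hx; omega) (hn x hx)
        omega)
      simp [this]
    | succ d ih =>
      intro j hj
      have h1 := ih (j + 1) (by omega)
      have h2 := hm' (j + 1) (by omega)
      rw [sU_succ hb j hL]; rw [pow_succ] at h1 h2; nlinarith
  have hc : 1 ≤ cnt (b ^ i) L := by
    by_contra hc
    have h1 := hm' 0 (Nat.zero_le _)
    obtain ⟨a, L, rfl⟩ := exists_cons_of_ne_nil h0
    have h2 : M = 0 := by rw [hM, show cnt (b ^ i) (a :: L) = 0 by omega, mul_zero]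
    simp [h2, cnt, hL a mem_cons_self] at h1
  have hb' : (6 : ℝ) ≤ b := by exact_mod_cast hb
  have hl : 0 ≤ Real.log b := Real.log_nonneg (by linarith)
  have hM2 : M ≤ 2 ^ (i - 1) * (2 * cnt (b ^ i) L) := by
    rw [hM, ← mul_assoc, ← pow_succ]
    exact Nat.mul_le_mul_right _ (Nat.pow_le_pow_right (by norm_num) (by omega))
  have h1 : ((cnt (b ^ (i - 1)) L : ℕ) : ℝ) ≤ 2 * cnt (b ^ i) L := by
    exact_mod_cast Nat.le_of_mul_le_mul_left ((hm' (i - 1) (by omega)).trans hM2) (by positivity)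
  have h2 : (sU b (i - 1) L : ℝ) ≤ 2 * cnt (b ^ i) L := by
    exact_mod_cast Nat.le_of_mul_le_mul_left
      ((hU (n - (i - 1)) (i - 1) (by omega)).trans hM2) (by positivity)
  have h3 : (b : ℝ) / b ^ i * sT b (i - 1) L ≤ 6 * cnt (b ^ i) L := by
    cases i with
    | zero => simp [hT0]
    | succ i =>
      have h4 : sT b i L ≤ 6 * cnt (b ^ (i + 1)) L * b ^ i :=
        Nat.le_of_mul_le_mul_left ((hT i (by omega)).trans_eq (by rw [hM]; ring))
          (show 0 < 2 ^ i by positivity)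
      have h5 : (sT b i L : ℝ) ≤ 6 * cnt (b ^ (i + 1)) L * b ^ i := by exact_mod_cast h4
      rw [div_mul_eq_mul_div, div_le_iff₀ (by positivity), Nat.add_sub_cancel, pow_succ (b : ℝ)]
      nlinarith
  refine ⟨i, hc, (Pi_le hb (by positivity) (i - 1) ?_ L).trans (Real.exp_le_exp.2 ?_)⟩
  · rw [div_mul_eq_mul_div, div_le_iff₀ (by positivity)]
    exact mul_le_mul_of_nonneg_left (pow_le_pow_right₀ (by linarith) (by omega)) (by linarith)
  · nlinarith [mul_le_mul_of_nonneg_left h1 hl, mul_le_mul_of_nonneg_left h2 hl]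

lemma kraft {β : Type} (ω : β → ℝ) (h0 : ∀ c, 0 ≤ ω c)
    (h : ∀ S : Finset β, ∑ c ∈ S, ω c ≤ 1 / 2) : ∀ (n : ℕ) (S : Finset (List β)),
    (∀ l ∈ S, l.length ≤ n) → ∑ l ∈ S, (l.map ω).prod ≤ 2 := by
  classical
  have hp : ∀ l : List β, 0 ≤ (l.map ω).prod := fun l =>
    prod_nonneg (by simp only [mem_map]; rintro _ ⟨x, -, rfl⟩; exact h0 x)
  intro n
  induction n with
  | zero =>
    intro S hS
    have : S ⊆ {[]} := fun l hl => by simpa using hS l hl
    refine (Finset.sum_le_sum_of_subset_of_nonneg this fun l _ _ => hp l).trans (by simp)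
  | succ n ih =>
    intro S hS
    have h1 : S ⊆ insert [] (((S.biUnion toFinset) ×ˢ (S.image tail)).image
        fun c => c.1 :: c.2) := by
      intro l hl
      cases l with
      | nil => simp
      | cons a l =>
        refine Finset.mem_insert_of_mem (Finset.mem_image.2 ⟨(a, l), Finset.mem_product.2
          ⟨Finset.mem_biUnion.2 ⟨_, hl, by simp⟩, Finset.mem_image.2 ⟨_, hl, rfl⟩⟩, rfl⟩)
    refine (Finset.sum_le_sum_of_subset_of_nonneg h1 fun l _ _ => hp l).trans ?_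
    rw [Finset.sum_insert (by simp), Finset.sum_image (by
      rintro ⟨a, b⟩ - ⟨c, d⟩ - e; simpa using e), Finset.sum_product]
    simp only [map_cons, prod_cons, map_nil, prod_nil, ← Finset.mul_sum, ← Finset.sum_mul]
    have h2 := ih (S.image tail) (by
      simp only [Finset.mem_image]; rintro _ ⟨l, hl, rfl⟩; have := hS l hl; simp; omega)
    have h3 := mul_le_mul (h (S.biUnion toFinset)) h2 (Finset.sum_nonneg fun l _ => hp l)
      (by norm_num)
    linarith

/-- The weight of a code letter. -/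
noncomputable def om (c : ℕ × ℕ) : ℝ :=
  1 / 2 * ((1 / ((c.1 + 1) * (c.1 + 2))) * (1 / ((c.2 + 1) * (c.2 + 2))))

lemma om_sum (S : Finset (ℕ × ℕ)) : ∑ c ∈ S, om c ≤ 1 / 2 := by
  have h1 : ∀ n : ℕ, ∑ x ∈ Finset.range n, (1 / (((x : ℝ) + 1) * (x + 2))) = 1 - 1 / (n + 1) := by
    intro n
    induction n with
    | zero => simp
    | succ n ih => rw [Finset.sum_range_succ, ih]; push_cast; field_simp; ring
  obtain ⟨n, hn⟩ : ∃ n, S ⊆ Finset.range n ×ˢ Finset.range n := by
    refine ⟨S.sup (fun c => c.1 + c.2) + 1, fun c hc => ?_⟩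
    have := Finset.le_sup (f := fun c : ℕ × ℕ => c.1 + c.2) hc
    simp only [Finset.mem_product, Finset.mem_range] at *; omega
  refine (Finset.sum_le_sum_of_subset_of_nonneg hn fun c _ _ => by unfold om; positivity).trans ?_
  simp only [om, Finset.sum_product, ← Finset.mul_sum, ← Finset.sum_mul, h1]
  have h2 : (0 : ℝ) ≤ 1 / (n + 1) := by positivity
  have h3 : (1 : ℝ) / (n + 1) ≤ 1 := by
    rw [div_le_one (by positivity)]; linarith [Nat.cast_nonneg (α := ℝ) n]
  nlinarith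

lemma om_prod (cs : List (ℕ × ℕ)) : 1 ≤ (cs.map om).prod * (8 ^ cs.length * Pc cs ^ 2) := by
  induction cs with
  | nil => simp [Pc]
  | cons c cs ih =>
    have h : 1 ≤ om c * (8 * (((c.1 : ℝ) + 1) * ((c.2 : ℝ) + 1)) ^ 2) := by
      have h1 : (0 : ℝ) ≤ c.1 := Nat.cast_nonneg _
      have h2 : (0 : ℝ) ≤ c.2 := Nat.cast_nonneg _
      unfold om
      field_simp
      nlinarith [mul_nonneg h1 h2]
    have := one_le_mul_of_one_le_of_one_le h ih
    simp only [Pc, map_cons, prod_cons, length_cons] at *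
    exact this.trans_eq (by ring)

/-- The basic constant. -/
noncomputable def cc (p : ℕ) : ℝ := 12 + 16 * Real.log (2 * p + 6 : ℕ)

lemma cc_ge (p : ℕ) : 12 ≤ cc p := by
  unfold cc; linarith [Real.log_natCast_nonneg (2 * p + 6)]

/-- The bound for `K` unmatched letters and `e` cuts. -/
noncomputable def bd (p K e : ℕ) : ℝ := Real.exp ((16 * cc p + 24) * K + 8 * cc p * e)

/-- The prefix of length `t` of `X` has the code `cl`. -/
def Has (p : ℕ) (X : List α) (K L t : ℕ) (cl : List (ℕ × ℕ)) : Prop :=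
  ∃ κ h cs j Z r, cl = (κ, h) :: cs ∧ 0 < (2 * p + 6) ^ (L - h) / (p + 3) ∧
    Rem p ((2 * p + 6) ^ (L - h) / (p + 3)) cs X j Z r ∧ 1 ≤ κ ∧ κ ≤ K ∧ X.length ≤ t + r.length ∧
    D (Z ++ r.take (t + r.length - X.length)) (K - κ) ∧
    16 * bd p (K - κ) (ec p (Z ++ r)) ≤ (cl.map om).prod * bd p K (ec p X)

lemma struct {X : List α} (hX : Red X) {t K L : ℕ} (ht : t ≤ X.length) (h0 : 0 < t)
    (h1 : (2 * p + 6) ^ L ≤ 4 * t) (h2 : t < (2 * p + 6) ^ (L + 1)) (hD : D (X.take t) K) :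
    1 ≤ K ∧ ((t : ℝ) ≤ Real.exp (cc p * (3 * K + 2 * ec p X)) ∨ ∃ cl, Has p X K L t cl) := by
  obtain ⟨F, hF, hw, hc⟩ := hD.good (p := p) (hX.inf (take_prefix _ _).isInfix)
  have hl : F.word.length = t := by rw [hw, length_take]; omega
  have hn : F ≠ T.nil := by rintro rfl; simp [T.word] at hl; omega
  obtain ⟨c1, c2, -⟩ := T.count hF hn
  have he : ec p F.word ≤ ec p X := by
    have := le_ec (p := p) (X.take t) (X.drop t)
    rw [take_append_drop] at this; rw [hw]; omega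
  have hp0 : (0 : ℝ) ≤ p := Nat.cast_nonneg _
  have hcc := cc_ge p
  obtain ⟨i, m1, m2⟩ := select (b := 2 * p + 6) (by omega) (L := F.items)
    (by intro e; have := F.items_len; rw [e] at this; simp at this; omega)
    fun x hx => (T.items_pos hF x hx).1
  rw [← cc] at m2
  obtain ⟨β, hβ⟩ : ∃ β, β = 2 * p + 6 := ⟨_, rfl⟩
  have hβ' : (β : ℝ) = 2 * (p + 3) := by rw [hβ]; push_cast; ring
  unfold Has
  rw [← hβ] at h1 h2 m1 m2 ⊢
  set η : ℝ := β / β ^ i with hη
  have h4 : (0 : ℝ) < β ^ i := by rw [hβ']; positivity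
  have hη4 : η * β ^ i = 2 * (p + 3) := (div_mul_cancel₀ _ h4.ne').trans hβ'
  have hη0 : 0 ≤ η := by positivity
  have hP := len_le_Pi hη0 F
  rw [hl] at hP
  refine ⟨by omega, ?_⟩
  by_cases hs : β ^ i < p + 3
  · left
    have k1 : ((cnt (β ^ i) F.items : ℕ) : ℝ) ≤ 3 * K + 2 * ec p X := by
      have := cnt_le (β ^ i) F.items
      rw [F.items_len] at this
      exact_mod_cast (by omega : cnt (β ^ i) F.items ≤ 3 * K + 2 * ec p X)
    have k2 : 1 ≤ η := by
      have : (β : ℝ) ^ i ≤ p + 3 := by exact_mod_cast hs.le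
      rw [hη, le_div_iff₀ h4]; linarith
    have k3 : (t : ℝ) ≤ Pi η F.items := by nlinarith [Nat.cast_nonneg (α := ℝ) t]
    exact k3.trans (m2.trans (Real.exp_le_exp.2 (mul_le_mul_of_nonneg_left k1 (by linarith))))
  right
  have hi : i ≤ L := by
    by_contra hc
    have k1 : β ^ (L + 1) ≤ β ^ i := Nat.pow_le_pow_right (by omega) (by omega)
    have : cnt (β ^ i) F.items = 0 := sum_eq_zero (by
      simp only [mem_map]; rintro _ ⟨x, hx, rfl⟩
      have := (T.items_pos hF x hx).2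
      rw [if_neg (by omega)])
    omega
  obtain ⟨h, rfl⟩ := Nat.exists_eq_add_of_le hi
  set ρ := β ^ i / (p + 3) with hρ
  have r0 : 0 < ρ := Nat.div_pos (by omega) (by omega)
  have r1 : (p + 3) * ρ ≤ β ^ i := Nat.mul_div_le _ _
  have r2 : β ^ i ≤ 2 * ((p + 3) * ρ) := by
    have := Nat.div_add_mod (β ^ i) (p + 3)
    have := Nat.mod_lt (β ^ i) (show 0 < p + 3 by omega)
    nlinarith
  have r1' : ((p : ℝ) + 3) * ρ ≤ β ^ i := by exact_mod_cast r1
  have r2' : (β : ℝ) ^ i ≤ 2 * ((p + 3) * ρ) := by exact_mod_cast r2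
  have hβρ : (β : ℝ) * ρ = 2 * ((p + 3) * ρ) := by rw [hβ']; ring
  obtain ⟨cs, j, Z, r, κ, w, k, a1, a2, a3, a4, a5, a6, a7, a8⟩ := prune r0 r1 (η := η)
    (by rw [hη, div_mul_eq_mul_div, le_div_iff₀ h4]; linarith [r2', hβρ])
    (by rw [hη, div_mul_eq_mul_div, div_le_iff₀ h4]; linarith [r1', hβρ]) hF []
  rw [nil_append, hw] at a1
  have a9 := a1.ext (X.drop t)
  rw [take_append_drop] at a9
  have hκ : 1 ≤ κ := by by_contra hc; have := a7 (by omega); omega
  have hlen : t + (r ++ X.drop t).length - X.length = r.length := by simp; omega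
  refine ⟨_, κ, h, cs, j, Z, r ++ X.drop t, rfl, by rw [Nat.add_sub_cancel]; exact r0, by simpa using a9, hκ,
    by omega, by simp; omega, ?_, ?_⟩
  · rw [hlen, take_left' rfl, a2]; exact a3.mono (by omega)
  have e1 := a9.ec.1
  set e' := ec p (Z ++ (r ++ X.drop t))
  set Q := Pi η F.items
  have hQ : 0 ≤ Q := Pi_nonneg _ _
  have q1 : Pc cs ≤ Q * 2 ^ (4 * κ) := by
    have k1 : (9 : ℝ) ^ cs.length ≤ 2 ^ (4 * κ) := by
      rw [pow_mul]
      exact (pow_le_pow_left₀ (by norm_num) (by norm_num) _).trans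
        (pow_le_pow_right₀ (by norm_num) a5)
    have k2 := mul_le_mul_of_nonneg_left k1 hQ
    have k3 := mul_nonneg (mul_nonneg hη0 (Nat.cast_nonneg r.length)) (Pc_nonneg cs)
    simp only [length_nil, Nat.cast_zero, mul_zero, add_zero, one_mul] at a8
    nlinarith
  have q2 : (h : ℝ) + 1 ≤ 4 * Q := by
    have k1 : (h : ℝ) + 1 ≤ β ^ h := by
      exact_mod_cast Nat.succ_le_of_lt (Nat.lt_pow_self (by omega))
    have k2 : (β : ℝ) ^ i * β ^ h ≤ 4 * t := by rw [← pow_add]; exact_mod_cast h1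
    have k3 := mul_le_mul_of_nonneg_left k2 hη0
    rw [← mul_assoc, hη4] at k3
    have k4 : (0 : ℝ) ≤ β ^ h := by positivity
    nlinarith
  have q3 : (κ : ℝ) + 1 ≤ 2 ^ κ := by
    exact_mod_cast Nat.succ_le_of_lt (Nat.lt_pow_self (by norm_num))
  have q4 : (8 : ℝ) ^ (cs.length + 1) ≤ 2 ^ (3 * (κ + 1)) := by
    rw [pow_mul]
    exact (pow_le_pow_left₀ (by norm_num) (by norm_num) _).trans
      (pow_le_pow_right₀ (by norm_num) (by omega))
  have q5 : Q ^ 4 ≤ Real.exp (8 * cc p * (κ + j)) := by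
    refine (pow_le_pow_left₀ hQ m2 4).trans ?_
    rw [← Real.exp_nat_mul]
    have : ((cnt (β ^ i) F.items : ℕ) : ℝ) ≤ 2 * κ + 2 * j := by exact_mod_cast a6
    exact Real.exp_le_exp.2 (by push_cast; nlinarith)
  have q6 : 16 * (8 ^ ((κ, h) :: cs).length * Pc ((κ, h) :: cs) ^ 2) ≤
      Real.exp ((11 + 13 * κ : ℕ) + 8 * cc p * (κ + j)) := by
    have p3 := Pc_nonneg cs
    calc _ = 16 * (8 ^ (cs.length + 1) * ((((κ : ℝ) + 1) * ((h : ℝ) + 1)) * Pc cs) ^ 2) := by
          simp [Pc]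
      _ ≤ 16 * (2 ^ (3 * (κ + 1)) * ((2 ^ κ * (4 * Q)) * (Q * 2 ^ (4 * κ))) ^ 2) := by gcongr
      _ = 2 ^ (11 + 13 * κ) * Q ^ 4 := by ring
      _ ≤ _ := by rw [Real.exp_add]; exact mul_le_mul (two_pow_le _) q5 (by positivity) (by positivity)
  have q7 := om_prod ((κ, h) :: cs)
  have q8 : 0 ≤ (((κ, h) :: cs).map om).prod :=
    prod_nonneg (by simp only [mem_map]; rintro _ ⟨x, -, rfl⟩; unfold om; positivity)
  have q9 : Real.exp ((11 + 13 * κ : ℕ) + 8 * cc p * (κ + j)) * bd p (K - κ) e' ≤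
      bd p K (ec p X) := by
    unfold bd
    rw [← Real.exp_add, Nat.cast_sub (by omega)]
    have k1 : (e' : ℝ) + j ≤ ec p X + κ := by exact_mod_cast (by omega : e' + j ≤ ec p X + κ)
    have k2 : (1 : ℝ) ≤ κ := by exact_mod_cast hκ
    refine Real.exp_le_exp.2 ?_
    push_cast
    nlinarith [mul_le_mul_of_nonneg_left k1 (show 0 ≤ cc p by linarith)]
  have q10 : 0 ≤ bd p (K - κ) e' := (Real.exp_pos _).le
  generalize (((κ, h) :: cs).map om).prod = W at *
  generalize (8 : ℝ) ^ ((κ, h) :: cs).length * Pc ((κ, h) :: cs) ^ 2 = V at *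
  nlinarith [mul_le_mul_of_nonneg_left q9 q8, mul_le_mul_of_nonneg_right q7 q10,
    mul_le_mul_of_nonneg_left (mul_le_mul_of_nonneg_right q6 q10) q8]

end Pool.Agent.Lib.MP_9cc368_co.Pf
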