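import Pool.Agent.Lib.MP_9cc368_co.Defs

/-! Power-free infinite words. -/

namespace Pool.Agent.Lib.MP_9cc368_co

/-- No prefix of `u` has a factor `v ^ p` with `v` nonempty. -/
def PowFree {α : Type} (p : ℕ) (u : ℕ → α) : Prop :=
  ∀ (n : ℕ) (v : List α), v ≠ [] →
    ¬ (List.replicate p v).flatten <:+: List.ofFn fun i : Fin n => u i

end Pool.Agent.Lib.MP_9cc368_co
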