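import Pool.Agent.Lib.MP_9cc368_co.PfC
import Pool.Agent.Lib.MP_9cc368_co.PfDefs

/-! The counting bound and the logarithmic lower bound for power-free words. -/

namespace Pool.Agent.Lib.MP_9cc368_co.Pf

open List

variable {α : Type} {p : ℕ}

variable (α) in
/-- The counting bound for prefixes with at most `K` unmatched letters. -/
def Bd (p K : ℕ) : Prop := ∀ (X : List α), Red X → ∀ (l : ℕ) (S : Finset ℕ),
  (∀ s ∈ S, ∀ t ∈ S, s < t + 4 ^ l) → (∀ t ∈ S, t ≤ X.length ∧ D (X.take t) K) →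
    (S.card : ℝ) ≤ bd p K (ec p X) * 2 ^ l

lemma bd_mono (K : ℕ) {e e' : ℕ} (h : e ≤ e') : bd p K e ≤ bd p K e' := by
  have : (e : ℝ) ≤ e' := by exact_mod_cast h
  exact Real.exp_le_exp.2 (by nlinarith [cc_ge p])

lemma Bd.map {K : ℕ} (H : Bd α p K) {X : List α} (hX : Red X) {l e : ℕ} {S : Finset ℕ}
    (f : ℕ → ℕ) (he : ec p X ≤ e) (hi : ∀ s ∈ S, ∀ t ∈ S, (f s = f t → s = t) ∧ f s < f t + 4 ^ l)
    (hD : ∀ t ∈ S, f t ≤ X.length ∧ D (X.take (f t)) K) : (S.card : ℝ) ≤ bd p K e * 2 ^ l := by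
  rw [← Finset.card_image_of_injOn (f := f) fun s hs t ht => (hi s hs t ht).1]
  refine (H X hX l _ ?_ ?_).trans (mul_le_mul_of_nonneg_right (bd_mono K he) (by positivity))
  · simp only [Finset.mem_image]
    rintro _ ⟨s, hs, rfl⟩ _ ⟨t, ht, rfl⟩; exact (hi s hs t ht).2
  · simp only [Finset.mem_image]
    rintro _ ⟨s, hs, rfl⟩; exact hD s hs

lemma card_split (S : Finset ℕ) (q : ℕ → Prop) [DecidablePred q] :
    (S.card : ℝ) = (S.filter q).card + (S.filter fun t => ¬ q t).card := by
  exact_mod_cast (Finset.card_filter_add_card_filter_not q).symm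

lemma Bd.glue {K : ℕ} (H : Bd α p K) (Z : List α) {r : List α} (hr : Red r) {l o : ℕ}
    {S : Finset ℕ} (hd : ∀ s ∈ S, ∀ t ∈ S, s < t + 4 ^ l)
    (hD : ∀ t ∈ S, o ≤ t + r.length ∧ t ≤ o ∧ D (Z ++ r.take (t + r.length - o)) K) :
    (S.card : ℝ) ≤ 2 * (bd p K (ec p (Z ++ r)) * 2 ^ l) := by
  obtain ⟨Z', h1, h2⟩ := exists_red (p := p) _ Z le_rfl
  obtain ⟨Y, s, R, rfl, rfl, h3⟩ := exists_glue hr Z' h1
  have e1 := (h2 (s ++ R)).1
  rw [card_split S fun t => o ≤ t + R.length, two_mul]
  simp only [length_append] at hD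
  refine add_le_add (H.map h3 (fun t => Y.length + (t + R.length - o))
    ((ec_cancel Y s R).trans (by simpa using e1)) ?_ ?_)
    (H.map h1 (fun t => Y.length + (o - (t + R.length)))
      (le_trans (by linarith [le_ec (p := p) (Y ++ s.reverse) (s ++ R)]) e1) ?_ ?_)
  · simp only [Finset.mem_filter]
    intro a ha b hb; have := hd a ha.1 b hb.1; omega
  · simp only [Finset.mem_filter]
    intro t ht
    obtain ⟨k1, k2, k3⟩ := hD t ht.1
    refine ⟨by simp; omega, ?_⟩
    have k4 := (h2 _).2 K k3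
    rw [show t + (s.length + R.length) - o = s.length + (t + R.length - o) by omega,
      take_length_add_append, ← append_assoc] at k4
    rw [take_length_add_append]; exact k4.cancel
  · simp only [Finset.mem_filter]
    intro a ha b hb; have := hd b hb.1 a ha.1; omega
  · simp only [Finset.mem_filter]
    intro t ht
    obtain ⟨k1, k2, k3⟩ := hD t ht.1
    refine ⟨by simp; omega, ?_⟩
    have k4 := (h2 _).2 K k3
    obtain ⟨s1, s2, rfl, k5⟩ : ∃ s1 s2, s = s1 ++ s2 ∧ s1.length = t + (s.length + R.length) - o :=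
      ⟨_, _, (take_append_drop (t + (s.length + R.length) - o) s).symm, by
        rw [length_take]; omega⟩
    rw [append_assoc s1, take_left' k5, reverse_append, ← append_assoc] at k4
    rw [reverse_append, ← append_assoc, take_left' (by
      simp only [length_append, length_reverse] at k1 k5 ⊢; omega)]
    simpa using D.cancel (x := Y ++ s2.reverse) (s := s1) (y := []) (by simpa using k4)

lemma step {K : ℕ} (IH : ∀ K' < K, Bd α p K') {X : List α} (hX : Red X) {l L : ℕ} {S : Finset ℕ}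
    (hd : ∀ s ∈ S, ∀ t ∈ S, s < t + 4 ^ l) (hS : ∀ t ∈ S, t ≤ X.length ∧ D (X.take t) K)
    (hL : ∀ t ∈ S, 0 < t ∧ (2 * p + 6) ^ L ≤ 4 * t ∧ t < (2 * p + 6) ^ (L + 1)) :
    (S.card : ℝ) ≤ 1 / 2 * (bd p K (ec p X) * 2 ^ l) := by
  classical
  have hb : 0 < bd p K (ec p X) := Real.exp_pos _
  have hs := fun t ht => struct (p := p) hX (hS t ht).1 (hL t ht).1 (hL t ht).2.1 (hL t ht).2.2
    (hS t ht).2
  rcases S.eq_empty_or_nonempty with rfl | ⟨t0, ht0⟩
  · simp; positivity
  have hK : (1 : ℝ) ≤ K := by exact_mod_cast (hs t0 ht0).1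
  set E := Real.exp (cc p * (3 * K + 2 * ec p X)) with hE
  rw [card_split S fun t => (t : ℝ) ≤ E]
  have h1 : ((S.filter fun t : ℕ => (t : ℝ) ≤ E).card : ℝ) ≤ 1 / 4 * (bd p K (ec p X) * 2 ^ l) := by
    have k1 : (S.filter fun t : ℕ => (t : ℝ) ≤ E) ⊆ Finset.Icc 1 ⌊E⌋₊ := fun t ht => by
      rw [Finset.mem_filter] at ht
      exact Finset.mem_Icc.2 ⟨(hL t ht.1).1, Nat.le_floor ht.2⟩
    have k2 : ((S.filter fun t : ℕ => (t : ℝ) ≤ E).card : ℝ) ≤ ⌊E⌋₊ := by
      exact_mod_cast (Finset.card_le_card k1).trans (by simp)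
    have k3 := Nat.floor_le (Real.exp_pos (cc p * (3 * K + 2 * ec p X))).le
    have k4 : (2 : ℝ) ^ 2 * E ≤ bd p K (ec p X) := by
      refine (mul_le_mul_of_nonneg_right (two_pow_le 2) (Real.exp_pos _).le).trans ?_
      rw [← Real.exp_add]
      have := cc_ge p
      have h0 : (0 : ℝ) ≤ ec p X := Nat.cast_nonneg _
      exact Real.exp_le_exp.2 (by push_cast; nlinarith)
    have k5 : (1 : ℝ) ≤ 2 ^ l := one_le_pow₀ (by norm_num)
    nlinarith
  set S2 := S.filter fun t : ℕ => ¬ (t : ℝ) ≤ E with hS2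
  have hm : ∀ t ∈ S2, t ∈ S := fun t ht => (Finset.mem_filter.1 ht).1
  choose! cl hcl using fun t (ht : t ∈ S2) =>
    (hs t (hm t ht)).2.resolve_left (Finset.mem_filter.1 ht).2
  have h2 : ∀ c ∈ S2.image cl, ((S2.filter fun t => cl t = c).card : ℝ) ≤
      (c.map om).prod * (1 / 8 * (bd p K (ec p X) * 2 ^ l)) := by
    intro c hc
    obtain ⟨u, hu, rfl⟩ := Finset.mem_image.1 hc
    obtain ⟨κ, h, cs, j, Z, r, e, a1, a2, a3, a4, -, -, a7⟩ := hcl u hu
    have k := (IH (K - κ) (by omega)).glue Z (hX.inf a2.ec.2.isInfix) (l := l) (o := X.length)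
      (S := S2.filter fun t => cl t = cl u)
      (fun s hs t ht => hd s (hm s (Finset.mem_filter.1 hs).1) t (hm t (Finset.mem_filter.1 ht).1))
      (fun t ht => by
        obtain ⟨ht, e1⟩ := Finset.mem_filter.1 ht
        obtain ⟨κ', h', cs', j', Z', r', e', -, b2, -, -, b5, b6, -⟩ := hcl t ht
        obtain ⟨⟨rfl, rfl⟩, rfl⟩ : (κ = κ' ∧ h = h') ∧ cs = cs' := by
          simpa using e.symm.trans (e1.symm.trans e')
        obtain ⟨rfl, rfl⟩ := Rem.uniq a1 a2 b2
        exact ⟨b5, (hS t (hm t ht)).1, b6⟩)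
    nlinarith [mul_le_mul_of_nonneg_right a7 (show (0 : ℝ) ≤ 2 ^ l by positivity)]
  have h3 : (S2.card : ℝ) ≤ 2 * (1 / 8 * (bd p K (ec p X) * 2 ^ l)) := by
    rw [Finset.card_eq_sum_card_image cl S2, Nat.cast_sum]
    refine (Finset.sum_le_sum h2).trans ?_
    rw [← Finset.sum_mul]
    exact mul_le_mul_of_nonneg_right (kraft om (fun c => by unfold om; positivity) om_sum
      ((S2.image cl).sup length) _ fun c hc => Finset.le_sup hc) (by positivity)
  linarith

theorem bd_all (K : ℕ) : Bd α p K := by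
  induction K using Nat.strong_induction_on with
  | _ K IH =>
  intro X hX l
  induction l with
  | zero =>
    intro S hd _
    have h1 : (S.card : ℝ) ≤ 1 := by
      exact_mod_cast Finset.card_le_one.2 fun s hs t ht => by
        have := hd s hs t ht; have := hd t ht s hs; omega
    have h2 : 1 ≤ bd p K (ec p X) := Real.one_le_exp (by have := cc_ge p; positivity)
    simpa using h1.trans h2
  | succ l ih =>
    intro S hd hS
    rcases S.eq_empty_or_nonempty with rfl | hne
    · rw [Finset.card_empty, Nat.cast_zero]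
      exact mul_nonneg (Real.exp_pos _).le (by positivity)
    obtain ⟨a, ha, hb⟩ : ∃ a ∈ S, ∀ t ∈ S, a ≤ t := ⟨_, S.min'_mem hne, S.min'_le⟩
    have h4 : 0 < 4 ^ l := Nat.pow_pos (by norm_num)
    rw [card_split S fun t => t < a + 4 ^ l]
    have h1 := ih (S.filter fun t => t < a + 4 ^ l) (fun s hs t ht => by
      have := (Finset.mem_filter.1 hs).2; have := hb t (Finset.mem_filter.1 ht).1; omega)
      fun t ht => hS t (Finset.mem_filter.1 ht).1
    have h2 := step IH hX (l := l + 1) (L := Nat.log (2 * p + 6) (4 * (a + 4 ^ l)))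
      (S := S.filter fun t => ¬ t < a + 4 ^ l)
      (fun s hs t ht => hd s (Finset.mem_filter.1 hs).1 t (Finset.mem_filter.1 ht).1)
      (fun t ht => hS t (Finset.mem_filter.1 ht).1) fun t ht => by
        obtain ⟨k1, k2⟩ := Finset.mem_filter.1 ht
        have k3 := hd t k1 a ha
        have k4 := Nat.pow_log_le_self (2 * p + 6) (show 4 * (a + 4 ^ l) ≠ 0 by omega)
        have k5 := Nat.lt_pow_succ_log_self (show 1 < 2 * p + 6 by omega) (4 * (a + 4 ^ l))
        rw [pow_succ] at k3
        rw [Nat.succ_eq_add_one] at k5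
        omega
    rw [pow_succ] at *
    linarith

/-- A separator in front of every letter. -/
def enc (w : List α) : List (Option α) := w.flatMap fun a => [none, some a]

lemma enc_cons (a : α) (w : List α) : enc (a :: w) = none :: some a :: enc w := rfl

lemma enc_append (u w : List α) : enc (u ++ w) = enc u ++ enc w := by simp [enc]

lemma enc_len (w : List α) : (enc w).length = 2 * w.length := by
  induction w with
  | nil => rfl
  | cons a w ih => simp [enc_cons, ih]; omega

lemma enc_rev (w : List α) : (enc w ++ [none]).reverse = enc w.reverse ++ [none] := by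
  induction w with
  | nil => rfl
  | cons a w ih =>
    rw [enc_cons, cons_append, cons_append, reverse_cons, reverse_cons, ih, reverse_cons,
      enc_append]
    simp [enc]

lemma enc_red (w : List α) : Red (enc w) := by
  intro a
  induction w with
  | nil => simp [enc]
  | cons b w ih =>
    rw [enc_cons, infix_cons_iff, infix_cons_iff]
    rintro (h | h | h)
    · simp [cons_prefix_cons] at h; grind
    · cases w with
      | nil => simp [enc] at h
      | cons c w => simp [enc_cons, cons_prefix_cons] at h; grind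
    · exact ih h

lemma enc_pf {w : List α} (h : ∀ v : List α, v ≠ [] → ¬ (replicate p v).flatten <:+: w) :
    PF p (enc w) := by
  refine ⟨enc_red w, fun v hv hi => ?_⟩
  have e : (enc w).filterMap id = w := by
    clear h hi
    induction w with
    | nil => rfl
    | cons a w ih => simpa [enc_cons] using ih
  have h1 := hi.filterMap id
  rw [e, filterMap_flatten, map_replicate] at h1
  refine h (v.filterMap id) (fun h0 => ?_) (IsInfix.trans ?_ h1)
  · have h2 : v = replicate v.length none := eq_replicate_iff.2 ⟨rfl, by simpa using h0⟩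
    have h3 : 2 ≤ (p + 2) * v.length := by nlinarith [length_pos_iff.2 hv]
    obtain ⟨n, hn⟩ : ∃ n, (p + 2) * v.length = n + 2 := ⟨(p + 2) * v.length - 2, by omega⟩
    rw [h2, flatten_replicate_replicate, hn] at hi
    exact enc_red w none (IsInfix.trans ⟨[], replicate n none, by simp [replicate_succ]⟩ hi)
  · rw [replicate_add, flatten_append]; exact (prefix_append _ _).isInfix

lemma PL_ex (w : List α) :
    ∃ ps : List (List α), ps.length = PL w ∧ (∀ q ∈ ps, IsPal q) ∧ ps.flatten = w ∧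
      PL w ≤ w.length := by
  have h : w.length ∈ {k | ∃ ps : List (List α), ps.length = k ∧ (∀ q ∈ ps, IsPal q) ∧
      ps.flatten = w} := ⟨w.map fun a => [a], by simp, by simp [IsPal], by
        induction w <;> simp [*]⟩
  obtain ⟨ps, h1, h2, h3⟩ := Nat.sInf_mem ⟨_, h⟩
  exact ⟨ps, h1, h2, h3, Nat.sInf_le h⟩

lemma d_enc (w : List α) : D (enc w) (2 * PL w) := by
  obtain ⟨ps, h1, h2, h3, -⟩ := PL_ex w
  rw [← h1, ← h3]
  clear h1 h3
  induction ps with
  | nil => exact D.nil _
  | cons q ps ih =>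
    have k1 := (D.pal _ _ le_rfl ((enc_rev q).trans (by rw [(h2 q mem_cons_self).2]))).rot _ _ rfl
    have k2 : D (enc q) 2 := by
      rcases k1.inv with ⟨j, e, g⟩ | ⟨u, v, i, j, e, e', g1, g2⟩
      · exact g.mono (by omega)
      · rw [e]; exact (g1.append (D.del none g2)).mono (by omega)
    rw [flatten_cons, enc_append]
    exact (k2.append (ih fun r hr => h2 r (mem_cons_of_mem _ hr))).mono (by simp; omega)

theorem count_le (u : ℕ → α) (n K : ℕ) (hu : ∀ v : List α, v ≠ [] →
    ¬ (List.replicate p v).flatten <:+: List.ofFn fun i : Fin n => u i) :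
    (((Finset.Icc 1 n).filter fun m => PPL u m ≤ K).card : ℝ) ^ 2 ≤
      8 * n * Real.exp ((864 + 1024 * Real.log (2 * p + 6 : ℕ)) * K) := by
  rcases Nat.eq_zero_or_pos n with rfl | hn
  · simp
  set w := List.ofFn fun i : Fin n => u i with hw
  have hwl : w.length = n := by simp [hw]
  have hpf := enc_pf hu
  have h4 := Nat.lt_pow_succ_log_self (show 1 < 4 by norm_num) (2 * n)
  have h5 := Nat.pow_log_le_self 4 (show 2 * n ≠ 0 by omega)
  rw [Nat.succ_eq_add_one] at h4
  have hb := (bd_all (p := p) (2 * K)).map hpf.1 (l := Nat.log 4 (2 * n) + 1) (e := 0)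
    (S := (Finset.Icc 1 n).filter fun m => PPL u m ≤ K) (fun y => 2 * y) (Cut.one hpf).le
    (fun s hs t ht => by simp only [Finset.mem_filter, Finset.mem_Icc] at hs; omega)
    fun y hy => by
      simp only [Finset.mem_filter, Finset.mem_Icc] at hy
      refine ⟨by rw [enc_len, hwl]; omega, ?_⟩
      have e : w.take y = List.ofFn fun i : Fin y => u i := by
        apply List.ext_getElem <;> simp [hw, hy.1.2]
      rw [← take_append_drop y w, enc_append, take_left' (by rw [enc_len, e]; simp), e]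
      exact (d_enc _).mono (Nat.mul_le_mul_left 2 hy.2)
  generalize Nat.log 4 (2 * n) = l at *
  have h6 : ((2 : ℝ) ^ (l + 1)) ^ 2 ≤ 8 * n := by
    have : (4 : ℝ) ^ l ≤ 2 * n := by exact_mod_cast h5
    rw [← pow_mul, mul_comm, pow_mul, pow_succ]; norm_num; linarith
  refine (pow_le_pow_left₀ (Nat.cast_nonneg _) hb 2).trans ?_
  rw [mul_pow, mul_comm]
  refine mul_le_mul h6 (le_of_eq ?_) (sq_nonneg _) (by positivity)
  rw [bd, ← Real.exp_nat_mul, cc]
  generalize Real.log (2 * p + 6 : ℕ) = x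
  congr 1; push_cast; ring

theorem exists_le (u : ℕ → α) (n : ℕ) (hu : ∀ v : List α, v ≠ [] →
    ¬ (List.replicate p v).flatten <:+: List.ofFn fun i : Fin n => u i) :
    ∃ m ≤ n, Real.log n ≤ (867 + 1024 * Real.log (2 * p + 6 : ℕ)) * (PPL u m : ℝ) := by
  rcases Nat.eq_zero_or_pos n with rfl | hn
  · have := Real.log_natCast_nonneg (2 * p + 6)
    exact ⟨0, le_rfl, by rw [Nat.cast_zero, Real.log_zero]; positivity⟩
  obtain ⟨m, hm, hmax⟩ := Finset.exists_max_image (Finset.Icc 1 n) (PPL u) ⟨n, by simp; omega⟩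
  refine ⟨m, (Finset.mem_Icc.1 hm).2, ?_⟩
  have hK : (1 : ℝ) ≤ PPL u m := by
    have h1 := hmax n (by simp; omega)
    obtain ⟨ps, h2, -, h3, -⟩ := PL_ex (List.ofFn fun i : Fin n => u i)
    have : PPL u n ≠ 0 := fun h0 => by
      have h4 : ps = [] := length_eq_zero_iff.1 (h2.trans h0)
      have := congrArg length h3
      rw [h4] at this; simp at this; omega
    exact_mod_cast (by omega : 1 ≤ PPL u m)
  have hb := count_le u n (PPL u m) hu
  rw [Finset.filter_true_of_mem hmax, Nat.card_Icc, Nat.add_sub_cancel] at hb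
  have hn' : (0 : ℝ) < n := by exact_mod_cast hn
  rw [Real.log_le_iff_le_exp hn']
  have h7 : (n : ℝ) ≤ 2 ^ 3 * Real.exp ((864 + 1024 * Real.log (2 * p + 6 : ℕ)) * PPL u m) :=
    le_of_mul_le_mul_right (by nlinarith) hn'
  refine h7.trans ((mul_le_mul_of_nonneg_right (two_pow_le 3) (by positivity)).trans ?_)
  rw [← Real.exp_add]
  exact Real.exp_le_exp.2 (by push_cast; nlinarith)

theorem frequently {u : ℕ → α} (hu : PowFree p u) (N : ℕ) :
    ∃ n ≥ N, Real.log n ≤ (867 + 1024 * Real.log (2 * p + 6 : ℕ)) * (PPL u n : ℝ) := by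
  have hC : (0 : ℝ) < 867 + 1024 * Real.log (2 * p + 6 : ℕ) := by
    linarith [Real.log_natCast_nonneg (2 * p + 6)]
  obtain ⟨n, hn⟩ := exists_nat_ge (Real.exp ((867 + 1024 * Real.log (2 * p + 6 : ℕ)) * N))
  obtain ⟨m, hm, h⟩ := exists_le u n (hu n)
  have h1 := (Real.le_log_iff_exp_le ((Real.exp_pos _).trans_le hn)).2 hn
  obtain ⟨-, -, -, -, h2⟩ := PL_ex (List.ofFn fun i : Fin m => u i)
  have h3 : N ≤ PPL u m := by exact_mod_cast le_of_mul_le_mul_left (h1.trans h) hC
  refine ⟨m, h3.trans (by simpa [PPL] using h2), le_trans ?_ h⟩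
  rcases Nat.eq_zero_or_pos m with rfl | h0
  · simpa using Real.log_natCast_nonneg n
  · exact Real.log_le_log (by exact_mod_cast h0) (by exact_mod_cast hm)

end Pool.Agent.Lib.MP_9cc368_co.Pf
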