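import Pool.Agent.Lib.MP_9cc368_co.PfD

/-! A binary power-free word whose prefix palindromic length is at most logarithmic. -/

namespace Pool.Agent.Lib.MP_9cc368_co.Pf

open List

variable {d : ℕ} {f : ℕ → Bool}

lemma exists_vd (hd : 2 ≤ d) : ∃ f : ℕ → Bool, (∀ n, ¬ d ∣ n → f n = false) ∧
    ∀ n, 0 < n → f (d * n) = !f n := by
  refine ⟨fun n => decide (Odd (padicValNat d n)), fun n h => ?_, fun n h => ?_⟩
  · simp [padicValNat.eq_zero_of_not_dvd h]
  · simp only [padicValNat_base_mul (show 1 < d by omega) h.ne', Nat.odd_add_one, decide_not]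

lemma no_period (hd : 2 ≤ d) (f0 : ∀ n, ¬ d ∣ n → f n = false)
    (f1 : ∀ n, 0 < n → f (d * n) = !f n) (q : ℕ) : 0 < q → ∀ a,
    ¬ ∀ x, a < x → x + q ≤ a + 2 * d * q → f x = f (x + q) := by
  induction q using Nat.strong_induction_on with
  | _ q IH =>
  intro hq a h
  have h1 := Nat.div_add_mod a d
  have h2 := Nat.mod_lt a (show 0 < d by omega)
  have hdv : ∀ n, f n = true → d ∣ n := fun n e => by
    by_contra hc; simp [f0 n hc] at e
  obtain ⟨x, x1, x2, x3⟩ : ∃ x, a < x ∧ x ≤ a + 2 * d ∧ f x = true := by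
    by_cases hc : d ∣ a / d + 1
    · have : ¬ d ∣ a / d + 1 + 1 := fun e => by
        have := Nat.le_of_dvd one_pos ((Nat.dvd_add_right hc).1 e); omega
      refine ⟨d * (a / d + 1 + 1), ?_, ?_, by rw [f1 _ (Nat.succ_pos _), f0 _ this]; rfl⟩ <;>
        simp only [mul_add] <;> omega
    · refine ⟨d * (a / d + 1), ?_, ?_, by rw [f1 _ (Nat.succ_pos _), f0 _ hc]; rfl⟩ <;>
        simp only [mul_add] <;> omega
  have h3 : 2 * q ≤ d * q := Nat.mul_le_mul_right q hd
  have h4 : d * 1 ≤ d * q := Nat.mul_le_mul_left d hq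
  rw [mul_assoc] at h
  obtain ⟨r, rfl⟩ : d ∣ q := by
    by_cases hc : x + q ≤ a + 2 * (d * q)
    · exact (Nat.dvd_add_right (hdv x x3)).1 (hdv _ ((h x x1 hc).symm.trans x3))
    · obtain ⟨y, rfl⟩ : ∃ y, x = y + q := ⟨x - q, by omega⟩
      exact (Nat.dvd_add_right (hdv y ((h y (by omega) (by omega)).trans x3))).1 (hdv _ x3)
  have hr : 0 < r := Nat.pos_of_mul_pos_left hq
  refine IH r (by nlinarith) hr (a / d) fun y y1 y2 => ?_
  have k1 := Nat.mul_le_mul_left d (Nat.succ_le_of_lt y1)
  have k2 := Nat.mul_le_mul_left d y2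
  rw [mul_add, mul_add, mul_assoc, mul_left_comm] at k2
  have k3 := h (d * y) (by rw [Nat.mul_succ] at k1; omega) (by omega)
  rw [← mul_add, f1 _ (Nat.zero_lt_of_lt y1), f1 _ (Nat.add_pos_right _ hr)] at k3
  simpa using k3

/-- The open interval between `A` and `B` is symmetric for `f`. -/
def Sym (f : ℕ → Bool) (A B : ℕ) : Prop := ∀ x y, A < x → x < B → x + y = A + B → f x = f y

lemma Sym.scale (hd : 2 ≤ d) (f0 : ∀ n, ¬ d ∣ n → f n = false)
    (f1 : ∀ n, 0 < n → f (d * n) = !f n) {A B : ℕ} (h : Sym f A B) (j : ℕ) :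
    Sym f (d ^ j * A) (d ^ j * B) := by
  induction j with
  | zero => simpa using h
  | succ j ih =>
    rw [pow_succ', mul_assoc, mul_assoc]
    intro x y x1 x2 e
    rw [← mul_add] at e
    have k : d ∣ x + y := ⟨_, e⟩
    by_cases hc : d ∣ x
    · obtain ⟨y, rfl⟩ := (Nat.dvd_add_right hc).1 k
      obtain ⟨x, rfl⟩ := hc
      have a1 := Nat.lt_of_mul_lt_mul_left x1
      have a2 := Nat.lt_of_mul_lt_mul_left x2
      have a3 := Nat.eq_of_mul_eq_mul_left (show 0 < d by omega) ((mul_add d x y).trans e)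
      rw [f1 _ (by omega), f1 _ (by omega), ih x y a1 a2 a3]
    · rw [f0 _ hc, f0 _ fun e => hc ((Nat.dvd_add_left e).1 k)]

lemma PL_pal {α : Type} (w : List α) {q : List α} (h : q.reverse = q) :
    PL (w ++ q) ≤ PL w + 1 := by
  rcases eq_or_ne q [] with rfl | h0
  · simp
  obtain ⟨ps, h1, h2, h3, -⟩ := PL_ex w
  refine Nat.sInf_le ⟨ps ++ [q], by simp [h1], fun r hr => ?_, by simp [h3]⟩
  rcases mem_append.1 hr with hr | hr
  · exact h2 r hr
  · rw [mem_singleton.1 hr]; exact ⟨h0, h⟩

lemma Sym.le {A B : ℕ} (h : Sym f A B) (hAB : A ≤ B) :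
    PL ((range' 1 B).map f) ≤ PL ((range' 1 A).map f) + 2 := by
  rcases hAB.eq_or_lt with rfl | hAB
  · omega
  obtain ⟨c, rfl⟩ := Nat.exists_eq_add_of_lt hAB
  rw [range'_concat, ← range'_append_1, map_append, map_append]
  refine (PL_pal _ rfl).trans (Nat.succ_le_succ (PL_pal _ ?_))
  apply List.ext_getElem (by simp)
  intro i h1 h2
  simp only [length_map, length_range'] at h2
  simp only [getElem_reverse, getElem_map, getElem_range', length_map, length_range']
  exact h _ _ (by omega) (by omega) (by omega)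

theorem sharp (d : ℕ) (hd : 2 ≤ d) : ∃ u : ℕ → Bool, PowFree (2 * d) u ∧
    ∀ n : ℕ, PPL u n ≤ 2 * (Nat.log d n + 1) := by
  obtain ⟨f, f0, f1⟩ := exists_vd hd
  have e : ∀ n, (List.ofFn fun i : Fin n => f (i + 1)) = (range' 1 n).map f := fun n => by
    apply List.ext_getElem <;> simp [add_comm]
  refine ⟨fun i => f (i + 1), fun n v hv ⟨s, t, h⟩ => ?_, fun n => ?_⟩
  · refine no_period hd f0 f1 v.length (length_pos_iff.2 hv) s.length fun x x1 x2 => ?_
    obtain ⟨i, rfl⟩ := Nat.exists_eq_add_of_lt x1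
    obtain ⟨c, hc⟩ : ∃ c, 2 * d = c + 1 := ⟨2 * d - 1, by omega⟩
    rw [hc] at h x2
    rw [add_mul] at x2
    have k0 : (replicate c v).flatten.length = c * v.length := by simp
    have k1 : ∀ j < c * v.length + v.length,
        (replicate (c + 1) v).flatten[j]? = some (f (s.length + j + 1)) := fun j hj => by
      have k2 := congrArg length h
      have k3 := congrArg (·[s.length + j]?) h
      have k4 : (replicate (c + 1) v).flatten.length = c * v.length + v.length := by
        simp [add_mul]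
      simp only [length_append, length_ofFn] at k2
      simp only [append_assoc] at k3
      rw [getElem?_append_right (by omega), getElem?_append_left (by omega),
        Nat.add_sub_cancel_left] at k3
      rw [k3, getElem?_eq_getElem (by rw [length_ofFn]; omega), List.getElem_ofFn]
    have k5 := k1 i (by omega)
    have k6 := k1 (v.length + i) (by omega)
    rw [replicate_succ', flatten_append, getElem?_append_left (by omega)] at k5
    rw [replicate_succ, flatten_cons, getElem?_append_right (by omega),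
      Nat.add_sub_cancel_left, k5] at k6
    rw [Option.some.inj k6]; congr 1; omega
  have key : ∀ k n, n < d ^ k → ∀ j, PL ((range' 1 (d ^ j * n)).map f) ≤ 2 * k := by
    intro k
    induction k with
    | zero =>
      intro n hn j
      obtain rfl : n = 0 := by simpa using hn
      simpa using (PL_ex ([] : List Bool)).choose_spec.2.2.2
    | succ k ih =>
      intro n hn j
      have h1 := ih (n / d) (Nat.div_lt_of_lt_mul (by rwa [← pow_succ'])) (j + 1)
      have h2 := Nat.div_add_mod n d
      have h3 := Nat.mod_lt n (show 0 < d by omega)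
      have h4 : ∀ x, d * (n / d) < x → x < n → f x = false := fun x x1 x2 => f0 x (by
        rintro ⟨y, rfl⟩
        have := Nat.mul_le_mul_left d (Nat.succ_le_of_lt (Nat.lt_of_mul_lt_mul_left x1))
        rw [Nat.mul_succ] at this; omega)
      have h5 : Sym f (d * (n / d)) n := fun x y x1 x2 e => by
        rw [h4 x x1 x2, h4 y (by omega) (by omega)]
      have h6 := (h5.scale hd f0 f1 j).le (Nat.mul_le_mul_left _ (by omega))
      rw [pow_succ, mul_assoc] at h1
      omega
  have := key _ n (Nat.lt_pow_succ_log_self (show 1 < d by omega) n) 0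
  rw [PPL, e]
  simpa using this

end Pool.Agent.Lib.MP_9cc368_co.Pf
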