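import Pool.Agent.Lib.MP_9cc368_co.UDefs

/-! Words of the form `u₁ v₁^t u₂ v₂^t ...` and maps which are affine on residue classes. -/

namespace Pool.Agent.Lib.MP_9cc368_co.U

/-- the word `u₁ v₁^t u₂ v₂^t ...` for the list `L` of pairs `(uᵢ, vᵢ)` -/
def block (L : List (List ℕ × List ℕ)) (t : ℕ) : List ℕ :=
  L.flatMap fun x => x.1 ++ (List.replicate t x.2).flatten

/-- a map which is affine on each residue class modulo `P` -/
def G (P : ℕ) (lam mu : ℕ → ℕ) (v : ℕ) : ℕ := lam (v % P) * (v / P) + mu (v % P)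

end Pool.Agent.Lib.MP_9cc368_co.U
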