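import Pool.Agent.Lib.MP_9cc368_co.UWord

/-! Every cut is explained by a palindrome. -/

namespace Pool.Agent.Lib.MP_9cc368_co.U

variable {R : ℕ → Round} {M : Bool → ℕ → Bool} {sd : ℕ → Bool}

/-- grow a palindrome made of whole humps by the two joints -/
theorem joint_c1 {g k : ℕ} (h : Pal (wd R M sd) (a R (g + 1)) (b R k)) (e : jt g = jt k) :
    Pal (wd R M sd) (b R g) (a R (k + 1)) :=
  Pal.grow (i := b R g) (j := b R k) h (by rw [wd_j, wd_j, e])

/-- two humps which are full mirrors of each other -/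
theorem mirror_c1 {g k : ℕ} (hgk : g < k) (h : Pal (wd R M sd) (b R g) (a R k))
    (e1 : ht R g = ht R k) (e2 : al R g + be R g = al R k + be R k) (e3 : al R g = 0 ↔ al R k = 0)
    (e4 : side sd g = side sd k) : Pal (wd R M sd) (a R g) (b R k) := by
  have hg := b_eq R g
  have hk := b_eq R k
  have hl := b_lt R hgk
  have key : ∀ d, lt R M sd g d = lt R M sd k d := fun d => by
    unfold lt
    rw [e1, e4]
    simp only [e3]
  have := Pal.grows (u := wd R M sd) (i := a R g) (j := a R k) (b R g - a R g)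
    (by rwa [show a R g + (b R g - a R g) = b R g by omega]) (by omega) (fun s t hs hs' e => by
      rw [wd_in M sd (k := g) hs (by omega), wd_in M sd (k := k) (n := t) (by omega) (by omega),
        key, show t - a R k = b R g - 1 - s by omega, show b R k - 1 - t = s - a R g by omega,
        min_comm])
  rwa [show a R k + (b R g - a R g) = b R k by omega] at this

theorem jt_c1 (s : ℕ) {r : ℕ} (h : r < 8) : jt (8 * s + r) = if r = 3 ∨ r = 4 then 1 else 0 := by
  unfold jt
  rw [show (8 * s + r) % 8 = r by omega]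

theorem cen1_c1 (s : ℕ) : Pal (wd R M sd) (b R (8 * s + 3)) (a R (8 * s + 5)) :=
  joint_c1 (own M sd (8 * s + 4)) (by rw [jt_c1 s (by omega), jt_c1 s (by omega)]; rfl)

theorem n1_c1 (s : ℕ) : Pal (wd R M sd) (a R (8 * s + 3)) (b R (8 * s + 5)) := by
  obtain ⟨⟨a1, a2, a3⟩, -, c1, c2, c3⟩ := probes R s
  refine mirror_c1 (by omega) (cen1_c1 s) (by rw [a1, c1]) (by rw [a2, a3, c2, c3, add_comm]) ?_ ?_
  · rw [a2, c2]
    unfold pa pb
    split_ifs <;> simp
  · rw [side_st sd s (by omega), side_st sd s (by omega)]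
    rfl

theorem cen2_c1 (s : ℕ) : Pal (wd R M sd) (b R (8 * s + 2)) (a R (8 * s + 6)) :=
  joint_c1 (n1_c1 s) (by rw [jt_c1 s (by omega), jt_c1 s (by omega)]; rfl)

theorem n2_c1 (s : ℕ) : Pal (wd R M sd) (a R (8 * s + 2)) (b R (8 * s + 6)) := by
  obtain ⟨a1, a2, a3⟩ := at_st R s (r := 2) (by omega)
  obtain ⟨c1, c2, c3⟩ := at_st R s (r := 6) (by omega)
  refine mirror_c1 (by omega) (cen2_c1 s) (by rw [a1, c1]; rfl) (by rw [a2, a3, c2, c3]; rfl)
    (by rw [a2, c2]; rfl) ?_
  rw [side_st sd s (by omega), side_st sd s (by omega)]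
  rfl

theorem ri_le_c1 (hR : Valid R) (hF : Fit R M sd) (k : ℕ) : ri R k ≤ tr R k := by
  have := shape hR hF k
  unfold ri tr
  split_ifs <;> omega

/-- two legs of the same side around a palindromic centre -/
theorem legs_c1 (hR : Valid R) (hF : Fit R M sd) {g k x i : ℕ} (hgk : g < k)
    (h : Pal (wd R M sd) (b R g) (a R k)) (e : side sd g = side sd k) (h1 : x ≤ tr R g)
    (h2 : x ≤ tr R k) (hi : i + x = b R g) : Pal (wd R M sd) i (a R k + x) := by
  have hl := b_lt R hgk
  refine Pal.grows x (by rwa [hi]) (by omega) fun s t hs hs' e' => ?_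
  rw [wd_tm hR hF (k := g) (n := s) (d := b R g - 1 - s) (.inr (by omega)) (by omega),
    wd_tm hR hF (k := k) (n := t) (d := b R g - 1 - s) (.inl (by omega)) (by omega), e]

/-- the start of a block is explained by the partner -/
theorem partner_c1 (hR : Valid R) (hF : Fit R M sd) {g k m : ℕ} (hgk : g < k)
    (h : Pal (wd R M sd) (b R g) (a R k)) (e : side sd g = side sd k) (hp : p k = q g + 1)
    (hm : 22 * m ≤ ri R k) (hg : m ≤ ht R g ∨ (m ≤ ht R g + 1 ∧ al R g = 10)) :
    ∃ i < a R k + 22 * m, Pal (wd R M sd) i (a R k + 22 * m) ∧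
      fn R (a R k + 22 * m) = fn R i + 1 := by
  have hl := b_lt R hgk
  have hb := b_eq R g
  have h2 := ri_le_c1 hR hF k
  have h1 : 22 * m ≤ tr R g := by
    unfold tr
    split_ifs <;> omega
  refine ⟨b R g - 22 * m, by omega, legs_c1 hR hF hgk h e h1 (by omega) (by omega), ?_⟩
  rw [fn_ri rfl hm, phi_mul]
  by_cases c : m ≤ ht R g
  · rw [fn_fa (k := g) (x := 22 * m) (by omega) (by unfold fa; omega), phi_mul]
    omega
  · have hs := shape hR hF g
    rw [fn_ri (k := g) (x := 22 * ht R g + 11 + 10) (by omega) (by unfold ri; omega),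
      phi_w _ (by omega), show w 10 = 3 from rfl]
    omega

/-- the joint letter alone -/
theorem single_c1 {g : ℕ} (hp : p (g + 1) = q g + 1) :
    ∃ i < a R (g + 1) + 22 * 0, Pal (wd R M sd) i (a R (g + 1) + 22 * 0) ∧
      fn R (a R (g + 1) + 22 * 0) = fn R i + 1 := by
  refine ⟨b R g, by rw [a_succ]; omega, pal_one _ _, ?_⟩
  rw [fn_ri (x := 22 * 0) rfl (by omega),
    fn_fa (k := g) (n := b R g) (x := 22 * 0) rfl (by omega), hp]
  omega

theorem pq_c1 (s : ℕ) {r : ℕ} (h : r < 8) :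
    p (8 * s + r) = 4 * s + P0 r ∧ q (8 * s + r) = 4 * s + Q0 r := by
  unfold p q
  rw [show (8 * s + r) / 8 = s by omega, show (8 * s + r) % 8 = r by omega]
  exact ⟨rfl, rfl⟩

theorem start_c1 (hR : Valid R) (hF : Fit R M sd) {k m : ℕ} (hm : 22 * m ≤ ri R k)
    (hj : 0 < a R k + 22 * m) :
    ∃ i < a R k + 22 * m, Pal (wd R M sd) i (a R k + 22 * m) ∧
      fn R (a R k + 22 * m) = fn R i + 1 := by
  obtain ⟨s, r, rfl, hr⟩ : ∃ s r, k = 8 * s + r ∧ r < 8 := ⟨k / 8, k % 8, by omega, by omega⟩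
  have hm' := hm
  unfold ri at hm'
  have hv := hR s
  obtain ⟨⟨a1, a2, -⟩, ⟨b1, b2, -⟩, c1, c2, -⟩ := probes R s
  have epa : pa s = if s < 2 then 0 else 11 := rfl
  have epb : pb s (R s).c1 ≤ 7 := by
    unfold pb
    split_ifs <;> omega
  have h0 : ∀ s, ht R (8 * s + 0) = s ∧ al R (8 * s + 0) = 10 := fun s =>
    ⟨(at_st R s (by omega)).1, (at_st R s (by omega)).2.1⟩
  have h1 : ∀ s, ht R (8 * s + 1) = 2 * s ∧ al R (8 * s + 1) = 10 := fun s =>
    ⟨(at_st R s (by omega)).1, (at_st R s (by omega)).2.1⟩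
  have h2 : ∀ s, ht R (8 * s + 2) = s + 1 ∧ al R (8 * s + 2) = 0 := fun s =>
    ⟨(at_st R s (by omega)).1, (at_st R s (by omega)).2.1⟩
  have h6 : ∀ s, ht R (8 * s + 6) = s + 1 ∧ al R (8 * s + 6) = 0 := fun s =>
    ⟨(at_st R s (by omega)).1, (at_st R s (by omega)).2.1⟩
  have h7 : ∀ s, ht R (8 * s + 7) = 2 * s + 1 ∧ al R (8 * s + 7) = 10 := fun s =>
    ⟨(at_st R s (by omega)).1, (at_st R s (by omega)).2.1⟩
  have lv : ∀ s r s' r', r < 8 → r' < 8 → 4 * s + P0 r = 4 * s' + Q0 r' + 1 →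
      p (8 * s + r) = q (8 * s' + r') + 1 := fun s r s' r' h h' e => by
    rw [(pq_c1 s h).1, (pq_c1 s' h').2, e]
  have sv : ∀ s r s' r', r < 8 → r' < 8 → Sd s (sd s) r = Sd s' (sd s') r' →
      side sd (8 * s + r) = side sd (8 * s' + r') := fun s r s' r' h h' e => by
    rw [side_st sd s h, side_st sd s' h', e]
  have jv : ∀ s r s' r', r < 8 → r' < 8 → (r = 3 ∨ r = 4 ↔ r' = 3 ∨ r' = 4) →
      jt (8 * s + r) = jt (8 * s' + r') := fun s r s' r' h h' e => by
    rw [jt_c1 s h, jt_c1 s' h']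
    simp only [e]
  obtain rfl | rfl | rfl | rfl | rfl | rfl | rfl | rfl :
    r = 0 ∨ r = 1 ∨ r = 2 ∨ r = 3 ∨ r = 4 ∨ r = 5 ∨ r = 6 ∨ r = 7 := by omega
  · rcases s with _ | s
    · have := h0 0
      have : a R (8 * 0 + 0) = 0 := rfl
      omega
    · have := h0 (s + 1)
      have := h6 s
      exact partner_c1 hR hF (g := 8 * s + 6) (by omega)
        (joint_c1 (k := 8 * s + 7) (own M sd (8 * s + 7)) (jv s 6 s 7 (by omega) (by omega) (by omega)))
        (sv s 6 (s + 1) 0 (by omega) (by omega) rfl) (lv (s + 1) 0 s 6 (by omega) (by omega) rfl) hm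
        (by omega)
  · rcases s with _ | s
    · have := h1 0
      obtain rfl : m = 0 := by omega
      exact single_c1 (g := 0) rfl
    · have := h1 (s + 1)
      have := h7 s
      exact partner_c1 hR hF (g := 8 * s + 7) (by omega)
        (joint_c1 (k := 8 * (s + 1) + 0) (own M sd (8 * (s + 1) + 0))
          (jv s 7 (s + 1) 0 (by omega) (by omega) (by omega)))
        (sv s 7 (s + 1) 1 (by omega) (by omega) rfl) (lv (s + 1) 1 s 7 (by omega) (by omega) rfl) hm
        (by omega)
  · have := h2 s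
    have := h0 s
    exact partner_c1 hR hF (g := 8 * s + 0) (by omega)
      (joint_c1 (k := 8 * s + 1) (own M sd (8 * s + 1)) (jv s 0 s 1 (by omega) (by omega) (by omega)))
      (sv s 0 s 2 (by omega) (by omega) rfl) (lv s 2 s 0 (by omega) (by omega) rfl) hm (by omega)
  · cases e : Sd s (sd s) 3
    · have hs : 2 ≤ s := by
        by_contra c
        simp [Sd, show s < 2 by omega] at e
      have := h1 s
      rw [if_neg (by omega)] at epa
      exact partner_c1 hR hF (g := 8 * s + 1) (by omega)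
        (joint_c1 (k := 8 * s + 2) (own M sd (8 * s + 2))
          (jv s 1 s 2 (by omega) (by omega) (by omega)))
        (sv s 1 s 3 (by omega) (by omega) e.symm) (lv s 3 s 1 (by omega) (by omega) rfl) hm
        (by omega)
    · have := h2 s
      exact partner_c1 hR hF (g := 8 * s + 2) (by omega) (pal_one _ _)
        (sv s 2 s 3 (by omega) (by omega) e.symm) (lv s 3 s 2 (by omega) (by omega) rfl) hm
        (by split_ifs at epa <;> omega)
  · by_cases hs : s < 2
    · rw [if_pos hs] at epa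
      obtain rfl : m = 0 := by omega
      exact single_c1 (g := 8 * s + 3) (lv s 4 s 3 (by omega) (by omega) rfl)
    · rw [if_neg hs] at epa
      exact partner_c1 hR hF (g := 8 * s + 3) (by omega) (pal_one _ _)
        (sv s 3 s 4 (by omega) (by omega) (by simp [Sd, hs, show 2 ≤ s by omega]))
        (lv s 4 s 3 (by omega) (by omega) rfl) hm (by omega)
  · exact partner_c1 hR hF (g := 8 * s + 3) (by omega) (cen1_c1 s)
      (sv s 3 s 5 (by omega) (by omega) rfl) (lv s 5 s 3 (by omega) (by omega) rfl) hm (by omega)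
  · have := h6 s
    have := h2 s
    exact partner_c1 hR hF (g := 8 * s + 2) (by omega) (cen2_c1 s)
      (sv s 2 s 6 (by omega) (by omega) rfl) (lv s 6 s 2 (by omega) (by omega) rfl) hm (by omega)
  · have := h7 s
    have := h1 s
    exact partner_c1 hR hF (g := 8 * s + 1) (by omega)
      (joint_c1 (k := 8 * s + 6) (n2_c1 s) (jv s 1 s 6 (by omega) (by omega) (by omega)))
      (sv s 1 s 7 (by omega) (by omega) rfl) (lv s 7 s 1 (by omega) (by omega) rfl) hm (by omega)

/-- a short palindrome in the active part of a block -/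
theorem act_c1 (hR : Valid R) (hF : Fit R M sd) {k m u v : ℕ} (hv : v ≤ 11) (huv : u < v)
    (hm : 22 * m + 11 + v ≤ ri R k) (hw : w v = w u + 1)
    (h : ∀ s < 11, ∀ t < 11, u ≤ s → u ≤ t → s + t + 1 = u + v →
      Wd (M (side sd k) m) s = Wd (M (side sd k) m) t) :
    ∃ i < a R k + (22 * m + 11 + v), Pal (wd R M sd) i (a R k + (22 * m + 11 + v)) ∧
      fn R (a R k + (22 * m + 11 + v)) = fn R i + 1 := by
  have h2 := ri_le_c1 hR hF k
  refine ⟨a R k + (22 * m + 11 + u), by omega, fun s t hs ht e => ?_, ?_⟩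
  · obtain ⟨s', rfl⟩ : ∃ s', s = a R k + (22 * m + 11 + s') := ⟨s - (a R k + 22 * m + 11), by omega⟩
    obtain ⟨t', rfl⟩ : ∃ t', t = a R k + (22 * m + 11 + t') := ⟨t - (a R k + 22 * m + 11), by omega⟩
    rw [wd_tm hR hF (.inl rfl) (by omega), wd_tm hR hF (.inl rfl) (by omega),
      tm_w M _ _ (by omega), tm_w M _ _ (by omega),
      h s' (by omega) t' (by omega) (by omega) (by omega) (by omega)]
  · rw [fn_ri rfl hm, fn_ri rfl (by omega), phi_w _ hv, phi_w _ (by omega), hw]
    omega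

theorem rise_c1 (hR : Valid R) (hF : Fit R M sd) {k x : ℕ} (hx : x ≤ ri R k) (hj : 0 < a R k + x) :
    ∃ i < a R k + x, Pal (wd R M sd) i (a R k + x) ∧ fn R (a R k + x) = fn R i + 1 := by
  obtain ⟨m, t, rfl, ht⟩ : ∃ m t, x = 22 * m + t ∧ t < 22 := ⟨x / 22, x % 22, by omega, by omega⟩
  rcases t with _ | t
  · exact start_c1 hR hF hx hj
  by_cases c : phi (t + 1) = phi t + 1
  · refine ⟨a R k + (22 * m + t), by omega, pal_one _ _, ?_⟩
    rw [fn_ri rfl hx, fn_ri rfl (by omega), phi_add, phi_add, c]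
    omega
  have : ∀ t < 21, phi (t + 1) ≠ phi t + 1 → t = 13 ∨ t = 15 ∨ t = 17 ∨ t = 20 := by decide
  obtain rfl | rfl | rfl | rfl := this t (by omega) c
  · exact act_c1 hR hF (u := 0) (v := 3) (by omega) (by omega) hx rfl
      (by cases M (side sd k) m <;> decide)
  · exact act_c1 hR hF (u := 1) (v := 5) (by omega) (by omega) hx rfl
      (by cases M (side sd k) m <;> decide)
  · exact act_c1 hR hF (u := 3) (v := 7) (by omega) (by omega) hx rfl
      (by cases M (side sd k) m <;> decide)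
  · cases e : M (side sd k) m
    · exact act_c1 hR hF (u := 7) (v := 10) (by omega) (by omega) hx rfl (by rw [e]; decide)
    · exact act_c1 hR hF (u := 5) (v := 10) (by omega) (by omega) hx rfl (by rw [e]; decide)

/-- a falling leg against the rising leg of a mirror -/
theorem back_c1 {g k j x : ℕ} (hgk : g ≤ k) (h : Pal (wd R M sd) (a R g) (b R k))
    (e : j + x = b R k) (hx : x ≤ fa R k) (hr : fa R k ≤ ri R g) (hq : q k = p g + 1) :
    ∃ i < j, Pal (wd R M sd) i j ∧ fn R j = fn R i + 1 := by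
  have hb : b R g = a R g + ri R g + fa R g + 1 := rfl
  have hk : b R k = a R k + ri R k + fa R k + 1 := rfl
  have hl : a R g + ri R g ≤ a R k + ri R k := by
    rcases hgk.eq_or_lt with rfl | hgk
    · exact le_rfl
    · have := b_lt R hgk
      omega
  refine ⟨a R g + x, by omega, h.shrink (by omega) (by omega), ?_⟩
  rw [fn_fa e hx, fn_ri rfl (hx.trans hr), hq]
  omega

theorem expl (hR : Valid R) (hF : Fit R M sd) (j : ℕ) (hj : 0 < j) :
    ∃ i < j, Pal (wd R M sd) i j ∧ fn R j = fn R i + 1 := by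
  obtain ⟨k, x, ⟨rfl, hx⟩ | ⟨e, hx⟩⟩ := loc R j
  · exact rise_c1 hR hF hx hj
  by_cases c : q k = p k + 1
  · have hs := shape hR hF k
    exact back_c1 le_rfl (own M sd k) e hx (by unfold fa ri; omega) c
  obtain ⟨s, rfl | rfl⟩ : ∃ s, k = 8 * s + 5 ∨ k = 8 * s + 6 := by
    have := lev k
    exact ⟨k / 8, by omega⟩
  · obtain ⟨⟨a1, a2, -⟩, -, c1, -, c3⟩ := probes R s
    refine back_c1 (by omega) (n1_c1 s) e hx (by unfold fa ri; omega) ?_
    rw [(pq_c1 s (by omega)).1, (pq_c1 s (by omega)).2]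
    rfl
  · have h2 : ht R (8 * s + 2) = s + 1 := (at_st R s (by omega)).1
    have h6 : ht R (8 * s + 6) = s + 1 := (at_st R s (by omega)).1
    have h7 : be R (8 * s + 6) = 0 := (at_st R s (by omega)).2.2
    refine back_c1 (by omega) (n2_c1 s) e hx (by unfold fa ri; omega) ?_
    rw [(pq_c1 s (by omega)).1, (pq_c1 s (by omega)).2]
    rfl

end Pool.Agent.Lib.MP_9cc368_co.U
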