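import Pool.Agent.Lib.MP_9cc368_co.UWord

/-! A palindrome is harmless, or centred at the top of a hump, or centred at a joint. -/

namespace Pool.Agent.Lib.MP_9cc368_co.U

variable {R : ℕ → Round} {M : Bool → ℕ → Bool} {sd : ℕ → Bool}

theorem run_c2 {u : ℕ → ℕ} {lo hi i j : ℕ} (h1 : 2 * (lo + 1) ≤ i + j) (h2 : i + j < 2 * hi)
    (hu : ∀ n, lo < n → n < hi → u n < 11) (hl : 11 ≤ u lo) (hh : 11 ≤ u hi) (h : Pal u i j) :
    (lo < i ∧ j ≤ hi) ∨ (i + j = lo + 1 + hi ∧ u lo = u hi) := by
  by_cases c : lo < i ∧ j ≤ hi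
  · exact .inl c
  rcases lt_trichotomy (i + j) (lo + 1 + hi) with e | e | e
  · have := h lo (i + j - 1 - lo) (by omega) (by omega) (by omega)
    have := hu (i + j - 1 - lo) (by omega) (by omega)
    omega
  · exact .inr ⟨e, h lo hi (by omega) (by omega) (by omega)⟩
  · have := h (i + j - 1 - hi) hi (by omega) (by omega) (by omega)
    have := hu (i + j - 1 - hi) (by omega) (by omega)
    omega

theorem blk_c2 : ∀ c : Bool, ∀ y ≤ 11, ∀ x < y,
    (∀ s < y, x ≤ s → Wd c s = Wd c (x + y - 1 - s)) → w y ≤ w x + 1 ∧ w x ≤ w y + 1 := by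
  decide +kernel

/-- values along the top run -/
def vt_c2 (A B P Q t : ℕ) : ℕ := if t ≤ A then P + w t else Q + w (A + B + 1 - t)

/-- the finite check for a top run -/
def Ok_c2 (A B P Q : ℕ) (c : Bool) : Prop := ∀ y ≤ A + B + 1, ∀ x < y,
  (∀ s < y, x ≤ s → Wd c (min s (A + B - s)) =
    Wd c (min (x + y - 1 - s) (A + B - (x + y - 1 - s)))) →
    vt_c2 A B P Q y ≤ vt_c2 A B P Q x + 1 ∨ x + y = A + B + 1

theorem top_c2 : (∀ c, Ok_c2 10 10 0 1 c) ∧ Ok_c2 11 7 0 1 true ∧ Ok_c2 11 5 0 1 false ∧
    Ok_c2 7 11 1 0 true ∧ Ok_c2 5 11 1 0 false := by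
  unfold Ok_c2
  refine ⟨fun c => ?_, ?_, ?_, ?_, ?_⟩
  · cases c <;> decide +kernel
  all_goals decide +kernel

theorem step_c2 (hR : Valid R) (hF : Fit R M sd) {i k : ℕ} (h1 : a R k ≤ i) (h2 : i < b R k) :
    fn R (i + 1) ≤ fn R i + 1 := by
  have e : b R k = a R k + ri R k + fa R k + 1 := rfl
  rcases lt_trichotomy i (a R k + ri R k) with c | c | c
  · rw [fn_ri (k := k) (x := i - a R k + 1) (by omega) (by omega),
      fn_ri (k := k) (x := i - a R k) (by omega) (by omega)]
    have := phi_succ (i - a R k)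
    omega
  · rw [fn_fa (k := k) (x := fa R k) (by omega) le_rfl, fn_ri c le_rfl, ri, fa]
    rcases shape hR hF k with g | g | g | g | g | g <;>
      rw [g.1, g.2.1, phi_w _ (by omega)] <;> (try rw [phi_w _ (by omega)]) <;>
      simp only [w, List.getD_cons_succ, List.getD_cons_zero] <;> omega
  · rw [fn_fa (k := k) (x := b R k - (i + 1)) (by omega) (by omega),
      fn_fa (k := k) (x := b R k - (i + 1) + 1) (by omega) (by omega)]
    have := phi_succ (b R k - (i + 1))
    omega

theorem lt_c2 (k d : ℕ) :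
    (d % 22 < 11 ∧ lt R M sd k d = 11 + d % 22 + if side sd k then 20 else 0) ∨
      (11 ≤ d % 22 ∧ lt R M sd k d < 11) := by
  have := tm_bd M (side sd k) d
  unfold lt
  by_cases c : al R k = 0 ∧ d = 22 * ht R k + 11
  · rw [if_pos c]
    omega
  · rw [if_neg c]
    by_cases e : d % 22 < 11
    · exact .inl ⟨e, tm_sep _ _ e⟩
    · omega

theorem jt_c2 (k : ℕ) : jt k ≤ 1 := by
  unfold jt
  split_ifs <;> omega

theorem prev_c2 {k : ℕ} (h : 0 < a R k) : wd R M sd (a R k - 1) ≤ 1 := by
  cases k with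
  | zero => exact absurd h (lt_irrefl 0)
  | succ k =>
    rw [a_succ, Nat.add_sub_cancel, wd_j]
    exact jt_c2 k

/-- the centre is not a separator -/
theorem sep_c2 {i j c k d : ℕ} (hij : i + 2 ≤ j) (h : Pal (wd R M sd) i j)
    (hc : i + j = 2 * c ∨ i + j = 2 * c + 1) (e : c = a R k + d ∨ c + d + 1 = b R k)
    (hd : d ≤ 22 * ht R k + 10) (hs : d % 22 < 11) : False := by
  have hb := b_eq R k
  have l0 := lt_c2 (R := R) (M := M) (sd := sd) k d
  have l1 := lt_c2 (R := R) (M := M) (sd := sd) k (d + 1)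
  have l2 := lt_c2 (R := R) (M := M) (sd := sd) k (d - 1)
  have key : wd R M sd (c - 1) = wd R M sd c ∨ wd R M sd (c - 1) = wd R M sd (c + 1) :=
    hc.imp (fun e => h _ _ (by omega) (by omega) (by omega))
      fun e => h _ _ (by omega) (by omega) (by omega)
  generalize (if side sd k then 20 else 0) = o at l0 l1 l2
  rcases e with e | e
  · rw [wd_l M sd e (by omega), wd_l M sd (k := k) (n := c + 1) (d := d + 1) (by omega) (by omega)]
      at key
    by_cases z : d = 0
    · have := prev_c2 (R := R) (M := M) (sd := sd) (k := k) (by omega)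
      rw [show c - 1 = a R k - 1 by omega] at key
      omega
    · rw [wd_l M sd (k := k) (n := c - 1) (d := d - 1) (by omega) (by omega)] at key
      omega
  · rw [wd_r M sd e (by omega), wd_r M sd (k := k) (n := c - 1) (d := d + 1) (by omega) (by omega)]
      at key
    by_cases z : d = 0
    · have := jt_c2 k
      rw [show c + 1 = b R k by omega, wd_j] at key
      omega
    · rw [wd_r M sd (k := k) (n := c + 1) (d := d - 1) (by omega) (by omega)] at key
      omega

theorem ltw_c2 {k m t : ℕ} (hm : m < ht R k ∨ al R k ≠ 0) (ht' : t < 11) :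
    lt R M sd k (22 * m + 11 + t) = 3 + Wd (M (side sd k) m) t := by
  rw [lt, if_neg (by omega), tm_w _ _ _ ht']

theorem rise_c2 {i j k m : ℕ} (hij : i < j) (h : Pal (wd R M sd) i j) (hm : m < ht R k)
    (h1 : 2 * (a R k + 22 * m + 11) ≤ i + j) (h2 : i + j < 2 * (a R k + 22 * m + 22)) :
    fn R j ≤ fn R i + 1 := by
  have hb := b_eq R k
  have l1 := lt_c2 (R := R) (M := M) (sd := sd) k (22 * m + 10)
  have l2 := lt_c2 (R := R) (M := M) (sd := sd) k (22 * m + 22)
  have e1 := wd_l (R := R) M sd (k := k) (n := a R k + 22 * m + 10) (d := 22 * m + 10)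
    (by omega) (by omega)
  have e2 := wd_l (R := R) M sd (k := k) (n := a R k + 22 * m + 22) (d := 22 * m + 22)
    (by omega) (by omega)
  have e3 : ∀ t < 11, wd R M sd (a R k + 22 * m + 11 + t) = 3 + Wd (M (side sd k) m) t :=
    fun t ht' => (wd_l M sd (k := k) (d := 22 * m + 11 + t) (by omega) (by omega)).trans
      (ltw_c2 (.inl hm) ht')
  rcases run_c2 (lo := a R k + 22 * m + 10) (hi := a R k + 22 * m + 22) (by omega) h2
    (fun n x y => by
      have := e3 (n - (a R k + 22 * m + 11)) (by omega)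
      have := Wd_le (M (side sd k) m) (n - (a R k + 22 * m + 11))
      rw [show a R k + 22 * m + 11 + (n - (a R k + 22 * m + 11)) = n by omega] at *
      omega) (by omega) (by omega) h with g | g
  · obtain ⟨x, rfl⟩ : ∃ x, i = a R k + 22 * m + 11 + x := ⟨i - (a R k + 22 * m + 11), by omega⟩
    obtain ⟨y, rfl⟩ : ∃ y, j = a R k + 22 * m + 11 + y := ⟨j - (a R k + 22 * m + 11), by omega⟩
    have := blk_c2 (M (side sd k) m) y (by omega) x (by omega) fun s s1 s2 => by
      have := h (a R k + 22 * m + 11 + s) (a R k + 22 * m + 11 + (x + y - 1 - s)) (by omega)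
        (by omega) (by omega)
      rw [e3 _ (by omega), e3 _ (by omega)] at this
      omega
    rw [fn_ri (k := k) (x := 22 * m + 11 + y) (by omega) (by unfold ri; omega),
      fn_ri (k := k) (x := 22 * m + 11 + x) (by omega) (by unfold ri; omega),
      phi_w _ (by omega), phi_w _ (by omega)]
    omega
  · omega

theorem fall_c2 {i j k m lo : ℕ} (hij : i < j) (h : Pal (wd R M sd) i j) (hm : m < ht R k)
    (hlo : lo + 22 * m + 23 = b R k) (h1 : 2 * (lo + 1) ≤ i + j) (h2 : i + j < 2 * (lo + 12)) :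
    fn R j ≤ fn R i + 1 := by
  have hb := b_eq R k
  have l1 := lt_c2 (R := R) (M := M) (sd := sd) k (22 * m + 10)
  have l2 := lt_c2 (R := R) (M := M) (sd := sd) k (22 * m + 22)
  have e1 := wd_r (R := R) M sd (k := k) (n := lo + 12) (d := 22 * m + 10) (by omega) (by omega)
  have e2 := wd_r (R := R) M sd (k := k) (n := lo) (d := 22 * m + 22) (by omega) (by omega)
  have e3 : ∀ t < 11, wd R M sd (lo + 11 - t) = 3 + Wd (M (side sd k) m) t :=
    fun t ht' => (wd_r M sd (k := k) (d := 22 * m + 11 + t) (by omega) (by omega)).trans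
      (ltw_c2 (.inl hm) ht')
  rcases run_c2 (lo := lo) (hi := lo + 12) h1 h2
    (fun n x y => by
      have := e3 (lo + 11 - n) (by omega)
      have := Wd_le (M (side sd k) m) (lo + 11 - n)
      rw [show lo + 11 - (lo + 11 - n) = n by omega] at *
      omega) (by omega) (by omega) h with g | g
  · obtain ⟨x, hx⟩ : ∃ x, j + x = lo + 12 := ⟨lo + 12 - j, by omega⟩
    obtain ⟨y, hy⟩ : ∃ y, i + y = lo + 12 := ⟨lo + 12 - i, by omega⟩
    have := blk_c2 (M (side sd k) m) y (by omega) x (by omega) fun s s1 s2 => by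
      have := h (lo + 11 - s) (lo + 11 - (x + y - 1 - s)) (by omega) (by omega) (by omega)
      rw [e3 _ (by omega), e3 _ (by omega)] at this
      omega
    rw [fn_fa (k := k) (x := 22 * m + 11 + x) (by omega) (by unfold fa; omega),
      fn_fa (k := k) (x := 22 * m + 11 + y) (by omega) (by unfold fa; omega),
      phi_w _ (by omega), phi_w _ (by omega)]
    omega
  · omega

theorem peak_c2 {i j k P Q z : ℕ} (hij : i < j) (h : Pal (wd R M sd) i j) (h0 : al R k ≠ 0)
    (hA : al R k ≤ 11) (hB : be R k ≤ 11) (hS : al R k + be R k ≤ 20) (hp : p k = z + P)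
    (hq : q k = z + Q) (ok : Ok_c2 (al R k) (be R k) P Q (M (side sd k) (ht R k)))
    (h1 : 2 * (a R k + 22 * ht R k + 11) ≤ i + j) (h2 : i + j + 2 * (22 * ht R k + 11) < 2 * b R k) :
    fn R j ≤ fn R i + 1 ∨ i + j = a R k + b R k := by
  have hb := b_eq R k
  have l1 := lt_c2 (R := R) (M := M) (sd := sd) k (22 * ht R k + 10)
  have e1 := wd_l (R := R) M sd (k := k) (n := a R k + 22 * ht R k + 10) (d := 22 * ht R k + 10)
    (by omega) (by omega)
  have e2 := wd_r (R := R) M sd (k := k) (n := a R k + 22 * ht R k + 12 + al R k + be R k)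
    (d := 22 * ht R k + 10) (by omega) (by omega)
  have e3 : ∀ t ≤ al R k + be R k, wd R M sd (a R k + 22 * ht R k + 11 + t) =
      3 + Wd (M (side sd k) (ht R k)) (min t (al R k + be R k - t)) := fun t ht' => by
    rw [wd_in M sd (k := k) (by omega) (by omega), ← ltw_c2 (R := R) (.inr h0) (by omega)]
    congr 1
    omega
  have e4 : ∀ t ≤ al R k + be R k + 1, fn R (a R k + 22 * ht R k + 11 + t) =
      z + 13 * ht R k + 11 + vt_c2 (al R k) (be R k) P Q t := fun t ht' => by
    unfold vt_c2
    split_ifs with c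
    · rw [fn_ri (k := k) (x := 22 * ht R k + 11 + t) (by omega) (by unfold ri; omega),
        phi_w _ (by omega)]
      omega
    · rw [fn_fa (k := k) (x := 22 * ht R k + 11 + (al R k + be R k + 1 - t)) (by omega)
        (by unfold fa; omega), phi_w _ (by omega)]
      omega
  rcases run_c2 (lo := a R k + 22 * ht R k + 10)
    (hi := a R k + 22 * ht R k + 12 + al R k + be R k) (by omega) (by omega)
    (fun n x y => by
      have := e3 (n - (a R k + 22 * ht R k + 11)) (by omega)
      have := Wd_le (M (side sd k) (ht R k)) (min (n - (a R k + 22 * ht R k + 11))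
        (al R k + be R k - (n - (a R k + 22 * ht R k + 11))))
      rw [show a R k + 22 * ht R k + 11 + (n - (a R k + 22 * ht R k + 11)) = n by omega] at *
      omega) (by omega) (by omega) h with g | g
  · obtain ⟨x, rfl⟩ : ∃ x, i = a R k + 22 * ht R k + 11 + x :=
      ⟨i - (a R k + 22 * ht R k + 11), by omega⟩
    obtain ⟨y, rfl⟩ : ∃ y, j = a R k + 22 * ht R k + 11 + y :=
      ⟨j - (a R k + 22 * ht R k + 11), by omega⟩
    have := ok y (by omega) x (by omega) fun s s1 s2 => by
      have := h (a R k + 22 * ht R k + 11 + s) (a R k + 22 * ht R k + 11 + (x + y - 1 - s))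
        (by omega) (by omega) (by omega)
      rw [e3 _ (by omega), e3 _ (by omega)] at this
      omega
    rw [e4 _ (by omega), e4 _ (by omega)]
    omega
  · omega

theorem cls (hR : Valid R) (hF : Fit R M sd) {i j : ℕ} (hij : i < j) (h : Pal (wd R M sd) i j) :
    fn R j ≤ fn R i + 1 ∨ (∃ m, i + j = a R m + b R m) ∨ ∃ m, i + j = b R m + a R (m + 1) := by
  by_cases h1 : j = i + 1
  · obtain ⟨k, k1, k2⟩ := ex_hump R i
    by_cases e : i = b R k
    · exact .inr (.inr ⟨k, by rw [a_succ]; omega⟩)
    · exact .inl (h1 ▸ step_c2 hR hF k1 (by omega))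
  obtain ⟨c, hc⟩ : ∃ c, i + j = 2 * c ∨ i + j = 2 * c + 1 := ⟨(i + j) / 2, by omega⟩
  obtain ⟨k, k1, k2⟩ := ex_hump R c
  have hb := b_eq R k
  by_cases e : c = b R k
  · rcases hc with hc | hc
    · have := h (c - 1) c (by omega) (by omega) (by omega)
      rw [wd_r M sd (k := k) (d := 0) (by omega) (by omega), e, wd_j] at this
      have := jt_c2 k
      have := lt_c2 (R := R) (M := M) (sd := sd) k 0
      omega
    · exact .inr (.inr ⟨k, by rw [a_succ]; omega⟩)
  by_cases t : a R k + 22 * ht R k + 11 ≤ c ∧ c + 22 * ht R k + 11 < b R k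
  · obtain ⟨o1, o2, o3, o4, o5⟩ := top_c2
    have go := fun P Q z => peak_c2 (k := k) (P := P) (Q := Q) (z := z) hij h
    refine Or.imp_right (fun e => .inl ⟨k, e⟩) ?_
    rcases shape hR hF k with g | g | g | g | g | g
    · exact go 0 1 (p k) (by omega) (by omega) (by omega) (by omega) rfl g.2.2
        (by rw [g.1, g.2.1]; exact o1 _) (by omega) (by omega)
    · rcases hc with hc | hc
      · have := h (c - 1) c (by omega) (by omega) (by omega)
        rw [wd_l M sd (k := k) (d := 22 * ht R k + 10) (by omega) (by omega),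
          wd_l M sd (k := k) (d := 22 * ht R k + 11) (by omega) (by omega)] at this
        have := lt_c2 (R := R) (M := M) (sd := sd) k (22 * ht R k + 10)
        have := lt_c2 (R := R) (M := M) (sd := sd) k (22 * ht R k + 11)
        omega
      · omega
    · exact go 0 1 (p k) (by omega) (by omega) (by omega) (by omega) rfl g.2.2.1
        (by rw [g.1, g.2.1, g.2.2.2]; exact o2) (by omega) (by omega)
    · exact go 0 1 (p k) (by omega) (by omega) (by omega) (by omega) rfl g.2.2.1
        (by rw [g.1, g.2.1, g.2.2.2]; exact o3) (by omega) (by omega)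
    · exact go 1 0 (q k) (by omega) (by omega) (by omega) (by omega) g.2.2.1 rfl
        (by rw [g.1, g.2.1, g.2.2.2]; exact o4) (by omega) (by omega)
    · exact go 1 0 (q k) (by omega) (by omega) (by omega) (by omega) g.2.2.1 rfl
        (by rw [g.1, g.2.1, g.2.2.2]; exact o5) (by omega) (by omega)
  left
  by_cases l : c < a R k + 22 * ht R k + 11
  · by_cases s : (c - a R k) % 22 < 11
    · exact (sep_c2 (k := k) (d := c - a R k) (by omega) h hc (by omega) (by omega) s).elim
    · exact rise_c2 (k := k) (m := (c - a R k) / 22) hij h (by omega) (by omega) (by omega)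
  · by_cases s : (b R k - 1 - c) % 22 < 11
    · exact (sep_c2 (k := k) (d := b R k - 1 - c) (by omega) h hc (by omega) (by omega) s).elim
    · exact fall_c2 (k := k) (m := (b R k - 1 - c) / 22)
        (lo := b R k - 23 - 22 * ((b R k - 1 - c) / 22)) hij h (by omega) (by omega) (by omega)
        (by omega)

end Pool.Agent.Lib.MP_9cc368_co.U
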