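import Pool.Agent.Lib.MP_9cc368_co.UWord

/-! Palindromes centred at a top or at a joint. -/

namespace Pool.Agent.Lib.MP_9cc368_co.U

variable {R : ℕ → Round} {M : Bool → ℕ → Bool} {sd : ℕ → Bool}

/-- palindromes which mirror the right end of hump `g` to the left end of hump `k` -/
def GoodC3 (R : ℕ → Round) (M : Bool → ℕ → Bool) (sd : ℕ → Bool) (g k : ℕ) : Prop :=
  ∀ i j, i + j = b R g + a R k → a R k ≤ j → Pal (wd R M sd) i j → fn R j ≤ fn R i + 1

theorem tr_c3 (R : ℕ → Round) (k : ℕ) : ri R k = 22 * ht R k + 11 + al R k ∧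
    fa R k = 22 * ht R k + 11 + be R k ∧ ((al R k = 0 ∧ tr R k = 22 * ht R k + 11) ∨
      (al R k ≠ 0 ∧ tr R k = 22 * ht R k + 22)) := by
  refine ⟨rfl, rfl, ?_⟩
  unfold tr
  split_ifs with h
  exacts [.inl ⟨h, rfl⟩, .inr ⟨h, rfl⟩]

theorem x1_c3 (hR : Valid R) (hF : Fit R M sd) {g k : ℕ} (hgk : g < k)
    (hs : side sd g ≠ side sd k) (hp : p k ≤ q g + 1) : GoodC3 R M sd g k := by
  intro i j e hj h
  have hb := b_lt R hgk
  by_cases c : j = a R k
  · rw [fn_ri (k := k) (x := 0) c (Nat.zero_le _),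
      fn_fa (k := g) (n := i) (x := 0) (by omega) (Nat.zero_le _)]
    omega
  exfalso
  have t0 : ∀ m, 0 < tr R m := fun m => by have := tr_c3 R m; omega
  have := h (b R g - 1) (a R k) (by omega) (by omega) (by omega)
  rw [wd_tm hR hF (k := g) (d := 0) (.inr (by omega)) (t0 g),
    wd_tm hR hF (k := k) (d := 0) (n := a R k) (.inl rfl) (t0 k), tm_sep _ _ (by omega),
    tm_sep _ _ (by omega)] at this
  revert hs this
  cases side sd g <;> cases side sd k <;> simp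

theorem xle_c3 (hR : Valid R) (hF : Fit R M sd) {g k i x : ℕ} (hgk : g < k)
    (hne : tr R g ≠ tr R k) (e : i + x = b R g) (h : Pal (wd R M sd) i (a R k + x)) :
    x ≤ tr R g ∧ x ≤ tr R k := by
  have hb := b_lt R hgk
  by_contra hn
  rcases lt_or_gt_of_ne hne with c | c
  · have := h (b R g - 1 - tr R g) (a R k + tr R g) (by omega) (by omega) (by omega)
    rw [wd_tm hR hF (k := k) (d := tr R g) (n := a R k + tr R g) (.inl rfl) c] at this
    exact wd_brk hR hF (k := g) (.inr (by omega)) _ this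
  · have := h (a R k + tr R k) (b R g - 1 - tr R k) (by omega) (by omega) (by omega)
    rw [wd_tm hR hF (k := g) (d := tr R k) (n := b R g - 1 - tr R k) (.inr (by omega)) c] at this
    exact wd_brk hR hF (k := k) (.inl rfl) _ this

theorem low_c3 (hR : Valid R) (hF : Fit R M sd) {g i x : ℕ} (e : i + x = b R g)
    (hx : x ≤ tr R g) : q g + phi x ≤ fn R i + 2 ∧
      (x ≤ fa R g ∨ be R g = 10 → q g + phi x ≤ fn R i) := by
  by_cases c : x ≤ fa R g
  · rw [fn_fa e c]; omega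
  have hs := shape hR hF g
  have h1 := tr_c3 R g
  have hb := b_eq R g
  obtain ⟨t, rfl⟩ : ∃ t, x = 22 * ht R g + 11 + t := ⟨x - (22 * ht R g + 11), by omega⟩
  obtain ⟨t', h2⟩ : ∃ t', t + t' = al R g + be R g + 1 := ⟨al R g + be R g + 1 - t, by omega⟩
  have k1 : ∀ t ≤ 11, ∀ t' ≤ 11, 8 ≤ t → t + t' = 19 → w t ≤ w t' + 1 := by decide
  have k2 : ∀ t ≤ 11, ∀ t' ≤ 11, 6 ≤ t → t + t' = 17 → w t ≤ w t' + 1 := by decide
  rw [fn_ri (k := g) (x := 22 * ht R g + 11 + t') (by omega) (by omega), phi_w _ (by omega),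
    phi_w _ (by omega)]
  rcases hs with g | g | g | g | g | g
  · obtain ⟨rfl, rfl⟩ : t = 11 ∧ t' = 10 := by omega
    have : w 11 = 2 ∧ w 10 = 3 := by decide
    omega
  · omega
  · have := k1 t (by omega) t' (by omega) (by omega) (by omega)
    omega
  · have := k2 t (by omega) t' (by omega) (by omega) (by omega)
    omega
  · omega
  · omega

theorem x2_c3 (hR : Valid R) (hF : Fit R M sd) {g k : ℕ} (hgk : g < k)
    (H : tr R g ≠ tr R k ∧ min (tr R g) (tr R k) ≤ ri R k ∧ (p k + 1 ≤ q g ∨ (p k ≤ q g + 1 ∧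
      (min (tr R g) (tr R k) ≤ fa R g ∨ be R g = 10)))) : GoodC3 R M sd g k := by
  intro i j e hj h
  obtain ⟨x, rfl⟩ := Nat.exists_eq_add_of_le hj
  obtain ⟨h1, h2⟩ := xle_c3 hR hF hgk H.1 (by omega) h
  obtain ⟨h3, h4⟩ := low_c3 hR hF (i := i) (by omega) h1
  rw [fn_ri (k := k) (x := x) rfl (by omega)]
  omega

theorem x3_c3 {g k : ℕ} (H : ri R k = fa R (g + 1) ∧ fa R k = ri R (g + 1) ∧
    p k = q (g + 1) + 1 ∧ q k = p (g + 1) + 1) (h' : GoodC3 R M sd g (k + 1)) :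
    GoodC3 R M sd (g + 1) k := by
  intro i j e hj h
  have e1 : b R k = a R k + ri R k + fa R k + 1 := rfl
  have e2 : b R (g + 1) = a R (g + 1) + ri R (g + 1) + fa R (g + 1) + 1 := rfl
  have e3 := a_succ R g
  have e4 := a_succ R k
  by_cases c : b R k < j
  · exact h' i j (by omega) (by omega) h
  by_cases c' : j ≤ a R k + ri R k
  · rw [fn_ri (k := k) (x := j - a R k) (by omega) (by omega),
      fn_fa (k := g + 1) (n := i) (x := j - a R k) (by omega) (by omega)]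
    omega
  · rw [fn_fa (k := k) (x := b R k - j) (by omega) (by omega),
      fn_ri (k := g + 1) (n := i) (x := b R k - j) (by omega) (by omega)]
    omega

theorem dat_c3 (R : ℕ → Round) (sd : ℕ → Bool) (s : ℕ) {k r : ℕ} (e : k = 8 * s + r)
    (h : r < 8) : (ht R k = H (R s) s r ∧ al R k = Al (R s) s r ∧ be R k = Be (R s) s r ∧
      p k = 4 * s + P0 r ∧ q k = 4 * s + Q0 r) ∧ side sd k = Sd s (sd s) r := by
  subst e
  obtain ⟨h1, h2, h3⟩ := at_st R s h
  refine ⟨⟨h1, h2, h3, ?_, ?_⟩, side_st sd s h⟩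
  · rw [p, show (8 * s + r) / 8 = s by omega, show (8 * s + r) % 8 = r by omega]
  · rw [q, show (8 * s + r) / 8 = s by omega, show (8 * s + r) % 8 = r by omega]

theorem rd_c3 (hR : Valid R) (s : ℕ) :
    (s < 2 ∧ (R s).j1 = 0 ∧ (R s).j2 = 0 ∧ pa s = 0 ∧ pb s (R s).c1 = 0 ∧ pb s (R s).c2 = 0) ∨
    (2 ≤ s ∧ 1 ≤ (R s).j2 ∧ (R s).j2 < (R s).j1 ∧ (R s).j1 ≤ s ∧ pa s = 11 ∧
      5 ≤ pb s (R s).c1 ∧ 5 ≤ pb s (R s).c2) := by
  have h := hR s
  by_cases c : s < 2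
  · exact .inl ⟨c, (h.1 c).1, (h.1 c).2, if_pos c, if_pos c, if_pos c⟩
  · have h1 : ∀ x, 5 ≤ pb s x := fun x => by
      unfold pb
      split_ifs <;> omega
    exact .inr ⟨by omega, by omega, by omega, by omega, if_neg c, h1 _, h1 _⟩

theorem all_c3 (hR : Valid R) (hF : Fit R M sd) (s : ℕ) :
    (GoodC3 R M sd (8 * s) (8 * s + 1) ∧ GoodC3 R M sd (8 * s + 1) (8 * s + 2) ∧
      GoodC3 R M sd (8 * s + 2) (8 * s + 3) ∧ GoodC3 R M sd (8 * s + 3) (8 * s + 4) ∧
      GoodC3 R M sd (8 * s + 4) (8 * s + 5) ∧ GoodC3 R M sd (8 * s + 5) (8 * s + 6) ∧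
      GoodC3 R M sd (8 * s + 6) (8 * s + 7) ∧ GoodC3 R M sd (8 * s + 7) (8 * s + 8)) ∧
    GoodC3 R M sd (8 * s) (8 * s + 2) ∧ GoodC3 R M sd (8 * s + 1) (8 * s + 3) ∧
      GoodC3 R M sd (8 * s + 3) (8 * s + 5) ∧ GoodC3 R M sd (8 * s + 5) (8 * s + 7) ∧
      GoodC3 R M sd (8 * s + 6) (8 * s + 8) ∧ GoodC3 R M sd (8 * s + 7) (8 * s + 9) := by
  obtain ⟨d0, s0⟩ := dat_c3 R sd s (k := 8 * s) (r := 0) rfl (by omega)
  obtain ⟨d1, s1⟩ := dat_c3 R sd s (k := 8 * s + 1) (r := 1) rfl (by omega)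
  obtain ⟨d2, s2⟩ := dat_c3 R sd s (k := 8 * s + 2) (r := 2) rfl (by omega)
  obtain ⟨d3, s3⟩ := dat_c3 R sd s (k := 8 * s + 3) (r := 3) rfl (by omega)
  obtain ⟨d4, s4⟩ := dat_c3 R sd s (k := 8 * s + 4) (r := 4) rfl (by omega)
  obtain ⟨d5, s5⟩ := dat_c3 R sd s (k := 8 * s + 5) (r := 5) rfl (by omega)
  obtain ⟨d6, s6⟩ := dat_c3 R sd s (k := 8 * s + 6) (r := 6) rfl (by omega)
  obtain ⟨d7, s7⟩ := dat_c3 R sd s (k := 8 * s + 7) (r := 7) rfl (by omega)
  obtain ⟨d8, s8⟩ := dat_c3 R sd (s + 1) (k := 8 * s + 8) (r := 0) (by omega) (by omega)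
  obtain ⟨d9, -⟩ := dat_c3 R sd (s + 1) (k := 8 * s + 9) (r := 1) (by omega) (by omega)
  simp only [H, Al, Be, P0, Q0, List.getD_cons_zero, List.getD_cons_succ]
    at d0 d1 d2 d3 d4 d5 d6 d7 d8 d9
  simp only [Sd] at s0 s1 s2 s3 s4 s5 s6 s7 s8
  have hr := rd_c3 hR s
  have X : ∀ g k, g < k → (ri R g = 22 * ht R g + 11 + al R g ∧
      fa R g = 22 * ht R g + 11 + be R g ∧ ((al R g = 0 ∧ tr R g = 22 * ht R g + 11) ∨
      (al R g ≠ 0 ∧ tr R g = 22 * ht R g + 22)) → ri R k = 22 * ht R k + 11 + al R k ∧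
      fa R k = 22 * ht R k + 11 + be R k ∧ ((al R k = 0 ∧ tr R k = 22 * ht R k + 11) ∨
      (al R k ≠ 0 ∧ tr R k = 22 * ht R k + 22)) →
      tr R g ≠ tr R k ∧ min (tr R g) (tr R k) ≤ ri R k ∧ (p k + 1 ≤ q g ∨ (p k ≤ q g + 1 ∧
        (min (tr R g) (tr R k) ≤ fa R g ∨ be R g = 10)))) → GoodC3 R M sd g k :=
    fun g k h H => x2_c3 hR hF h (H (tr_c3 R g) (tr_c3 R k))
  have g17 : GoodC3 R M sd (8 * s + 1) (8 * s + 7) := X _ _ (by omega) fun _ _ => by omega
  have g26 : GoodC3 R M sd (8 * s + 2) (8 * s + 6) :=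
    x3_c3 (g := 8 * s + 1) (k := 8 * s + 6) (by
      have := tr_c3 R (8 * s + 2)
      have := tr_c3 R (8 * s + 6)
      simp only [add_assoc, Nat.reduceAdd]
      omega) g17
  have g35 : GoodC3 R M sd (8 * s + 3) (8 * s + 5) :=
    x3_c3 (g := 8 * s + 2) (k := 8 * s + 5) (by
      have := tr_c3 R (8 * s + 3)
      have := tr_c3 R (8 * s + 5)
      simp only [add_assoc, Nat.reduceAdd]
      omega) g26
  refine ⟨⟨x1_c3 hR hF (by omega) (by simp [s0, s1]) (by omega),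
    x1_c3 hR hF (by omega) (by simp [s1, s2]) (by omega), X _ _ (by omega) fun _ _ => by omega,
    ?_, ?_, X _ _ (by omega) fun _ _ => by omega,
    x1_c3 hR hF (by omega) (by simp [s6, s7]) (by omega),
    x1_c3 hR hF (by omega) (by simp [s7, s8]) (by omega)⟩,
    X _ _ (by omega) fun _ _ => by omega, X _ _ (by omega) fun _ _ => by omega, g35,
    X _ _ (by omega) fun _ _ => by omega, X _ _ (by omega) fun _ _ => by omega,
    X _ _ (by omega) fun _ _ => by omega⟩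
  · rcases hr with hr | hr
    · exact x1_c3 hR hF (by omega) (by simp [s3, s4, hr.1, not_le.2 hr.1]) (by omega)
    · exact X _ _ (by omega) fun _ _ => by omega
  · rcases hr with hr | hr
    · exact x1_c3 hR hF (by omega) (by simp [s4, s5, hr.1, not_le.2 hr.1]) (by omega)
    · exact X _ _ (by omega) fun _ _ => by omega

theorem in_c3 (hR : Valid R) (hF : Fit R M sd) {i j m : ℕ} (hij : i < j)
    (e : i + j = a R m + b R m) (hj : j ≤ b R m) : fn R j ≤ fn R i + 1 := by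
  have hs := shape hR hF m
  have h1 := (tr_c3 R m).1
  have h2 := (tr_c3 R m).2.1
  have hb := b_eq R m
  obtain ⟨x, hx⟩ := Nat.exists_eq_add_of_le hj
  by_cases c : x ≤ ri R m ∧ x ≤ fa R m
  · rw [fn_fa hx.symm c.2, fn_ri (k := m) (n := i) (x := x) (by omega) c.1]
    omega
  obtain ⟨t, rfl⟩ : ∃ t, x = 22 * ht R m + 11 + t := ⟨x - (22 * ht R m + 11), by omega⟩
  obtain ⟨t', h3⟩ : ∃ t', t + t' = al R m + be R m + 1 := ⟨al R m + be R m + 1 - t, by omega⟩
  have k1 : ∀ t ≤ 11, ∀ t' ≤ 11, t + t' = 19 ∨ t + t' = 17 → w t ≤ w t' + 1 := by decide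
  by_cases c' : al R m = 11
  · rw [fn_ri (k := m) (n := j) (x := 22 * ht R m + 11 + t') (by omega) (by omega),
      fn_ri (k := m) (n := i) (x := 22 * ht R m + 11 + t) (by omega) (by omega),
      phi_w _ (by omega), phi_w _ (by omega)]
    have := k1 t' (by omega) t (by omega) (by omega)
    omega
  · rw [fn_fa (k := m) (n := j) (x := 22 * ht R m + 11 + t) (by omega) (by omega),
      fn_fa (k := m) (n := i) (x := 22 * ht R m + 11 + t') (by omega) (by omega),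
      phi_w _ (by omega), phi_w _ (by omega)]
    have := k1 t (by omega) t' (by omega) (by omega)
    omega

theorem top (hR : Valid R) (hF : Fit R M sd) {i j m : ℕ} (hij : i < j) (h : Pal (wd R M sd) i j)
    (e : i + j = a R m + b R m) : fn R j ≤ fn R i + 1 := by
  by_cases c : j ≤ b R m
  · exact in_c3 hR hF hij e c
  obtain _ | m := m
  · have : a R 0 = 0 := rfl
    omega
  have e1 := a_succ R m
  have e2 := a_succ R (m + 1)
  have hb := b_eq R (m + 1)
  have hj := h (b R m) (b R (m + 1)) (by omega) (by omega) (by omega)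
  rw [wd_j, wd_j] at hj
  suffices G : GoodC3 R M sd m (m + 1 + 1) from G i j (by omega) (by omega) h
  obtain ⟨s, r, rfl, hr⟩ : ∃ s r, m = 8 * s + r ∧ r < 8 := ⟨m / 8, m % 8, by omega, by omega⟩
  obtain ⟨-, g0, g1, g3, g5, g6, g7⟩ := all_c3 hR hF s
  unfold jt at hj
  interval_cases r
  exacts [g0, g1, by split_ifs at hj <;> omega, g3, by split_ifs at hj <;> omega, g5, g6, g7]

theorem joint (hR : Valid R) (hF : Fit R M sd) {i j m : ℕ} (hij : i < j)
    (h : Pal (wd R M sd) i j) (e : i + j = b R m + a R (m + 1)) : fn R j ≤ fn R i + 1 := by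
  have e1 := a_succ R m
  suffices G : GoodC3 R M sd m (m + 1) from G i j e (by omega) h
  obtain ⟨s, r, rfl, hr⟩ : ∃ s r, m = 8 * s + r ∧ r < 8 := ⟨m / 8, m % 8, by omega, by omega⟩
  obtain ⟨⟨g0, g1, g2, g3, g4, g5, g6, g7⟩, -⟩ := all_c3 hR hF s
  interval_cases r
  exacts [g0, g1, g2, g3, g4, g5, g6, g7]

end Pool.Agent.Lib.MP_9cc368_co.U
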