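import Pool.Agent.Lib.MP_9cc368_co.UBlk
import Pool.Agent.Lib.MP_fa1639_al.Mach

/-! An increasing map of Collatz type with undecidable reachability of a residue class. -/

namespace Pool.Agent.Lib.MP_9cc368_co.U

open Pool.Agent.Lib.MP_fa1639_al Prog Function

/-- a finite control with a counter which is affine on residue classes -/
theorem affine_co {S : Type} [Finite S] (k0 : S) {N : ℕ} (hN : 0 < N) (nx : S → ℕ → S)
    (f : S → ℕ → ℕ) (hl : S → Bool) (h1 : ∀ k t ρ, nx k (N * t + ρ) = nx k ρ)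
    (h2 : ∀ k ρ, ∃ A, ∀ t, f k (N * t + ρ) = A * t + f k ρ) (h3 : ∀ k m, 0 < m → m < f k m) :
    ∃ (P : ℕ) (lam mu : ℕ → ℕ) (hl' : ℕ → Bool) (Q : ℕ) (e : S → ℕ), 0 < P ∧
      (∀ v, v < G P lam mu v) ∧
      (∀ k m, 0 < m → G P lam mu (Q * (m - 1) + e k) = Q * (f k m - 1) + e (nx k m)) ∧
      ∀ k m, hl' ((Q * m + e k) % P) = hl k := by
  obtain ⟨Q, ⟨e⟩⟩ := Finite.exists_equiv_fin S
  have hQ : 0 < Q := (e k0).pos
  choose A hA using h2
  obtain ⟨st, hst⟩ : ∃ st : ℕ → S, ∀ v, (e (st v) : ℕ) = v % Q :=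
    ⟨fun v => e.symm ⟨v % Q, Nat.mod_lt _ hQ⟩, fun v => by simp⟩
  have st1 : ∀ v v', v % Q = v' % Q → st v = st v' := fun v v' h =>
    e.injective (Fin.ext (by rw [hst, hst, h]))
  have st2 : ∀ m k, st (Q * m + e k) = k := fun m k =>
    e.injective (Fin.ext (by rw [hst, Nat.mul_add_mod, Nat.mod_eq_of_lt (e k).2]))
  have key : ∀ v, G (Q * N) (fun r => Q * A (st r) (r / Q + 1))
      (fun r => Q * (f (st r) (r / Q + 1) - 1) + e (nx (st r) (r / Q + 1))) v =
      Q * (f (st v) (v / Q + 1) - 1) + e (nx (st v) (v / Q + 1)) := fun v => by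
    have e1 : st (v % (Q * N)) = st v := st1 _ _ (Nat.mod_mul_right_mod v Q N)
    have e2 : v / Q + 1 = N * (v / (Q * N)) + (v % (Q * N) / Q + 1) := by
      rw [Nat.mod_mul_right_div_self, ← Nat.div_div_eq_div_mul, ← add_assoc, Nat.div_add_mod]
    have e3 := Nat.zero_lt_of_lt (h3 (st v) (v % (Q * N) / Q + 1) (Nat.succ_pos _))
    simp only [G, e1]
    rw [e2, h1, hA, Nat.add_sub_assoc e3, mul_add Q, mul_assoc, add_assoc]
  refine ⟨Q * N, fun r => Q * A (st r) (r / Q + 1),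
    fun r => Q * (f (st r) (r / Q + 1) - 1) + e (nx (st r) (r / Q + 1)), fun r => hl (st r), Q,
    fun k => e k, Nat.mul_pos hQ hN, fun v => ?_, fun k m hm => ?_, fun k m => ?_⟩
  · rw [key]
    exact (Nat.lt_mul_div_succ v hQ).trans_le ((Nat.mul_le_mul_left _
      (Nat.le_sub_one_of_lt (h3 (st v) (v / Q + 1) (Nat.succ_pos _)))).trans (Nat.le_add_right _ _))
  · rw [key, st2, Nat.mul_add_div hQ, Nat.div_eq_of_lt (e k).2, add_zero, Nat.sub_add_cancel hm]
  · simp only
    rw [st1 _ _ (Nat.mod_mul_right_mod _ Q N), st2]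

/-- the odd primes -/
noncomputable def pn (r : ℕ) : ℕ := Nat.nth Nat.Prime (r + 1)

theorem pn_prime (r : ℕ) : (pn r).Prime := Nat.prime_nth_prime _

theorem pn_inj : Injective pn := fun _ _ h =>
  Nat.succ_injective (Nat.nth_injective Nat.infinite_setOfPred_prime h)

theorem pn_two (r : ℕ) : 2 ≠ pn r := fun h => by
  rw [← Nat.nth_prime_zero_eq_two] at h
  exact absurd (Nat.nth_injective Nat.infinite_setOfPred_prime h) (by omega)

/-- the new counter -/
def mulc (q d m : ℕ) : ℕ := if d = 0 then 2 ^ q * (m / q) else if d = 2 then 2 * (q * m) else 2 * m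

theorem mulc_aff {q N : ℕ} (hq : 0 < q) (h : q ∣ N) (d ρ : ℕ) :
    ∃ A, ∀ t, mulc q d (N * t + ρ) = A * t + mulc q d ρ := by
  obtain ⟨c, rfl⟩ := h
  unfold mulc
  split_ifs
  · exact ⟨2 ^ q * c, fun t => by rw [mul_assoc, Nat.mul_add_div hq]; ring⟩
  · exact ⟨2 * (q * (q * c)), fun t => by ring⟩
  · exact ⟨2 * (q * c), fun t => by ring⟩

theorem mulc_lt {q d m : ℕ} (hq : 0 < q) (h : d = 0 → q ∣ m) (hm : 0 < m) : m < mulc q d m := by
  unfold mulc
  split_ifs with h0
  · obtain ⟨c, rfl⟩ := h h0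
    rw [Nat.mul_div_cancel_left _ hq]
    exact Nat.mul_lt_mul_of_pos_right Nat.lt_two_pow_self (Nat.pos_of_mul_pos_left hm)
  · have := Nat.le_mul_of_pos_left m hq
    omega
  · omega

theorem mulc_fac {r d m : ℕ} (hd : d = 0 ∧ pn r ∣ m ∨ d = 1 ∨ d = 2) (hm : 0 < m) (i : ℕ) :
    (mulc (pn r) d m).factorization (pn i) =
      update (fun i => m.factorization (pn i)) r (m.factorization (pn r) + d - 1) i := by
  have hp := pn_prime r
  have e2 : ∀ j n, n ≠ 0 → (2 ^ j * n).factorization (pn i) = n.factorization (pn i) :=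
    fun j n hn => by
      rw [Nat.factorization_mul (by positivity) hn, Nat.prime_two.factorization_pow]
      simp [pn_two i]
  have e3 : ∀ n j, n ≠ 0 → (pn r * n).factorization (pn j) =
      n.factorization (pn j) + if r = j then 1 else 0 := fun n j hn => by
    rw [Nat.factorization_mul hp.ne_zero hn, hp.factorization]
    simp [Finsupp.single_apply, pn_inj.eq_iff, add_comm]
  unfold mulc
  rcases hd with ⟨rfl, c, rfl⟩ | rfl | rfl
  · have hc : c ≠ 0 := (Nat.pos_of_mul_pos_left hm).ne'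
    rw [if_pos rfl, Nat.mul_div_cancel_left _ hp.pos, e2 _ _ hc]
    by_cases h : i = r
    · rw [h, update_self, e3 _ _ hc, if_pos rfl]
      omega
    · rw [update_of_ne h, e3 _ _ hc, if_neg (Ne.symm h), add_zero]
  · rw [if_neg (by omega), if_neg (by omega), ← pow_one 2, e2 _ _ hm.ne']
    by_cases h : i = r
    · rw [h, update_self]
      omega
    · rw [update_of_ne h]
  · rw [if_neg (by omega), if_pos rfl]
    have := e2 1 _ (Nat.mul_pos hp.pos hm).ne'
    rw [pow_one] at this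
    rw [this, e3 _ _ hm.ne']
    by_cases h : i = r
    · rw [h, update_self, if_pos rfl]
      omega
    · rw [update_of_ne h, if_neg (Ne.symm h), add_zero]

theorem search_co {g : ℕ → ℕ → ℕ} (hg : Primrec₂ g) :
    ∃ (P : ℕ) (lam mu : ℕ → ℕ) (hl : ℕ → Bool) (Q i : ℕ), 0 < P ∧ (∀ v, v < G P lam mu v) ∧
      ∀ n, (∃ T, hl ((G P lam mu)^[T] (Q * (3 ^ n - 1) + i) % P) = true) ↔ ∃ k, g n k = 0 := by
  classical
  obtain ⟨P, hP⟩ := exists_search hg
  obtain ⟨k0, hk⟩ : ∃ k0 : St P, k0.1 = [P] := ⟨⟨_, List.mem_cons_of_mem _ (mem_subs P [])⟩, rfl⟩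
  have hd : ∀ k : St P, pn (reg k.1) ∣ ∏ r ∈ Finset.range (mx P + 1), pn r := fun k =>
    Finset.dvd_prod_of_mem _ (Finset.mem_range.2 k.lt)
  have hb : ∀ (k : St P) t ρ, decide (¬ pn (reg k.1) ∣ (∏ r ∈ Finset.range (mx P + 1), pn r) * t + ρ)
      = decide (¬ pn (reg k.1) ∣ ρ) := fun k t ρ => by
    rw [decide_eq_decide, Nat.dvd_add_right ((hd k).mul_right t)]
  have hc : ∀ (k : St P) m, dl 0 k.1 (decide (¬ pn (reg k.1) ∣ m)) = 0 ∧ pn (reg k.1) ∣ m ∨
      dl 0 k.1 (decide (¬ pn (reg k.1) ∣ m)) = 1 ∨ dl 0 k.1 (decide (¬ pn (reg k.1) ∣ m)) = 2 :=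
    fun k m => (dl_cases k.1 _).imp_left fun h => ⟨h.1, by simpa using h.2⟩
  have hlt : ∀ (k : St P) m, 0 < m →
      m < mulc (pn (reg k.1)) (dl 0 k.1 (decide (¬ pn (reg k.1) ∣ m))) m := fun k m hm =>
    mulc_lt (pn_prime _).pos (fun h => by
      rcases hc k m with e | e | e
      · exact e.2
      all_goals omega) hm
  obtain ⟨N, lam, mu, hl, Q, e, h0, h1, h2, h3⟩ := affine_co k0
    (Finset.prod_pos fun r _ => (pn_prime r).pos : 0 < ∏ r ∈ Finset.range (mx P + 1), pn r)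
    (fun k m => k.nx (decide (¬ pn (reg k.1) ∣ m)))
    (fun k m => mulc (pn (reg k.1)) (dl 0 k.1 (decide (¬ pn (reg k.1) ∣ m))) m)
    (fun k => decide (k.1 = [])) (fun k t ρ => by simp only [hb])
    (fun k ρ => by simpa only [hb] using mulc_aff (pn_prime _).pos (hd k) _ ρ) hlt
  have it : ∀ (T : ℕ) (k : St P) (m : ℕ), 0 < m → ∃ (k' : St P) (m' : ℕ),
      (G N lam mu)^[T] (Q * (m - 1) + e k) = Q * m' + e k' ∧
      k'.1 = ((sstep 0)^[T] (k.1, fun i => m.factorization (pn i))).1 := fun T => by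
    induction T with
    | zero => exact fun k m _ => ⟨k, _, rfl, rfl⟩
    | succ T ih =>
      intro k m hm
      obtain ⟨k', m', e1, e2⟩ := ih (k.nx (decide (¬ pn (reg k.1) ∣ m))) _ (hm.trans (hlt k m hm))
      refine ⟨k', m', by rw [iterate_succ_apply, h2 k m hm, e1], ?_⟩
      have e3 : decide (m.factorization (pn (reg k.1)) = 0) = decide (¬ pn (reg k.1) ∣ m) := by
        rw [decide_eq_decide, (pn_prime _).dvd_iff_one_le_factorization hm.ne']
        omega
      rw [e2, iterate_succ_apply, funext (mulc_fac (hc k m) hm)]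
      simp only [sstep, e3]
      rfl
  refine ⟨N, lam, mu, hl, Q, e k0, h0, h1, fun n => ?_⟩
  have e0 : (3 ^ n).factorization (pn 0) = n := by
    rw [pn, Nat.nth_prime_one_eq_three, Nat.prime_three.factorization_pow]
    simp
  have := hP fun i => (3 ^ n).factorization (pn i)
  simp only [e0] at this
  have c : ∀ T, hl ((G N lam mu)^[T] (Q * (3 ^ n - 1) + e k0) % N) = true ↔
      ((sstep 0)^[T] ([P], fun i => (3 ^ n).factorization (pn i))).1 = [] := fun T => by
    obtain ⟨k', m', e1, e2⟩ := it T k0 (3 ^ n) (by positivity)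
    rw [e1, h3, ← hk, ← e2, decide_eq_true_iff]
  simp only [c]
  exact ⟨this.2, fun h => by
    obtain ⟨T, p', h4, -⟩ := this.1 h
    exact ⟨T, by rw [h4]⟩⟩

open Nat.Partrec.Code in
theorem exists_collatz : ∃ (P : ℕ) (lam mu : ℕ → ℕ) (hl : ℕ → Bool) (v0 : ℕ → ℕ), 0 < P ∧
    Computable v0 ∧ (∀ v, v < G P lam mu v) ∧
    ¬ ComputablePred fun n => ∃ T, hl ((G P lam mu)^[T] (v0 n) % P) = true := by
  obtain ⟨P, lam, mu, hl, Q, i, h0, h1, h2⟩ := search_co
    (g := fun a k => if (evaln k (Denumerable.ofNat _ a) 0).isSome then 0 else 1)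
    (Primrec.ite (PrimrecPred.of_eq (Primrec.eq.comp (Primrec.option_isSome.comp (primrec_evaln.comp
      ((Primrec.snd.pair ((Primrec.ofNat _).comp .fst)).pair
        (.const 0)))) (.const true)) fun _ => .rfl) (.const 0) (.const 1))
  refine ⟨P, lam, mu, hl, fun n => Q * (3 ^ n - 1) + i, h0,
    (Primrec.nat_add.comp (Primrec.nat_mul.comp (.const Q) (Primrec.nat_sub.comp
      ((Primrec₂.unpaired'.1 Nat.Primrec.pow).comp (.const 3) .id) (.const 1))) (.const i)).to_comp,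
    h1, fun h => ComputablePred.halting_problem 0
      (ComputablePred.computable_of_manyOneReducible
        ⟨Encodable.encode, Computable.encode, fun c => ?_⟩ h)⟩
  rw [h2]
  simp only [Part.dom_iff_mem, evaln_complete]
  simp [Option.isSome_iff_exists]
  exact exists_comm

end Pool.Agent.Lib.MP_9cc368_co.U
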