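import Pool.Agent.Lib.MP_9cc368_co.USnd2
import Pool.Agent.Lib.MP_9cc368_co.UC1
import Pool.Agent.Lib.MP_9cc368_co.UC2
import Pool.Agent.Lib.MP_9cc368_co.UC3
import Pool.Agent.Lib.MP_9cc368_co.UBlk

/-! The schedule of a map of Collatz type and its realisability. -/

namespace Pool.Agent.Lib.MP_9cc368_co.U

theorem complete {R : ℕ → Round} {M : Bool → ℕ → Bool} (hR : Valid R)
    (hM : ∀ s, 2 ≤ s → Sat M (R s)) : fn R ∈ Realisable := by
  have : ∀ s, ∃ σ, 2 ≤ s → M σ (R s).j1 = (R s).c1 ∧ M σ (R s).j2 = (R s).c2 := fun s => by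
    by_cases h : 2 ≤ s
    · obtain ⟨σ, hσ⟩ := hM s h
      exact ⟨σ, fun _ => hσ⟩
    · exact ⟨true, fun h' => (h h').elim⟩
  choose sd hsd using this
  have hF : Fit R M sd := hsd
  have hP : ∀ i j, Pal (fun n => (⟨wd R M sd n, wd_lt R M sd n⟩ : Fin 42)) i j ↔
      Pal (wd R M sd) i j := fun i j => by simp only [Pal, Fin.mk.injEq]
  refine ⟨42, fun n => ⟨wd R M sd n, wd_lt R M sd n⟩, funext fun n =>
    (cert (N := n) (fn_a (R := R) 0) (fun i j hij _ h => ?_) (fun j hj _ => ?_) n le_rfl).symm⟩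
  · rcases cls hR hF hij ((hP i j).1 h) with c | ⟨m, c⟩ | ⟨m, c⟩
    exacts [c, top hR hF hij ((hP i j).1 h) c, joint hR hF hij ((hP i j).1 h) c]
  · obtain ⟨i, h1, h2, h3⟩ := expl hR hF j hj
    exact ⟨i, h1, (hP i j).2 h2, h3⟩

/-- an increasing map with linear growth, affine on residue classes, and final residues -/
structure Dat where
  P : ℕ
  lam : ℕ → ℕ
  mu : ℕ → ℕ
  hl : ℕ → Bool
  K : ℕ
  pos : 0 < P
  inc : ∀ v, v < G P lam mu v
  bd : ∀ v, 14 + 2 * G P lam mu v ≤ K * v + K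

theorem exists_K (P : ℕ) (lam mu : ℕ → ℕ) (h : 0 < P) :
    ∃ K, ∀ v, 14 + 2 * G P lam mu v ≤ K * v + K := by
  obtain ⟨C, hC⟩ : ∃ C, ∀ r < P, lam r ≤ C ∧ mu r ≤ C :=
    ⟨∑ r ∈ Finset.range P, (lam r + mu r), fun r hr => by
      have := Finset.single_le_sum (f := fun r => lam r + mu r) (fun _ _ => Nat.zero_le _)
        (Finset.mem_range.2 hr)
      omega⟩
  refine ⟨2 * C + 14, fun v => ?_⟩
  obtain ⟨h1, h2⟩ := hC _ (Nat.mod_lt v h)
  have := Nat.mul_le_mul h1 (Nat.div_le_self v P)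
  unfold G
  nlinarith

namespace Dat

variable (D : Dat)

/-- the map -/
def g (v : ℕ) : ℕ := G D.P D.lam D.mu v

/-- the orbit of `v` meets a final residue -/
def Halts (v : ℕ) : Prop := ∃ T, D.hl ((G D.P D.lam D.mu)^[T] v % D.P) = true

/-- the edge which leaves `v`, probed for the state `c` -/
def edge (v : ℕ) (c : Bool) : Round :=
  if D.hl (v % D.P) then ⟨13 + 2 * v, c, 8, c⟩ else ⟨13 + 2 * D.g v, c, 13 + 2 * v, c⟩

/-- the switch at `v` -/
def sw (x : Bool) (v : ℕ) : Round := if x then ⟨13 + 2 * v, true, 8, false⟩ else ⟨12 + 2 * v, true, 10, false⟩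

/-- round number `r` of node `v` -/
def rd (x : Bool) (v r : ℕ) : Round :=
  if r + 3 = D.K then D.edge v true else if r + 2 = D.K then D.edge v false
  else if r + 1 = D.K then sw x v else ⟨2, true, 1, true⟩

/-- the schedule with switches `x` -/
def sch (x : ℕ → Bool) (s : ℕ) : Round :=
  if s < 2 then ⟨0, false, 0, false⟩ else D.rd (x ((s - 2) / D.K)) ((s - 2) / D.K) ((s - 2) % D.K)

theorem K_ge : 14 ≤ D.K := by
  have := D.bd 0
  omega

theorem sch_eq (x : ℕ → Bool) (v : ℕ) {r : ℕ} (h : r < D.K) :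
    D.sch x (D.K * v + r + 2) = D.rd (x v) v r := by
  have h1 : (D.K * v + r) / D.K = v := by
    rw [Nat.mul_add_div (by omega), Nat.div_eq_of_lt h, add_zero]
  rw [sch, if_neg (by omega), Nat.add_sub_cancel, h1, Nat.mul_add_mod, Nat.mod_eq_of_lt h]

theorem stage {s : ℕ} (h : 2 ≤ s) : ∃ v r, r < D.K ∧ s = D.K * v + r + 2 :=
  ⟨(s - 2) / D.K, (s - 2) % D.K, Nat.mod_lt _ (by have := D.K_ge; omega), by
    rw [Nat.div_add_mod]; omega⟩

theorem valid (x : ℕ → Bool) : Valid (D.sch x) := fun s => by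
  refine ⟨fun h => by simp [sch, h], fun h => ?_⟩
  obtain ⟨v, r, hr, rfl⟩ := D.stage h
  have h1 := D.inc v
  have h2 := D.bd v
  rw [D.sch_eq x v hr]
  unfold rd edge sw g
  split_ifs <;> simp only <;> omega

theorem halts_iff {v : ℕ} (h : D.hl (v % D.P) = false) : D.Halts (D.g v) ↔ D.Halts v := by
  refine ⟨fun ⟨T, hT⟩ => ⟨T + 1, hT⟩, fun ⟨T, hT⟩ => ?_⟩
  rcases T with _ | T
  · exact absurd (h.symm.trans hT) (by simp)
  · exact ⟨T, hT⟩

open scoped Classical in
theorem real_of (x : ℕ → Bool) (h : ∀ v, x v = true → ¬ D.Halts v) : fn (D.sch x) ∈ Realisable := by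
  let M : Bool → ℕ → Bool := fun σ j =>
    if j = 8 then σ else if j = 10 then false else if j % 2 = 1 ∧ 13 ≤ j then
      (if D.Halts ((j - 13) / 2) then σ else !σ) else true
  have m1 : ∀ σ v, M σ (13 + 2 * v) = if D.Halts v then σ else !σ := fun σ v => by
    simp only [M]
    rw [if_neg (by omega), if_neg (by omega), if_pos (by omega),
      show (13 + 2 * v - 13) / 2 = v by omega]
  have m2 : ∀ σ v, M σ (12 + 2 * v) = true := fun σ v => by
    simp only [M]
    rw [if_neg (by omega), if_neg (by omega), if_neg (by omega)]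
  have e : ∀ v c, Sat M (D.edge v c) := fun v c => by
    unfold edge
    split_ifs with c1
    · exact ⟨c, by simp only [m1]; rw [if_pos ⟨0, c1⟩], rfl⟩
    · have := D.halts_iff (Bool.eq_false_iff.2 c1)
      by_cases c2 : D.Halts v
      · exact ⟨c, by simp [m1, this, c2], by simp [m1, c2]⟩
      · exact ⟨!c, by simp [m1, this, c2], by simp [m1, c2]⟩
  refine complete (M := M) (D.valid x) fun s hs => ?_
  obtain ⟨v, r, hr, rfl⟩ := D.stage hs
  rw [D.sch_eq x v hr]
  unfold rd sw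
  split_ifs with c1 c2 c3 c4
  exacts [e _ _, e _ _, ⟨false, by simp [m1, h v c4], rfl⟩, ⟨false, m2 _ _, rfl⟩,
    ⟨false, rfl, rfl⟩]

theorem of_real (x : ℕ → Bool) (h : fn (D.sch x) ∈ Realisable) (v : ℕ) (hv : x v = true) :
    ¬ D.Halts v := by
  obtain ⟨M, hM⟩ := sound (D.valid x) h
  have hK := D.K_ge
  have e : ∀ v c, Sat M (D.edge v c) := fun v c => by
    have h8 : 8 ≤ (D.edge v c).j2 := by unfold edge; split_ifs <;> simp only <;> omega
    cases c
    · have := hM (D.K * v + (D.K - 2) + 2)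
      rw [D.sch_eq x v (by omega), rd, if_neg (by omega), if_pos (by omega)] at this
      exact this h8
    · have := hM (D.K * v + (D.K - 3) + 2)
      rw [D.sch_eq x v (by omega), rd, if_pos (by omega)] at this
      exact this h8
  have two : ∀ i j, Sat M ⟨i, true, j, true⟩ → Sat M ⟨i, false, j, false⟩ →
      ∀ σ, M σ i = M σ j := by
    rintro i j ⟨σ, a1, a2⟩ ⟨τ, b1, b2⟩ ρ
    cases σ <;> cases τ <;> cases ρ <;> simp_all
  have key : ∀ T v, D.hl ((G D.P D.lam D.mu)^[T] v % D.P) = true →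
      ∀ σ, M σ (13 + 2 * v) = M σ 8 := by
    intro T
    induction T with
    | zero =>
      intro v h0
      have h0 : D.hl (v % D.P) = true := h0
      exact two _ _ (by simpa [edge, h0] using e v true) (by simpa [edge, h0] using e v false)
    | succ T ih =>
      intro v h0 σ
      by_cases c : D.hl (v % D.P) = true
      · exact two _ _ (by simpa [edge, c] using e v true) (by simpa [edge, c] using e v false) σ
      · exact (two _ _ (by simpa [edge, c, g] using e v true)
          (by simpa [edge, c, g] using e v false) σ).symm.trans (ih _ h0 σ)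
  rintro ⟨T, hT⟩
  have := hM (D.K * v + (D.K - 1) + 2)
  rw [D.sch_eq x v (by omega), rd, if_neg (by omega), if_neg (by omega), if_pos (by omega), hv,
    sw, if_pos rfl] at this
  obtain ⟨σ, a1, a2⟩ := this le_rfl
  have := key T v hT σ
  simp_all

end Dat

end Pool.Agent.Lib.MP_9cc368_co.U
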