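import Mathlib

/-! Morphic words and finite modifications of a function. -/

namespace Pool.Agent.Lib.MP_9cc368_co

/-- The word `σ^m(a)`. -/
def iter {α : Type} (σ : α → List α) (a : α) (m : ℕ) : List α :=
  (fun l : List α => l.flatMap σ)^[m] [a]

/-- `e` is the image under a coding `τ` of the fixed point `σ^ω(a)` of a morphism `σ` on a finite
alphabet which is prolongable on `a`. -/
def Morphic {β : Type} (e : ℕ → β) : Prop :=
  ∃ (k : ℕ) (σ : Fin k → List (Fin k)) (τ : Fin k → β) (a : Fin k),
    (∃ x, σ a = a :: x) ∧ (∀ n, ∃ m, n < (iter σ a m).length) ∧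
      ∀ m n (h : n < (iter σ a m).length), e n = τ (iter σ a m)[n]

/-- The function `g` with its first values replaced by the list `F`. -/
def patch (F : List ℕ) (g : ℕ → ℕ) (n : ℕ) : ℕ := F.getD n (g n)

end Pool.Agent.Lib.MP_9cc368_co
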