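import Pool.Agent.Lib.MP_9cc368_co.NpBase

/-! The function attached to a schedule of rounds: a chain of humps, eight per stage. -/

namespace Pool.Agent.Lib.MP_9cc368_co.U

/-- values along the active part of a block -/
def w (t : ℕ) : ℕ := [0, 1, 2, 1, 2, 2, 3, 2, 3, 4, 3, 2].getD t 0

/-- the profile of a leg -/
def phi (x : ℕ) : ℕ := 13 * (x / 22) + if x % 22 ≤ 11 then x % 22 else 11 + w (x % 22 - 11)

theorem phi_add (m t : ℕ) : phi (22 * m + t) = 13 * m + phi t := by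
  unfold phi
  rw [show (22 * m + t) / 22 = m + t / 22 by omega, show (22 * m + t) % 22 = t % 22 by omega]
  omega

theorem phi_small {t : ℕ} (h : t ≤ 11) : phi t = t := by
  unfold phi
  rw [show t / 22 = 0 by omega, show t % 22 = t by omega, if_pos h]
  omega

theorem phi_w (m : ℕ) {t : ℕ} (h : t ≤ 11) : phi (22 * m + 11 + t) = 13 * m + 11 + w t := by
  rw [add_assoc, phi_add]
  have : ∀ t ≤ 11, phi (11 + t) = 11 + w t := by decide
  rw [this t h]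
  omega

theorem phi_mul (m : ℕ) : phi (22 * m) = 13 * m := phi_add m 0

theorem phi_succ (x : ℕ) : phi (x + 1) ≤ phi x + 1 ∧ phi x ≤ phi (x + 1) + 1 := by
  have h : ∀ t < 22, phi (t + 1) ≤ phi t + 1 ∧ phi t ≤ phi (t + 1) + 1 := by decide
  have := h (x % 22) (by omega)
  rw [← Nat.div_add_mod x 22, add_assoc, phi_add, phi_add]
  omega

theorem phi_mono {x y : ℕ} (h : x ≤ y) : phi x ≤ phi y + 2 := by
  have h1 : ∀ t < 22, phi t ≤ 15 := by decide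
  have h2 : ∀ t < 22, ∀ s ≤ t, phi s ≤ phi t + 2 := by decide
  rw [← Nat.div_add_mod x 22, ← Nat.div_add_mod y 22, phi_add, phi_add]
  have := h1 (x % 22) (by omega)
  by_cases e : x / 22 = y / 22
  · have := h2 (y % 22) (by omega) (x % 22) (by omega)
    omega
  · have : x / 22 < y / 22 := by omega
    omega

/-- A round probes the blocks `j1`, `j2` for the states `c1`, `c2`. -/
structure Round where
  j1 : ℕ
  c1 : Bool
  j2 : ℕ
  c2 : Bool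

/-- admissible schedules -/
def Valid (R : ℕ → Round) : Prop := ∀ s, (s < 2 → (R s).j1 = 0 ∧ (R s).j2 = 0) ∧
  (2 ≤ s → 1 ≤ (R s).j2 ∧ (R s).j2 < (R s).j1 ∧ (R s).j1 ≤ s)

/-- some side carries both states -/
def Sat (M : Bool → ℕ → Bool) (ρ : Round) : Prop := ∃ σ, M σ ρ.j1 = ρ.c1 ∧ M σ ρ.j2 = ρ.c2

def pa (s : ℕ) : ℕ := if s < 2 then 0 else 11

def pb (s : ℕ) (c : Bool) : ℕ := if s < 2 then 0 else if c then 7 else 5

def H (ρ : Round) (s : ℕ) : ℕ → ℕ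
  | 0 => s | 1 => 2 * s | 2 => s + 1 | 3 => ρ.j1 | 4 => ρ.j2 | 5 => ρ.j1 | 6 => s + 1
  | _ => 2 * s + 1

def Al (ρ : Round) (s : ℕ) : ℕ → ℕ
  | 2 => 0 | 3 => pa s | 4 => pa s | 5 => pb s ρ.c1 | 6 => 0 | _ => 10

def Be (ρ : Round) (s : ℕ) : ℕ → ℕ
  | 2 => 0 | 3 => pb s ρ.c1 | 4 => pb s ρ.c2 | 5 => pa s | 6 => 0 | _ => 10

def P0 (r : ℕ) : ℕ := [0, 2, 2, 4, 6, 6, 4, 4].getD r 0

def Q0 (r : ℕ) : ℕ := [1, 3, 3, 5, 7, 5, 3, 5].getD r 0

/-- level at the left end of hump `k` -/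
def p (k : ℕ) : ℕ := 4 * (k / 8) + P0 (k % 8)

/-- level at the right end of hump `k` -/
def q (k : ℕ) : ℕ := 4 * (k / 8) + Q0 (k % 8)

variable (R : ℕ → Round)

/-- index of the top block -/
def ht (k : ℕ) : ℕ := H (R (k / 8)) (k / 8) (k % 8)

def al (k : ℕ) : ℕ := Al (R (k / 8)) (k / 8) (k % 8)

def be (k : ℕ) : ℕ := Be (R (k / 8)) (k / 8) (k % 8)

/-- length of the rising leg -/
def ri (k : ℕ) : ℕ := 22 * ht R k + 11 + al R k

/-- length of the falling leg -/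
def fa (k : ℕ) : ℕ := 22 * ht R k + 11 + be R k

/-- left end of hump `k` -/
def a : ℕ → ℕ
  | 0 => 0
  | k + 1 => a k + ri R k + fa R k + 2

/-- right end of hump `k` -/
def b (k : ℕ) : ℕ := a R k + ri R k + fa R k + 1

theorem a_succ (k : ℕ) : a R (k + 1) = b R k + 1 := rfl

theorem b_eq (k : ℕ) : b R k = a R k + 44 * ht R k + 23 + al R k + be R k := by
  unfold b ri fa; omega

theorem b_lt {g k : ℕ} (h : g < k) : b R g < a R k := by
  induction k, h using Nat.le_induction with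
  | base => rw [a_succ]; omega
  | succ k _ ih => rw [a_succ, b_eq R k]; omega

theorem le_a (k : ℕ) : k ≤ a R k := by
  induction k with
  | zero => omega
  | succ k ih => rw [a_succ, b_eq]; omega

/-- the hump which contains the cut `n` -/
def idx (n : ℕ) : ℕ := Nat.findGreatest (fun k => a R k ≤ n) n

theorem idx_eq {k n : ℕ} (h1 : a R k ≤ n) (h2 : n ≤ b R k) : idx R n = k := by
  unfold idx
  rw [Nat.findGreatest_eq_iff]
  refine ⟨(le_a R k).trans h1, fun _ => h1, fun m hm _ h => ?_⟩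
  have := b_lt R hm
  omega

theorem ex_hump (n : ℕ) : ∃ k, a R k ≤ n ∧ n ≤ b R k := by
  induction n with
  | zero => exact ⟨0, le_rfl, Nat.zero_le _⟩
  | succ n ih =>
    obtain ⟨k, h1, h2⟩ := ih
    by_cases h : n = b R k
    · refine ⟨k + 1, by rw [a_succ]; omega, ?_⟩
      rw [b_eq, a_succ]; omega
    · exact ⟨k, by omega, by omega⟩

/-- the function of the schedule -/
def fn (n : ℕ) : ℕ :=
  if n ≤ a R (idx R n) + ri R (idx R n) then p (idx R n) + phi (n - a R (idx R n))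
  else q (idx R n) + phi (b R (idx R n) - n)

variable {R}

theorem fn_ri {k n x : ℕ} (e : n = a R k + x) (h : x ≤ ri R k) : fn R n = p k + phi x := by
  have : idx R n = k := idx_eq R (by omega) (by unfold b; omega)
  rw [fn, this, if_pos (by omega), show n - a R k = x by omega]

theorem fn_fa {k n x : ℕ} (e : n + x = b R k) (h : x ≤ fa R k) : fn R n = q k + phi x := by
  have e' : b R k = a R k + ri R k + fa R k + 1 := rfl
  have : idx R n = k := idx_eq R (by omega) (by omega)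
  rw [fn, this, if_neg (by omega), show b R k - n = x by omega]

theorem loc (R : ℕ → Round) (n : ℕ) :
    ∃ k x, (n = a R k + x ∧ x ≤ ri R k) ∨ (n + x = b R k ∧ x ≤ fa R k) := by
  obtain ⟨k, h1, h2⟩ := ex_hump R n
  have e' : b R k = a R k + ri R k + fa R k + 1 := rfl
  by_cases h : n ≤ a R k + ri R k
  · exact ⟨k, n - a R k, .inl ⟨by omega, by omega⟩⟩
  · exact ⟨k, b R k - n, .inr ⟨by omega, by omega⟩⟩

/-- the shape of a probing hump (`x`, `y` are the two top offsets) -/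
def Pr (k h x y : ℕ) : Prop :=
  (k < 16 ∧ h = 0 ∧ x = 0 ∧ y = 0) ∨ (16 ≤ k ∧ 1 ≤ h ∧ h ≤ k / 8 ∧ x = 11 ∧ (y = 7 ∨ y = 5))

theorem lev (k : ℕ) :
    (k % 8 = 0 ∧ p k = 4 * (k / 8) ∧ q k = 4 * (k / 8) + 1) ∨
    (k % 8 = 1 ∧ p k = 4 * (k / 8) + 2 ∧ q k = 4 * (k / 8) + 3) ∨
    (k % 8 = 2 ∧ p k = 4 * (k / 8) + 2 ∧ q k = 4 * (k / 8) + 3) ∨
    (k % 8 = 3 ∧ p k = 4 * (k / 8) + 4 ∧ q k = 4 * (k / 8) + 5) ∨
    (k % 8 = 4 ∧ p k = 4 * (k / 8) + 6 ∧ q k = 4 * (k / 8) + 7) ∨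
    (k % 8 = 5 ∧ p k = 4 * (k / 8) + 6 ∧ q k = 4 * (k / 8) + 5) ∨
    (k % 8 = 6 ∧ p k = 4 * (k / 8) + 4 ∧ q k = 4 * (k / 8) + 3) ∨
    (k % 8 = 7 ∧ p k = 4 * (k / 8) + 4 ∧ q k = 4 * (k / 8) + 5) := by
  unfold p q
  have : k % 8 < 8 := by omega
  generalize k % 8 = r at *
  interval_cases r <;> simp [P0, Q0]

theorem kind (hR : Valid R) (k : ℕ) :
    (k % 8 = 0 ∧ ht R k = k / 8 ∧ al R k = 10 ∧ be R k = 10) ∨
    (k % 8 = 1 ∧ ht R k = 2 * (k / 8) ∧ al R k = 10 ∧ be R k = 10) ∨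
    (k % 8 = 2 ∧ ht R k = k / 8 + 1 ∧ al R k = 0 ∧ be R k = 0) ∨
    (k % 8 = 3 ∧ Pr k (ht R k) (al R k) (be R k)) ∨
    (k % 8 = 4 ∧ Pr k (ht R k) (al R k) (be R k)) ∨
    (k % 8 = 5 ∧ Pr k (ht R k) (be R k) (al R k)) ∨
    (k % 8 = 6 ∧ ht R k = k / 8 + 1 ∧ al R k = 0 ∧ be R k = 0) ∨
    (k % 8 = 7 ∧ ht R k = 2 * (k / 8) + 1 ∧ al R k = 10 ∧ be R k = 10) := by
  have key : ∀ (j : ℕ) (c : Bool), (k / 8 < 2 → j = 0) → (2 ≤ k / 8 → 1 ≤ j ∧ j ≤ k / 8) →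
      Pr k j (pa (k / 8)) (pb (k / 8) c) := fun j c h1 h2 => by
    unfold Pr pa pb
    cases c <;> split_ifs <;> simp_all <;> omega
  have h := hR (k / 8)
  have k1 := key (R (k / 8)).j1 (R (k / 8)).c1 (by omega) (by omega)
  have k2 := key (R (k / 8)).j2 (R (k / 8)).c2 (by omega) (by omega)
  unfold ht al be
  have : k % 8 < 8 := by omega
  generalize k % 8 = r at *
  interval_cases r <;> simp [H, Al, Be, k1, k2]

/-- all data of hump `k` (use `rcases`, then `omega`) -/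
theorem info (hR : Valid R) (k : ℕ) : ∃ s, 8 * s ≤ k ∧
    ((k = 8 * s ∧ p k = 4 * s ∧ q k = 4 * s + 1 ∧ ht R k = s ∧ al R k = 10 ∧ be R k = 10) ∨
    (k = 8 * s + 1 ∧ p k = 4 * s + 2 ∧ q k = 4 * s + 3 ∧ ht R k = 2 * s ∧ al R k = 10 ∧
      be R k = 10) ∨
    (k = 8 * s + 2 ∧ p k = 4 * s + 2 ∧ q k = 4 * s + 3 ∧ ht R k = s + 1 ∧ al R k = 0 ∧
      be R k = 0) ∨
    (k = 8 * s + 3 ∧ p k = 4 * s + 4 ∧ q k = 4 * s + 5 ∧ Pr k (ht R k) (al R k) (be R k)) ∨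
    (k = 8 * s + 4 ∧ p k = 4 * s + 6 ∧ q k = 4 * s + 7 ∧ Pr k (ht R k) (al R k) (be R k)) ∨
    (k = 8 * s + 5 ∧ p k = 4 * s + 6 ∧ q k = 4 * s + 5 ∧ Pr k (ht R k) (be R k) (al R k)) ∨
    (k = 8 * s + 6 ∧ p k = 4 * s + 4 ∧ q k = 4 * s + 3 ∧ ht R k = s + 1 ∧ al R k = 0 ∧
      be R k = 0) ∨
    (k = 8 * s + 7 ∧ p k = 4 * s + 4 ∧ q k = 4 * s + 5 ∧ ht R k = 2 * s + 1 ∧ al R k = 10 ∧
      be R k = 10)) := by
  refine ⟨k / 8, by omega, ?_⟩
  have h := kind hR k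
  rcases lev k with l | l | l | l | l | l | l | l <;> obtain ⟨l1, l2, l3⟩ := l <;>
    simp only [l1, l2, l3] at h ⊢ <;> simp at h <;> simp [h] <;> omega

theorem at_st (R : ℕ → Round) (s : ℕ) {r : ℕ} (h : r < 8) : ht R (8 * s + r) = H (R s) s r ∧
    al R (8 * s + r) = Al (R s) s r ∧ be R (8 * s + r) = Be (R s) s r := by
  unfold ht al be
  rw [show (8 * s + r) / 8 = s by omega, show (8 * s + r) % 8 = r by omega]
  exact ⟨rfl, rfl, rfl⟩

/-- the three probing humps of a stage -/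
theorem probes (R : ℕ → Round) (s : ℕ) :
    (ht R (8 * s + 3) = (R s).j1 ∧ al R (8 * s + 3) = pa s ∧ be R (8 * s + 3) = pb s (R s).c1) ∧
    (ht R (8 * s + 4) = (R s).j2 ∧ al R (8 * s + 4) = pa s ∧ be R (8 * s + 4) = pb s (R s).c2) ∧
    (ht R (8 * s + 5) = (R s).j1 ∧ al R (8 * s + 5) = pb s (R s).c1 ∧ be R (8 * s + 5) = pa s) :=
  ⟨at_st R s (by omega), at_st R s (by omega), at_st R s (by omega)⟩

end Pool.Agent.Lib.MP_9cc368_co.U
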