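import Pool.Agent.Lib.MP_9cc368_co.UBlk

/-! The word `u0 ∏_t ∏_i uᵢ vᵢ^t` is morphic. -/

namespace Pool.Agent.Lib.MP_9cc368_co.U

theorem iter_succ_mo {α : Type} (σ : α → List α) (a : α) (m : ℕ) :
    iter σ a (m + 1) = (iter σ a m).flatMap σ := Function.iterate_succ_apply' _ _ _

theorem morphic_mo {α β : Type} {e : ℕ → β} (σ : α → List α) (τ : α → β) (a : α) (l : List α)
    (h0 : ∀ m, ∀ x ∈ iter σ a m, x ∈ l) (h1 : ∃ x, σ a = a :: x)
    (h2 : ∀ n, ∃ m, n < (iter σ a m).length)
    (h3 : ∀ m, ∃ N, (iter σ a m).map τ = (List.range N).map e) : Morphic e := by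
  have ha : a ∈ l := h0 0 a (by simp [iter])
  have : Nonempty (Fin l.length) := ⟨⟨0, List.length_pos_of_mem ha⟩⟩
  have hf : ∀ x ∈ l, ∃ i, l.get i = x := fun x hx => List.mem_iff_get.1 hx
  choose! g hg using hf
  have key : ∀ m, iter (fun i => (σ (l.get i)).map g) (g a) m = (iter σ a m).map g := fun m => by
    induction m with
    | zero => rfl
    | succ m ih =>
      rw [iter_succ_mo, iter_succ_mo, ih, List.flatMap_map, List.map_flatMap]
      exact List.flatMap_congr fun x hx => by rw [hg x (h0 m x hx)]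
  obtain ⟨x, hx⟩ := h1
  refine ⟨l.length, fun i => (σ (l.get i)).map g, fun i => τ (l.get i), g a,
    ⟨x.map g, by simp only [hg a ha, hx, List.map_cons]⟩, fun n => ?_, fun m n h => ?_⟩
  · simpa only [key, List.length_map] using h2 n
  · obtain ⟨N, hN⟩ := h3 m
    have h' : n < (iter σ a m).length := by simpa only [key, List.length_map] using h
    have e1 := List.getElem_of_eq hN (i := n) (by simpa using h')
    simp only [List.getElem_map, List.getElem_range] at e1
    simp only [key, List.getElem_map]
    rw [hg _ (h0 m _ (List.getElem_mem h')), e1]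

/-- letters: the start, erased letters, and letters which emit a word at each step -/
abbrev LtMo := Option (ℕ × Option (List ℕ))

def kMo (n : ℕ) : LtMo := some (n, some [])

def sgMo (W : List LtMo) : LtMo → List LtMo
  | none => none :: W
  | some (_, none) => []
  | some (c, some v) => some (c, some v) :: v.map kMo

def taMo (c : ℕ) : LtMo → ℕ
  | none => c
  | some (n, _) => n

def xMo (L : List (List ℕ × List ℕ)) (t : ℕ) : List LtMo :=
  L.flatMap fun x => x.1.dropLast.map kMo ++
    some (x.1.getLastD 0, some x.2) :: (List.replicate t x.2).flatten.map kMo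

theorem sg_k_mo (W : List LtMo) (v : List ℕ) : (v.map kMo).flatMap (sgMo W) = v.map kMo := by
  induction v with
  | nil => rfl
  | cons n v ih => rw [List.map_cons, List.flatMap_cons, ih]; rfl

theorem sg_e_mo (W : List LtMo) (v : List ℕ) :
    (v.map fun n => (some (n, none) : LtMo)).flatMap (sgMo W) = [] := by
  induction v with
  | nil => rfl
  | cons n v ih => rw [List.map_cons, List.flatMap_cons, ih]; rfl

theorem sg_x_mo (W : List LtMo) (L : List (List ℕ × List ℕ)) (t : ℕ) :
    (xMo L t).flatMap (sgMo W) = xMo L (t + 1) := by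
  unfold xMo
  rw [List.flatMap_assoc]
  refine List.flatMap_congr fun x _ => ?_
  rw [List.flatMap_append, List.flatMap_cons, sg_k_mo, sg_k_mo, List.replicate_succ,
    List.flatten_cons, List.map_append]
  rfl

theorem ta_k_mo (c : ℕ) (v : List ℕ) : (v.map kMo).map (taMo c) = v := by
  rw [List.map_map]
  exact List.map_id' v

theorem ta_x_mo (c : ℕ) {L : List (List ℕ × List ℕ)} (h2 : ∀ x ∈ L, x.1 ≠ []) (t : ℕ) :
    (xMo L t).map (taMo c) = block L t := by
  unfold xMo block
  rw [List.map_flatMap]
  refine List.flatMap_congr fun x hx => ?_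
  rw [List.map_append, List.map_cons, ta_k_mo, ta_k_mo]
  obtain ⟨v, n, e⟩ := (List.eq_nil_or_concat x.1).resolve_left (h2 x hx)
  simp [e, taMo]

theorem mem_x_mo {L : List (List ℕ × List ℕ)} {t : ℕ} {y : LtMo} (h : y ∈ xMo L t) :
    y ∈ xMo L 1 := by
  unfold xMo at h ⊢
  obtain ⟨x, hx, h⟩ := List.mem_flatMap.1 h
  refine List.mem_flatMap.2 ⟨x, hx, ?_⟩
  simp only [List.mem_append, List.mem_cons, List.mem_map, List.mem_flatten,
    List.mem_replicate] at h ⊢
  rcases h with h | h | ⟨n, ⟨v, ⟨-, h1⟩, h2⟩, h⟩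
  exacts [.inl h, .inr (.inl h), .inr (.inr ⟨n, ⟨v, ⟨one_ne_zero, h1⟩, h2⟩, h⟩)]

theorem morphic_of_blocks {e : ℕ → ℕ} {u0 : List ℕ} {L : List (List ℕ × List ℕ)} {N : ℕ → ℕ}
    (h0 : u0 ≠ []) (h1 : L ≠ []) (h2 : ∀ x ∈ L, x.1 ≠ [])
    (h : ∀ T, (List.range (N T)).map e = u0 ++ (List.range T).flatMap (block L)) : Morphic e := by
  obtain ⟨c, v, rfl⟩ := List.exists_cons_of_ne_nil h0
  obtain ⟨E, hE⟩ : ∃ E : List LtMo, E = v.map fun n => some (n, none) := ⟨_, rfl⟩
  have key : ∀ m, iter (sgMo (E ++ xMo L 0)) none (m + 1) =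
      none :: (E ++ (List.range (m + 1)).flatMap (xMo L)) := fun m => by
    induction m with
    | zero => simp [iter, sgMo]
    | succ m ih =>
      rw [iter_succ_mo, ih, List.flatMap_cons, List.flatMap_append, List.flatMap_assoc,
        List.range_succ_eq_map (n := m + 1), List.flatMap_cons, List.flatMap_map]
      nth_rw 3 [hE]
      simp only [sg_e_mo, sg_x_mo, sgMo, List.nil_append, List.cons_append, List.append_assoc]
  have len : ∀ m, m ≤ ((List.range m).flatMap (xMo L)).length := fun m => by
    induction m with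
    | zero => simp
    | succ m ih =>
      obtain ⟨x, L', rfl⟩ := List.exists_cons_of_ne_nil h1
      rw [List.range_succ, List.flatMap_append, List.length_append, List.flatMap_singleton]
      have : 1 ≤ (xMo (x :: L') m).length := by
        simp only [xMo, List.flatMap_cons, List.length_append, List.length_cons]
        omega
      omega
  refine morphic_mo (sgMo (E ++ xMo L 0)) (taMo c) none (none :: (E ++ xMo L 1)) ?_ ⟨_, rfl⟩
    (fun n => ⟨n + 1, ?_⟩) ?_
  · rintro (_ | m) x hx
    · exact List.mem_cons.2 (.inl (by simpa [iter] using hx))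
    · rw [key] at hx
      simp only [List.mem_cons, List.mem_append, List.mem_flatMap] at hx ⊢
      rcases hx with hx | hx | ⟨t, -, hx⟩
      exacts [.inl hx, .inr (.inl hx), .inr (.inr (mem_x_mo hx))]
  · have := len (n + 1)
    rw [key, List.length_cons, List.length_append]
    omega
  · rintro (_ | m)
    · refine ⟨1, ?_⟩
      have := h 0
      obtain ⟨n, hn⟩ : ∃ n, N 0 = n + 1 := Nat.exists_eq_succ_of_ne_zero fun e' => by
        simp [e'] at this
      rw [hn, List.range_succ_eq_map] at this
      simpa [iter, taMo] using (List.cons.inj this).1.symm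
    · refine ⟨N (m + 1), ?_⟩
      rw [key, h, List.map_cons, List.map_append, List.map_flatMap, hE, List.map_map]
      simp only [ta_x_mo c h2]
      exact congrArg (fun z => c :: (z ++ _)) (List.map_id' v)

end Pool.Agent.Lib.MP_9cc368_co.U
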