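import Pool.Agent.Lib.MP_9cc368_co.UBlk
import Pool.Agent.Lib.MP_9cc368_co.UGeo

/-! The increments of the function of a schedule, stage by stage. -/

namespace Pool.Agent.Lib.MP_9cc368_co.U

/-- the increment plus one -/
def df (R : ℕ → Round) (n : ℕ) : ℕ := fn R (n + 1) + 1 - fn R n

theorem df_spec {R : ℕ → Round} (hR : Valid R) (n : ℕ) : fn R (n + 1) + 1 = fn R n + df R n := by
  suffices h : fn R n ≤ fn R (n + 1) + 1 by
    unfold df
    omega
  obtain ⟨k, h1, h2⟩ := ex_hump R n
  have hb : b R k = a R k + ri R k + fa R k + 1 := rfl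
  rcases lt_trichotomy n (a R k + ri R k) with h | h | h
  · obtain ⟨x, rfl⟩ := Nat.exists_eq_add_of_le h1
    rw [fn_ri (R := R) (k := k) (n := a R k + x + 1) (x := x + 1) rfl (by omega),
      fn_ri (R := R) (k := k) (n := a R k + x) (x := x) rfl (by omega)]
    have := phi_succ x
    omega
  · rw [fn_ri h le_rfl, fn_fa (k := k) (x := fa R k) (by omega) le_rfl]
    have w0 : w 0 = 0 := rfl
    have w5 : w 5 = 2 := rfl
    have w7 : w 7 = 2 := rfl
    have w10 : w 10 = 3 := rfl
    have w11 : w 11 = 2 := rfl
    have key : (al R k = 10 ∧ be R k = 10 ∨ al R k = 0 ∧ be R k = 0 ∨ al R k = 11 ∧ be R k = 7 ∨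
        al R k = 11 ∧ be R k = 5 ∨ al R k = 7 ∧ be R k = 11 ∨ al R k = 5 ∧ be R k = 11) ∧
        p k ≤ q k + 1 := by
      obtain ⟨s, -, h⟩ := info hR k
      unfold Pr at h
      rcases h with h | h | h | h | h | h | h | h <;> omega
    rw [ri, fa, phi_w (t := al R k) _ (by omega), phi_w (t := be R k) _ (by omega)]
    rcases key.1 with g | g | g | g | g | g <;> rw [g.1, g.2] <;> omega
  · rcases h2.eq_or_lt with rfl | h3
    · rw [fn_fa (R := R) (k := k) (n := b R k) (x := 0) rfl (by omega),
        fn_ri (R := R) (k := k + 1) (n := b R k + 1) (x := 0) rfl (by omega)]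
      have := lev k
      have := lev (k + 1)
      omega
    · obtain ⟨x, hx⟩ := Nat.exists_eq_add_of_lt h3
      rw [fn_fa (R := R) (k := k) (n := n) (x := x + 1) (by omega) (by omega),
        fn_fa (R := R) (k := k) (n := n + 1) (x := x) (by omega) (by omega)]
      have := phi_succ x
      omega

/-- steps of a rising leg -/
def upPt (c n : ℕ) : List ℕ := (List.range n).map fun x => phi (c + x + 1) + 1 - phi (c + x)

/-- steps of a falling leg -/
def dnPt (n : ℕ) : List ℕ := (List.range n).map fun y => phi (n - 1 - y) + 1 - phi (n - y)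

theorem up_pt (h c : ℕ) :
    upPt 0 (22 * h + c) = upPt 0 c ++ (List.replicate h (upPt c 22)).flatten := by
  induction h with
  | zero => simp
  | succ h ih =>
    rw [List.replicate_succ', List.flatten_append, ← List.append_assoc, ← ih,
      show 22 * (h + 1) + c = 22 * h + c + 22 by omega, upPt, List.range_add, List.map_append,
      List.map_map]
    congr 1
    simp only [List.flatten_cons, List.flatten_nil, List.append_nil]
    refine List.map_congr_left fun x _ => ?_
    simp only [Function.comp]
    rw [show 0 + (22 * h + c + x) + 1 = 22 * h + (c + x + 1) by omega,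
      show 0 + (22 * h + c + x) = 22 * h + (c + x) by omega, phi_add, phi_add]
    omega

theorem dn_add_pt (n : ℕ) : dnPt (n + 22) = dnPt n ++ dnPt 22 := by
  rw [dnPt, List.range_add, List.map_append, List.map_map]
  congr 1
  · refine List.map_congr_left fun y hy => ?_
    have := List.mem_range.1 hy
    rw [show n + 22 - 1 - y = 22 * 1 + (n - 1 - y) by omega,
      show n + 22 - y = 22 * 1 + (n - y) by omega, phi_add, phi_add]
    omega
  · refine List.map_congr_left fun y _ => ?_
    simp only [Function.comp]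
    rw [show n + 22 - 1 - (n + y) = 22 - 1 - y by omega, show n + 22 - (n + y) = 22 - y by omega]

theorem dn_pt (h c : ℕ) : dnPt (22 * h + c) = dnPt c ++ (List.replicate h (dnPt 22)).flatten := by
  induction h with
  | zero => simp
  | succ h ih =>
    rw [List.replicate_succ', List.flatten_append, ← List.append_assoc, ← ih,
      show 22 * (h + 1) + c = 22 * h + c + 22 by omega, dn_add_pt]
    simp

/-- the steps of a hump of kind `r` -/
def hwPt (h x y r : ℕ) : List ℕ :=
  upPt 0 (22 * h + (11 + x)) ++ ((q r + w y + 1 - (p r + w x)) ::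
    (dnPt (22 * h + (11 + y)) ++ [p (r + 1) + 1 - q r]))

theorem ab_pt (ρ : Round) (s r : ℕ) : Al ρ s r ≤ 11 ∧ Be ρ s r ≤ 11 := by
  have h1 : pa s ≤ 11 := by
    unfold pa
    split_ifs <;> omega
  have h2 : ∀ c, pb s c ≤ 11 := fun c => by
    unfold pb
    split_ifs <;> omega
  unfold Al Be
  constructor <;> split <;> first | omega | exact h2 _

theorem pq_pt (s r : ℕ) : p (8 * s + r) = 4 * s + p r ∧ q (8 * s + r) = 4 * s + q r := by
  unfold p q
  rw [show (8 * s + r) / 8 = s + r / 8 by omega, show (8 * s + r) % 8 = r % 8 by omega]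
  omega

theorem hump_pt (R : ℕ → Round) (s r : ℕ) :
    (List.range (a R (8 * s + r + 1))).map (df R) = (List.range (a R (8 * s + r))).map (df R) ++
      hwPt (ht R (8 * s + r)) (al R (8 * s + r)) (be R (8 * s + r)) r := by
  obtain ⟨e1, e2⟩ := pq_pt s r
  have e3 : p (8 * s + r + 1) = 4 * s + p (r + 1) := (pq_pt s (r + 1)).1
  generalize 8 * s + r = k at *
  have hb : b R k = a R k + ri R k + fa R k + 1 := rfl
  have h1 : al R k ≤ 11 := (ab_pt _ _ _).1
  have h2 : be R k ≤ 11 := (ab_pt _ _ _).2
  have h3 : 22 * ht R k + (11 + al R k) = ri R k := by unfold ri; omega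
  have h4 : 22 * ht R k + (11 + be R k) = fa R k := by unfold fa; omega
  rw [show a R (k + 1) = a R k + (ri R k + (1 + (fa R k + 1))) by rw [a_succ]; omega,
    List.range_add, List.map_append, List.range_add, List.range_add, List.range_add, hwPt, h3, h4]
  simp only [List.map_append, List.map_map, List.range_one, List.map_cons, List.map_nil,
    List.singleton_append]
  congr 2
  · refine List.map_congr_left fun x hx => ?_
    have := List.mem_range.1 hx
    simp only [Function.comp, df]
    rw [fn_ri (R := R) (k := k) (n := a R k + x + 1) (x := x + 1) rfl (by omega),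
      fn_ri (R := R) (k := k) (n := a R k + x) (x := x) rfl (by omega), zero_add]
    omega
  congr 1
  · rw [df, fn_fa (k := k) (x := fa R k) (by omega) le_rfl,
      fn_ri (k := k) (x := ri R k) (by omega) le_rfl, ri, fa, phi_w _ h1, phi_w _ h2]
    omega
  congr 1
  · refine List.map_congr_left fun y hy => ?_
    have := List.mem_range.1 hy
    simp only [Function.comp, df]
    rw [fn_fa (k := k) (x := fa R k - 1 - y) (by omega) (by omega),
      fn_fa (k := k) (x := fa R k - y) (by omega) (by omega)]
    omega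
  · rw [df, fn_ri (k := k + 1) (x := 0) (by rw [a_succ]; omega) (by omega),
      fn_fa (k := k) (x := 0) (by omega) (by omega)]
    congr 1
    have : phi 0 = 0 := rfl
    omega

/-- families of words of the form `block L` -/
def PatPt (f : ℕ → List ℕ) : Prop :=
  ∃ L : List (List ℕ × List ℕ), L ≠ [] ∧ (∀ x ∈ L, x.1 ≠ []) ∧ ∀ t, f t = block L t

theorem PatPt.append {f g : ℕ → List ℕ} (hf : PatPt f) (hg : PatPt g) :
    PatPt fun t => f t ++ g t := by
  obtain ⟨L, a1, a2, a3⟩ := hf
  obtain ⟨L', -, b2, b3⟩ := hg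
  refine ⟨L ++ L', by simp [a1], fun x hx => (List.mem_append.1 hx).elim (a2 x) (b2 x), fun t => ?_⟩
  simp only [a3, b3, block, List.flatMap_append]

theorem pow_pt (V : List ℕ) (A B t : ℕ) : (List.replicate (A * t + B) V).flatten =
    (List.replicate B V).flatten ++ (List.replicate t (List.replicate A V).flatten).flatten := by
  induction t with
  | zero => simp
  | succ t ih =>
    rw [show A * (t + 1) + B = A * t + B + A by ring, List.replicate_add, List.flatten_append, ih,
      List.replicate_succ', List.flatten_append]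
    simp

theorem base_pt {u : List ℕ} (hu : u ≠ []) (V : List ℕ) (A B : ℕ) :
    PatPt fun t => u ++ (List.replicate (A * t + B) V).flatten :=
  ⟨[(u ++ (List.replicate B V).flatten, (List.replicate A V).flatten)], by simp, by simp [hu],
    fun t => by simp only [pow_pt, block, List.flatMap_singleton, List.append_assoc]⟩

theorem hw_pt (A B x y r : ℕ) : PatPt fun t => hwPt (A * t + B) x y r := by
  have h1 : upPt 0 (11 + x) ≠ [] := by simp [upPt]
  have := (base_pt h1 (upPt (11 + x) 22) A B).append
    ((base_pt (List.cons_ne_nil (q r + w y + 1 - (p r + w x)) (dnPt (11 + y))) (dnPt 22) A B).append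
      (base_pt (List.cons_ne_nil (p (r + 1) + 1 - q r) []) [] 0 0))
  simpa [hwPt, up_pt, dn_pt] using this

theorem exists_sw : ∃ sw : Round → ℕ → List ℕ,
    (∀ R, Valid R → ∀ S, (List.range (a R (8 * S))).map (df R) =
      (List.range S).flatMap fun s => sw (R s) s) ∧
    ∀ a1 b1 c1 a2 b2 c2 a3 b3, ∃ L : List (List ℕ × List ℕ), L ≠ [] ∧ (∀ x ∈ L, x.1 ≠ []) ∧
      ∀ t, sw ⟨a1 * t + b1, c1, a2 * t + b2, c2⟩ (a3 * t + b3 + 2) = block L t := by
  refine ⟨fun ρ s => (List.range 8).flatMap fun r => hwPt (H ρ s r) (Al ρ s r) (Be ρ s r) r,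
    fun R _ S => ?_, fun a1 b1 c1 a2 b2 c2 a3 b3 => ?_⟩
  · induction S with
    | zero => rfl
    | succ S ih =>
      have key : ∀ n ≤ 8, (List.range (a R (8 * S + n))).map (df R) =
          (List.range (a R (8 * S))).map (df R) ++ (List.range n).flatMap fun r =>
            hwPt (H (R S) S r) (Al (R S) S r) (Be (R S) S r) r := fun n hn => by
        induction n with
        | zero => simp
        | succ n ihn =>
          obtain ⟨e1, e2, e3⟩ := at_st R S (r := n) (by omega)
          rw [← add_assoc, hump_pt, ihn (by omega), e1, e2, e3, List.range_succ,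
            List.flatMap_append, List.flatMap_singleton, List.append_assoc]
      rw [List.range_succ (n := S), List.flatMap_append, List.flatMap_singleton, ← ih]
      exact key 8 le_rfl
  · have one : ∀ r, PatPt fun t => hwPt (H ⟨a1 * t + b1, c1, a2 * t + b2, c2⟩ (a3 * t + b3 + 2) r)
        (Al ⟨a1 * t + b1, c1, a2 * t + b2, c2⟩ (a3 * t + b3 + 2) r)
        (Be ⟨a1 * t + b1, c1, a2 * t + b2, c2⟩ (a3 * t + b3 + 2) r) r := fun r => by
      obtain ⟨A, B, h⟩ : ∃ A B, ∀ t,
          H ⟨a1 * t + b1, c1, a2 * t + b2, c2⟩ (a3 * t + b3 + 2) r = A * t + B := by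
        unfold H
        split
        exacts [⟨a3, b3 + 2, fun t => by ring⟩, ⟨2 * a3, 2 * b3 + 4, fun t => by ring⟩,
          ⟨a3, b3 + 3, fun t => by ring⟩, ⟨a1, b1, fun t => rfl⟩, ⟨a2, b2, fun t => rfl⟩,
          ⟨a1, b1, fun t => rfl⟩, ⟨a3, b3 + 3, fun t => by ring⟩,
          ⟨2 * a3, 2 * b3 + 5, fun t => by ring⟩]
      have e1 : ∀ t, pa (a3 * t + b3 + 2) = pa 2 := fun t => if_neg (by omega)
      have e2 : ∀ t c, pb (a3 * t + b3 + 2) c = pb 2 c := fun t c => if_neg (by omega)
      have h1 : ∀ t, Al ⟨a1 * t + b1, c1, a2 * t + b2, c2⟩ (a3 * t + b3 + 2) r =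
          Al ⟨0, c1, 0, c2⟩ 2 r := fun t => by
        unfold Al
        split <;> simp only [e1, e2]
      have h2 : ∀ t, Be ⟨a1 * t + b1, c1, a2 * t + b2, c2⟩ (a3 * t + b3 + 2) r =
          Be ⟨0, c1, 0, c2⟩ 2 r := fun t => by
        unfold Be
        split <;> simp only [e1, e2]
      simp only [h, h1, h2]
      exact hw_pt _ _ _ _ _
    have all : ∀ n, PatPt fun t => (List.range (n + 1)).flatMap fun r =>
        hwPt (H ⟨a1 * t + b1, c1, a2 * t + b2, c2⟩ (a3 * t + b3 + 2) r)
          (Al ⟨a1 * t + b1, c1, a2 * t + b2, c2⟩ (a3 * t + b3 + 2) r)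
          (Be ⟨a1 * t + b1, c1, a2 * t + b2, c2⟩ (a3 * t + b3 + 2) r) r := fun n => by
      induction n with
      | zero => simpa using one 0
      | succ n ih =>
        simpa only [List.range_succ (n := n + 1), List.flatMap_append, List.flatMap_singleton]
          using ih.append (one (n + 1))
    exact all 7

end Pool.Agent.Lib.MP_9cc368_co.U
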