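import Pool.Agent.Lib.MP_9cc368_co.UCsp
import Pool.Agent.Lib.MP_9cc368_co.UColl
import Pool.Agent.Lib.MP_9cc368_co.UMorph
import Pool.Agent.Lib.MP_9cc368_co.UPat

/-! Realisability of finite modifications of one function is not recursively enumerable. -/

namespace Pool.Agent.Lib.MP_9cc368_co.U

theorem a_stage (R : ℕ → Round) (s : ℕ) : a R (8 * (s + 1)) = a R (8 * s) + 308 * s + 384 +
    88 * (R s).j1 + 44 * (R s).j2 + 3 * pa s + 2 * pb s (R s).c1 + pb s (R s).c2 := by
  have h := hts R s
  have h' := probes R s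
  have e : ∀ k, a R (k + 1) = a R k + 44 * ht R k + 24 + al R k + be R k := fun k => by
    rw [a_succ, b_eq]; omega
  have e0 := e (8 * s)
  have e1 : a R (8 * s + 2) = _ := e (8 * s + 1)
  have e2 : a R (8 * s + 3) = _ := e (8 * s + 2)
  have e3 : a R (8 * s + 4) = _ := e (8 * s + 3)
  have e4 : a R (8 * s + 5) = _ := e (8 * s + 4)
  have e5 : a R (8 * s + 6) = _ := e (8 * s + 5)
  have e6 : a R (8 * s + 7) = _ := e (8 * s + 6)
  have e7 : a R (8 * (s + 1)) = _ := e (8 * s + 7)
  omega

theorem fn_tail {R R' : ℕ → Round} {S : ℕ} (h0 : a R (8 * S) = a R' (8 * S))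
    (h : ∀ s, S ≤ s → R s = R' s) {n : ℕ} (hn : a R (8 * S) ≤ n) : fn R n = fn R' n := by
  have e : ∀ k, 8 * S ≤ k → ri R k = ri R' k ∧ fa R k = fa R' k := fun k hk => by
    unfold ri fa ht al be
    rw [h (k / 8) (by omega)]
    exact ⟨rfl, rfl⟩
  have ea : ∀ k, 8 * S ≤ k → a R k = a R' k := fun k hk => by
    induction k, hk using Nat.le_induction with
    | base => exact h0
    | succ k hk ih => rw [a, a, ih, (e k hk).1, (e k hk).2]
  obtain ⟨k, x, hx⟩ := loc R n
  have hb : b R k = a R k + ri R k + fa R k + 1 := rfl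
  have hb' : b R' k = a R' k + ri R' k + fa R' k + 1 := rfl
  have hk : 8 * S ≤ k := by
    by_contra c
    have := b_lt R (not_le.1 c)
    omega
  have e1 := e k hk
  have e2 := ea k hk
  rcases hx with ⟨h1, h2⟩ | ⟨h1, h2⟩
  · rw [fn_ri h1 h2, fn_ri (R := R') (k := k) (x := x) (by omega) (by omega)]
  · rw [fn_fa h1 h2, fn_fa (R := R') (k := k) (x := x) (by omega) (by omega)]

theorem fn_sum {R : ℕ → Round} (hR : Valid R) (n : ℕ) :
    fn R n + n = ((List.range n).map (df R)).sum := by
  induction n with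
  | zero => exact fn_a (R := R) 0
  | succ n ih =>
    have := df_spec hR n
    rw [List.range_succ, List.map_append, List.sum_append, ← ih]
    simp
    omega

/-- the values with increments `d - 1`, `d` in the list -/
def ps (l : List ℕ) : List ℕ := (List.range l.length).map fun n => (l.take n).sum - n

theorem ps_df {R : ℕ → Round} (hR : Valid R) (N : ℕ) :
    ps ((List.range N).map (df R)) = (List.range N).map (fn R) := by
  unfold ps
  rw [List.length_map, List.length_range]
  refine List.map_congr_left fun n hn => ?_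
  rw [← List.map_take, List.take_range, min_eq_left (List.mem_range.1 hn).le, ← fn_sum hR]
  omega

theorem prim_ps : Primrec ps := by
  have h : Primrec (List.sum : List ℕ → ℕ) :=
    (Primrec.list_foldr (g := fun _ => 0) (h := fun _ x => x.1 + x.2) .id (.const 0)
      (Primrec.nat_add.comp (Primrec.fst.comp .snd) (Primrec.snd.comp .snd)).to₂).of_eq
      fun _ => rfl
  exact Primrec.list_map (Primrec.list_range.comp Primrec.list_length)
    (Primrec.nat_sub.comp (h.comp (Primrec.list_take.comp .snd .fst)) .snd).to₂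

theorem prim_block : Primrec₂ block := by
  have e : ∀ (t : ℕ) (v : List ℕ),
      ((List.range t).flatMap fun _ => v) = (List.replicate t v).flatten := fun t v => by
    simp [List.flatMap]
  exact (Primrec.list_flatMap (g := fun y x => x.1 ++ (List.range y.2).flatMap fun _ => x.2)
    (f := fun y : List (List ℕ × List ℕ) × ℕ => y.1) .fst
    (Primrec.list_append.comp (Primrec.fst.comp .snd) (Primrec.list_flatMap
      (Primrec.list_range.comp (Primrec.snd.comp .fst))
      (Primrec.snd.comp (Primrec.snd.comp .fst)).to₂)).to₂).of_eq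
    fun y => by simp only [block, e]

theorem range_blocks {β : Type} (F : ℕ → List β) (N T : ℕ) : (List.range (N * T + 2)).flatMap F =
    (List.range 2).flatMap F ++ (List.range T).flatMap fun t =>
      (List.range N).flatMap fun r => F (N * t + r + 2) := by
  induction T with
  | zero => simp
  | succ T ih =>
    rw [show N * (T + 1) + 2 = N * T + 2 + N by ring, List.range_add, List.flatMap_append, ih,
      List.range_succ (n := T), List.flatMap_append, List.flatMap_map, List.append_assoc,
      List.flatMap_singleton]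
    simp only [add_right_comm (N * T) 2]

namespace Dat

variable (D : Dat)

theorem a_sch (x y : ℕ → Bool) (S : ℕ) : a (D.sch x) (8 * S) = a (D.sch y) (8 * S) := by
  induction S with
  | zero => rfl
  | succ s ih =>
    rw [a_stage, a_stage, ih]
    unfold sch
    split_ifs
    · rfl
    · generalize x _ = c, y _ = c'
      unfold rd
      split_ifs
      iterate 2 rfl
      · cases c <;> cases c' <;> simp only [sw, if_true, Bool.false_eq_true, if_false] <;> omega
      · rfl

theorem sch_blk (x : ℕ → Bool) (t : ℕ) {r : ℕ} :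
    D.sch x (D.P * D.K * t + r + 2) =
      D.rd (x (D.P * t + r / D.K)) (D.P * t + r / D.K) (r % D.K) := by
  have hK := D.K_ge
  rw [← D.sch_eq x _ (Nat.mod_lt r (by omega)), mul_add, add_assoc (D.K * (D.P * t)),
    Nat.div_add_mod]
  congr 2
  ring

theorem rd_aff (c : Bool) {ρ : ℕ} (h : ρ < D.P) (r : ℕ) : ∃ a1 b1 c1 a2 b2 c2, ∀ t,
    D.rd c (D.P * t + ρ) r = ⟨a1 * t + b1, c1, a2 * t + b2, c2⟩ := by
  have e1 : ∀ t, (D.P * t + ρ) % D.P = ρ := fun t => by
    rw [Nat.mul_add_mod, Nat.mod_eq_of_lt h]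
  have e2 : ∀ t, (D.P * t + ρ) / D.P = t := fun t => by
    rw [Nat.mul_add_div D.pos, Nat.div_eq_of_lt h, add_zero]
  have e3 : ∀ m t, m + 2 * (D.P * t + ρ) = 2 * D.P * t + (m + 2 * ρ) := fun m t => by ring
  have e4 : ∀ t, 13 + 2 * D.g (D.P * t + ρ) = 2 * D.lam ρ * t + (13 + 2 * D.mu ρ) := fun t => by
    rw [g, G, e1, e2]; ring
  have e : ∀ c, ∃ a1 b1 c1 a2 b2 c2, ∀ t,
      D.edge (D.P * t + ρ) c = ⟨a1 * t + b1, c1, a2 * t + b2, c2⟩ := fun c => by
    simp only [edge, e1, e4, e3]
    split_ifs
    · exact ⟨2 * D.P, 13 + 2 * ρ, c, 0, 8, c, fun t => by rw [zero_mul]⟩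
    · exact ⟨_, _, _, _, _, _, fun t => rfl⟩
  unfold rd sw
  simp only [e3]
  split_ifs
  exacts [e _, e _, ⟨2 * D.P, 13 + 2 * ρ, true, 0, 8, false, fun t => by rw [zero_mul]⟩,
    ⟨2 * D.P, 12 + 2 * ρ, true, 0, 10, false, fun t => by rw [zero_mul]⟩,
    ⟨0, 2, true, 0, 1, true, fun t => by rw [zero_mul]⟩]

theorem main : ∃ g : ℕ → ℕ, Morphic (fun n => (g (n + 1) : ℤ) - g n) ∧ g ∈ Realisable ∧
    ∃ F : ℕ → List ℕ, Primrec F ∧ ∀ v, patch (F v) g ∈ Realisable ↔ ¬ D.Halts v := by
  obtain ⟨sw, h1, h2⟩ := exists_sw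
  have hK := D.K_ge
  have hN : 0 < D.P * D.K := Nat.mul_pos D.pos (by omega)
  have blk : ∀ ρ : ℕ, ∃ L : List (List ℕ × List ℕ), L ≠ [] ∧ (∀ x ∈ L, x.1 ≠ []) ∧
      ∀ t (x : ℕ → Bool), (∀ i < D.P, x (D.P * t + i) = decide (i = ρ)) →
        ((List.range (D.P * D.K)).flatMap fun r =>
          sw (D.sch x (D.P * D.K * t + r + 2)) (D.P * D.K * t + r + 2)) = block L t := fun ρ => by
    have : ∀ r, ∃ L : List (List ℕ × List ℕ), L ≠ [] ∧ (∀ x ∈ L, x.1 ≠ []) ∧ (r < D.P * D.K →
        ∀ t, sw (D.rd (decide (r / D.K = ρ)) (D.P * t + r / D.K) (r % D.K))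
          (D.P * D.K * t + r + 2) = block L t) := fun r => by
      by_cases hr : r < D.P * D.K
      · obtain ⟨a1, b1, c1, a2, b2, c2, h⟩ := D.rd_aff (decide (r / D.K = ρ))
          (Nat.div_lt_of_lt_mul (mul_comm D.P D.K ▸ hr)) (r % D.K)
        obtain ⟨L, l1, l2, l3⟩ := h2 a1 b1 c1 a2 b2 c2 (D.P * D.K) r
        exact ⟨L, l1, l2, fun _ t => by rw [h, l3]⟩
      · exact ⟨[([0], [])], by simp, by simp, fun h => (hr h).elim⟩
    choose L l1 l2 l3 using this
    refine ⟨(List.range (D.P * D.K)).flatMap L, fun h => ?_, fun x hx => ?_, fun t x hx => ?_⟩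
    · exact l1 0 (List.flatMap_eq_nil_iff.1 h 0 (List.mem_range.2 hN))
    · obtain ⟨r, -, hr⟩ := List.mem_flatMap.1 hx
      exact l2 r x hr
    · rw [block, List.flatMap_assoc]
      refine List.flatMap_congr fun r hr => ?_
      have hr := List.mem_range.1 hr
      rw [D.sch_blk, hx _ (Nat.div_lt_of_lt_mul (mul_comm D.P D.K ▸ hr)), l3 r hr]
      rfl
  choose LL l1 l2 l3 using blk
  obtain ⟨u0, hu⟩ : ∃ u0, ∀ x, ((List.range 2).flatMap fun s => sw (D.sch x s) s) = u0 :=
    ⟨sw ⟨0, false, 0, false⟩ 0 ++ sw ⟨0, false, 0, false⟩ 1, fun x => by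
      simp [List.range_succ, sch]⟩
  have pre : ∀ (x : ℕ → Bool) T, (∀ v < D.P * T, x v = false) →
      ((List.range (D.P * D.K * T + 2)).flatMap fun s => sw (D.sch x s) s) =
        u0 ++ (List.range T).flatMap (block (LL D.P)) := fun x T hx => by
    rw [range_blocks, hu]
    refine congrArg _ (List.flatMap_congr fun t ht => l3 _ t x fun i hi => ?_)
    have := Nat.mul_le_mul_left D.P (Nat.succ_le_of_lt (List.mem_range.1 ht))
    rw [hx _ (by rw [Nat.mul_succ] at this; omega), decide_eq_false hi.ne]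
  refine ⟨fn (D.sch fun _ => false), ?_, D.real_of _ (by simp), fun v => ps (u0 ++
    (List.range (v / D.P)).flatMap (block (LL D.P)) ++
      block (((List.range D.P).map LL).getD (v % D.P) []) (v / D.P)), ?_, fun v => ?_⟩
  · have h0 : u0 ≠ [] := fun h => by
      have := congrArg List.length ((h1 _ (D.valid fun _ => false) 2).trans ((hu _).trans h))
      have := le_a (D.sch fun _ => false) (8 * 2)
      simp_all
    obtain ⟨k, σ, τ, x, m1, m2, m3⟩ := morphic_of_blocks (e := df (D.sch fun _ => false)) h0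
      (l1 D.P) (l2 D.P) fun T => (h1 _ (D.valid _) _).trans (pre _ T fun _ _ => rfl)
    refine ⟨k, σ, fun y => (τ y : ℤ) - 1, x, m1, m2, fun m n h => ?_⟩
    have := df_spec (D.valid fun _ => false) n
    have := m3 m n h
    simp only
    omega
  · have hd : Primrec fun v => v / D.P := Primrec.nat_div.comp .id (.const _)
    exact prim_ps.comp (Primrec.list_append.comp (Primrec.list_append.comp (.const _)
      (Primrec.list_flatMap (Primrec.list_range.comp hd)
        (prim_block.comp (.const _) .snd).to₂))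
      (prim_block.comp ((Primrec.list_getD []).comp (.const _)
        (Primrec.nat_mod.comp .id (.const _))) hd))
  · have hρ := Nat.mod_lt v D.pos
    have hv := Nat.div_add_mod v D.P
    have e1 : ((List.range D.P).map LL).getD (v % D.P) [] = LL (v % D.P) := by simp [hρ]
    have e2 := h1 _ (D.valid fun i => decide (i = v)) (D.P * D.K * (v / D.P + 1) + 2)
    rw [range_blocks, List.range_succ (n := v / D.P), List.flatMap_append, ← List.append_assoc,
      ← range_blocks, pre _ _ fun i hi => decide_eq_false (by omega), List.flatMap_singleton,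
      l3 (v % D.P) _ _ fun i _ => decide_eq_decide.2 (by omega)] at e2
    simp only
    rw [e1, ← e2, ps_df (D.valid _)]
    have e3 : patch ((List.range (a (D.sch fun i => decide (i = v))
        (8 * (D.P * D.K * (v / D.P + 1) + 2)))).map (fn (D.sch fun i => decide (i = v))))
        (fn (D.sch fun _ => false)) = fn (D.sch fun i => decide (i = v)) := funext fun n => by
      unfold patch
      by_cases c : n < a (D.sch fun i => decide (i = v)) (8 * (D.P * D.K * (v / D.P + 1) + 2))
      · simp [c]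
      · rw [List.getD_eq_default _ _ (by simpa using c)]
        refine (fn_tail (D.a_sch _ _ _) (fun s hs => ?_) (not_lt.1 c)).symm
        obtain ⟨i, r, hr, rfl⟩ := D.stage (show 2 ≤ s by omega)
        rw [D.sch_eq _ _ hr, D.sch_eq _ _ hr, decide_eq_false]
        rintro rfl
        have h3 : D.K * (i + 1) ≤ D.K * (D.P * (i / D.P + 1)) :=
          Nat.mul_le_mul_left _ (by rw [mul_add]; omega)
        rw [← mul_assoc, mul_comm D.K D.P, mul_add D.K] at h3
        omega
    rw [e3]
    exact ⟨fun h => D.of_real _ h v (by simp), fun h => D.real_of _ fun i hi => by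
      rwa [of_decide_eq_true hi]⟩

end Dat

open Nat.Partrec.Code in
theorem not_re : ∃ g : ℕ → ℕ, Morphic (fun n => (g (n + 1) : ℤ) - g n) ∧ g ∈ Realisable ∧
    ¬ REPred fun F : List ℕ => patch F g ∈ Realisable := by
  obtain ⟨P, lam, mu, hl, Q, i, h0, h1, h2⟩ := search_co
    (g := fun a k => if (evaln k (Denumerable.ofNat _ a) 0).isSome then 0 else 1)
    (Primrec.ite (PrimrecPred.of_eq (Primrec.eq.comp (Primrec.option_isSome.comp (primrec_evaln.comp
      ((Primrec.snd.pair ((Primrec.ofNat _).comp .fst)).pair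
        (.const 0)))) (.const true)) fun _ => .rfl) (.const 0) (.const 1))
  obtain ⟨K, hK⟩ := exists_K P lam mu h0
  obtain ⟨g, g1, g2, F, g3, g4⟩ := Dat.main ⟨P, lam, mu, hl, K, h0, h1, hK⟩
  refine ⟨g, g1, g2, fun h => ComputablePred.halting_problem_not_re 0 ?_⟩
  have hc : Computable fun c : Nat.Partrec.Code => F (Q * (3 ^ Encodable.encode c - 1) + i) :=
    (g3.comp (Primrec.nat_add.comp (Primrec.nat_mul.comp (.const Q) (Primrec.nat_sub.comp
      ((Primrec₂.unpaired'.1 Nat.Primrec.pow).comp (.const 3) .encode) (.const 1)))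
      (.const i))).to_comp
  refine REPred.of_eq (p := fun c => patch (F (Q * (3 ^ Encodable.encode c - 1) + i)) g ∈ Realisable)
    (Partrec.comp h hc) fun c => (g4 _).trans (not_congr ((h2 _).trans ?_))
  simp only [Part.dom_iff_mem, evaln_complete]
  simp [Option.isSome_iff_exists]
  exact exists_comm

end Pool.Agent.Lib.MP_9cc368_co.U
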