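import Pool.Agent.Lib.MP_9cc368_co.UGeo

/-! Intervals on which the function of a schedule is mirror symmetric up to one. -/

namespace Pool.Agent.Lib.MP_9cc368_co.U

/-- mirrored cuts have values which differ by at most one -/
def Mir (f : ℕ → ℕ) (i n : ℕ) : Prop := ∀ x y, i ≤ x → i ≤ y → x + y = i + n → f x ≤ f y + 1

theorem mir_of_pal {α : Type} {u : ℕ → α} {i n : ℕ} (h : Pal u i n) : Mir (PPL u) i n := by
  intro x y hx hy e
  rcases le_total x y with c | c
  · exact ppl_back y c (h.shrink hx e)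
  · exact ppl_step c (h.shrink hy (by omega))

theorem par (k : ℕ) : p k % 2 = 0 ∧ q k % 2 = 1 ∧ 4 * (k / 8) ≤ p k ∧ q k ≤ 4 * (k / 8) + 7 ∧
    q k ≤ p k + 1 ∧ p k ≤ q k + 1 ∧ q k ≤ p (k + 1) + 1 ∧ p (k + 1) ≤ q k + 1 := by
  have h := lev (k + 1)
  rcases lev k with l | l | l | l | l | l | l | l <;> omega

variable {R : ℕ → Round}

theorem fn_a (k : ℕ) : fn R (a R k) = p k := fn_ri (x := 0) rfl (Nat.zero_le _)

theorem fn_b (k : ℕ) : fn R (b R k) = q k := fn_fa (x := 0) rfl (Nat.zero_le _)

theorem shape0 (hR : Valid R) (k : ℕ) : (16 ≤ k → 1 ≤ ht R k) ∧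
    ((al R k = 10 ∧ be R k = 10 ∧ q k = p k + 1) ∨ (al R k = 0 ∧ be R k = 0) ∨
    (al R k = 11 ∧ (be R k = 7 ∨ be R k = 5) ∧ q k = p k + 1) ∨
    (be R k = 11 ∧ (al R k = 7 ∨ al R k = 5) ∧ p k = q k + 1)) := by
  obtain ⟨s, -, h⟩ := info hR k
  unfold Pr at h
  rcases h with h | h | h | h | h | h | h | h <;> omega

theorem lt_of_b {g k : ℕ} (h : b R g < b R k) : g < k := by
  by_contra c
  rcases Nat.eq_or_lt_of_le (not_lt.1 c) with rfl | c
  · omega
  · have := b_lt R c
    have := b_eq R g
    omega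

/-- the mirror image of a valley is a valley -/
theorem valley (hR : Valid R) {k i n : ℕ} (hk : 32 ≤ k) (hm : Mir (fn R) i n) (h1 : i + 7 ≤ a R k)
    (h2 : a R k + 22 ≤ n) : ∃ g, 16 ≤ g ∧ i + n = b R g + a R k ∧
      (p k = q g + 1 ∨ q g = p k + 1) := by
  obtain ⟨c, hc⟩ : ∃ c, i + n = c + a R k := ⟨i + n - a R k, by omega⟩
  obtain ⟨k', rfl⟩ : ∃ k', k = k' + 1 := ⟨k - 1, by omega⟩
  have s1 := (shape0 hR (k' + 1)).1 (by omega)
  have ea := a_succ R k'
  have pk := par k'
  have pk' := par (k' + 1)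
  have hL : ∀ y z, y ≤ 22 → z + y = c →
      fn R z ≤ p (k' + 1) + phi y + 1 ∧ p (k' + 1) + phi y ≤ fn R z + 1 := fun y z hy e => by
    rw [← fn_ri (R := R) (k := k' + 1) (x := y) rfl (by unfold ri; omega)]
    exact ⟨hm _ _ (by omega) (by omega) (by omega), hm _ _ (by omega) (by omega) (by omega)⟩
  have hU : ∀ y, y ≤ 6 → q k' + y ≤ fn R (c + 1 + y) + 1 := fun y hy => by
    have := fn_fa (R := R) (k := k') (n := b R k' - y) (x := y) (by omega) (by unfold fa; omega)
    rw [phi_small (by omega)] at this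
    rw [← this]
    exact hm _ _ (by omega) (by omega) (by omega)
  have h0 := (hL 0 c (by omega) rfl).1
  rw [phi_small (by omega)] at h0
  obtain ⟨g, δ, hδ, e⟩ : ∃ g δ, δ ≤ 4 ∧ c + 2 = b R g + δ := by
    obtain ⟨g, x, ⟨e, hx⟩ | ⟨e, hx⟩⟩ := loc R c
    · have v := fn_ri e hx
      have hx1 : x ≤ 1 := by
        by_cases c5 : 5 ≤ x
        · have := (hL 5 (c - 5) (by omega) (by omega)).2
          rw [fn_ri (k := g) (x := x - 5) (by omega) (by omega), phi_small (by omega)] at this
          have := phi_mono (show x - 5 ≤ x by omega)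
          omega
        · have := (hL x (a R g) (by omega) (by omega)).2
          rw [fn_a, phi_small (show x ≤ 11 by omega)] at this
          rw [phi_small (by omega)] at v
          omega
      rcases g with _ | g
      · have : a R 0 = 0 := rfl
        omega
      · have := a_succ R g
        exact ⟨g, x + 3, by omega, by omega⟩
    · have v := fn_fa e hx
      have hx1 : x ≤ 2 := by
        by_cases c7 : 7 ≤ x
        · have := hU 6 le_rfl
          rw [fn_fa (k := g) (x := x - 7) (by omega) (by omega)] at this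
          have := phi_mono (show x - 7 ≤ x by omega)
          omega
        · by_contra c3
          have := hU (x - 1) (by omega)
          rw [fn_fa (k := g) (x := 0) (by omega) (by omega), phi_small (by omega)] at this
          rw [phi_small (by omega)] at v
          omega
      exact ⟨g, 2 - x, by omega, by omega⟩
  have pg := par g
  have key : ∀ y t, y ≤ 22 → t + δ = y + 2 → t ≤ fa R g →
      q g + phi t ≤ p (k' + 1) + phi y + 1 ∧ p (k' + 1) + phi y ≤ q g + phi t + 1 :=
    fun y t hy et ht => by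
      rw [← fn_fa (R := R) (k := g) (n := c - y) (x := t) (by omega) ht]
      exact hL y _ hy (by omega)
  have k5 := key 5 (7 - δ) (by omega) (by omega) (by unfold fa; omega)
  rw [phi_small (show 7 - δ ≤ 11 by omega), phi_small (show 5 ≤ 11 by omega)] at k5
  have hg : 16 ≤ g := by omega
  have s2 := (shape0 hR g).1 hg
  have f33 : 33 ≤ fa R g := by unfold fa; omega
  refine ⟨g, hg, ?_⟩
  have v13 : phi 13 = 13 := rfl
  have v14 : phi 14 = 12 := rfl
  have v20 : phi 20 = 15 := rfl
  have v22 : phi 22 = 13 := rfl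
  obtain rfl | rfl | rfl | rfl | rfl : δ = 0 ∨ δ = 1 ∨ δ = 2 ∨ δ = 3 ∨ δ = 4 := by omega
  · have := key 20 22 (by omega) rfl (by omega)
    omega
  · have := key 13 14 (by omega) rfl (by omega)
    omega
  · omega
  · have := key 14 13 (by omega) rfl (by omega)
    omega
  · have := key 22 20 (by omega) rfl (by omega)
    omega

theorem over_l (hR : Valid R) {g z : ℕ} (hg : 16 ≤ g) (e : z + (22 * ht R g + 33) = b R g) :
    fn R z ≤ q g + 13 * ht R g + 14 := by
  obtain ⟨s1, s2⟩ := shape0 hR g
  have := s1 hg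
  have := b_eq R g
  have := par g
  rw [fn_ri (k := g) (x := z - a R g) (by omega) (by unfold ri; omega)]
  have h := phi_mono (show z - a R g ≤ 22 * ht R g + 11 by omega)
  rw [phi_add, phi_small le_rfl] at h
  omega

theorem over_r (hR : Valid R) {g z : ℕ} (hg : 16 ≤ g) (e : z = a R g + (22 * ht R g + 33)) :
    fn R z ≤ p g + 13 * ht R g + 14 := by
  obtain ⟨s1, s2⟩ := shape0 hR g
  have := s1 hg
  have := b_eq R g
  have := par g
  rw [fn_fa (k := g) (x := b R g - z) (by omega) (by unfold fa; omega)]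
  have h := phi_mono (show b R g - z ≤ 22 * ht R g + 11 by omega)
  rw [phi_add, phi_small le_rfl] at h
  omega

theorem phi33 (h : ℕ) : phi (22 * h + 33) = 13 * h + 24 := phi_add h 33

/-- a rising leg cannot be mirrored over the top of a lower hump -/
theorem high_l (hR : Valid R) {g k i n : ℕ} (hm : Mir (fn R) i n) (e : i + n = b R g + a R k)
    (hg : 16 ≤ g) (h1 : i ≤ a R k) (h2 : i + (22 * ht R g + 33) ≤ b R g)
    (h3 : 22 * ht R g + 33 ≤ ri R k) : False := by
  have a1 := hm (b R g) (a R k) (by omega) h1 e.symm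
  rw [fn_a, fn_b] at a1
  have a2 := hm (a R k + (22 * ht R g + 33)) (b R g - (22 * ht R g + 33)) (by omega) (by omega)
    (by omega)
  rw [fn_ri rfl h3, phi33] at a2
  have := over_l hR hg (z := b R g - (22 * ht R g + 33)) (by omega)
  omega

theorem high_r (hR : Valid R) {g k i n : ℕ} (hm : Mir (fn R) i n) (e : i + n = b R g + a R k)
    (hk : 16 ≤ k) (h1 : i ≤ a R k) (h2 : i + (22 * ht R k + 33) ≤ b R g)
    (h3 : 22 * ht R k + 33 ≤ fa R g) : False := by
  have a0 := hm (a R k) (b R g) h1 (by omega) (by omega)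
  rw [fn_a, fn_b] at a0
  have a2 := hm (b R g - (22 * ht R k + 33)) (a R k + (22 * ht R k + 33)) (by omega) (by omega)
    (by omega)
  rw [fn_fa (k := g) (by omega) h3, phi33] at a2
  have := over_r hR hk (z := a R k + (22 * ht R k + 33)) rfl
  omega

/-- the humps next to the two valleys have the same height -/
theorem deep (hR : Valid R) {g k i n : ℕ} (hm : Mir (fn R) i n) (e : i + n = b R g + a R (k + 1))
    (hg : 16 ≤ g) (hgk : g < k) (h1 : i ≤ b R g) : ht R (g + 1) = ht R k := by
  have e1 := a_succ R g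
  have e2 := a_succ R k
  have e3 := b_lt R hgk
  have e4 := b_eq R k
  have e5 := b_eq R (g + 1)
  have s1 := (shape0 hR k).1 (by omega)
  have s2 := (shape0 hR (g + 1)).1 (by omega)
  rcases lt_trichotomy (ht R (g + 1)) (ht R k) with c | c | c
  · exact (high_r hR hm (g := k) (k := g + 1) (by omega) (by omega) (by omega) (by omega)
      (by unfold fa; omega)).elim
  · exact c
  · exact (high_l hR hm (g := k) (k := g + 1) (by omega) (by omega) (by omega) (by omega)
      (by unfold ri; omega)).elim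

/-- the last palindrome at the end of a block of a rising leg -/
theorem rise (hR : Valid R) {k m i n : ℕ} (hk : 31 ≤ k) (hn : n = a R (k + 1) + 22 * (m + 1))
    (hx : 22 * (m + 1) ≤ ri R (k + 1)) (hi : i < n) (hv : fn R n = fn R i + 1)
    (hm : Mir (fn R) i n) : ∃ g ≤ k, i + n = b R g + a R (k + 1) ∧ p (k + 1) = q g + 1 ∧
      m ≤ ht R g ∧ (g < k → ht R (g + 1) = ht R k) := by
  have vn := fn_ri hn hx
  rw [phi_mul] at vn
  have ea := a_succ R k
  have pk := par k
  have eb := b_eq R k
  by_cases c1 : a R (k + 1) ≤ i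
  · exfalso
    obtain ⟨x, rfl⟩ := Nat.exists_eq_add_of_le c1
    rw [fn_ri rfl (by omega)] at hv
    have v : ∀ t ≤ 22, fn R (a R (k + 1) + (22 * m + t)) = p (k + 1) + (13 * m + phi t) :=
      fun t ht => by rw [fn_ri rfl (by omega), phi_add]
    have hx' : x = 22 * m + 12 ∨ x = 22 * m + 14 := by
      have d1 : ∀ t < 22, phi t ≤ 15 ∧ (phi t = 12 → t = 12 ∨ t = 14) := by decide
      have := d1 (x % 22) (by omega)
      rw [← Nat.div_add_mod x 22, phi_add] at hv
      by_cases c : x / 22 = m
      · omega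
      · have : x / 22 < m := by omega
        omega
    have v14 : phi 14 = 12 := rfl
    have v16 : phi 16 = 13 := rfl
    have v20 : phi 20 = 15 := rfl
    rcases hx' with rfl | rfl
    · have := hm (a R (k + 1) + (22 * m + 20)) (a R (k + 1) + (22 * m + 14)) (by omega) (by omega)
        (by omega)
      rw [v 20 (by omega), v 14 (by omega)] at this
      omega
    · have := hm (a R (k + 1) + (22 * m + 20)) (a R (k + 1) + (22 * m + 16)) (by omega) (by omega)
        (by omega)
      rw [v 20 (by omega), v 16 (by omega)] at this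
      omega
  by_cases c2 : a R (k + 1) < i + 7
  · exfalso
    rw [fn_fa (n := i) (k := k) (x := b R k - i) (by omega) (by unfold fa; omega),
      phi_small (by omega)] at hv
    omega
  obtain ⟨g, hg, e, hp⟩ := valley hR (k := k + 1) (by omega) hm (by omega) (by omega)
  have hgk : g < k + 1 := lt_of_b (R := R) (by unfold b at *; omega)
  have h1 : m ≤ ht R g := by
    by_contra c
    exact high_l hR hm e hg (by omega) (by omega) (by omega)
  refine ⟨g, by omega, e, ?_, h1, fun c => deep hR hm e hg c (by omega)⟩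
  by_cases c : 22 * (m + 1) ≤ fa R g
  · rw [fn_fa (n := i) (by omega) c, phi_mul] at hv
    omega
  · obtain ⟨-, s⟩ := shape0 hR g
    have := b_eq R g
    have := par g
    unfold fa at c
    obtain rfl : m = ht R g := by omega
    rw [fn_ri (n := i) (k := g) (x := 22 * ht R g + (1 + al R g + be R g)) (by omega)
      (by unfold ri; omega), phi_add] at hv
    have v1 : phi (1 + 0 + 0) = 1 := rfl
    have v2 : phi (1 + 10 + 10) = 14 := rfl
    have v3 : phi (1 + 11 + 7) = 14 := rfl
    have v4 : phi (1 + 11 + 5) = 14 := rfl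
    rcases s with ⟨s1, s2, s3⟩ | ⟨s1, s2⟩ | ⟨s1, s2 | s2, s3⟩ | ⟨s1, -⟩
    all_goals first | omega | (rw [s1, s2] at hv; omega)

/-- the last palindrome near the end of a falling leg -/
theorem fall (hR : Valid R) {k i n : ℕ} (hk : 31 ≤ k) (hn : n + 14 = b R (k + 1))
    (h2 : al R (k + 1) = 0 → 2 ≤ ht R (k + 1)) (hi : i < n) (hv : fn R n = fn R i + 1)
    (hm : Mir (fn R) i n) : (i = a R (k + 1) + 14 ∧ q (k + 1) = p (k + 1) + 1) ∨
      ∃ g ≤ k, i + n = b R g + a R (k + 1) ∧ (p (k + 1) = q g + 1 ∨ q g = p (k + 1) + 1) ∧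
        ht R g = ht R (k + 1) ∧ (g < k → ht R (g + 1) = ht R k) ∧
        (al R (k + 1) = 10 → al R g ≠ 0) := by
  obtain ⟨s1, s2⟩ := shape0 hR (k + 1)
  have s1 := s1 (by omega)
  have v14 : phi 14 = 12 := rfl
  have hfa : 33 ≤ fa R (k + 1) := by unfold fa; omega
  have hri : 33 ≤ ri R (k + 1) := by unfold ri; omega
  have vn := fn_fa hn (by omega)
  have ea := a_succ R k
  have pk := par k
  have pk' := par (k + 1)
  have eb := b_eq R k
  have eb' := b_eq R (k + 1)
  have eb'' : b R (k + 1) = a R (k + 1) + ri R (k + 1) + fa R (k + 1) + 1 := rfl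
  have lo : ∀ x, 12 ≤ x → 12 ≤ phi x ∧ (phi x = 12 → x = 12 ∨ x = 14) := fun x hx => by
    have d1 : ∀ t < 22, 12 ≤ t → 12 ≤ phi t ∧ (phi t = 12 → t = 12 ∨ t = 14) := by decide
    have := d1 (x % 22) (by omega)
    have := phi_add (x / 22) (x % 22)
    rw [Nat.div_add_mod] at this
    omega
  by_cases c0 : a R (k + 1) + ri R (k + 1) < i
  · exfalso
    rw [fn_fa (n := i) (k := k + 1) (x := b R (k + 1) - i) (by omega) (by omega)] at hv
    have := lo (b R (k + 1) - i) (by omega)
    omega
  by_cases c1 : a R (k + 1) ≤ i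
  · left
    obtain ⟨x, rfl⟩ := Nat.exists_eq_add_of_le c1
    rw [fn_ri rfl (by omega)] at hv
    have l1 := lo x
    have l2 := @phi_small x
    obtain ⟨rfl, h⟩ | ⟨rfl, h⟩ | ⟨rfl, h⟩ : (x = 14 ∧ q (k + 1) = p (k + 1) + 1) ∨
      (x = 12 ∧ q (k + 1) = p (k + 1) + 1) ∨ (x = 10 ∧ p (k + 1) = q (k + 1) + 1) := by omega
    · exact ⟨rfl, h⟩
    · have := hm (b R (k + 1) - 20) (a R (k + 1) + 18) (by omega) (by omega) (by omega)
      rw [fn_fa (k := k + 1) (x := 20) (by omega) (by omega), fn_ri rfl (by omega)] at this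
      have v18 : phi 18 = 13 := rfl
      have v20 : phi 20 = 15 := rfl
      omega
    · have := hm (b R (k + 1) - 26) (a R (k + 1) + 22) (by omega) (by omega) (by omega)
      rw [fn_fa (k := k + 1) (x := 26) (by omega) (by omega), fn_ri rfl (by omega)] at this
      have v18 : phi 22 = 13 := rfl
      have v20 : phi 26 = 17 := rfl
      omega
  by_cases c2 : a R (k + 1) < i + 7
  · exfalso
    rw [fn_fa (n := i) (k := k) (x := b R k - i) (by omega) (by unfold fa; omega),
      phi_small (by omega)] at hv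
    omega
  right
  obtain ⟨g, hg, e, hp⟩ := valley hR (k := k + 1) (by omega) hm (by omega) (by omega)
  have hgk : g < k + 1 := lt_of_b (R := R) (by omega)
  have h1 : ht R g = ht R (k + 1) := by
    rcases lt_trichotomy (ht R g) (ht R (k + 1)) with c | c | c
    · exact (high_l hR hm e hg (by omega) (by omega) (by unfold ri; omega)).elim
    · exact c
    · exact (high_r hR hm e (by omega) (by omega) (by omega) (by unfold fa; omega)).elim
  refine ⟨g, by omega, e, hp, h1, fun c => deep hR hm e hg c (by omega), fun c c' => ?_⟩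
  obtain ⟨g, rfl⟩ : ∃ g', g = g' + 1 := ⟨g - 1, by omega⟩
  have := (shape0 hR (g + 1)).2
  have := b_eq R (g + 1)
  have := a_succ R g
  have := par g
  have := par (g + 1)
  rw [fn_fa (n := i) (k := g) (x := 5) (by omega) (by unfold fa; omega),
    phi_small (by omega)] at hv
  omega

end Pool.Agent.Lib.MP_9cc368_co.U
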