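import Pool.Agent.Lib.MP_9cc368_co.USnd1

/-! A word which realises the function of a schedule defines states which satisfy the rounds. -/

namespace Pool.Agent.Lib.MP_9cc368_co.U

variable {R : ℕ → Round} {α : Type} {u : ℕ → α}

theorem hts (R : ℕ → Round) (s : ℕ) :
    (ht R (8 * s) = s ∧ al R (8 * s) = 10 ∧ be R (8 * s) = 10) ∧
    (ht R (8 * s + 1) = 2 * s ∧ al R (8 * s + 1) = 10 ∧ be R (8 * s + 1) = 10) ∧
    (ht R (8 * s + 2) = s + 1 ∧ al R (8 * s + 2) = 0 ∧ be R (8 * s + 2) = 0) ∧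
    (ht R (8 * s + 6) = s + 1 ∧ al R (8 * s + 6) = 0 ∧ be R (8 * s + 6) = 0) ∧
    (ht R (8 * s + 7) = 2 * s + 1 ∧ al R (8 * s + 7) = 10 ∧ be R (8 * s + 7) = 10) :=
  ⟨at_st R s (r := 0) (by omega), at_st R s (by omega), at_st R s (by omega),
    at_st R s (by omega), at_st R s (by omega)⟩

/-- the data of hump `k` of stage `s` at place `r` -/
def KK (R : ℕ → Round) (k s : ℕ) : ℕ → Prop
  | 0 => p k = 4 * s ∧ q k = 4 * s + 1 ∧ ht R k = s ∧ al R k = 10 ∧ be R k = 10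
  | 1 => p k = 4 * s + 2 ∧ q k = 4 * s + 3 ∧ ht R k = 2 * s ∧ al R k = 10 ∧ be R k = 10
  | 2 => p k = 4 * s + 2 ∧ q k = 4 * s + 3 ∧ ht R k = s + 1 ∧ al R k = 0 ∧ be R k = 0
  | 3 => p k = 4 * s + 4 ∧ q k = 4 * s + 5 ∧ ht R k ≤ s ∧ (2 ≤ s → al R k = 11)
  | 4 => p k = 4 * s + 6 ∧ q k = 4 * s + 7 ∧ ht R k ≤ s ∧ (2 ≤ s → al R k = 11)
  | 5 => p k = 4 * s + 6 ∧ q k = 4 * s + 5 ∧ ht R k ≤ s
  | 6 => p k = 4 * s + 4 ∧ q k = 4 * s + 3 ∧ ht R k = s + 1 ∧ al R k = 0 ∧ be R k = 0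
  | _ => p k = 4 * s + 4 ∧ q k = 4 * s + 5 ∧ ht R k = 2 * s + 1 ∧ al R k = 10 ∧ be R k = 10

theorem kk (hR : Valid R) (k : ℕ) {r : ℕ} (h : k % 8 = r) : KK R k (k / 8) r := by
  obtain ⟨s, -, h1⟩ := info hR k
  unfold Pr at h1
  have : r < 8 := by omega
  interval_cases r <;> simp only [KK] <;> omega

theorem kk2 (hR : Valid R) (g : ℕ) : ∃ r < 8, g % 8 = r ∧ KK R g (g / 8) r ∧
    KK R (g + 1) ((g + 1) / 8) ((r + 1) % 8) :=
  ⟨g % 8, by omega, rfl, kk hR g rfl, kk hR (g + 1) (by omega)⟩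

theorem last (hu : fn R = PPL u) {n : ℕ} (h : 0 < n) :
    ∃ i < n, Pal u i n ∧ fn R n = fn R i + 1 ∧ Mir (fn R) i n := by
  obtain ⟨i, h1, h2, h3⟩ := ppl_ex u h
  exact ⟨i, h1, h2, hu ▸ h3, hu ▸ mir_of_pal h2⟩

variable (R u)

/-- the rising leg of `k` repeats the falling leg of `g` up to depth `X` -/
def Lk (g k X : ℕ) : Prop := ∀ d < X, u (a R k + d) = u (b R g - 1 - d)

/-- the falling leg of `k` repeats the rising leg of `g` -/
def Ow (g k : ℕ) : Prop := ∀ d, 14 ≤ d → a R g + d + 14 < b R k → u (b R k - 1 - d) = u (a R g + d)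

variable {R u}

theorem rise' (hR : Valid R) (hu : fn R = PPL u) {k m : ℕ} (hk : 32 ≤ k)
    (hx : 22 * (m + 1) ≤ ri R k) : ∃ g < k, Lk R u g k (22 * (m + 1)) ∧ p k = q g + 1 ∧
      m ≤ ht R g ∧ (g + 1 < k → ht R (g + 1) = ht R (k - 1)) := by
  obtain ⟨k, rfl⟩ : ∃ k', k = k' + 1 := ⟨k - 1, by omega⟩
  obtain ⟨i, h1, h2, h3, h4⟩ := last hu (n := a R (k + 1) + 22 * (m + 1)) (by omega)
  obtain ⟨g, a1, a2, a3, a4, a5⟩ := rise hR (by omega) rfl hx h1 h3 h4
  have := b_lt R (show g < k + 1 by omega)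
  exact ⟨g, by omega, fun d hd => h2 _ _ (by omega) (by omega) (by omega), a3, a4,
    fun c => a5 (by omega)⟩

theorem fall' (hR : Valid R) (hu : fn R = PPL u) {k : ℕ} (hk : 32 ≤ k)
    (hx : al R k = 0 → 2 ≤ ht R k) : (Ow R u k k ∧ q k = p k + 1) ∨
      ∃ g < k, (al R g + be R g = al R k + be R k → Ow R u g k) ∧
        (p k = q g + 1 ∨ q g = p k + 1) ∧ ht R g = ht R k ∧
        (g + 1 < k → ht R (g + 1) = ht R (k - 1)) ∧ (al R k = 10 → al R g ≠ 0) := by
  obtain ⟨k, rfl⟩ : ∃ k', k = k' + 1 := ⟨k - 1, by omega⟩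
  have e := b_eq R (k + 1)
  obtain ⟨i, h1, h2, h3, h4⟩ := last hu (n := b R (k + 1) - 14) (by omega)
  rcases fall hR (k := k) (by omega) (by omega) hx h1 h3 h4 with ⟨a1, a2⟩ | ⟨g, a1, a2, a3, a4, a5, a6⟩
  · exact .inl ⟨fun d c1 c2 => h2 _ _ (by omega) (by omega) (by omega), a2⟩
  · have := b_eq R g
    exact .inr ⟨g, by omega, fun c d c1 c2 => h2 _ _ (by omega) (by omega) (by omega), a3, a4,
      fun c => a5 (by omega), a6⟩

/-- all humps except the two mirrored ones are palindromes -/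
theorem ow_own (hR : Valid R) (hu : fn R = PPL u) {s r : ℕ} (hs : 4 ≤ s) (hr : r < 8) (h5 : r ≠ 5)
    (h6 : r ≠ 6) : Ow R u (8 * s + r) (8 * s + r) := by
  have k0 := kk hR (8 * s + r) (r := r) (by omega)
  have k1 := kk hR (8 * s + r - 1) (r := (r + 7) % 8) (by omega)
  have hp := probes R s
  have hv := (hR s).2 (by omega)
  rcases fall' hR hu (k := 8 * s + r) (by omega) (by interval_cases r <;> simp only [KK] at k0 <;> omega)
    with h | ⟨g, a1, -, a3, a4, a5, a6⟩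
  · exact h.1
  exfalso
  obtain ⟨t, h1, h2, k2, k3⟩ := kk2 hR g
  have e : g = 8 * s + 3 → ht R g = (R s).j1 := fun e => e ▸ hp.1.1
  have e' := hp.2.1.1
  clear hp
  interval_cases r <;> interval_cases t <;>
    simp only [KK, Nat.reduceAdd, Nat.reduceMod] at k0 k1 k2 k3 <;> omega

theorem ow_b (hR : Valid R) (hu : fn R = PPL u) {s : ℕ} (hs : 4 ≤ s) :
    Ow R u (8 * s + 2) (8 * s + 6) := by
  have h := hts R s
  have l0 := (kk hR (8 * s + 6) (r := 6) (by omega))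
  simp only [KK] at l0
  rcases fall' hR hu (k := 8 * s + 6) (by omega) (by omega) with h | ⟨g, a1, a2, a3, a4, -, -⟩
  · omega
  obtain ⟨t, h1, h2, k2, -⟩ := kk2 hR g
  obtain rfl : g = 8 * s + 2 := by interval_cases t <;> simp only [KK] at k2 <;> omega
  exact a2 (by omega)

/-- the partner of a rising leg -/
theorem lk_all (hR : Valid R) (hu : fn R = PPL u) {s : ℕ} (hs : 4 ≤ s) :
    Lk R u (8 * s + 6) (8 * s + 8) (22 * (s + 1)) ∧ Lk R u (8 * s + 7) (8 * s + 9) (22 * (2 * s + 2)) ∧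
    Lk R u (8 * s) (8 * s + 2) (22 * (s + 1)) ∧ Lk R u (8 * s + 1) (8 * s + 7) (22 * (2 * s + 1)) ∧
    (Lk R u (8 * s + 1) (8 * s + 3) (22 * ((R s).j1 + 1)) ∨
      Lk R u (8 * s + 2) (8 * s + 3) (22 * ((R s).j1 + 1))) ∧
    Lk R u (8 * s + 3) (8 * s + 4) (22 * ((R s).j2 + 1)) := by
  have key : ∀ k m, 32 ≤ k → 22 * (m + 1) ≤ ri R k → ∃ g, Lk R u g k (22 * (m + 1)) ∧
      ((k % 8 = 0 → m + 1 = k / 8 → g + 2 = k) ∧ (k % 8 = 1 → m + 1 = 2 * (k / 8) → g + 2 = k) ∧
      (k % 8 = 2 → m = k / 8 → g + 2 = k) ∧ (k % 8 = 7 → m = 2 * (k / 8) → g + 6 = k) ∧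
      (k % 8 = 3 → g + 2 = k ∨ g + 1 = k) ∧ (k % 8 = 4 → g + 1 = k)) := fun k m h1 h2 => by
    obtain ⟨g, a1, a2, a3, a4, a5⟩ := rise' hR hu h1 h2
    have k1 := kk hR (k - 1) (r := (k % 8 + 7) % 8) (by omega)
    obtain ⟨t, h1, h2, k2, k3⟩ := kk2 hR g
    refine ⟨g, a2, fun c1 c2 => ?_, fun c1 c2 => ?_, fun c1 c2 => ?_, fun c1 c2 => ?_,
      fun c1 => ?_, fun c1 => ?_⟩
    all_goals
      have k0 := kk hR k c1
      rw [c1] at k1
      interval_cases t <;> simp only [KK, Nat.reduceAdd, Nat.reduceMod] at k0 k1 k2 k3 <;> omega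
  have h := hts R s
  have h' := hts R (s + 1)
  have hp := probes R s
  have e1 : pa s = 11 := if_neg (by omega)
  rw [show 8 * (s + 1) = 8 * s + 8 by ring] at h'
  refine ⟨?_, ?_, ?_, ?_, ?_, ?_⟩
  · obtain ⟨g, a1, a2, -⟩ := key (8 * s + 8) s (by omega) (by unfold ri; omega)
    have := a2 (by omega) (by omega)
    exact (show g = 8 * s + 6 by omega) ▸ a1
  · obtain ⟨g, a1, -, a2, -⟩ := key (8 * s + 8 + 1) (2 * s + 1) (by omega) (by unfold ri; omega)
    have := a2 (by omega) (by omega)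
    exact (show g = 8 * s + 7 by omega) ▸ a1
  · obtain ⟨g, a1, -, -, a2, -⟩ := key (8 * s + 2) s (by omega) (by unfold ri; omega)
    have := a2 (by omega) (by omega)
    exact (show g = 8 * s by omega) ▸ a1
  · obtain ⟨g, a1, -, -, -, a2, -⟩ := key (8 * s + 7) (2 * s) (by omega) (by unfold ri; omega)
    have := a2 (by omega) (by omega)
    exact (show g = 8 * s + 1 by omega) ▸ a1
  · obtain ⟨g, a1, -, -, -, -, a2, -⟩ := key (8 * s + 3) (R s).j1 (by omega) (by unfold ri; omega)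
    obtain rfl | rfl : g = 8 * s + 1 ∨ g = 8 * s + 2 := by have := a2 (by omega); omega
    exacts [.inl a1, .inr a1]
  · obtain ⟨g, a1, -, -, -, -, -, a2⟩ := key (8 * s + 4) (R s).j2 (by omega) (by unfold ri; omega)
    have := a2 (by omega)
    exact (show g = 8 * s + 3 by omega) ▸ a1

/-- the hump which creates block `j` of side `σ` -/
def cr (σ : Bool) (j : ℕ) : ℕ := if σ then 8 * j else 8 * (j / 2) + if j % 2 = 0 then 1 else 7

theorem cr_spec (hR : Valid R) (hu : fn R = PPL u) (σ : Bool) {j : ℕ} (hj : 8 ≤ j) :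
    ht R (cr σ j) = j ∧ al R (cr σ j) = 10 ∧ be R (cr σ j) = 10 ∧ Ow R u (cr σ j) (cr σ j) := by
  cases σ
  · have h := hts R (j / 2)
    by_cases c : j % 2 = 0
    · rw [show cr false j = 8 * (j / 2) + 1 by simp [cr, c]]
      exact ⟨by omega, by omega, by omega, ow_own hR hu (by omega) (by omega) (by omega) (by omega)⟩
    · rw [show cr false j = 8 * (j / 2) + 7 by simp [cr, c]]
      exact ⟨by omega, by omega, by omega, ow_own hR hu (by omega) (by omega) (by omega) (by omega)⟩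
  · have h := hts R j
    exact ⟨h.1.1, h.1.2.1, h.1.2.2,
      ow_own (r := 0) hR hu (by omega) (by omega) (by omega) (by omega)⟩

theorem cr_step (hR : Valid R) (hu : fn R = PPL u) (σ : Bool) {j d : ℕ} (hj : 8 ≤ j) (h1 : 14 ≤ d)
    (h2 : d < 22 * (j + 1)) : u (a R (cr σ (j + 1)) + d) = u (a R (cr σ j) + d) := by
  obtain ⟨c1, c2, c3, c4⟩ := cr_spec hR hu σ hj
  have := b_eq R (cr σ j)
  rw [← c4 d h1 (by omega)]
  cases σ
  · have h := lk_all hR hu (s := j / 2) (by omega)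
    by_cases c : j % 2 = 0
    · rw [show cr false j = 8 * (j / 2) + 1 by simp [cr, c],
        show cr false (j + 1) = 8 * (j / 2) + 7 by simp [cr]; split_ifs <;> omega]
      exact h.2.2.2.1 d (by omega)
    · rw [show cr false j = 8 * (j / 2) + 7 by simp [cr, c],
        show cr false (j + 1) = 8 * (j / 2) + 9 by simp [cr]; split_ifs <;> omega]
      exact h.2.1 d (by omega)
  · have h := lk_all hR hu (s := j) (by omega)
    have e := hts R j
    have e1 := b_eq R (8 * j + 6)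
    have e2 := b_lt R (show 8 * j + 2 < 8 * j + 6 by omega)
    have e3 := b_eq R (8 * j + 2)
    exact (h.1 d h2).trans ((ow_b hR hu (by omega) d h1 (by omega)).trans (h.2.2.1 d h2))

theorem cr_chain (hR : Valid R) (hu : fn R = PPL u) (σ : Bool) {j m d : ℕ} (hj : 8 ≤ j)
    (hm : j ≤ m) (h1 : 14 ≤ d) (h2 : d < 22 * (j + 1)) :
    u (a R (cr σ m) + d) = u (a R (cr σ j) + d) := by
  induction m, hm using Nat.le_induction with
  | base => rfl
  | succ m hm ih => rw [cr_step hR hu σ (by omega) h1 (by omega), ih]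

/-- the two states exclude each other -/
theorem excl (hR : Valid R) (hu : fn R = PPL u) (σ : Bool) {j : ℕ} (hj : 8 ≤ j)
    (h1 : u (a R (cr σ j) + (22 * j + 19)) = u (a R (cr σ j) + (22 * j + 21)))
    (h0 : u (a R (cr σ j) + (22 * j + 18)) = u (a R (cr σ j) + (22 * j + 20))) : False := by
  obtain ⟨c1, c2, c3, c4⟩ := cr_spec hR hu σ hj
  generalize cr σ j = k at *
  have e := b_eq R k
  have h2 := c4 (22 * j + 20) (by omega) (by omega)
  rw [show b R k - 1 - (22 * j + 20) = a R k + (22 * j + 22) by omega] at h2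
  have hp : Pal u (a R k + (22 * j + 18)) (a R k + (22 * j + 22) + 1) :=
    Pal.grow (Pal.grow (i := a R k + (22 * j + 19)) (j := a R k + (22 * j + 21)) (pal_one u _) h1)
      (h0.trans h2.symm)
  have h3 := ppl_step (by omega) hp
  have s := (shape0 hR k).2
  rw [← hu, fn_fa (k := k) (x := 22 * j + 20) (by omega) (by unfold fa; omega),
    fn_ri rfl (by unfold ri; omega), phi_add, phi_add] at h3
  have v18 : phi 18 = 13 := rfl
  have v20 : phi 20 = 15 := rfl
  omega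

open scoped Classical in
theorem sound (hR : Valid R) (h : fn R ∈ Realisable) :
    ∃ M : Bool → ℕ → Bool, ∀ s, 8 ≤ (R s).j2 → Sat M (R s) := by
  obtain ⟨K, u, hu⟩ := h
  refine ⟨fun σ j => decide (u (a R (cr σ j) + (22 * j + 19)) = u (a R (cr σ j) + (22 * j + 21))),
    fun s hs => ?_⟩
  have hv := hR s
  have hs2 : 9 ≤ s := by omega
  obtain ⟨-, -, l1, -, l2, l3⟩ := lk_all hR hu (s := s) (by omega)
  obtain ⟨⟨a1, a2, a3⟩, ⟨b1, b2, b3⟩, -⟩ := probes R s
  have e1 : pa s = 11 := if_neg (by omega)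
  have e2 : ∀ c, pb s c = if c then 7 else 5 := fun c => if_neg (by omega)
  have o1 := ow_own (r := 1) hR hu (s := s) (by omega) (by omega) (by omega) (by omega)
  have o2 := ow_own (r := 2) hR hu (s := s) (by omega) (by omega) (by omega) (by omega)
  have o3 := ow_own (r := 3) hR hu (s := s) (by omega) (by omega) (by omega) (by omega)
  have o4 := ow_own (r := 4) hR hu (s := s) (by omega) (by omega) (by omega) (by omega)
  have e := hts R s
  have e3 := b_eq R (8 * s + 1)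
  have e4 := b_eq R (8 * s + 2)
  have e5 := b_eq R (8 * s + 3)
  obtain ⟨σ, hσ⟩ : ∃ σ, ∀ j d, 8 ≤ j → j ≤ (R s).j1 → 14 ≤ d → d < 22 * (j + 1) →
      u (a R (8 * s + 3) + d) = u (a R (cr σ j) + d) := by
    rcases l2 with l2 | l2
    · refine ⟨false, fun j d c1 c2 c3 c4 => (l2 d (by omega)).trans ((o1 d c3 (by omega)).trans ?_)⟩
      rw [← cr_chain hR hu false (m := 2 * s) c1 (by omega) c3 c4,
        show cr false (2 * s) = 8 * s + 1 by simp [cr]]
    · refine ⟨true, fun j d c1 c2 c3 c4 => (l2 d (by omega)).trans ((o2 d c3 (by omega)).trans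
        ((l1 d (by omega)).trans ?_))⟩
      obtain ⟨d1, d2, d3, d4⟩ := cr_spec hR hu true (j := s) (by omega)
      have := b_eq R (cr true s)
      exact (d4 d c3 (by omega)).trans (cr_chain hR hu true c1 (by omega) c3 c4)
  have fin : ∀ k j (c : Bool), 8 ≤ j → ht R k = j → al R k = 11 → be R k = (if c then 7 else 5) →
      Ow R u k k → (∀ d, 14 ≤ d → d < 22 * (j + 1) → u (a R k + d) = u (a R (cr σ j) + d)) →
      decide (u (a R (cr σ j) + (22 * j + 19)) = u (a R (cr σ j) + (22 * j + 21))) = c := by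
    intro k j c c1 c2 c3 c4 c5 c6
    have := b_eq R k
    cases c
    · refine decide_eq_false fun h => excl hR hu σ c1 h ?_
      rw [← c6 _ (by omega) (by omega), ← c6 _ (by omega) (by omega),
        ← c5 (22 * j + 18) (by omega) (by simp at c4; omega)]
      congr 1
      simp at c4
      omega
    · refine decide_eq_true ?_
      rw [← c6 _ (by omega) (by omega), ← c6 _ (by omega) (by omega),
        ← c5 (22 * j + 19) (by omega) (by simp at c4; omega)]
      congr 1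
      simp at c4
      omega
  refine ⟨σ, fin _ _ _ (by omega) a1 (a2.trans e1) (a3.trans (e2 _)) o3
    fun d => hσ _ d (by omega) le_rfl, fin _ _ _ hs b1 (b2.trans e1) (b3.trans (e2 _)) o4
    fun d c1 c2 => (l3 d c2).trans ((o3 d c1 (by omega)).trans (hσ _ d hs (by omega) c1 c2))⟩

end Pool.Agent.Lib.MP_9cc368_co.U
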