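import Pool.Agent.Lib.MP_9cc368_co.UGeo

/-! The word attached to a schedule and an assignment of states. -/

namespace Pool.Agent.Lib.MP_9cc368_co.U

/-- the active part of a block in state `c` -/
def Wd (c : Bool) (t : ℕ) : ℕ :=
  (if c then [0, 1, 0, 0, 1, 1, 0, 2, 0, 1, 0] else [0, 1, 0, 0, 1, 1, 0, 2, 1, 2, 0]).getD t 0

theorem Wd_le (c : Bool) (t : ℕ) : Wd c t ≤ 2 := by
  by_cases h : t < 11
  · revert c t; decide
  · cases c <;> simp [Wd, List.getD, not_lt.1 h]

/-- the letter at depth `d` of the template of side `σ` -/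
def tm (M : Bool → ℕ → Bool) (σ : Bool) (d : ℕ) : ℕ :=
  if d % 22 < 11 then 11 + d % 22 + (if σ then 20 else 0) else 3 + Wd (M σ (d / 22)) (d % 22 - 11)

theorem tm_sep (M : Bool → ℕ → Bool) (σ : Bool) {d : ℕ} (h : d % 22 < 11) :
    tm M σ d = 11 + d % 22 + (if σ then 20 else 0) := if_pos h

theorem tm_w (M : Bool → ℕ → Bool) (σ : Bool) (m : ℕ) {t : ℕ} (h : t < 11) :
    tm M σ (22 * m + 11 + t) = 3 + Wd (M σ m) t := by
  unfold tm
  rw [if_neg (by omega), show (22 * m + 11 + t) / 22 = m by omega,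
    show (22 * m + 11 + t) % 22 - 11 = t by omega]

theorem tm_bd (M : Bool → ℕ → Bool) (σ : Bool) (d : ℕ) :
    (d % 22 < 11 ∧ 11 ≤ tm M σ d ∧ tm M σ d ≤ 41) ∨ (11 ≤ d % 22 ∧ 3 ≤ tm M σ d ∧ tm M σ d ≤ 5) := by
  have := Wd_le (M σ (d / 22)) (d % 22 - 11)
  unfold tm
  split_ifs <;> omega

def Sd (s : ℕ) (τ : Bool) : ℕ → Bool
  | 0 => true | 1 => false | 2 => true | 3 => decide (s < 2) || τ | 4 => decide (2 ≤ s) && τ
  | 5 => decide (s < 2) || τ | 6 => true | _ => false

/-- the side read by hump `k` -/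
def side (sd : ℕ → Bool) (k : ℕ) : Bool := Sd (k / 8) (sd (k / 8)) (k % 8)

theorem side_st (sd : ℕ → Bool) (s : ℕ) {r : ℕ} (h : r < 8) :
    side sd (8 * s + r) = Sd s (sd s) r := by
  unfold side
  rw [show (8 * s + r) / 8 = s by omega, show (8 * s + r) % 8 = r by omega]

/-- the letter between hump `k` and hump `k + 1` -/
def jt (k : ℕ) : ℕ := if k % 8 = 3 ∨ k % 8 = 4 then 1 else 0

/-- the chosen sides carry the probed states -/
def Fit (R : ℕ → Round) (M : Bool → ℕ → Bool) (sd : ℕ → Bool) : Prop :=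
  ∀ s, 2 ≤ s → M (sd s) (R s).j1 = (R s).c1 ∧ M (sd s) (R s).j2 = (R s).c2

variable (R : ℕ → Round) (M : Bool → ℕ → Bool) (sd : ℕ → Bool)

/-- the letter at depth `d` of hump `k`, up to the centre -/
def lt (k d : ℕ) : ℕ := if al R k = 0 ∧ d = 22 * ht R k + 11 then 2 else tm M (side sd k) d

/-- the word -/
def wd (n : ℕ) : ℕ :=
  if n = b R (idx R n) then jt (idx R n)
  else lt R M sd (idx R n) (min (n - a R (idx R n)) (b R (idx R n) - 1 - n))

/-- the number of letters of hump `k` which follow the template -/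
def tr (k : ℕ) : ℕ := 22 * ht R k + if al R k = 0 then 11 else 22

theorem wd_j (k : ℕ) : wd R M sd (b R k) = jt k := by
  have : idx R (b R k) = k := idx_eq R (by rw [b_eq]; omega) le_rfl
  rw [wd, this, if_pos rfl]

theorem wd_lt (n : ℕ) : wd R M sd n < 42 := by
  unfold wd lt jt
  have := tm_bd M (side sd (idx R n)) (min (n - a R (idx R n)) (b R (idx R n) - 1 - n))
  split_ifs <;> omega

variable {R}

theorem wd_in {k n : ℕ} (h1 : a R k ≤ n) (h2 : n < b R k) :
    wd R M sd n = lt R M sd k (min (n - a R k) (b R k - 1 - n)) := by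
  have : idx R n = k := idx_eq R h1 h2.le
  rw [wd, this, if_neg h2.ne]

theorem wd_l {k n d : ℕ} (e : n = a R k + d) (h : a R k + 2 * d < b R k) :
    wd R M sd n = lt R M sd k d := by
  rw [wd_in M sd (k := k) (by omega) (by omega), show min (n - a R k) (b R k - 1 - n) = d by omega]

theorem wd_r {k n d : ℕ} (e : n + d + 1 = b R k) (h : a R k + 2 * d < b R k) :
    wd R M sd n = lt R M sd k d := by
  rw [wd_in M sd (k := k) (by omega) (by omega), show min (n - a R k) (b R k - 1 - n) = d by omega]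

/-- every hump is a palindrome -/
theorem own (k : ℕ) : Pal (wd R M sd) (a R k) (b R k) := fun s t hs ht e => by
  rw [wd_in M sd (k := k) hs (by omega), wd_in M sd (k := k) ht (by omega),
    show s - a R k = b R k - 1 - t by omega, show t - a R k = b R k - 1 - s by omega, min_comm]

variable {M sd}

/-- the six shapes of a top, with the state of the top block -/
theorem shape (hR : Valid R) (hF : Fit R M sd) (k : ℕ) :
    (al R k = 10 ∧ be R k = 10 ∧ q k = p k + 1) ∨
    (al R k = 0 ∧ be R k = 0 ∧ (q k = p k + 1 ∨ p k = q k + 1)) ∨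
    (al R k = 11 ∧ be R k = 7 ∧ q k = p k + 1 ∧ M (side sd k) (ht R k) = true) ∨
    (al R k = 11 ∧ be R k = 5 ∧ q k = p k + 1 ∧ M (side sd k) (ht R k) = false) ∨
    (al R k = 7 ∧ be R k = 11 ∧ p k = q k + 1 ∧ M (side sd k) (ht R k) = true) ∨
    (al R k = 5 ∧ be R k = 11 ∧ p k = q k + 1 ∧ M (side sd k) (ht R k) = false) := by
  by_cases h : 16 ≤ k ∧ (k % 8 = 3 ∨ k % 8 = 4 ∨ k % 8 = 5)
  · obtain ⟨s, r, rfl, hr⟩ : ∃ s r, k = 8 * s + r ∧ r < 8 := ⟨k / 8, k % 8, by omega, by omega⟩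
    have hs : 2 ≤ s := by omega
    have h1 := lev (8 * s + r)
    obtain ⟨f1, f2⟩ := hF s hs
    obtain ⟨⟨a1, a2, a3⟩, ⟨b1, b2, b3⟩, c1, c2, c3⟩ := probes R s
    have e1 : pa s = 11 := if_neg (by omega)
    have e2 : ∀ c, pb s c = if c then 7 else 5 := fun c => if_neg (by omega)
    have e3 : Sd s (sd s) 3 = sd s := by simp [Sd]; omega
    have e4 : Sd s (sd s) 4 = sd s := by simp [Sd, hs]
    have e5 : Sd s (sd s) 5 = sd s := by simp [Sd]; omega
    rw [side_st sd s hr]
    obtain rfl | rfl | rfl : r = 3 ∨ r = 4 ∨ r = 5 := by omega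
    · rw [a1, a2, a3, e1, e2, e3, f1]
      cases (R s).c1 <;> simp <;> omega
    · rw [b1, b2, b3, e1, e2, e4, f2]
      cases (R s).c2 <;> simp <;> omega
    · rw [c1, c2, c3, e1, e2, e5, f1]
      cases (R s).c1 <;> simp <;> omega
  · obtain ⟨s, -, h2⟩ := info hR k
    unfold Pr at h2
    rcases h2 with h2 | h2 | h2 | h2 | h2 | h2 | h2 | h2 <;>
      first | exact .inl (by omega) | exact .inr (.inl (by omega))

/-- below `tr` a hump follows its template -/
theorem wd_tm (hR : Valid R) (hF : Fit R M sd) {k n d : ℕ}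
    (e : n = a R k + d ∨ n + d + 1 = b R k) (h : d < tr R k) :
    wd R M sd n = tm M (side sd k) d := by
  have hb := b_eq R k
  have hs := shape hR hF k
  unfold tr at h
  by_cases c : a R k + 2 * d < b R k
  · have : lt R M sd k d = tm M (side sd k) d := if_neg (by split_ifs at h <;> omega)
    rcases e with e | e
    exacts [(wd_l M sd e c).trans this, (wd_r M sd e c).trans this]
  · have h0 : al R k ≠ 0 := by split_ifs at h <;> omega
    rw [if_neg h0] at h
    obtain ⟨d', hd⟩ : ∃ d', a R k + d + d' + 1 = b R k := ⟨b R k - 1 - a R k - d, by omega⟩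
    have h1 : wd R M sd n = tm M (side sd k) d' := by
      have : lt R M sd k d' = tm M (side sd k) d' := if_neg (by omega)
      rcases e with e | e
      exacts [(wd_r M sd (by omega) (by omega)).trans this,
        (wd_l M sd (by omega) (by omega)).trans this]
    obtain ⟨t, rfl⟩ : ∃ t, d = 22 * ht R k + 11 + t := ⟨d - (22 * ht R k + 11), by omega⟩
    obtain ⟨t', rfl⟩ : ∃ t, d' = 22 * ht R k + 11 + t := ⟨d' - (22 * ht R k + 11), by omega⟩
    rw [h1, tm_w M _ _ (by omega), tm_w M _ _ (by omega)]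
    rcases hs with g | g | g | g | g | g
    · omega
    · omega
    · obtain ⟨rfl, rfl⟩ : t = 10 ∧ t' = 8 := by omega
      rw [g.2.2.2]; rfl
    · obtain ⟨rfl, rfl⟩ | ⟨rfl, rfl⟩ : t = 10 ∧ t' = 6 ∨ t = 9 ∧ t' = 7 := by omega
      all_goals rw [g.2.2.2]; rfl
    · obtain ⟨rfl, rfl⟩ : t = 10 ∧ t' = 8 := by omega
      rw [g.2.2.2]; rfl
    · obtain ⟨rfl, rfl⟩ | ⟨rfl, rfl⟩ : t = 10 ∧ t' = 6 ∨ t = 9 ∧ t' = 7 := by omega
      all_goals rw [g.2.2.2]; rfl

/-- at depth `tr` a hump leaves every template -/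
theorem wd_brk (hR : Valid R) (hF : Fit R M sd) {k n : ℕ}
    (e : n = a R k + tr R k ∨ n + tr R k + 1 = b R k) (σ : Bool) :
    wd R M sd n ≠ tm M σ (tr R k) := by
  have hb := b_eq R k
  have hs := shape hR hF k
  have h1 := tm_bd M σ (tr R k)
  by_cases h0 : al R k = 0
  · have h2 : tr R k = 22 * ht R k + 11 := by rw [tr, if_pos h0]
    have : lt R M sd k (tr R k) = 2 := if_pos ⟨h0, h2⟩
    rw [wd_l M sd (k := k) (d := tr R k) (by omega) (by omega)]
    omega
  · have h2 : tr R k = 22 * ht R k + 22 := by rw [tr, if_neg h0]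
    obtain ⟨d', hd⟩ : ∃ d', a R k + tr R k + d' + 1 = b R k :=
      ⟨b R k - 1 - a R k - tr R k, by omega⟩
    have h3 := tm_bd M (side sd k) d'
    rw [wd_tm hR hF (k := k) (d := d') (by omega) (by omega)]
    omega

end Pool.Agent.Lib.MP_9cc368_co.U
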